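import Pool.Agent.H352R4.CA.Defs

/-!
# Module COE: coefficient at infinity
-/

set_option autoImplicit false

open MeasureTheory Complex Filter Topology Metric
open scoped ComplexConjugate
open Pool.Agent.H352R3.SA
open Pool.Agent.H761R2.SV (dbar)

namespace Pool.Agent.H352R4.CA

namespace CoeAux

theorem tinv : Tendsto (fun w : ℂ => w⁻¹) (𝓝[≠] 0) (cocompact ℂ) := by
  have := Filter.tendsto_inv₀_nhdsNE_zero (α := ℂ)
  rwa [Metric.cobounded_eq_cocompact] at this

theorem tinv' : Tendsto (fun w : ℂ => w⁻¹) (cocompact ℂ) (𝓝[≠] 0) := by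
  have := Filter.tendsto_inv₀_cobounded' (α := ℂ)
  rwa [Metric.cobounded_eq_cocompact] at this

/-- decay estimate, with a slightly larger radius -/
theorem key1 {f : ℂ → ℂ} {l : ℂ} {r ρ M : ℝ} (hr : 0 < r) (hρ : r < ρ)
    (hd : DifferentiableOn ℂ f (closedBall 0 r)ᶜ) (hM : ∀ z, ‖f z‖ ≤ M)
    (hl : Tendsto (fun z => z * f z) (cocompact ℂ) (𝓝 l)) :
    ‖l‖ ≤ ρ * M ∧ ∀ z, ρ ≤ ‖z‖ → ‖z‖ * ‖f z‖ ≤ ρ * M := by
  classical
  set h : ℂ → ℂ := fun w => if w = 0 then l else f w⁻¹ / w with hh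
  have h0 : h 0 = l := by simp [hh]
  have hne : ∀ w, w ≠ 0 → h w = f w⁻¹ / w := fun w hw => by simp [hh, hw]
  have hri : 0 < r⁻¹ := inv_pos.2 hr
  have hρ0 : 0 < ρ := hr.trans hρ
  -- differentiability
  have hd' : DifferentiableOn ℂ h (Metric.ball 0 r⁻¹) := by
    refine (Complex.differentiableOn_compl_singleton_and_continuousAt_iff
      (Metric.ball_mem_nhds (0:ℂ) hri)).1 ⟨?_, ?_⟩
    · have : DifferentiableOn ℂ (fun w => f w⁻¹ / w) (Metric.ball 0 r⁻¹ \ {0}) := by
        refine DifferentiableOn.div ?_ differentiableOn_id (fun w hw => ?_)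
        · refine hd.comp (t := (closedBall 0 r)ᶜ) (fun w hw => ?_) (fun w hw => ?_)
          · exact (differentiableAt_inv (by simpa using hw.2)).differentiableWithinAt
          · have hw0 : w ≠ 0 := by simpa using hw.2
            have hw1 : ‖w‖ < r⁻¹ := by simpa using hw.1
            show w⁻¹ ∉ closedBall (0:ℂ) r
            rw [mem_closedBall_zero_iff, norm_inv, not_le]
            exact (lt_inv_comm₀ (norm_pos_iff.2 hw0) hr).1 hw1
        · simpa using hw.2
      refine this.congr (fun w hw => hne w (by simpa using hw.2))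
    · rw [ContinuousAt, h0]
      have h1 : Tendsto h (𝓝[≠] 0) (𝓝 l) := by
        have h3 := hl.comp tinv
        refine h3.congr' ?_
        filter_upwards [self_mem_nhdsWithin] with w hw
        have hw0 : w ≠ 0 := hw
        rw [hne w hw0]
        simp only [Function.comp]
        field_simp
      rw [← h0]
      rw [← h0] at h1
      exact (continuousAt_iff_punctured_nhds).2 h1
  -- bound
  have hR : 0 < ρ⁻¹ := by positivity
  have hlt : ρ⁻¹ < r⁻¹ := inv_strictAnti₀ hr hρ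
  have hbd : ∀ w ∈ Metric.closedBall (0:ℂ) ρ⁻¹, ‖h w‖ ≤ ρ * M := by
    intro w hw
    refine Complex.norm_le_of_forall_mem_frontier_norm_le (U := Metric.ball (0:ℂ) ρ⁻¹)
      Metric.isBounded_ball ?_ ?_ ?_
    · refine DifferentiableOn.diffContOnCl ?_
      refine hd'.mono ?_
      exact Metric.closure_ball_subset_closedBall.trans (Metric.closedBall_subset_ball hlt)
    · intro z hz
      rw [frontier_ball (0:ℂ) hR.ne'] at hz
      have hz1 : ‖z‖ = ρ⁻¹ := by simpa using hz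
      have hz0 : z ≠ 0 := by
        intro h0
        rw [h0, norm_zero] at hz1
        exact hR.ne hz1
      rw [hne z hz0, norm_div, hz1, div_inv_eq_mul, mul_comm]
      exact mul_le_mul_of_nonneg_left (hM _) hρ0.le
    · rw [closure_ball (0:ℂ) hR.ne']
      exact hw
  refine ⟨?_, ?_⟩
  · have := hbd 0 (by simp; positivity)
    rwa [h0] at this
  · intro z hz
    have hzp : 0 < ‖z‖ := hρ0.trans_le hz
    have hz0 : z ≠ 0 := norm_pos_iff.1 hzp
    have hzi : z⁻¹ ∈ Metric.closedBall (0:ℂ) ρ⁻¹ := by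
      rw [mem_closedBall_zero_iff, norm_inv]
      exact inv_anti₀ hρ0 hz
    have hs := hbd _ hzi
    rw [hne _ (inv_ne_zero hz0), inv_inv, norm_div, norm_inv, div_inv_eq_mul, mul_comm] at hs
    exact hs

theorem key2 {f : ℂ → ℂ} {l : ℂ} {r M : ℝ} (hr : 0 < r)
    (hd : DifferentiableOn ℂ f (closedBall 0 r)ᶜ) (hM : ∀ z, ‖f z‖ ≤ M)
    (hl : Tendsto (fun z => z * f z) (cocompact ℂ) (𝓝 l)) :
    ‖l‖ ≤ r * M ∧ ∀ z, ‖z‖ * ‖f z‖ ≤ r * M := by
  have hM0 : 0 ≤ M := (norm_nonneg _).trans (hM 0)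
  -- limit `ρ → r` from above
  have hlim : Tendsto (fun ρ : ℝ => ρ * M) (𝓝[>] r) (𝓝 (r * M)) := by
    have : ContinuousAt (fun ρ : ℝ => ρ * M) r := by fun_prop
    exact this.tendsto.mono_left nhdsWithin_le_nhds
  refine ⟨?_, ?_⟩
  · refine ge_of_tendsto hlim ?_
    filter_upwards [self_mem_nhdsWithin] with ρ hρ
    exact (key1 hr hρ hd hM hl).1
  · intro z
    rcases le_or_gt ‖z‖ r with hz | hz
    · exact mul_le_mul hz (hM z) (norm_nonneg _) hr.le
    · refine ge_of_tendsto hlim ?_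
      filter_upwards [self_mem_nhdsWithin,
        mem_nhdsWithin_of_mem_nhds (Iio_mem_nhds hz)] with ρ hρ hρ2
      exact (key1 hr hρ hd hM hl).2 z (le_of_lt hρ2)

theorem ac_zero {S : Set ℂ} {h : ℂ → ℂ} {l : ℂ} (H : Ac S h l) :
    Tendsto h (cocompact ℂ) (𝓝 0) := by
  have h1 : Tendsto (fun w : ℂ => w⁻¹) (cocompact ℂ) (𝓝 0) :=
    tinv'.mono_right nhdsWithin_le_nhds
  have h2 := H.lim.mul h1
  rw [mul_zero] at h2
  refine h2.congr' ?_
  have h3 : ∀ᶠ z : ℂ in cocompact ℂ, z ≠ 0 := by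
    have := (isCompact_singleton (x := (0:ℂ))).compl_mem_cocompact
    filter_upwards [this] with z hz
    simpa using hz
  filter_upwards [h3] with z hz
  field_simp

theorem key3 {S : Set ℂ} {h : ℂ → ℂ} {l z₀ : ℂ} {r M : ℝ} (hr : 0 < r)
    (hS : S ⊆ closedBall z₀ r) (H : Ac S h l) (hM : ∀ z, ‖h z‖ ≤ M) :
    ‖l‖ ≤ r * M ∧ ∀ z, ‖z - z₀‖ * ‖h z‖ ≤ r * M := by
  have hd : DifferentiableOn ℂ (fun z => h (z + z₀)) (closedBall 0 r)ᶜ := by
    refine H.hol.comp (f := fun z => z + z₀) (by fun_prop) ?_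
    intro z hz hzS
    have h1 := hS hzS
    rw [mem_closedBall, dist_eq_norm, add_sub_cancel_right] at h1
    exact hz (by simpa using h1)
  have htr : Tendsto (fun z : ℂ => z + z₀) (cocompact ℂ) (cocompact ℂ) :=
    (Homeomorph.addRight z₀).isClosedEmbedding.tendsto_cocompact
  have hl : Tendsto (fun z => z * h (z + z₀)) (cocompact ℂ) (𝓝 l) := by
    have h1 := H.lim.comp htr
    have h2 := ((ac_zero H).comp htr).const_mul z₀
    have h3 := h1.sub h2
    rw [mul_zero, sub_zero] at h3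
    refine h3.congr (fun z => ?_)
    simp only [Function.comp]
    ring
  have hk := key2 hr hd (fun z => hM _) hl
  refine ⟨hk.1, fun z => ?_⟩
  have := hk.2 (z - z₀)
  rwa [sub_add_cancel] at this

end CoeAux

open CoeAux

theorem Ac.of_tendsto {S : Set ℂ} {h : ℂ → ℂ} (hS : IsCompact S) (hc : Continuous h)
    (hd : DifferentiableOn ℂ h Sᶜ) (h0 : Tendsto h (cocompact ℂ) (𝓝 0)) : ∃ l, Ac S h l := by
  classical
  obtain ⟨R, hR⟩ := hS.isBounded.subset_closedBall (0:ℂ)
  set r : ℝ := max R 1 with hr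
  have hr0 : 0 < r := lt_of_lt_of_le one_pos (le_max_right _ _)
  have hSr : S ⊆ closedBall 0 r := hR.trans (closedBall_subset_closedBall (le_max_left _ _))
  have hri : 0 < r⁻¹ := inv_pos.2 hr0
  set g : ℂ → ℂ := fun w => if w = 0 then 0 else h w⁻¹ with hg
  have g0 : g 0 = 0 := by simp [hg]
  have gne : ∀ w, w ≠ 0 → g w = h w⁻¹ := fun w hw => by simp [hg, hw]
  have hdg : DifferentiableOn ℂ g (Metric.ball 0 r⁻¹) := by
    refine (Complex.differentiableOn_compl_singleton_and_continuousAt_iff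
      (Metric.ball_mem_nhds (0:ℂ) hri)).1 ⟨?_, ?_⟩
    · have : DifferentiableOn ℂ (fun w => h w⁻¹) (Metric.ball 0 r⁻¹ \ {0}) := by
        refine hd.comp (t := Sᶜ) (fun w hw => ?_) (fun w hw => ?_)
        · exact (differentiableAt_inv (by simpa using hw.2)).differentiableWithinAt
        · have hw0 : w ≠ 0 := by simpa using hw.2
          have hw1 : ‖w‖ < r⁻¹ := by simpa using hw.1
          intro hwS
          have h1 := hSr hwS
          rw [mem_closedBall_zero_iff, norm_inv] at h1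
          exact absurd ((lt_inv_comm₀ (norm_pos_iff.2 hw0) hr0).1 hw1) (not_lt.2 h1)
      refine this.congr (fun w hw => gne w (by simpa using hw.2))
    · rw [ContinuousAt, g0]
      have h1 : Tendsto g (𝓝[≠] 0) (𝓝 0) := by
        refine (h0.comp tinv).congr' ?_
        filter_upwards [self_mem_nhdsWithin] with w hw
        rw [gne w hw]
        rfl
      have h2 : ContinuousAt g 0 := by
        refine continuousAt_iff_punctured_nhds.2 ?_
        rw [g0]
        exact h1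
      have h3 := h2.tendsto
      rwa [g0] at h3
  have hda : HasDerivAt g (deriv g 0) 0 :=
    ((hdg 0 (mem_ball_self hri)).differentiableAt (ball_mem_nhds _ hri)).hasDerivAt
  refine ⟨deriv g 0, hc, hd, ?_⟩
  have h1 := (hasDerivAt_iff_tendsto_slope.1 hda).comp tinv'
  refine h1.congr' ?_
  have h3 : ∀ᶠ z : ℂ in cocompact ℂ, z ≠ 0 := by
    have := (isCompact_singleton (x := (0:ℂ))).compl_mem_cocompact
    filter_upwards [this] with z hz
    simpa using hz
  filter_upwards [h3] with z hz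
  simp only [Function.comp]
  rw [slope_def_field, g0, gne _ (inv_ne_zero hz), inv_inv, sub_zero, sub_zero, div_inv_eq_mul,
    mul_comm]

theorem Ac.coef_le {S : Set ℂ} {h : ℂ → ℂ} {l z₀ : ℂ} {r M : ℝ} (hr : 0 < r)
    (hS : S ⊆ closedBall z₀ r) (H : Ac S h l) (hM : ∀ z, ‖h z‖ ≤ M) : ‖l‖ ≤ r * M :=
  (key3 hr hS H hM).1

theorem Ac.decay {S : Set ℂ} {h : ℂ → ℂ} {l z₀ : ℂ} {r M : ℝ} (hr : 0 < r)
    (hS : S ⊆ closedBall z₀ r) (H : Ac S h l) (hM : ∀ z, ‖h z‖ ≤ M) (z : ℂ) :
    ‖z - z₀‖ * ‖h z‖ ≤ r * M :=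
  (key3 hr hS H hM).2 z

end Pool.Agent.H352R4.CA
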