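import Pool.Agent.H352R4.CA.Defs

/-!
# Maximum principles
-/

set_option autoImplicit false

open MeasureTheory Complex Filter Topology Metric
open scoped ComplexConjugate
open Pool.Agent.H352R3.SA
open Pool.Agent.H761R2.SV (dbar)

namespace Pool.Agent.H352R4.CA

namespace MaxAux

theorem inv_tendsto : Tendsto (fun z : ℂ => z⁻¹) (cocompact ℂ) (𝓝 0) := by
  rw [← Metric.cobounded_eq_cocompact]
  exact Filter.tendsto_inv₀_cobounded

theorem zero_of {h : ℂ → ℂ} {l : ℂ} (H : Tendsto (fun z => z * h z) (cocompact ℂ) (𝓝 l)) :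
    Tendsto h (cocompact ℂ) (𝓝 0) := by
  have h1 := inv_tendsto.mul H
  rw [zero_mul] at h1
  refine h1.congr' ?_
  have h2 : ∀ᶠ z : ℂ in cocompact ℂ, z ≠ 0 := by
    have : ({0} : Set ℂ)ᶜ ∈ cocompact ℂ := isCompact_singleton.compl_mem_cocompact
    filter_upwards [this] with z hz
    simpa using hz
  filter_upwards [h2] with z hz
  rw [← mul_assoc, inv_mul_cancel₀ hz, one_mul]

theorem exists_radius {P : ℂ → Prop} (h : ∀ᶠ z in cocompact ℂ, P z) :
    ∃ R : ℝ, 0 < R ∧ ∀ z, R < ‖z‖ → P z := by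
  rw [← Metric.cobounded_eq_cocompact] at h
  rw [(Metric.hasBasis_cobounded_compl_closedBall (0 : ℂ)).eventually_iff] at h
  obtain ⟨R, -, hR⟩ := h
  refine ⟨max R 1, lt_of_lt_of_le one_pos (le_max_right _ _), ?_⟩
  intro z hz
  apply hR
  simp only [Set.mem_compl_iff, Metric.mem_closedBall, dist_zero_right, not_le]
  exact lt_of_le_of_lt (le_max_left _ _) hz

end MaxAux

theorem Ac.zero {S : Set ℂ} {h : ℂ → ℂ} {l : ℂ} (H : Ac S h l) :
    Tendsto h (cocompact ℂ) (𝓝 0) := MaxAux.zero_of H.lim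

/-- maximum principle -/
theorem Ac.norm_le {S : Set ℂ} {h : ℂ → ℂ} {l : ℂ} {M : ℝ} (hS : IsCompact S) (H : Ac S h l)
    (hM : 0 ≤ M) (hb : ∀ w ∈ S, ‖h w‖ ≤ M) (z : ℂ) : ‖h z‖ ≤ M := by
  by_cases hz : z ∈ S
  · exact hb z hz
  apply le_of_forall_pos_le_add
  intro ε hε
  have h1 : ∀ᶠ w in cocompact ℂ, ‖h w‖ < ε := by
    have := H.zero.eventually (Metric.ball_mem_nhds (0:ℂ) hε)
    filter_upwards [this] with w hw
    simpa using hw
  obtain ⟨R, hR0, hR⟩ := MaxAux.exists_radius h1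
  set R' : ℝ := max R ‖z‖ + 1 with hR'
  have hRR' : R < R' := lt_of_le_of_lt (le_max_left _ _) (lt_add_one _)
  have hzR' : ‖z‖ < R' := lt_of_le_of_lt (le_max_right _ _) (lt_add_one _)
  set U : Set ℂ := ball 0 R' \ S with hU
  have hUo : IsOpen U := isOpen_ball.sdiff hS.isClosed
  have hUb : Bornology.IsBounded U := isBounded_ball.subset Set.diff_subset
  have hd : DiffContOnCl ℂ h U :=
    ⟨H.hol.mono (fun w hw => hw.2), H.cont.continuousOn⟩
  have hzU : z ∈ closure U := subset_closure ⟨by simpa using hzR', hz⟩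
  have hfr : ∀ w ∈ frontier U, ‖h w‖ ≤ M + ε := by
    intro w hw
    rw [hUo.frontier_eq] at hw
    by_cases hwS : w ∈ S
    · linarith [hb w hwS]
    · have h2 : w ∉ ball (0:ℂ) R' := fun h => hw.2 ⟨h, hwS⟩
      simp only [mem_ball, dist_zero_right, not_lt] at h2
      linarith [hR w (by linarith)]
  exact Complex.norm_le_of_forall_mem_frontier_norm_le hUb hd hfr hzU

/-- maximum principle for the modulus of continuity -/
theorem Ac.osc_le {S : Set ℂ} {h : ℂ → ℂ} {l : ℂ} {s c : ℝ} (hS : IsCompact S) (H : Ac S h l)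
    (hc : 0 ≤ c) (hb : ∀ w ∈ S, ∀ u, ‖u‖ = s → ‖h (w + u) - h w‖ ≤ c) (z u : ℂ) (hu : ‖u‖ = s) :
    ‖h (z + u) - h z‖ ≤ c := by
  set S' : Set ℂ := S ∪ (fun w => w - u) '' S with hS'
  have hS'c : IsCompact S' := hS.union (hS.image (continuous_id.sub continuous_const))
  have htr : Tendsto (fun z : ℂ => z + u) (cocompact ℂ) (cocompact ℂ) :=
    (Homeomorph.addRight u).isClosedEmbedding.tendsto_cocompact
  have hAc : Ac S' (fun z => h (z + u) - h z) 0 := by
    refine ⟨(H.cont.comp (continuous_id.add continuous_const)).sub H.cont, ?_, ?_⟩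
    · apply DifferentiableOn.sub
      · apply H.hol.comp (differentiableOn_id.add_const u)
        intro w hw hw2
        apply hw
        exact Or.inr ⟨w + u, hw2, by simp⟩
      · exact H.hol.mono (fun w hw hw2 => hw (Or.inl hw2))
    · have h1 : Tendsto (fun z => (z + u) * h (z + u)) (cocompact ℂ) (𝓝 l) := H.lim.comp htr
      have h2 : Tendsto (fun z => u * h (z + u)) (cocompact ℂ) (𝓝 (u * 0)) :=
        (H.zero.comp htr).const_mul u
      have h3 := (h1.sub h2).sub H.lim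
      rw [mul_zero, sub_zero, sub_self] at h3
      refine h3.congr (fun z => ?_)
      ring
  apply Ac.norm_le hS'c hAc hc _ z
  rintro w (hw | ⟨w', hw', rfl⟩)
  · exact hb w hw u hu
  · have h4 := hb w' hw' (-u) (by rw [norm_neg, hu])
    simp only [sub_add_cancel]
    rw [norm_sub_rev, sub_eq_add_neg]
    rw [sub_eq_add_neg] at h4
    exact h4

end Pool.Agent.H352R4.CA
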