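import Pool.Agent.H352R4.CA.Defs
import Pool.Agent.H352R4.CA.Max
import Pool.Agent.H352R4.CA.Coe

/-!
# Algebra and basic properties of the capacities (module ALB, helper97)
-/

set_option autoImplicit false

open MeasureTheory Complex Filter Topology Metric
open scoped ComplexConjugate
open Pool.Agent.H352R3.SA
open Pool.Agent.H761R2.SV (dbar)

namespace Pool.Agent.H352R4.CA

theorem Ac.mono {S S' : Set ℂ} {h : ℂ → ℂ} {l : ℂ} (hSS : S ⊆ S') (H : Ac S h l) :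
    Ac S' h l :=
  ⟨H.cont, H.hol.mono (Set.compl_subset_compl.2 hSS), H.lim⟩

theorem Ac.sum {ι : Type*} {J : Finset ι} {S : ι → Set ℂ} {h : ι → ℂ → ℂ} {l κ : ι → ℂ}
    (H : ∀ j ∈ J, Ac (S j) (h j) (l j)) :
    Ac (⋃ j ∈ J, S j) (fun z => ∑ j ∈ J, κ j * h j z) (∑ j ∈ J, κ j * l j) where
  cont := continuous_finsetSum _ fun j hj => continuous_const.mul (H j hj).cont
  hol := by
    refine DifferentiableOn.fun_sum fun j hj => ?_
    refine ((H j hj).hol.mono (Set.compl_subset_compl.2 ?_)).const_mul (κ j)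
    exact Set.subset_biUnion_of_mem (u := S) hj
  lim := by
    have h1 : (fun z => z * ∑ j ∈ J, κ j * h j z) = fun z => ∑ j ∈ J, κ j * (z * h j z) := by
      funext z
      rw [Finset.mul_sum]
      exact Finset.sum_congr rfl fun j _ => by ring
    rw [h1]
    exact tendsto_finsetSum _ fun j hj => ((H j hj).lim).const_mul (κ j)

theorem Ac.cmul {S : Set ℂ} {h : ℂ → ℂ} {l : ℂ} (c : ℂ) (H : Ac S h l) :
    Ac S (fun z => c * h z) (c * l) where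
  cont := continuous_const.mul H.cont
  hol := H.hol.const_mul c
  lim := by
    have h1 : (fun z => z * (c * h z)) = fun z => c * (z * h z) := by
      funext z; ring
    rw [h1]
    exact H.lim.const_mul c

theorem Kc.cmul {M : ℝ} {Ω : ℝ → ℝ} {S : Set ℂ} {h : ℂ → ℂ} {l : ℂ} (c : ℂ)
    (H : Kc M Ω S h l) : Kc (‖c‖ * M) Ω S (fun z => c * h z) (c * l) where
  ac := H.ac.cmul c
  bd := fun z => by
    rw [norm_mul]
    exact mul_le_mul_of_nonneg_left (H.bd z) (norm_nonneg _)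
  osc := fun z u => by
    rw [← mul_sub, norm_mul, mul_assoc]
    exact mul_le_mul_of_nonneg_left (H.osc z u) (norm_nonneg _)

theorem Kc.mono {M : ℝ} {Ω Ω' : ℝ → ℝ} {S S' : Set ℂ} {h : ℂ → ℂ} {l : ℂ} (hM : 0 ≤ M)
    (hΩ : ∀ s, 0 ≤ s → Ω s ≤ Ω' s) (hSS : S ⊆ S') (H : Kc M Ω S h l) : Kc M Ω' S' h l where
  ac := H.ac.mono hSS
  bd := H.bd
  osc := fun z u => (H.osc z u).trans (mul_le_mul_of_nonneg_left (hΩ _ (norm_nonneg _)) hM)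

namespace Alb

theorem ball_of_compact {S : Set ℂ} (hS : IsCompact S) :
    ∃ r : ℝ, 0 < r ∧ S ⊆ closedBall (0 : ℂ) r := by
  obtain ⟨R, hR⟩ := hS.isBounded.subset_closedBall (0 : ℂ)
  exact ⟨max R 1, by positivity, hR.trans (closedBall_subset_closedBall (le_max_left _ _))⟩

end Alb

theorem al_bdd {Ω : ℝ → ℝ} {S : Set ℂ} (hS : IsCompact S) :
    BddAbove {c | ∃ h l, Kc 1 Ω S h l ∧ c = ‖l‖} := by
  obtain ⟨r, hr, hSr⟩ := Alb.ball_of_compact hS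
  refine ⟨r * 1, ?_⟩
  rintro c ⟨h, l, H, rfl⟩
  exact Ac.coef_le hr hSr H.ac H.bd

theorem al_nonneg (Ω : ℝ → ℝ) (S : Set ℂ) : 0 ≤ al Ω S := by
  apply Real.sSup_nonneg
  rintro c ⟨h, l, H, rfl⟩
  exact norm_nonneg _

theorem Kc.le {M : ℝ} {Ω : ℝ → ℝ} {S : Set ℂ} {h : ℂ → ℂ} {l : ℂ} (hS : IsCompact S)
    (hM : 0 < M) (H : Kc M Ω S h l) : ‖l‖ ≤ M * al Ω S := by
  have h1 := H.cmul ((M⁻¹ : ℝ) : ℂ)
  have h2 : ‖((M⁻¹ : ℝ) : ℂ)‖ * M = 1 := by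
    rw [Complex.norm_real, Real.norm_of_nonneg (inv_nonneg.2 hM.le), inv_mul_cancel₀ hM.ne']
  rw [h2] at h1
  have h3 : ‖((M⁻¹ : ℝ) : ℂ) * l‖ ≤ al Ω S :=
    le_csSup (al_bdd hS) ⟨_, _, h1, rfl⟩
  rw [norm_mul, Complex.norm_real, Real.norm_of_nonneg (inv_nonneg.2 hM.le)] at h3
  have h4 : M * (M⁻¹ * ‖l‖) ≤ M * al Ω S := mul_le_mul_of_nonneg_left h3 hM.le
  rwa [← mul_assoc, mul_inv_cancel₀ hM.ne', one_mul] at h4

theorem al_mono {Ω Ω' : ℝ → ℝ} {S S' : Set ℂ} (hS' : IsCompact S')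
    (hΩ : ∀ s, 0 ≤ s → Ω s ≤ Ω' s) (hSS : S ⊆ S') : al Ω S ≤ al Ω' S' := by
  refine Real.sSup_le ?_ (al_nonneg _ _)
  rintro c ⟨h, l, H, rfl⟩
  exact le_csSup (al_bdd hS') ⟨h, l, H.mono zero_le_one hΩ hSS, rfl⟩

theorem al_le {Ω : ℝ → ℝ} {S : Set ℂ} {z₀ : ℂ} {r : ℝ} (hr : 0 < r) (hS : S ⊆ closedBall z₀ r) :
    al Ω S ≤ r := by
  refine Real.sSup_le ?_ hr.le
  rintro c ⟨h, l, H, rfl⟩
  have := Ac.coef_le hr hS H.ac H.bd
  rwa [mul_one] at this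

theorem alpha_bdd {S : Set ℂ} (hS : IsCompact S) :
    BddAbove {c | ∃ h l, Ac S h l ∧ (∀ z, ‖h z‖ ≤ 1) ∧ c = ‖l‖} := by
  obtain ⟨r, hr, hSr⟩ := Alb.ball_of_compact hS
  refine ⟨r * 1, ?_⟩
  rintro c ⟨h, l, H, hb, rfl⟩
  exact Ac.coef_le hr hSr H hb

theorem alpha_nonneg (S : Set ℂ) : 0 ≤ alpha S := by
  apply Real.sSup_nonneg
  rintro c ⟨h, l, H, _, rfl⟩
  exact norm_nonneg _

theorem le_alpha {S : Set ℂ} {h : ℂ → ℂ} {l : ℂ} (hS : IsCompact S) (H : Ac S h l)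
    (hb : ∀ z, ‖h z‖ ≤ 1) : ‖l‖ ≤ alpha S :=
  le_csSup (alpha_bdd hS) ⟨h, l, H, hb, rfl⟩

theorem al_le_alpha {Ω : ℝ → ℝ} {S : Set ℂ} (hS : IsCompact S) : al Ω S ≤ alpha S := by
  refine Real.sSup_le ?_ (alpha_nonneg _)
  rintro c ⟨h, l, H, rfl⟩
  exact le_alpha hS H.ac H.bd

theorem alpha_mono {S S' : Set ℂ} (hS' : IsCompact S') (hSS : S ⊆ S') :
    alpha S ≤ alpha S' := by
  refine Real.sSup_le ?_ (alpha_nonneg _)
  rintro c ⟨h, l, H, hb, rfl⟩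
  exact le_alpha hS' (H.mono hSS) hb

end Pool.Agent.H352R4.CA
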