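import Pool.Agent.H352R4.CA.Defs
import Pool.Agent.H352R3.SA.Mon

/-!
# Module ALI: outer regularity with modulus (helper215)
-/

set_option autoImplicit false

open MeasureTheory Complex Filter Topology Metric
open scoped ComplexConjugate
open Pool.Agent.H352R3.SA
open Pool.Agent.H761R2.SV (dbar)

namespace Pool.Agent.H352R4.CA

namespace Ali

/-- the set defining `al` is bounded (private copy) -/
theorem bdd {Ω : ℝ → ℝ} {S : Set ℂ} (hS : IsCompact S) :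
    BddAbove {c | ∃ h l, Kc 1 Ω S h l ∧ c = ‖l‖} := by
  obtain ⟨r, hr⟩ := hS.isBounded.subset_closedBall (0:ℂ)
  refine ⟨2 * (max r 1), ?_⟩
  rintro c ⟨f, l, hK, rfl⟩
  have hsub : {z : ℂ | max r 1 < ‖z‖} ⊆ Sᶜ := by
    intro z hz hzE
    have := hr hzE
    rw [mem_closedBall_zero_iff] at this
    have hz' : max r 1 < ‖z‖ := hz
    have := le_max_left r 1
    linarith
  exact (MonAux.inf_est (lt_of_lt_of_le one_pos (le_max_right r 1)) (hK.ac.hol.mono hsub)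
    (fun z _ => hK.bd z) hK.ac.lim).1

end Ali

set_option linter.unusedVariables false in
open Ali in
theorem al_limit {A : Set ℂ} (hA : IsCompact A) {Ωn : ℕ → ℝ → ℝ} {Θ : ℝ → ℝ}
    (hm : ∀ n s s', 0 ≤ s → s ≤ s' → Ωn n s ≤ Ωn n s') (hΘ0 : 0 ≤ Θ 0)
    (hΘm : ∀ s s', 0 ≤ s → s ≤ s' → Θ s ≤ Θ s') (hΘ : Tendsto Θ (𝓝[>] 0) (𝓝 0))
    (hle : ∀ s, 0 < s → ∀ᶠ n in atTop, Ωn n s ≤ Θ s) {ε : ℕ → ℝ} (hε : ∀ n, 0 < ε n)
    (hε0 : Tendsto ε atTop (𝓝 0)) {η : ℝ} (hη : 0 < η) :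
    ∀ᶠ n in atTop, al (Ωn n) (cthickening (ε n) A) ≤ al Θ A + η := by
  classical
  by_contra hcon
  rw [Filter.not_eventually] at hcon
  set Bad : Set ℕ := {n | ¬ al (Ωn n) (cthickening (ε n) A) ≤ al Θ A + η} with hBad
  have hne : (atTop ⊓ 𝓟 Bad).NeBot := Filter.frequently_mem_iff_neBot.1 hcon
  -- al Θ A is nonnegative
  have hal0 : 0 ≤ al Θ A := by
    apply Real.sSup_nonneg
    rintro c ⟨h, l, -, rfl⟩
    exact norm_nonneg _
  -- ultrafilter
  set 𝒰 : Ultrafilter ℕ := Ultrafilter.of (atTop ⊓ 𝓟 Bad) with h𝒰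
  have hU : (𝒰 : Filter ℕ) ≤ atTop ⊓ 𝓟 Bad := Ultrafilter.of_le _
  have hUt : (𝒰 : Filter ℕ) ≤ atTop := hU.trans inf_le_left
  have hUB : ∀ᶠ n in (𝒰 : Filter ℕ), n ∈ Bad := by
    have : (𝒰 : Filter ℕ) ≤ 𝓟 Bad := hU.trans inf_le_right
    exact le_principal_iff.1 this
  have hex : ∀ n, ∃ (f : ℂ → ℂ) (l : ℂ), n ∈ Bad →
      (Kc 1 (Ωn n) (cthickening (ε n) A) f l ∧ al Θ A + η < ‖l‖) := by
    intro n
    by_cases hn : n ∈ Bad
    · have h1 : al Θ A + η < al (Ωn n) (cthickening (ε n) A) := not_le.1 hn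
      have hS : {c | ∃ h l, Kc 1 (Ωn n) (cthickening (ε n) A) h l ∧ c = ‖l‖}.Nonempty := by
        by_contra he
        rw [Set.not_nonempty_iff_eq_empty] at he
        unfold al at h1
        rw [he, Real.sSup_empty] at h1
        unfold al at hal0
        linarith
      obtain ⟨c, ⟨f, l, hK, rfl⟩, hlt⟩ := exists_lt_of_lt_csSup hS h1
      exact ⟨f, l, fun _ => ⟨hK, hlt⟩⟩
    · exact ⟨fun _ => 0, 0, fun h => absurd h hn⟩
  choose f l hfl using hex
  -- uniform ball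
  have hbd1 : Bornology.IsBounded (cthickening 1 A) := hA.isBounded.cthickening
  obtain ⟨r, hr⟩ := hbd1.subset_closedBall (0:ℂ)
  set ρ : ℝ := max r 1 with hρdef
  have hρ : 0 < ρ := lt_of_lt_of_le one_pos (le_max_right r 1)
  have hsub : ∀ n, ε n ≤ 1 → {z : ℂ | ρ < ‖z‖} ⊆ (cthickening (ε n) A)ᶜ := by
    intro n hn z hz hzE
    have h1 := hr (Metric.cthickening_mono hn A hzE)
    rw [mem_closedBall_zero_iff] at h1
    have hz' : max r 1 < ‖z‖ := hz
    have := le_max_left r 1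
    linarith
  have hsmall : ∀ q : ℝ, 0 < q → ∀ᶠ n in (𝒰 : Filter ℕ), ε n ≤ q := by
    intro q hq
    have h1 : ∀ᶠ n in atTop, ε n < q := hε0.eventually (gt_mem_nhds hq)
    have h2 : ∀ᶠ n in (𝒰 : Filter ℕ), ε n < q := hUt h1
    exact h2.mono fun n hn => le_of_lt hn
  have hest : ∀ᶠ n in (𝒰 : Filter ℕ), ‖l n‖ ≤ 2 * ρ ∧
      ∀ z, 2 * ρ < ‖z‖ → ‖z * f n z - l n‖ ≤ 10 * ρ ^ 2 / ‖z‖ := by
    filter_upwards [hUB, hsmall 1 one_pos] with n h1 h2
    exact MonAux.inf_est hρ ((hfl n h1).1.ac.hol.mono (hsub n h2))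
      (fun z _ => (hfl n h1).1.bd z) (hfl n h1).1.ac.lim
  -- limit of l
  obtain ⟨l0, hl0⟩ : ∃ l0 : ℂ, Tendsto l 𝒰 (𝓝 l0) := by
    have hcomp := isCompact_closedBall (0 : ℂ) (2 * ρ)
    have hle' : ((𝒰.map l : Ultrafilter ℂ) : Filter ℂ) ≤ 𝓟 (closedBall 0 (2 * ρ)) := by
      rw [le_principal_iff, Ultrafilter.coe_map, Filter.mem_map]
      filter_upwards [hest] with n hn
      show l n ∈ closedBall 0 (2 * ρ)
      rw [mem_closedBall_zero_iff]
      exact hn.1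
    obtain ⟨v, -, hv⟩ := hcomp.ultrafilter_le_nhds _ hle'
    exact ⟨v, hv⟩
  -- pointwise limits
  have hlimex : ∀ z, ∃ v : ℂ, Tendsto (fun n => f n z) 𝒰 (𝓝 v) := by
    intro z
    have hcomp := isCompact_closedBall (0 : ℂ) 1
    have hle' : ((𝒰.map (fun n => f n z) : Ultrafilter ℂ) : Filter ℂ) ≤ 𝓟 (closedBall 0 1) := by
      rw [le_principal_iff, Ultrafilter.coe_map, Filter.mem_map]
      filter_upwards [hUB] with n hn
      show f n z ∈ closedBall 0 1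
      rw [mem_closedBall_zero_iff]
      exact (hfl n hn).1.bd z
    obtain ⟨v, -, hv⟩ := hcomp.ultrafilter_le_nhds _ hle'
    exact ⟨v, hv⟩
  choose Φ hΦ using hlimex
  have hΦb : ∀ z, ‖Φ z‖ ≤ 1 := by
    intro z
    refine le_of_tendsto (hΦ z).norm ?_
    filter_upwards [hUB] with n hn
    exact (hfl n hn).1.bd z
  have hΦo : ∀ z u, ‖Φ (z + u) - Φ z‖ ≤ Θ ‖u‖ := by
    intro z u
    by_cases hu : u = 0
    · subst hu
      rw [add_zero, sub_self, norm_zero]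
      exact hΘ0
    · have hu' : 0 < ‖u‖ := norm_pos_iff.2 hu
      refine le_of_tendsto ((hΦ (z + u)).sub (hΦ z)).norm ?_
      filter_upwards [hUB, hUt (hle ‖u‖ hu')] with n hn hn'
      have h1 := (hfl n hn).1.osc z u
      rw [one_mul] at h1
      exact h1.trans hn'
  have hΦc : Continuous Φ := by
    rw [Metric.continuous_iff]
    intro z q hq
    have h1 : ∀ᶠ s in 𝓝[>] (0 : ℝ), Θ s < q := hΘ.eventually (gt_mem_nhds hq)
    rw [eventually_nhdsWithin_iff, Metric.eventually_nhds_iff] at h1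
    obtain ⟨s0, hs0, h2⟩ := h1
    refine ⟨s0, hs0, fun w hw => ?_⟩
    by_cases hwz : w = z
    · rw [hwz, dist_self]
      exact hq
    · have h3 := hΦo z (w - z)
      rw [add_sub_cancel] at h3
      rw [dist_eq_norm]
      refine lt_of_le_of_lt h3 ?_
      have h4 : 0 < ‖w - z‖ := norm_pos_iff.2 (sub_ne_zero.2 hwz)
      apply h2 _ h4
      rw [Real.dist_eq, sub_zero, abs_of_pos h4]
      rwa [dist_eq_norm] at hw
  -- local limits are holomorphic
  have hloc : ∀ k : ℕ, DifferentiableOn ℂ Φ (cthickening (1 / ((k : ℝ) + 1)) A)ᶜ := by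
    intro k
    have hk : (0 : ℝ) < 1 / ((k : ℝ) + 1) := by positivity
    have hWo : IsOpen ((cthickening (1 / ((k : ℝ) + 1)) A)ᶜ) :=
      (Metric.isClosed_cthickening).isOpen_compl
    have g1 : ∀ n, DifferentiableOn ℂ ((fun n => if (n ∈ Bad ∧ ε n ≤ 1 / ((k : ℝ) + 1)) then f n
        else fun _ => 0) n) (cthickening (1 / ((k : ℝ) + 1)) A)ᶜ := by
      intro n
      by_cases hkn : n ∈ Bad ∧ ε n ≤ 1 / ((k : ℝ) + 1)
      · simp only [hkn, and_self, if_true]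
        exact (hfl n hkn.1).1.ac.hol.mono
          (Set.compl_subset_compl.2 (Metric.cthickening_mono hkn.2 A))
      · simp only [hkn, if_false]
        exact differentiableOn_const _
    have g2 : ∀ n, ∀ z ∈ (cthickening (1 / ((k : ℝ) + 1)) A)ᶜ,
        ‖(fun n => if (n ∈ Bad ∧ ε n ≤ 1 / ((k : ℝ) + 1)) then f n else fun _ => 0) n z‖ ≤ 1 := by
      intro n z hz
      by_cases hkn : n ∈ Bad ∧ ε n ≤ 1 / ((k : ℝ) + 1)
      · simp only [hkn, and_self, if_true]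
        exact (hfl n hkn.1).1.bd z
      · simp only [hkn, if_false, norm_zero]
        exact zero_le_one
    obtain ⟨Ψ, hΨ, hlim⟩ := Pool.Agent.Helper114.Montel.montel hWo
      (fun n => if (n ∈ Bad ∧ ε n ≤ 1 / ((k : ℝ) + 1)) then f n else fun _ => 0) g1 1 g2 𝒰
    refine hΨ.congr fun z hz => ?_
    have h1 := hlim.tendsto_at hz
    have h2 : Tendsto (fun n => f n z) 𝒰 (𝓝 (Ψ z)) := by
      refine h1.congr' ?_
      filter_upwards [hUB, hsmall _ hk] with n hn hn'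
      simp only [hn, hn', and_self, if_true]
    exact tendsto_nhds_unique (hΦ z) h2
  have hoff : ∀ z ∈ Aᶜ, ∃ k : ℕ, z ∈ (cthickening (1 / ((k : ℝ) + 1)) A)ᶜ := by
    intro z hz
    have h1 : z ∉ closure A := by rwa [hA.isClosed.closure_eq]
    rw [Metric.closure_eq_iInter_cthickening] at h1
    simp only [Set.mem_iInter, not_forall] at h1
    obtain ⟨δ, hδ, hzδ⟩ := h1
    obtain ⟨k, hk⟩ := exists_nat_one_div_lt hδ
    exact ⟨k, fun h => hzδ (Metric.cthickening_mono hk.le A h)⟩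
  have hΦdiff : DifferentiableOn ℂ Φ Aᶜ := by
    intro z hz
    obtain ⟨k, hk⟩ := hoff z hz
    have hWo : IsOpen ((cthickening (1 / ((k : ℝ) + 1)) A)ᶜ) :=
      (Metric.isClosed_cthickening).isOpen_compl
    exact ((hloc k).differentiableAt (hWo.mem_nhds hk)).differentiableWithinAt
  have hΦinf : ∀ z, 2 * ρ < ‖z‖ → ‖z * Φ z - l0‖ ≤ 10 * ρ ^ 2 / ‖z‖ := by
    intro z hz
    have h1 : Tendsto (fun n => ‖z * f n z - l n‖) 𝒰 (𝓝 ‖z * Φ z - l0‖) :=
      (((hΦ z).const_mul z).sub hl0).norm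
    refine le_of_tendsto h1 ?_
    filter_upwards [hest] with n hn
    exact hn.2 z hz
  have hΦt : Tendsto (fun z => z * Φ z) (cocompact ℂ) (𝓝 l0) := by
    rw [tendsto_iff_norm_sub_tendsto_zero]
    have h1 : Tendsto (fun z : ℂ => 10 * ρ ^ 2 / ‖z‖) (cocompact ℂ) (𝓝 0) :=
      Tendsto.const_div_atTop (tendsto_norm_cocompact_atTop) _
    refine squeeze_zero' (Eventually.of_forall fun z => norm_nonneg _) ?_ h1
    have h2 : ∀ᶠ z : ℂ in cocompact ℂ, 2 * ρ < ‖z‖ :=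
      (tendsto_norm_cocompact_atTop (E := ℂ)).eventually (eventually_gt_atTop _)
    filter_upwards [h2] with z hz
    exact hΦinf z hz
  have hmem : Kc 1 Θ A Φ l0 :=
    ⟨⟨hΦc, hΦdiff, hΦt⟩, hΦb, fun z u => by rw [one_mul]; exact hΦo z u⟩
  have hle1 : ‖l0‖ ≤ al Θ A := le_csSup (bdd hA) ⟨Φ, l0, hmem, rfl⟩
  have hge' : al Θ A + η ≤ ‖l0‖ := by
    refine ge_of_tendsto hl0.norm ?_
    filter_upwards [hUB] with n hn
    exact (hfl n hn).2.le
  linarith

end Pool.Agent.H352R4.CA
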