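import Pool.Agent.H352R3.SA.Defs
import Pool.Agent.H761R2.SV.Defs

/-!
# Continuous analytic capacity: definitions
-/

set_option autoImplicit false

open MeasureTheory Complex Filter Topology Metric
open scoped ComplexConjugate
open Pool.Agent.H352R3.SA
open Pool.Agent.H761R2.SV (dbar)

namespace Pool.Agent.H352R4.CA

/-- `h` is continuous on the plane, holomorphic off `S`, and `z h(z) → l` at infinity -/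
structure Ac (S : Set ℂ) (h : ℂ → ℂ) (l : ℂ) : Prop where
  cont : Continuous h
  hol : DifferentiableOn ℂ h Sᶜ
  lim : Tendsto (fun z => z * h z) (cocompact ℂ) (𝓝 l)

/-- functions of `Ac S` bounded by `M` with modulus of continuity `M Ω` -/
structure Kc (M : ℝ) (Ω : ℝ → ℝ) (S : Set ℂ) (h : ℂ → ℂ) (l : ℂ) : Prop where
  ac : Ac S h l
  bd : ∀ z, ‖h z‖ ≤ M
  osc : ∀ z u, ‖h (z + u) - h z‖ ≤ M * Ω ‖u‖

/-- capacity with modulus of continuity `Ω` -/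
noncomputable def al (Ω : ℝ → ℝ) (S : Set ℂ) : ℝ := sSup {c | ∃ h l, Kc 1 Ω S h l ∧ c = ‖l‖}

/-- continuous analytic capacity (of a compact set) -/
noncomputable def alpha (S : Set ℂ) : ℝ :=
  sSup {c | ∃ h l, Ac S h l ∧ (∀ z, ‖h z‖ ≤ 1) ∧ c = ‖l‖}

/-- good moduli at scale `ρ` -/
structure GM (ρ : ℝ) (Ω : ℝ → ℝ) : Prop where
  lin : ∀ s, 0 ≤ s → s ≤ ρ → s / ρ ≤ Ω s
  two : ∀ s, ρ < s → 2 ≤ Ω s

/-- majorant moduli -/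
structure Mod (ω : ℝ → ℝ) : Prop where
  zero : 0 ≤ ω 0
  pos : ∀ s, 0 < s → 0 < ω s
  mono : ∀ s s', 0 ≤ s → s ≤ s' → ω s ≤ ω s'
  root : ∀ s s', 0 < s → s ≤ s' → ω s' ≤ Real.sqrt (s' / s) * ω s
  lim : Tendsto ω (𝓝[>] 0) (𝓝 0)

/-- lattice points -/
noncomputable def gp (δ : ℝ) (j : ℤ × ℤ) : ℂ := (δ : ℂ) * ((j.1 : ℂ) + (j.2 : ℂ) * I)

/-- lattice bumps: `1` for `|z - z_j| ≤ 3δ/4`, `0` for `|z - z_j| ≥ δ` -/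
noncomputable def bmp (δ : ℝ) (j : ℤ × ℤ) (z : ℂ) : ℝ := max 0 (min 1 (4 - 4 * ‖z - gp δ j‖ / δ))

/-- the density `t δ⁻² ∑_j al(A ∩ B(z_j, 3δ)) bmp_j` -/
noncomputable def dg (δ t : ℝ) (Ω : ℝ → ℝ) (A : Set ℂ) (J : Finset (ℤ × ℤ)) (z : ℂ) : ℝ :=
  ∑ j ∈ J, t / δ ^ 2 * al Ω (A ∩ closedBall (gp δ j) (3 * δ)) * bmp δ j z

/-- the new modulus after a transplant at scale `δ` -/
noncomputable def Ph (C δ : ℝ) (Ω : ℝ → ℝ) (s : ℝ) : ℝ :=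
  if s ≤ δ then min 3 (Ω s / 2 + C * s / δ) else 3

/-- local data: `e = b / (z - p) + O(δ² b / |z - p|³)` -/
structure Loc (C δ : ℝ) (p : ℂ) (b : ℝ) (e : ℂ → ℂ) : Prop where
  b0 : 0 < b
  b1 : b ≤ C * δ
  e1 : ∀ z, ‖e z‖ ≤ 1
  e2 : ∀ z, ‖z - p‖ * ‖e z‖ ≤ C * δ
  e3 : ∀ z, C * δ ≤ ‖z - p‖ → ‖e z - (b : ℂ) / (z - p)‖ * ‖z - p‖ ^ 3 ≤ C * δ ^ 2 * b

/-- a piece of a potential: `P = lam / (z - p) + mu / (z - p)² + O(t δ² b / |z - p|³)` -/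
structure Pie (C δ t : ℝ) (p : ℂ) (b : ℝ) (P : ℂ → ℂ) (lam mu : ℂ) : Prop where
  p1 : ∀ z, ‖P z‖ ≤ C * t
  p2 : ∀ z, ‖z - p‖ * ‖P z‖ ≤ C * δ * t
  p3 : ∀ z, C * δ ≤ ‖z - p‖ →
    ‖P z - lam / (z - p) - mu / (z - p) ^ 2‖ * ‖z - p‖ ^ 3 ≤ C * t * δ ^ 2 * b
  l1 : ‖lam‖ ≤ C * t * b
  m1 : ‖mu‖ ≤ C * t * δ * b

/-- the smooth bump used for mollification, supported in the unit disc, of integral `1` -/
noncomputable def bmp0 : ContDiffBump (0 : ℂ) := ⟨1 / 2, 1, by norm_num, by norm_num⟩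

noncomputable def phi0 (z : ℂ) : ℝ := bmp0.normed volume z

/-- cutoff function at `z` of radius `δ` (as a function of `w`) -/
noncomputable def chi (δ : ℝ) (z w : ℂ) : ℂ := ((phi0 ((z - w) / (δ : ℂ)) : ℝ) : ℂ)

/-- mollification -/
noncomputable def mol (δ : ℝ) (h : ℂ → ℂ) (z : ℂ) : ℂ := ((δ : ℂ) ^ 2)⁻¹ * ∫ w, h w * chi δ z w

/-- density of the mollification: `mol δ h = pot (den δ h)` for `h` in `Ac S` -/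
noncomputable def den (δ : ℝ) (h : ℂ → ℂ) (z : ℂ) : ℂ :=
  - ((Real.pi : ℂ) * (δ : ℂ) ^ 2)⁻¹ * ∫ w, h w * dbar (chi δ z) w

/-- Vitushkin localisation of `h` to the disc of centre `z` and radius `δ` -/
noncomputable def vit (δ : ℝ) (h : ℂ → ℂ) (z ζ : ℂ) : ℂ :=
  chi δ z ζ * h ζ - (Real.pi : ℂ)⁻¹ * pot (fun w => h w * dbar (chi δ z) w) ζ

/-- the transplant theorem with constants `C`, `t₀` -/
def TR (C t₀ : ℝ) : Prop := 1 ≤ C ∧ 0 < t₀ ∧ C * t₀ ≤ 1 / 2 ∧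
  ∀ (δ t : ℝ) (Ω : ℝ → ℝ) (A : Set ℂ) (J : Finset (ℤ × ℤ)), 0 < δ → 0 < t → t ≤ t₀ →
    GM (3 * δ) Ω → IsCompact A →
    Gam (dg δ t Ω A J) ≤
      (1 + C * t) * al (Ph C δ Ω) (⋃ j ∈ J, A ∩ closedBall (gp δ j) (3 * δ))

/-- the oscillation bound for Vitushkin localisation with constant `C` -/
def VO (C : ℝ) : Prop := 1 ≤ C ∧ ∀ (ω : ℝ → ℝ), Mod ω → ∀ (h : ℂ → ℂ), Continuous h →
  (∀ z u, ‖h (z + u) - h z‖ ≤ ω ‖u‖) → ∀ (δ : ℝ), 0 < δ → ∀ z w u : ℂ,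
    ‖vit δ h z (w + u) - vit δ h z w‖ ≤ C * ω ‖u‖

/-- local semiadditivity at scale `δ` -/
def Pst (ω Ω : ℝ → ℝ) (A B A' B' : Set ℂ) (δ : ℝ) : Prop :=
  ∀ (z₀ : ℂ) (h : ℂ → ℂ) (l : ℂ), Ac ((A ∪ B) ∩ closedBall z₀ δ) h l →
    (∀ z u, ‖h (z + u) - h z‖ ≤ ω ‖u‖) →
    ‖l‖ ≤ 8 * ω (4 * δ) *
      (al Ω (A' ∩ closedBall z₀ (2 * δ)) + al Ω (B' ∩ closedBall z₀ (2 * δ)))

/-- iterated moduli -/
noncomputable def Wm (C : ℝ) (δ : ℕ → ℝ) : ℕ → ℕ → ℝ → ℝ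
  | 0, _ => fun _ => 3
  | n + 1, k => Ph C (δ k) (Wm C δ n (k + 1))

end Pool.Agent.H352R4.CA
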