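import Pool.Agent.H352R4.CA.Defs
import Pool.Agent.H352R4.CA.Max
import Pool.Agent.H352R3.SA.Mon

/-!
# Analytic capacity and mollification
-/

set_option autoImplicit false

open MeasureTheory Complex Filter Topology Metric
open scoped ComplexConjugate
open Pool.Agent.H352R3.SA
open Pool.Agent.H761R2.SV (dbar)

namespace Pool.Agent.H352R4.CA

namespace GalAux

/-- the bump -/
noncomputable def bp (ε : ℝ) (hε : 0 < ε) : ContDiffBump (0 : ℂ) :=
  ⟨ε / 2, ε, half_pos hε, half_lt_self hε⟩

/-- the normalised bump -/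
noncomputable def ps (ε : ℝ) (hε : 0 < ε) (w : ℂ) : ℝ := (bp ε hε).normed volume w

/-- mollification -/
noncomputable def mo (ε : ℝ) (hε : 0 < ε) (g : ℂ → ℂ) (z : ℂ) : ℂ :=
  ∫ w, (ps ε hε w : ℂ) * g (z - w)

variable {ε : ℝ} (hε : 0 < ε)

theorem ps_nonneg (w : ℂ) : 0 ≤ ps ε hε w := ContDiffBump.nonneg_normed _ w

theorem ps_cont : Continuous (ps ε hε) := ContDiffBump.continuous_normed _

theorem ps_zero {w : ℂ} (hw : ε ≤ ‖w‖) : ps ε hε w = 0 := by
  have h1 : w ∉ Function.support ((bp ε hε).normed volume) := by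
    rw [ContDiffBump.support_normed_eq]
    simpa [bp] using hw
  simpa [ps] using h1

theorem ps_int : ∫ w, ps ε hε w = 1 := ContDiffBump.integral_normed _

theorem ps_integrable : Integrable (ps ε hε) := ContDiffBump.integrable_normed _

theorem ps_bdd : ∃ M, 0 ≤ M ∧ ∀ w, ps ε hε w ≤ M := by
  have hc : HasCompactSupport (ps ε hε) := ContDiffBump.hasCompactSupport_normed _
  obtain ⟨M, hM⟩ := hc.exists_bound_of_continuous (ps_cont hε)
  refine ⟨M, (norm_nonneg _).trans (hM 0), fun w => ?_⟩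
  exact (le_abs_self _).trans (hM w)

variable {g : ℂ → ℂ}

theorem meas_prod (hg : Measurable g) (z : ℂ) :
    AEStronglyMeasurable (fun w => (ps ε hε w : ℂ) * g (z - w)) volume := by
  have h1 : Measurable (fun w : ℂ => ((ps ε hε w : ℝ) : ℂ)) :=
    (Complex.continuous_ofReal.comp (ps_cont hε)).measurable
  have h2 : Measurable (fun w : ℂ => g (z - w)) := hg.comp (measurable_const.sub measurable_id)
  exact (h1.mul h2).aestronglyMeasurable

theorem norm_prod_le (hb : ∀ z, ‖g z‖ ≤ 1) (z w : ℂ) :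
    ‖(ps ε hε w : ℂ) * g (z - w)‖ ≤ ps ε hε w := by
  rw [norm_mul, Complex.norm_real, Real.norm_of_nonneg (ps_nonneg hε w)]
  exact mul_le_of_le_one_right (ps_nonneg hε w) (hb _)

theorem int_prod (hg : Measurable g) (hb : ∀ z, ‖g z‖ ≤ 1) (z : ℂ) :
    Integrable (fun w => (ps ε hε w : ℂ) * g (z - w)) :=
  (ps_integrable hε).mono' (meas_prod hε hg z) (Eventually.of_forall (norm_prod_le hε hb z))

theorem mo_le (hb : ∀ z, ‖g z‖ ≤ 1) (z : ℂ) : ‖mo ε hε g z‖ ≤ 1 := by
  have h1 : ‖mo ε hε g z‖ ≤ ∫ w, ps ε hε w :=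
    norm_integral_le_of_norm_le (ps_integrable hε) (Eventually.of_forall (norm_prod_le hε hb z))
  rwa [ps_int] at h1

theorem mo_cont (hg : Measurable g) (hb : ∀ z, ‖g z‖ ≤ 1) : Continuous (mo ε hε g) := by
  obtain ⟨M, hM0, hM⟩ := ps_bdd hε
  have hsub : mo ε hε g = fun z => ∫ w, (ps ε hε (z - w) : ℂ) * g w := by
    funext z
    have h := integral_sub_left_eq_self (fun w => (ps ε hε w : ℂ) * g (z - w))
      (volume : Measure ℂ) z
    rw [mo, ← h]
    refine integral_congr_ae (Eventually.of_forall fun u => ?_)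
    simp only [sub_sub_cancel]
  rw [hsub, continuous_iff_continuousAt]
  intro z₀
  have hi : Integrable ((closedBall z₀ (ε + 1)).indicator (fun _ : ℂ => M)) := by
    rw [integrable_indicator_iff measurableSet_closedBall]
    exact integrableOn_const (by
      rw [Complex.volume_closedBall]
      exact (ENNReal.mul_lt_top (ENNReal.pow_lt_top ENNReal.ofReal_lt_top)
        ENNReal.coe_lt_top).ne)
  refine continuousAt_of_dominated
    (bound := (closedBall z₀ (ε + 1)).indicator (fun _ : ℂ => M)) ?_ ?_ hi ?_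
  · refine Eventually.of_forall fun z => ?_
    have h1 : Measurable (fun w : ℂ => ((ps ε hε (z - w) : ℝ) : ℂ)) :=
      (Complex.continuous_ofReal.comp ((ps_cont hε).comp
        (continuous_const.sub continuous_id))).measurable
    exact (h1.mul hg).aestronglyMeasurable
  · filter_upwards [ball_mem_nhds z₀ one_pos] with z hz
    refine Eventually.of_forall fun w => ?_
    rw [norm_mul, Complex.norm_real, Real.norm_of_nonneg (ps_nonneg hε _)]
    by_cases hw : w ∈ closedBall z₀ (ε + 1)
    · rw [Set.indicator_of_mem hw]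
      calc ps ε hε (z - w) * ‖g w‖ ≤ M * 1 :=
            mul_le_mul (hM _) (hb w) (norm_nonneg _) hM0
        _ = M := mul_one M
    · rw [Set.indicator_of_notMem hw, ps_zero hε, zero_mul]
      rw [mem_closedBall, not_le, dist_eq_norm] at hw
      rw [mem_ball, dist_eq_norm] at hz
      have h3 : ‖w - z₀‖ ≤ ‖z - w‖ + ‖z - z₀‖ := by
        have h4 : w - z₀ = (z - z₀) - (z - w) := by ring
        rw [h4]
        linarith [norm_sub_le (z - z₀) (z - w)]
      linarith
  · refine Eventually.of_forall fun w => ?_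
    have : Continuous (fun z : ℂ => ((ps ε hε (z - w) : ℝ) : ℂ) * g w) :=
      (Complex.continuous_ofReal.comp ((ps_cont hε).comp
        (continuous_id.sub continuous_const))).mul continuous_const
    exact this.continuousAt

theorem mo_hol {S A' : Set ℂ} (hS : IsCompact S) (hA' : IsCompact A')
    (hsub : cthickening ε S ⊆ A') (hg : Measurable g) (hb : ∀ z, ‖g z‖ ≤ 1)
    (hd : DifferentiableOn ℂ g Sᶜ) : DifferentiableOn ℂ (mo ε hε g) A'ᶜ := by
  intro z₀ hz₀
  apply DifferentiableAt.differentiableWithinAt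
  obtain ⟨r, hr, hball⟩ := Metric.isOpen_iff.mp hA'.isClosed.isOpen_compl z₀ hz₀
  have hoff : ∀ z ∈ ball z₀ r, ∀ w, ‖w‖ ≤ ε → z - w ∈ Sᶜ := by
    intro z hz w hw hS'
    apply hball hz
    apply hsub
    apply Metric.mem_cthickening_of_dist_le z (z - w) ε S hS'
    rw [dist_eq_norm, sub_sub_cancel]
    exact hw
  have hder : ∀ z ∈ ball z₀ (r / 2), ∀ w, ‖w‖ ≤ ε → ‖deriv g (z - w)‖ ≤ 4 / r := by
    intro z hz w hw
    have h1 : ∀ ζ ∈ closedBall (z - w) (r / 4), ζ ∈ Sᶜ := by
      intro ζ hζ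
      have h2 : ζ = (ζ + w) - w := by ring
      rw [h2]
      apply hoff _ _ w hw
      rw [mem_closedBall, dist_eq_norm] at hζ
      rw [mem_ball, dist_eq_norm] at hz ⊢
      have h3 : ζ + w - z₀ = (ζ - (z - w)) + (z - z₀) := by ring
      rw [h3]
      linarith [norm_add_le (ζ - (z - w)) (z - z₀)]
    have h4 : DiffContOnCl ℂ g (ball (z - w) (r / 4)) := by
      refine ⟨hd.mono (fun ζ hζ => h1 ζ (ball_subset_closedBall hζ)), ?_⟩
      apply hd.continuousOn.mono
      intro ζ hζ
      exact h1 ζ (closure_ball_subset_closedBall hζ)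
    have h5 := Complex.norm_deriv_le_of_forall_mem_sphere_norm_le (by positivity : 0 < r / 4) h4
      (C := 1) (fun ζ _ => hb ζ)
    refine h5.trans (le_of_eq ?_)
    field_simp
  have key := hasDerivAt_integral_of_dominated_loc_of_deriv_le (μ := (volume : Measure ℂ))
    (F := fun z w => (ps ε hε w : ℂ) * g (z - w))
    (F' := fun z w => (ps ε hε w : ℂ) * deriv g (z - w)) (x₀ := z₀)
    (s := ball z₀ (r / 2)) (bound := fun w => ps ε hε w * (4 / r))
    (ball_mem_nhds z₀ (by positivity))
    (Eventually.of_forall fun z => meas_prod hε hg z) (int_prod hε hg hb z₀)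
    (by
      have h1 : Measurable (fun w : ℂ => ((ps ε hε w : ℝ) : ℂ)) :=
        (Complex.continuous_ofReal.comp (ps_cont hε)).measurable
      have h2 : Measurable (fun w : ℂ => deriv g (z₀ - w)) :=
        (measurable_deriv g).comp (measurable_const.sub measurable_id)
      exact (h1.mul h2).aestronglyMeasurable)
    (Eventually.of_forall (by
      intro w z hz
      rw [norm_mul, Complex.norm_real, Real.norm_of_nonneg (ps_nonneg hε w)]
      rcases le_or_gt ‖w‖ ε with hw | hw
      · exact mul_le_mul_of_nonneg_left (hder z hz w hw) (ps_nonneg hε w)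
      · rw [ps_zero hε hw.le]; simp))
    ((ps_integrable hε).mul_const _)
    (Eventually.of_forall (by
      intro w z hz
      rcases le_or_gt ‖w‖ ε with hw | hw
      · have hz' : z ∈ ball z₀ r := ball_subset_ball (by linarith) hz
        have h1 : DifferentiableAt ℂ g (z - w) :=
          hd.differentiableAt (hS.isClosed.isOpen_compl.mem_nhds (hoff z hz' w hw))
        have h2 : HasDerivAt (fun z => g (z - w)) (deriv g (z - w)) z := by
          exact HasDerivAt.comp_sub_const z w h1.hasDerivAt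
        exact h2.const_mul _
      · rw [ps_zero hε hw.le]
        simp only [Complex.ofReal_zero, zero_mul]
        exact hasDerivAt_const z 0))
  exact key.2.differentiableAt

theorem mo_lim {l : ℂ} (hg : Measurable g) (hb : ∀ z, ‖g z‖ ≤ 1)
    (hl : Tendsto (fun z => z * g z) (cocompact ℂ) (𝓝 l)) :
    Tendsto (fun z => z * mo ε hε g z) (cocompact ℂ) (𝓝 l) := by
  rw [Metric.tendsto_nhds]
  intro η hη
  have h0 := MaxAux.zero_of hl
  have e1 : ∀ᶠ w in cocompact ℂ, ‖w * g w - l‖ < η / 4 ∧ ‖g w‖ < η / (4 * (ε + 1)) := by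
    have a1 := hl.eventually (Metric.ball_mem_nhds l (by positivity : 0 < η / 4))
    have a2 := h0.eventually (Metric.ball_mem_nhds (0:ℂ)
      (by positivity : 0 < η / (4 * (ε + 1))))
    filter_upwards [a1, a2] with w h1 h2
    exact ⟨by simpa [dist_eq_norm] using h1, by simpa using h2⟩
  obtain ⟨R, hR0, hR⟩ := MaxAux.exists_radius e1
  have e2 : ∀ᶠ z in cocompact ℂ, R + ε < ‖z‖ := by
    have := (isCompact_closedBall (0:ℂ) (R + ε)).compl_mem_cocompact
    filter_upwards [this] with z hz
    simpa using hz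
  filter_upwards [e2] with z hz
  rw [dist_eq_norm]
  have h3 : z * mo ε hε g z - l = ∫ w, (ps ε hε w : ℂ) * (z * g (z - w) - l) := by
    have i1 : Integrable (fun w => z * ((ps ε hε w : ℂ) * g (z - w))) :=
      (int_prod hε hg hb z).const_mul z
    have i2 : Integrable (fun w => (ps ε hε w : ℂ) * l) :=
      ((ps_integrable hε).ofReal (𝕜 := ℂ)).mul_const l
    have i3 : ∫ w, (ps ε hε w : ℂ) * l = l := by
      rw [integral_mul_const]
      have i5 : ∫ w, ((ps ε hε w : ℝ) : ℂ) = ((∫ w, ps ε hε w : ℝ) : ℂ) := integral_complex_ofReal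
      rw [i5, ps_int]; simp
    have i4 : ∫ w, (ps ε hε w : ℂ) * (z * g (z - w) - l) =
        (∫ w, z * ((ps ε hε w : ℂ) * g (z - w))) - ∫ w, (ps ε hε w : ℂ) * l := by
      rw [← integral_sub i1 i2]
      congr 1
      funext w
      ring
    rw [i4, i3, integral_const_mul]
    rfl
  rw [h3]
  have h4 : ‖∫ w, (ps ε hε w : ℂ) * (z * g (z - w) - l)‖ ≤ ∫ w, ps ε hε w * (η / 2) := by
    apply norm_integral_le_of_norm_le ((ps_integrable hε).mul_const _)
    refine Eventually.of_forall fun w => ?_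
    rw [norm_mul, Complex.norm_real, Real.norm_of_nonneg (ps_nonneg hε w)]
    rcases le_or_gt ‖w‖ ε with hw | hw
    · apply mul_le_mul_of_nonneg_left _ (ps_nonneg hε w)
      have h5 : R < ‖z - w‖ := by
        have : ‖z‖ ≤ ‖z - w‖ + ‖w‖ := by
          have := norm_add_le (z - w) w
          rwa [sub_add_cancel] at this
        linarith
      obtain ⟨h6, h7⟩ := hR _ h5
      have h8 : z * g (z - w) - l = ((z - w) * g (z - w) - l) + w * g (z - w) := by ring
      rw [h8]
      have h9 : ‖w * g (z - w)‖ ≤ η / 4 := by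
        rw [norm_mul]
        calc ‖w‖ * ‖g (z - w)‖ ≤ (ε + 1) * (η / (4 * (ε + 1))) :=
              mul_le_mul (by linarith) h7.le (norm_nonneg _) (by positivity)
          _ = η / 4 := by field_simp
      linarith [norm_add_le ((z - w) * g (z - w) - l) (w * g (z - w))]
    · rw [ps_zero hε hw.le]; simp
  rw [integral_mul_const, ps_int] at h4
  linarith

end GalAux

open GalAux

theorem gamma_le_al {S A' : Set ℂ} {ε : ℝ} (hS : IsCompact S) (hε : 0 < ε) (hA' : IsCompact A')
    (hsub : cthickening ε S ⊆ A') : gamma S ≤ al (fun _ => 3) A' := by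
  classical
  unfold gamma
  apply csSup_le ⟨0, adm_zero S⟩
  rintro c ⟨f, l, hf, hb, hl, rfl⟩
  set g : ℂ → ℂ := Sᶜ.indicator f with hgdef
  have hg : Measurable g := by
    rw [hgdef, ← Set.piecewise_eq_indicator]
    exact ContinuousOn.measurable_piecewise hf.continuousOn continuousOn_const
      hS.isClosed.isOpen_compl.measurableSet
  have hgb : ∀ z, ‖g z‖ ≤ 1 := by
    intro z
    by_cases hz : z ∈ Sᶜ
    · rw [hgdef, Set.indicator_of_mem hz]; exact hb z hz
    · rw [hgdef, Set.indicator_of_notMem hz]; simp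
  have hgd : DifferentiableOn ℂ g Sᶜ :=
    hf.congr (fun z hz => by rw [hgdef, Set.indicator_of_mem hz])
  have hgl : Tendsto (fun z => z * g z) (cocompact ℂ) (𝓝 l) := by
    refine hl.congr' ?_
    filter_upwards [hS.compl_mem_cocompact] with z hz
    rw [hgdef, Set.indicator_of_mem hz]
  have hAc : Ac A' (mo ε hε g) l :=
    ⟨mo_cont hε hg hgb, mo_hol hε hS hA' hsub hg hgb hgd, mo_lim hε hg hgb hgl⟩
  have hKc : Kc 1 (fun _ => 3) A' (mo ε hε g) l := by
    refine ⟨hAc, mo_le hε hgb, ?_⟩
    intro z u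
    have h1 := mo_le hε hgb (z + u)
    have h2 := mo_le hε hgb z
    linarith [norm_sub_le (mo ε hε g (z + u)) (mo ε hε g z)]
  have hbdd : BddAbove {c | ∃ h l, Kc 1 (fun _ : ℝ => (3:ℝ)) A' h l ∧ c = ‖l‖} := by
    apply (adm_bdd hA').mono
    rintro c ⟨h, l', hK, rfl⟩
    exact ⟨h, l', hK.ac.hol, fun z _ => hK.bd z, hK.ac.lim, rfl⟩
  exact le_csSup hbdd ⟨mo ε hε g, l, hKc, rfl⟩

end Pool.Agent.H352R4.CA
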