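import Pool.Agent.H352R3.SA.Fin
import Pool.Agent.H352R3.SA.Mon
import Pool.Agent.H352R4.CA.Defs
import Pool.Agent.H352R4.CA.Max
import Pool.Agent.H352R4.CA.Coe
import Pool.Agent.H352R4.CA.Alb
import Pool.Agent.H352R4.CA.Gal

set_option autoImplicit false

open MeasureTheory Complex Filter Topology Metric
open scoped ComplexConjugate
open Pool.Agent.H352R3.SA

namespace Pool.Agent.H352R4.CA

theorem bound_of_osc {ω : ℝ → ℝ} (hω : Mod ω) {S : Set ℂ} {h : ℂ → ℂ} {l z₀ : ℂ} {δ : ℝ}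
    (hδ : 0 < δ) (hS : IsCompact S) (hSz : S ⊆ closedBall z₀ δ) (H : Ac S h l)
    (ho : ∀ z u, ‖h (z + u) - h z‖ ≤ ω ‖u‖) (z : ℂ) : ‖h z‖ ≤ 2 * ω (4 * δ) := by
  have hp : 0 < ω (4 * δ) := hω.pos _ (by positivity)
  rcases S.eq_empty_or_nonempty with hE | hne
  · have h0 : ‖h z‖ ≤ 0 := by
      refine Ac.norm_le hS H le_rfl ?_ z
      intro w hw
      rw [hE] at hw
      exact absurd hw (Set.notMem_empty w)
    linarith
  · obtain ⟨w0, hw0, hmax⟩ := hS.exists_isMaxOn hne (H.cont.norm.continuousOn)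
    have hM : ∀ z, ‖h z‖ ≤ ‖h w0‖ := fun z =>
      Ac.norm_le hS H (norm_nonneg _) (fun w hw => hmax hw) z
    have hd := Ac.decay hδ hSz H hM (w0 + ((4 * δ : ℝ) : ℂ))
    have hw0' : ‖w0 - z₀‖ ≤ δ := by
      have := hSz hw0
      rwa [mem_closedBall, dist_eq_norm] at this
    have hn : ‖((4 * δ : ℝ) : ℂ)‖ = 4 * δ := by
      rw [Complex.norm_real, Real.norm_eq_abs, abs_of_pos (by positivity)]
    have hfar : 3 * δ ≤ ‖w0 + ((4 * δ : ℝ) : ℂ) - z₀‖ := by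
      have h1 : ‖((4 * δ : ℝ) : ℂ)‖ ≤ ‖w0 + ((4 * δ : ℝ) : ℂ) - z₀‖ + ‖w0 - z₀‖ := by
        have : ((4 * δ : ℝ) : ℂ) = (w0 + ((4 * δ : ℝ) : ℂ) - z₀) - (w0 - z₀) := by ring
        calc ‖((4 * δ : ℝ) : ℂ)‖ = ‖(w0 + ((4 * δ : ℝ) : ℂ) - z₀) - (w0 - z₀)‖ := by rw [← this]
          _ ≤ _ := norm_sub_le _ _
      rw [hn] at h1
      linarith
    have h3 : 3 * ‖h (w0 + ((4 * δ : ℝ) : ℂ))‖ ≤ ‖h w0‖ := by
      have h4 : 3 * δ * ‖h (w0 + ((4 * δ : ℝ) : ℂ))‖ ≤ δ * ‖h w0‖ :=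
        le_trans (mul_le_mul_of_nonneg_right hfar (norm_nonneg _)) hd
      have h5 : δ * (3 * ‖h (w0 + ((4 * δ : ℝ) : ℂ))‖) ≤ δ * ‖h w0‖ := by linarith
      exact le_of_mul_le_mul_left h5 hδ
    have h6 := ho w0 ((4 * δ : ℝ) : ℂ)
    rw [hn] at h6
    have h7 : ‖h w0‖ ≤ ‖h (w0 + ((4 * δ : ℝ) : ℂ))‖ +
        ‖h (w0 + ((4 * δ : ℝ) : ℂ)) - h w0‖ := by
      have : h w0 = h (w0 + ((4 * δ : ℝ) : ℂ)) - (h (w0 + ((4 * δ : ℝ) : ℂ)) - h w0) := by ring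
      calc ‖h w0‖ = ‖h (w0 + ((4 * δ : ℝ) : ℂ)) - (h (w0 + ((4 * δ : ℝ) : ℂ)) - h w0)‖ := by
            rw [← this]
        _ ≤ _ := norm_sub_le _ _
    have h8 := hM z
    linarith

theorem BasAux.thick {S A' : Set ℂ} {z₀ : ℂ} {ε δ : ℝ} (hε : 0 < ε) (hεδ : ε ≤ δ)
    (hAA : cthickening ε S ⊆ A') :
    cthickening ε (S ∩ closedBall z₀ δ) ⊆ A' ∩ closedBall z₀ (2 * δ) := by
  refine Set.subset_inter ?_ ?_
  · exact (cthickening_subset_of_subset ε Set.inter_subset_left).trans hAA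
  · refine (cthickening_subset_of_subset ε Set.inter_subset_right).trans ?_
    rw [cthickening_closedBall hε.le (hε.le.trans hεδ)]
    exact closedBall_subset_closedBall (by linarith)

theorem base {ω : ℝ → ℝ} (hω : Mod ω) {A B A' B' : Set ℂ} (hA : IsCompact A)
    (hB : IsCompact B) (hA' : IsCompact A') (hB' : IsCompact B') {ε δ : ℝ} (hε : 0 < ε)
    (hεδ : ε ≤ δ) (hAA : cthickening ε A ⊆ A') (hBB : cthickening ε B ⊆ B') :
    Pst ω (fun _ => 3) A B A' B' δ := by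
  intro z₀ h l H ho
  have hδ : 0 < δ := lt_of_lt_of_le hε hεδ
  have hp : 0 < ω (4 * δ) := hω.pos _ (by positivity)
  have hSc : IsCompact ((A ∪ B) ∩ closedBall z₀ δ) :=
    (hA.union hB).inter_right isClosed_closedBall
  have hb := bound_of_osc hω hδ hSc Set.inter_subset_right H ho
  set M : ℝ := 2 * ω (4 * δ) with hMdef
  have hM : 0 < M := by positivity
  have hadm : ‖l‖ / M ∈ adm ((A ∪ B) ∩ closedBall z₀ δ) := by
    refine ⟨fun z => (M : ℂ)⁻¹ * h z, (M : ℂ)⁻¹ * l, ?_, ?_, ?_, ?_⟩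
    · exact (differentiableOn_const _).mul H.hol
    · intro z _
      rw [norm_mul, norm_inv, Complex.norm_real, Real.norm_eq_abs, abs_of_pos hM,
        inv_mul_le_iff₀ hM, mul_one]
      exact hb z
    · have h1 := H.lim.const_mul ((M : ℂ)⁻¹)
      refine h1.congr (fun z => ?_)
      ring
    · rw [norm_mul, norm_inv, Complex.norm_real, Real.norm_eq_abs, abs_of_pos hM]
      rw [div_eq_inv_mul]
  have h1 : ‖l‖ / M ≤ gamma ((A ∪ B) ∩ closedBall z₀ δ) := le_csSup (adm_bdd hSc) hadm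
  have h2 : gamma ((A ∪ B) ∩ closedBall z₀ δ) ≤
      gamma (A ∩ closedBall z₀ δ) + gamma (B ∩ closedBall z₀ δ) := by
    rw [Set.union_inter_distrib_right]
    exact gamma_union_le (hA.inter_right isClosed_closedBall)
      (hB.inter_right isClosed_closedBall)
  have h3 : gamma (A ∩ closedBall z₀ δ) ≤ al (fun _ => 3) (A' ∩ closedBall z₀ (2 * δ)) :=
    gamma_le_al (hA.inter_right isClosed_closedBall) hε
      (hA'.inter_right isClosed_closedBall) (BasAux.thick hε hεδ hAA)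
  have h4 : gamma (B ∩ closedBall z₀ δ) ≤ al (fun _ => 3) (B' ∩ closedBall z₀ (2 * δ)) :=
    gamma_le_al (hB.inter_right isClosed_closedBall) hε
      (hB'.inter_right isClosed_closedBall) (BasAux.thick hε hεδ hBB)
  have h5 : ‖l‖ ≤ M * (al (fun _ => 3) (A' ∩ closedBall z₀ (2 * δ)) +
      al (fun _ => 3) (B' ∩ closedBall z₀ (2 * δ))) := by
    rw [div_le_iff₀' hM] at h1
    refine h1.trans (mul_le_mul_of_nonneg_left ?_ hM.le)
    linarith
  have h6 : 0 ≤ al (fun _ => 3) (A' ∩ closedBall z₀ (2 * δ)) +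
      al (fun _ => 3) (B' ∩ closedBall z₀ (2 * δ)) := add_nonneg (al_nonneg _ _) (al_nonneg _ _)
  refine h5.trans (mul_le_mul_of_nonneg_right ?_ h6)
  rw [hMdef]; linarith

end Pool.Agent.H352R4.CA
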