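import Pool.Agent.H352R4.CA.Pack

/-!
# The dipole construction
-/

set_option autoImplicit false

open MeasureTheory Complex Filter Topology Metric

namespace Pool.Agent.H352R4.CA

namespace CoreAux

theorem lamb {C δ t b : ℝ} {p lam mu : ℂ} {e P : ℂ → ℂ}
    (he : Loc C δ p b e) (hP : Pie C δ t p b P lam mu) : ‖lam / (b : ℂ)‖ ≤ C * t := by
  have hb := he.b0
  rw [norm_div, Complex.norm_real, Real.norm_of_nonneg hb.le, div_le_iff₀ hb]
  exact hP.l1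

theorem nub {C δ t b : ℝ} {p q lam mu : ℂ} {P : ℂ → ℂ} (hδ : 0 < δ)
    (hP : Pie C δ t p b P lam mu) (hR : δ ≤ ‖q - p‖) :
    ‖mu / (q - p)‖ ≤ C * t * b * (δ / ‖q - p‖) := by
  have hR0 : 0 < ‖q - p‖ := hδ.trans_le hR
  rw [norm_div, div_le_iff₀ hR0]
  have h : C * t * b * (δ / ‖q - p‖) * ‖q - p‖ = C * t * δ * b := by
    field_simp
  rw [h]
  exact hP.m1

theorem dip {C δ t b c : ℝ} {p q lam mu : ℂ} {e f P : ℂ → ℂ} (hC : 1 ≤ C) (hδ : 0 < δ)
    (ht : 0 ≤ t) (he : Loc C δ p b e) (hf : Loc C δ q c f) (hP : Pie C δ t p b P lam mu)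
    (hbc : b ≤ c) (hR : δ ≤ ‖q - p‖) (z : ℂ) :
    ‖mu / (q - p) * (f z / (c : ℂ) - e z / (b : ℂ))‖ ≤ 2 * (C * t * (δ / ‖q - p‖)) := by
  have hR0 : 0 < ‖q - p‖ := hδ.trans_le hR
  have hb := he.b0
  have hc := hf.b0
  have h1 := nub (q := q) hδ hP hR
  have h2 : ‖f z / (c : ℂ)‖ ≤ 1 / b := by
    rw [norm_div, Complex.norm_real, Real.norm_of_nonneg hc.le]
    exact div_le_div₀ zero_le_one (hf.e1 z) hb hbc
  have h3 : ‖e z / (b : ℂ)‖ ≤ 1 / b := by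
    rw [norm_div, Complex.norm_real, Real.norm_of_nonneg hb.le]
    exact div_le_div₀ zero_le_one (he.e1 z) hb le_rfl
  have h4 : ‖f z / (c : ℂ) - e z / (b : ℂ)‖ ≤ 1 / b + 1 / b := (norm_sub_le _ _).trans
    (add_le_add h2 h3)
  rw [norm_mul]
  calc ‖mu / (q - p)‖ * ‖f z / (c : ℂ) - e z / (b : ℂ)‖
      ≤ (C * t * b * (δ / ‖q - p‖)) * (1 / b + 1 / b) := by
        apply mul_le_mul h1 h4 (norm_nonneg _)
        positivity
    _ = 2 * (C * t * (δ / ‖q - p‖)) := by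
        field_simp
        ring

/-- near estimate -/
theorem near {C δ t b c : ℝ} {p q lam mu : ℂ} {e f P : ℂ → ℂ} (hC : 1 ≤ C) (hδ : 0 < δ)
    (ht : 0 ≤ t) (he : Loc C δ p b e) (hf : Loc C δ q c f) (hP : Pie C δ t p b P lam mu)
    (hbc : b ≤ c) (hR : δ ≤ ‖q - p‖) (z : ℂ) (hz : ‖z - p‖ ≤ 2 * ‖q - p‖) :
    ‖lam / (b : ℂ) * e z + mu / (q - p) * (f z / (c : ℂ) - e z / (b : ℂ)) - P z‖ ≤
      6 * C ^ 2 * t * (δ / max δ ‖z - p‖) := by
  have hR0 : 0 < ‖q - p‖ := hδ.trans_le hR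
  have hC0 : 0 < C := by linarith
  set M := max δ ‖z - p‖ with hM
  have hM0 : 0 < M := lt_max_of_lt_left hδ
  have hM2 : M ≤ 2 * ‖q - p‖ := max_le (by linarith) hz
  have h1 : ‖e z‖ ≤ C * (δ / M) := by
    rw [← mul_div_assoc, le_div_iff₀ hM0, mul_comm]
    rcases max_cases δ ‖z - p‖ with h | h
    · rw [hM, h.1]
      have := he.e1 z
      nlinarith
    · rw [hM, h.1]
      exact he.e2 z
  have h2 : ‖P z‖ ≤ C * t * (δ / M) := by
    rw [← mul_div_assoc, le_div_iff₀ hM0, mul_comm]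
    rcases max_cases δ ‖z - p‖ with h | h
    · rw [hM, h.1]
      have := mul_le_mul_of_nonneg_left (hP.p1 z) hδ.le
      linarith
    · rw [hM, h.1]
      have := hP.p2 z
      linarith
  have h3 := dip hC hδ ht he hf hP hbc hR z
  have h4 : δ / ‖q - p‖ ≤ 2 * (δ / M) := by
    rw [div_le_iff₀ hR0]
    have : 2 * (δ / M) * ‖q - p‖ = δ * (2 * ‖q - p‖ / M) := by ring
    rw [this]
    have h5 : 1 ≤ 2 * ‖q - p‖ / M := by rwa [le_div_iff₀ hM0, one_mul]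
    nlinarith
  have h5 : ‖lam / (b : ℂ) * e z‖ ≤ C * t * (C * (δ / M)) := by
    rw [norm_mul]
    exact mul_le_mul (lamb he hP) h1 (norm_nonneg _) (by positivity)
  have h6 : 0 ≤ t * (δ / M) := by positivity
  calc ‖lam / (b : ℂ) * e z + mu / (q - p) * (f z / (c : ℂ) - e z / (b : ℂ)) - P z‖
      ≤ ‖lam / (b : ℂ) * e z‖ + ‖mu / (q - p) * (f z / (c : ℂ) - e z / (b : ℂ))‖ + ‖P z‖ :=
        (norm_sub_le _ _).trans (add_le_add (norm_add_le _ _) le_rfl)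
    _ ≤ C * t * (C * (δ / M)) + 2 * (C * t * (2 * (δ / M))) + C * t * (δ / M) := by
        have h7 : 2 * (C * t * (δ / ‖q - p‖)) ≤ 2 * (C * t * (2 * (δ / M))) := by
          have : C * t * (δ / ‖q - p‖) ≤ C * t * (2 * (δ / M)) :=
            mul_le_mul_of_nonneg_left h4 (by positivity)
          linarith
        linarith
    _ = (C ^ 2 + 5 * C) * (t * (δ / M)) := by ring
    _ ≤ (6 * C ^ 2) * (t * (δ / M)) := by
        apply mul_le_mul_of_nonneg_right _ h6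
        nlinarith
    _ = 6 * C ^ 2 * t * (δ / M) := by ring

/-- far estimate -/
theorem far1 {C δ t b c : ℝ} {p q lam mu : ℂ} {e f P : ℂ → ℂ} (hC : 1 ≤ C) (hδ : 0 < δ)
    (ht : 0 ≤ t) (he : Loc C δ p b e) (hf : Loc C δ q c f) (hP : Pie C δ t p b P lam mu)
    (hbc : b ≤ c) (hR : δ ≤ ‖q - p‖) (z : ℂ) (hz : 2 * ‖q - p‖ < ‖z - p‖)
    (hz2 : ‖z - p‖ < 2 * C * δ) :
    ‖lam / (b : ℂ) * e z + mu / (q - p) * (f z / (c : ℂ) - e z / (b : ℂ)) - P z‖ ≤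
      32 * C ^ 4 * t * (δ ^ 2 * ‖q - p‖ / ‖z - p‖ ^ 3) := by
  have hR0 : 0 < ‖q - p‖ := hδ.trans_le hR
  have hC0 : 0 < C := by linarith
  have hx0 : 0 < ‖z - p‖ := by linarith
  have h1 := he.e1 z
  have h2 := hP.p1 z
  have h3 := dip hC hδ ht he hf hP hbc hR z
  have h4 : δ / ‖q - p‖ ≤ 1 := by rwa [div_le_iff₀ hR0, one_mul]
  have h5 : ‖lam / (b : ℂ) * e z‖ ≤ C * t * 1 := by
    rw [norm_mul]
    exact mul_le_mul (lamb he hP) h1 (norm_nonneg _) (by positivity)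
  have h6 : 1 ≤ 8 * C ^ 3 * (δ ^ 2 * ‖q - p‖ / ‖z - p‖ ^ 3) := by
    rw [← mul_div_assoc, le_div_iff₀ (by positivity), one_mul]
    calc ‖z - p‖ ^ 3 ≤ (2 * C * δ) ^ 3 := pow_le_pow_left₀ hx0.le hz2.le 3
      _ = 8 * C ^ 3 * (δ ^ 2 * δ) := by ring
      _ ≤ 8 * C ^ 3 * (δ ^ 2 * ‖q - p‖) := by gcongr
  calc ‖lam / (b : ℂ) * e z + mu / (q - p) * (f z / (c : ℂ) - e z / (b : ℂ)) - P z‖
      ≤ ‖lam / (b : ℂ) * e z‖ + ‖mu / (q - p) * (f z / (c : ℂ) - e z / (b : ℂ))‖ + ‖P z‖ :=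
        (norm_sub_le _ _).trans (add_le_add (norm_add_le _ _) le_rfl)
    _ ≤ C * t * 1 + 2 * (C * t * 1) + C * t := by
        have h7 : C * t * (δ / ‖q - p‖) ≤ C * t * 1 :=
          mul_le_mul_of_nonneg_left h4 (by positivity)
        linarith
    _ = 4 * C * t * 1 := by ring
    _ ≤ 4 * C * t * (8 * C ^ 3 * (δ ^ 2 * ‖q - p‖ / ‖z - p‖ ^ 3)) :=
        mul_le_mul_of_nonneg_left h6 (by positivity)
    _ = 32 * C ^ 4 * t * (δ ^ 2 * ‖q - p‖ / ‖z - p‖ ^ 3) := by ring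

theorem alg {z p q lam mu E1 E2 E3 : ℂ} {b c : ℂ} (hb : b ≠ 0) (hc : c ≠ 0) (hzp : z - p ≠ 0)
    (hzq : z - q ≠ 0) (hqp : q - p ≠ 0) :
    lam / b * (E1 + b / (z - p)) + mu / (q - p) * ((E2 + c / (z - q)) / c -
      (E1 + b / (z - p)) / b) - (E3 + lam / (z - p) + mu / (z - p) ^ 2) =
    lam / b * E1 + mu * (q - p) / ((z - q) * (z - p) ^ 2) + mu / (q - p) * (E2 / c) -
      mu / (q - p) * (E1 / b) - E3 := by
  field_simp
  ring

/-- far estimate -/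
theorem far2 {C δ t b c : ℝ} {p q lam mu : ℂ} {e f P : ℂ → ℂ} (hC : 1 ≤ C) (hδ : 0 < δ)
    (ht : 0 ≤ t) (he : Loc C δ p b e) (hf : Loc C δ q c f) (hP : Pie C δ t p b P lam mu)
    (hR : δ ≤ ‖q - p‖) (z : ℂ) (hz : 2 * ‖q - p‖ < ‖z - p‖)
    (hz2 : 2 * C * δ ≤ ‖z - p‖) :
    ‖lam / (b : ℂ) * e z + mu / (q - p) * (f z / (c : ℂ) - e z / (b : ℂ)) - P z‖ ≤
      32 * C ^ 4 * t * (δ ^ 2 * ‖q - p‖ / ‖z - p‖ ^ 3) := by
  have hR0 : 0 < ‖q - p‖ := hδ.trans_le hR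
  have hC0 : 0 < C := by linarith
  have hx0 : 0 < ‖z - p‖ := by linarith
  have hb := he.b0
  have hc := hf.b0
  have hy : ‖z - p‖ / 2 ≤ ‖z - q‖ := by
    have h : ‖z - p‖ ≤ ‖z - q‖ + ‖q - p‖ := by
      have := norm_add_le (z - q) (q - p)
      rwa [sub_add_sub_cancel] at this
    linarith
  have hy0 : 0 < ‖z - q‖ := by linarith
  have hy1 : C * δ ≤ ‖z - q‖ := by nlinarith
  have hx1 : C * δ ≤ ‖z - p‖ := by nlinarith
  set x := ‖z - p‖ with hx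
  set R := ‖q - p‖ with hRd
  set y := ‖z - q‖ with hyd
  obtain ⟨E1, hE1⟩ : ∃ E, E = e z - (b : ℂ) / (z - p) := ⟨_, rfl⟩
  obtain ⟨E2, hE2⟩ : ∃ E, E = f z - (c : ℂ) / (z - q) := ⟨_, rfl⟩
  obtain ⟨E3, hE3⟩ : ∃ E, E = P z - lam / (z - p) - mu / (z - p) ^ 2 := ⟨_, rfl⟩
  have e1 := he.e3 z hx1
  have e2 := hf.e3 z hy1
  have e3 := hP.p3 z hx1
  rw [← hE1] at e1
  rw [← hE2] at e2
  rw [← hE3] at e3
  have f1 : e z = E1 + (b : ℂ) / (z - p) := by rw [hE1]; ring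
  have f2 : f z = E2 + (c : ℂ) / (z - q) := by rw [hE2]; ring
  have f3 : P z = E3 + lam / (z - p) + mu / (z - p) ^ 2 := by rw [hE3]; ring
  have hzp : z - p ≠ 0 := norm_pos_iff.1 hx0
  have hzq : z - q ≠ 0 := norm_pos_iff.1 hy0
  have hqp : q - p ≠ 0 := norm_pos_iff.1 hR0
  have hbc : (b : ℂ) ≠ 0 := by exact_mod_cast hb.ne'
  have hcc : (c : ℂ) ≠ 0 := by exact_mod_cast hc.ne'
  rw [f1, f2, f3, alg hbc hcc hzp hzq hqp]
  have hbC := he.b1
  have hδR : δ / R ≤ 1 := by rwa [div_le_iff₀ hR0, one_mul]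
  have hnu : ‖mu / (q - p)‖ ≤ C ^ 2 * t * δ := by
    have h1 := nub (q := q) hδ hP hR
    calc ‖mu / (q - p)‖ ≤ C * t * b * (δ / R) := h1
      _ ≤ C * t * b * 1 := mul_le_mul_of_nonneg_left hδR (by positivity)
      _ ≤ C * t * (C * δ) * 1 := by gcongr
      _ = C ^ 2 * t * δ := by ring
  have hE1b : ‖E1 / (b : ℂ)‖ * x ^ 3 ≤ C * δ ^ 2 := by
    rw [norm_div, Complex.norm_real, Real.norm_of_nonneg hb.le, div_mul_eq_mul_div,
      div_le_iff₀ hb]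
    exact e1
  have hE2c : ‖E2 / (c : ℂ)‖ * y ^ 3 ≤ C * δ ^ 2 := by
    rw [norm_div, Complex.norm_real, Real.norm_of_nonneg hc.le, div_mul_eq_mul_div,
      div_le_iff₀ hc]
    exact e2
  have hxy : x ^ 3 ≤ 8 * y ^ 3 := by
    calc x ^ 3 ≤ (2 * y) ^ 3 := pow_le_pow_left₀ hx0.le (by linarith) 3
      _ = 8 * y ^ 3 := by ring
  have hE2x : ‖E2 / (c : ℂ)‖ * x ^ 3 ≤ 8 * (C * δ ^ 2) := by
    calc ‖E2 / (c : ℂ)‖ * x ^ 3 ≤ ‖E2 / (c : ℂ)‖ * (8 * y ^ 3) :=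
          mul_le_mul_of_nonneg_left hxy (norm_nonneg _)
      _ = 8 * (‖E2 / (c : ℂ)‖ * y ^ 3) := by ring
      _ ≤ 8 * (C * δ ^ 2) := by linarith
  have hCt : 0 ≤ C * t := by positivity
  have g1 : ‖lam / (b : ℂ) * E1‖ * x ^ 3 ≤ C ^ 3 * t * δ ^ 2 * R := by
    rw [norm_mul]
    calc ‖lam / (b : ℂ)‖ * ‖E1‖ * x ^ 3 = ‖lam / (b : ℂ)‖ * (‖E1‖ * x ^ 3) := by ring
      _ ≤ (C * t) * (C * δ ^ 2 * b) :=
          mul_le_mul (lamb he hP) e1 (by positivity) hCt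
      _ ≤ (C * t) * (C * δ ^ 2 * (C * δ)) := by gcongr
      _ ≤ (C * t) * (C * δ ^ 2 * (C * R)) := by gcongr
      _ = C ^ 3 * t * δ ^ 2 * R := by ring
  have g2 : ‖mu * (q - p) / ((z - q) * (z - p) ^ 2)‖ * x ^ 3 ≤ 2 * C ^ 2 * t * δ ^ 2 * R := by
    rw [norm_div, norm_mul, norm_mul, norm_pow]
    have h1 : ‖mu‖ * ‖q - p‖ / (‖z - q‖ * ‖z - p‖ ^ 2) * x ^ 3 = ‖mu‖ * R * (x / y) := by
      rw [← hx, ← hRd, ← hyd]
      field_simp
    rw [h1]
    have h2 : x / y ≤ 2 := by rw [div_le_iff₀ hy0]; linarith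
    calc ‖mu‖ * R * (x / y) ≤ ‖mu‖ * R * 2 := by gcongr
      _ ≤ (C * t * δ * b) * R * 2 := by gcongr; exact hP.m1
      _ ≤ (C * t * δ * (C * δ)) * R * 2 := by gcongr
      _ = 2 * C ^ 2 * t * δ ^ 2 * R := by ring
  have g3 : ‖mu / (q - p) * (E2 / (c : ℂ))‖ * x ^ 3 ≤ 8 * C ^ 3 * t * δ ^ 2 * R := by
    rw [norm_mul]
    calc ‖mu / (q - p)‖ * ‖E2 / (c : ℂ)‖ * x ^ 3
        = ‖mu / (q - p)‖ * (‖E2 / (c : ℂ)‖ * x ^ 3) := by ring
      _ ≤ (C ^ 2 * t * δ) * (8 * (C * δ ^ 2)) :=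
          mul_le_mul hnu hE2x (by positivity) (by positivity)
      _ = 8 * C ^ 3 * t * δ ^ 2 * δ := by ring
      _ ≤ 8 * C ^ 3 * t * δ ^ 2 * R := by gcongr
  have g4 : ‖mu / (q - p) * (E1 / (b : ℂ))‖ * x ^ 3 ≤ C ^ 3 * t * δ ^ 2 * R := by
    rw [norm_mul]
    calc ‖mu / (q - p)‖ * ‖E1 / (b : ℂ)‖ * x ^ 3
        = ‖mu / (q - p)‖ * (‖E1 / (b : ℂ)‖ * x ^ 3) := by ring
      _ ≤ (C ^ 2 * t * δ) * (C * δ ^ 2) :=
          mul_le_mul hnu hE1b (by positivity) (by positivity)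
      _ = C ^ 3 * t * δ ^ 2 * δ := by ring
      _ ≤ C ^ 3 * t * δ ^ 2 * R := by gcongr
  have g5 : ‖E3‖ * x ^ 3 ≤ C ^ 2 * t * δ ^ 2 * R := by
    calc ‖E3‖ * x ^ 3 ≤ C * t * δ ^ 2 * b := e3
      _ ≤ C * t * δ ^ 2 * (C * δ) := by gcongr
      _ ≤ C * t * δ ^ 2 * (C * R) := by gcongr
      _ = C ^ 2 * t * δ ^ 2 * R := by ring
  have hn : ‖lam / (b : ℂ) * E1 + mu * (q - p) / ((z - q) * (z - p) ^ 2) +
      mu / (q - p) * (E2 / (c : ℂ)) - mu / (q - p) * (E1 / (b : ℂ)) - E3‖ ≤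
      ‖lam / (b : ℂ) * E1‖ + ‖mu * (q - p) / ((z - q) * (z - p) ^ 2)‖ +
      ‖mu / (q - p) * (E2 / (c : ℂ))‖ + ‖mu / (q - p) * (E1 / (b : ℂ))‖ + ‖E3‖ :=
    (norm_sub_le _ _).trans (add_le_add ((norm_sub_le _ _).trans (add_le_add
      ((norm_add_le _ _).trans (add_le_add (norm_add_le _ _) le_rfl)) le_rfl)) le_rfl)
  have hx3 : 0 < x ^ 3 := by positivity
  refine hn.trans ?_
  have hrw : 32 * C ^ 4 * t * (δ ^ 2 * R / x ^ 3) = 32 * C ^ 4 * (t * δ ^ 2 * R) / x ^ 3 := by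
    ring
  rw [hrw, le_div_iff₀ hx3]
  have hT : 0 ≤ t * δ ^ 2 * R := by positivity
  have hC23 : C ^ 2 ≤ C ^ 4 := pow_le_pow_right₀ hC (by norm_num)
  have hC34 : C ^ 3 ≤ C ^ 4 := pow_le_pow_right₀ hC (by norm_num)
  have k1 := mul_le_mul_of_nonneg_right hC23 hT
  have k2 := mul_le_mul_of_nonneg_right hC34 hT
  have k3 : 0 ≤ C ^ 4 * (t * δ ^ 2 * R) := by positivity
  nlinarith

/-- the estimate for one piece -/
theorem piece {C δ t b c : ℝ} {p q lam mu : ℂ} {e f P : ℂ → ℂ} (hC : 1 ≤ C) (hδ : 0 < δ)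
    (ht : 0 ≤ t) (he : Loc C δ p b e) (hf : Loc C δ q c f) (hP : Pie C δ t p b P lam mu)
    (hbc : b ≤ c) (hR : δ ≤ ‖q - p‖) (z : ℂ) :
    ‖lam / (b : ℂ) * e z + mu / (q - p) * (f z / (c : ℂ) - e z / (b : ℂ)) - P z‖ ≤
      32 * C ^ 4 * t * (if ‖z - p‖ ≤ 2 * ‖q - p‖ then δ / max δ ‖z - p‖
        else δ ^ 2 * ‖q - p‖ / ‖z - p‖ ^ 3) := by
  split_ifs with h
  · refine (near hC hδ ht he hf hP hbc hR z h).trans ?_
    have h1 : 6 * C ^ 2 * t ≤ 32 * C ^ 4 * t := by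
      apply mul_le_mul_of_nonneg_right _ ht
      have : C ^ 2 ≤ C ^ 4 := pow_le_pow_right₀ hC (by norm_num)
      have : 0 ≤ C ^ 4 := by positivity
      linarith
    apply mul_le_mul_of_nonneg_right h1
    positivity
  · rw [not_le] at h
    rcases lt_or_ge ‖z - p‖ (2 * C * δ) with h2 | h2
    · exact far1 hC hδ ht he hf hP hbc hR z h h2
    · exact far2 hC hδ ht he hf hP hR z h h2

/-- the trivial estimate -/
theorem triv {C δ t b : ℝ} {p lam mu : ℂ} {e P : ℂ → ℂ} (hC : 1 ≤ C)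
    (ht : 0 ≤ t) (he : Loc C δ p b e) (hP : Pie C δ t p b P lam mu) (z : ℂ) :
    ‖lam / (b : ℂ) * e z - P z‖ ≤ 2 * C * t := by
  have h5 : ‖lam / (b : ℂ) * e z‖ ≤ C * t * 1 := by
    rw [norm_mul]
    exact mul_le_mul (lamb he hP) (he.e1 z) (norm_nonneg _) (by positivity)
  have := norm_sub_le (lam / (b : ℂ) * e z) (P z)
  have := hP.p1 z
  linarith

theorem sum_zero_le {m : ℕ} {c : ℝ} (hc : 0 ≤ c) :
    ∑ j : Fin m, (if j.val = 0 then c else 0) ≤ c := by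
  cases m with
  | zero => simpa using hc
  | succ k =>
    rw [Fin.sum_univ_succ]
    simp

theorem kap {m : ℕ} (s : Fin m → Fin m) (b : Fin m → ℝ) (lam nu f : Fin m → ℂ) :
    ∑ k, (lam k / (b k : ℂ) - nu k / (b k : ℂ) +
      ∑ j, (if s j = k then nu j / (b k : ℂ) else 0)) * f k =
    ∑ j, (lam j / (b j : ℂ) * f j + nu j * (f (s j) / (b (s j) : ℂ) - f j / (b j : ℂ))) := by
  have h1 : ∑ k, (∑ j, (if s j = k then nu j / (b k : ℂ) else 0)) * f k =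
      ∑ j, nu j * (f (s j) / (b (s j) : ℂ)) := by
    calc ∑ k, (∑ j, (if s j = k then nu j / (b k : ℂ) else 0)) * f k
        = ∑ k, ∑ j, (if s j = k then nu j / (b k : ℂ) * f k else 0) := by
          refine Finset.sum_congr rfl fun k _ => ?_
          rw [Finset.sum_mul]
          refine Finset.sum_congr rfl fun j _ => ?_
          split_ifs <;> simp
      _ = ∑ j, ∑ k, (if s j = k then nu j / (b k : ℂ) * f k else 0) := Finset.sum_comm
      _ = ∑ j, nu j * (f (s j) / (b (s j) : ℂ)) := by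
          refine Finset.sum_congr rfl fun j _ => ?_
          rw [Finset.sum_ite_eq Finset.univ (s j) (fun k => nu j / (b k : ℂ) * f k)]
          simp
          ring
  simp only [add_mul, Finset.sum_add_distrib, mul_sub, Finset.sum_sub_distrib, sub_mul, h1]
  have h2 : ∑ x, nu x / (b x : ℂ) * f x = ∑ x, nu x * (f x / (b x : ℂ)) :=
    Finset.sum_congr rfl fun x _ => by ring
  rw [h2]
  ring

end CoreAux

open CoreAux

theorem core (C : ℝ) (hC : 1 ≤ C) : ∃ C' : ℝ, 1 ≤ C' ∧ ∀ (δ t : ℝ) (m : ℕ) (p : Fin m → ℂ)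
    (b : Fin m → ℝ) (e P : Fin m → ℂ → ℂ) (lam mu : Fin m → ℂ), 0 < δ → 0 ≤ t →
    (∀ i j, i ≠ j → δ ≤ ‖p i - p j‖) → (∀ i, Loc C δ (p i) (b i) (e i)) →
    (∀ i, Pie C δ t (p i) (b i) (P i) (lam i) (mu i)) → (∀ i j, i ≤ j → b j ≤ b i) →
    ∃ κ : Fin m → ℂ, (∀ i, ‖κ i‖ ≤ C' * t) ∧
      (∀ z, ‖∑ i, κ i * e i z - ∑ i, P i z‖ ≤ C' * t) ∧
      ∑ i, κ i * (b i : ℂ) = ∑ i, lam i := by
  obtain ⟨K, hK, hpack⟩ := pack
  have hC0 : 0 < C := by linarith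
  have hK0 : 0 < K := by linarith
  have hC4 : C ≤ C ^ 4 := le_self_pow₀ hC (by norm_num)
  refine ⟨2 * C + 32 * C ^ 4 * K, by nlinarith [mul_pos hC0 hK0, pow_pos hC0 4], ?_⟩
  intro δ t m p b e P lam mu hδ ht hsep hL hP hmono
  -- the nearest earlier point
  have hex : ∀ j : Fin m, ∃ i : Fin m, 0 < j.val → i < j ∧ ∀ k, k < j →
      ‖p i - p j‖ ≤ ‖p k - p j‖ := by
    intro j
    by_cases hj : 0 < j.val
    · have hne : (Finset.univ.filter (fun k : Fin m => k < j)).Nonempty :=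
        ⟨⟨0, by omega⟩, Finset.mem_filter.2 ⟨Finset.mem_univ _, Fin.lt_def.2 hj⟩⟩
      obtain ⟨i, hi, hmin⟩ := Finset.exists_min_image _ (fun k => ‖p k - p j‖) hne
      exact ⟨i, fun _ => ⟨(Finset.mem_filter.1 hi).2, fun k hk => hmin k
        (Finset.mem_filter.2 ⟨Finset.mem_univ _, hk⟩)⟩⟩
    · exact ⟨j, fun h => absurd h hj⟩
  choose s hs using hex
  obtain ⟨R, hR⟩ : ∃ R : Fin m → ℝ, ∀ j, R j = if 0 < j.val then ‖p (s j) - p j‖ else δ :=
    ⟨_, fun _ => rfl⟩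
  obtain ⟨nu, hnu⟩ : ∃ nu : Fin m → ℂ, ∀ j, nu j = if 0 < j.val then mu j / (p (s j) - p j)
    else 0 := ⟨_, fun _ => rfl⟩
  have hsj : ∀ j : Fin m, 0 < j.val → δ ≤ ‖p (s j) - p j‖ := fun j hj =>
    hsep _ _ (hs j hj).1.ne
  have hRδ : ∀ j, δ ≤ R j := by
    intro j
    rw [hR]
    split_ifs with h
    · exact hsj j h
    · exact le_rfl
  have hRmin : ∀ i j, i < j → R j ≤ ‖p i - p j‖ := by
    intro i j hij
    have hj : 0 < j.val := by
      have := Fin.lt_def.1 hij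
      omega
    rw [hR, if_pos hj]
    exact (hs j hj).2 i hij
  have hpk := fun z => hpack m p R δ z hδ hsep hRδ hRmin
  obtain ⟨w, hw⟩ : ∃ w : ℂ → Fin m → ℝ, ∀ z j, w z j = if ‖z - p j‖ ≤ 2 * R j then
    δ / max δ ‖z - p j‖ else δ ^ 2 * R j / ‖z - p j‖ ^ 3 := ⟨_, fun _ _ => rfl⟩
  have hwK : ∀ z, ∑ j, w z j ≤ K := by
    intro z
    simp only [hw]
    exact hpk z
  have hw0 : ∀ z j, 0 ≤ w z j := by
    intro z j
    have := hδ.trans_le (hRδ j)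
    rw [hw]
    split_ifs <;> positivity
  have hnub : ∀ j, ‖nu j‖ ≤ C * t * b j * (δ / R j) := by
    intro j
    have hb := (hL j).b0
    have := hδ.trans_le (hRδ j)
    rw [hnu]
    split_ifs with h
    · have h1 := nub (q := p (s j)) hδ (hP j) (hsj j h)
      rw [hR, if_pos h]
      exact h1
    · simp only [norm_zero]
      positivity
  refine ⟨fun k => lam k / (b k : ℂ) - nu k / (b k : ℂ) +
      ∑ j, (if s j = k then nu j / (b k : ℂ) else 0), ?_, ?_, ?_⟩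
  · intro k
    have hbk := (hL k).b0
    have h1 : ‖lam k / (b k : ℂ)‖ ≤ C * t := lamb (hL k) (hP k)
    have h2 : ‖nu k / (b k : ℂ)‖ ≤ C * t := by
      rw [norm_div, Complex.norm_real, Real.norm_of_nonneg hbk.le, div_le_iff₀ hbk]
      have h3 : δ / R k ≤ 1 := by
        rw [div_le_iff₀ (hδ.trans_le (hRδ k)), one_mul]
        exact hRδ k
      calc ‖nu k‖ ≤ C * t * b k * (δ / R k) := hnub k
        _ ≤ C * t * b k * 1 := mul_le_mul_of_nonneg_left h3 (by positivity)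
        _ = C * t * b k := by ring
    have h3 : ∀ j, ‖(if s j = k then nu j / (b k : ℂ) else 0)‖ ≤ C * t * w (p k) j := by
      intro j
      split_ifs with h
      · rw [norm_div, Complex.norm_real, Real.norm_of_nonneg hbk.le, div_le_iff₀ hbk]
        by_cases hj : 0 < j.val
        · have h4 := (hs j hj).1
          rw [h] at h4
          have h5 : ‖p k - p j‖ = R j := by rw [hR, if_pos hj, h]
          have h6 : w (p k) j = δ / R j := by
            rw [hw, h5, if_pos (by linarith [hRδ j]), max_eq_right (hRδ j)]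
          rw [h6]
          have h7 := hmono k j h4.le
          have := hδ.trans_le (hRδ j)
          calc ‖nu j‖ ≤ C * t * b j * (δ / R j) := hnub j
            _ ≤ C * t * b k * (δ / R j) := by gcongr
            _ = C * t * (δ / R j) * b k := by ring
        · rw [hnu, if_neg hj, norm_zero]
          have := hw0 (p k) j
          positivity
      · rw [norm_zero]
        have := hw0 (p k) j
        positivity
    calc ‖lam k / (b k : ℂ) - nu k / (b k : ℂ) +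
          ∑ j, (if s j = k then nu j / (b k : ℂ) else 0)‖
        ≤ ‖lam k / (b k : ℂ)‖ + ‖nu k / (b k : ℂ)‖ +
          ∑ j, ‖(if s j = k then nu j / (b k : ℂ) else 0)‖ :=
          (norm_add_le _ _).trans (add_le_add (norm_sub_le _ _) (norm_sum_le _ _))
      _ ≤ C * t + C * t + ∑ j, C * t * w (p k) j := by
          have := Finset.sum_le_sum (fun j (_ : j ∈ Finset.univ) => h3 j)
          linarith
      _ = 2 * C * t + C * t * ∑ j, w (p k) j := by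
          rw [← Finset.mul_sum]
          ring
      _ ≤ 2 * C * t + C * t * K := by
          have := mul_le_mul_of_nonneg_left (hwK (p k)) (by positivity : 0 ≤ C * t)
          linarith
      _ ≤ (2 * C + 32 * C ^ 4 * K) * t := by
          have h8 : 0 ≤ K * t := by positivity
          have h9 : C * (K * t) ≤ 32 * C ^ 4 * (K * t) :=
            mul_le_mul_of_nonneg_right (by nlinarith [pow_pos hC0 4]) h8
          nlinarith
  · intro z
    rw [kap s b lam nu (fun k => e k z), ← Finset.sum_sub_distrib]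
    have h1 : ∀ j, ‖lam j / (b j : ℂ) * e j z + nu j * (e (s j) z / (b (s j) : ℂ) -
        e j z / (b j : ℂ)) - P j z‖ ≤
        (if j.val = 0 then 2 * C * t else 0) + 32 * C ^ 4 * t * w z j := by
      intro j
      by_cases hj : 0 < j.val
      · rw [if_neg hj.ne', zero_add, hnu, if_pos hj, hw, hR, if_pos hj]
        have h2 := hmono (s j) j (hs j hj).1.le
        exact piece hC hδ ht (hL j) (hL (s j)) (hP j) h2 (hsj j hj) z
      · have hj0 : j.val = 0 := by omega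
        rw [if_pos hj0, hnu, if_neg hj, zero_mul, add_zero]
        have h2 := triv hC ht (hL j) (hP j) z
        have h3 := hw0 z j
        have h4 : 0 ≤ 32 * C ^ 4 * t * w z j := by positivity
        linarith
    calc ‖∑ j, (lam j / (b j : ℂ) * e j z + nu j * (e (s j) z / (b (s j) : ℂ) -
        e j z / (b j : ℂ)) - P j z)‖
        ≤ ∑ j, ‖lam j / (b j : ℂ) * e j z + nu j * (e (s j) z / (b (s j) : ℂ) -
        e j z / (b j : ℂ)) - P j z‖ := norm_sum_le _ _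
      _ ≤ ∑ j, ((if j.val = 0 then 2 * C * t else 0) + 32 * C ^ 4 * t * w z j) :=
          Finset.sum_le_sum (fun j _ => h1 j)
      _ = ∑ j : Fin m, (if j.val = 0 then 2 * C * t else 0) +
          32 * C ^ 4 * t * ∑ j, w z j := by
          rw [Finset.sum_add_distrib, ← Finset.mul_sum]
      _ ≤ 2 * C * t + 32 * C ^ 4 * t * K :=
          add_le_add (sum_zero_le (by positivity))
            (mul_le_mul_of_nonneg_left (hwK z) (by positivity))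
      _ = (2 * C + 32 * C ^ 4 * K) * t := by ring
  · rw [kap s b lam nu (fun k => (b k : ℂ))]
    refine Finset.sum_congr rfl fun j _ => ?_
    have h1 : (b j : ℂ) ≠ 0 := by exact_mod_cast (hL j).b0.ne'
    have h2 : (b (s j) : ℂ) ≠ 0 := by exact_mod_cast (hL (s j)).b0.ne'
    rw [div_self h1, div_self h2, sub_self, mul_zero, add_zero, div_mul_cancel₀ _ h1]

end Pool.Agent.H352R4.CA
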