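import Pool.Agent.H352R4.CA.Defs

/-!
# Continuous analytic capacity: decomposition of a density
-/

set_option autoImplicit false

open MeasureTheory Complex Filter Topology Metric
open scoped ComplexConjugate
open Pool.Agent.H352R3.SA
open Pool.Agent.H761R2.SV (dbar)

namespace Pool.Agent.H352R4.CA

theorem decomp {ι : Type*} (J : Finset ι) (G : ι → ℂ → ℝ) (hG : ∀ j ∈ J, Den (G j))
    {D : ℂ → ℂ} (hD : Continuous D) (hle : ∀ z, ‖D z‖ ≤ ∑ j ∈ J, G j z) :
    ∃ D' : ι → ℂ → ℂ, (∀ j ∈ J, Continuous (D' j)) ∧ (∀ j ∈ J, ∀ z, ‖D' j z‖ ≤ G j z) ∧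
      ∀ z, D z = ∑ j ∈ J, D' j z := by
  have hc : ∀ j ∈ J, Continuous (G j) := fun j hj => (hG j hj).cont
  have hn : ∀ j ∈ J, ∀ z, 0 ≤ G j z := fun j hj => (hG j hj).nonneg
  have hSc : Continuous fun z => ∑ j ∈ J, G j z := continuous_finsetSum J hc
  have hSn : ∀ z, 0 ≤ ∑ j ∈ J, G j z := fun z => Finset.sum_nonneg fun j hj => hn j hj z
  have hb : ∀ j ∈ J, ∀ z, ‖D z * ((G j z / ∑ i ∈ J, G i z : ℝ) : ℂ)‖ ≤ G j z := by
    intro j hj z
    rw [norm_mul, Complex.norm_real, Real.norm_eq_abs, abs_of_nonneg (div_nonneg (hn j hj z) (hSn z))]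
    rcases (hSn z).eq_or_lt with h0 | h0
    · rw [← h0, div_zero, mul_zero]
      exact hn j hj z
    · rw [← mul_div_assoc, div_le_iff₀ h0, mul_comm]
      exact mul_le_mul_of_nonneg_left (hle z) (hn j hj z)
  refine ⟨fun j z => D z * ((G j z / ∑ i ∈ J, G i z : ℝ) : ℂ), fun j hj => ?_, hb, fun z => ?_⟩
  · rw [continuous_iff_continuousAt]
    intro z
    by_cases h0 : ∑ i ∈ J, G i z = 0
    · have hGz : G j z = 0 := (Finset.sum_eq_zero_iff_of_nonneg fun i hi => hn i hi z).1 h0 j hj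
      have hDz : D z * ((G j z / ∑ i ∈ J, G i z : ℝ) : ℂ) = 0 := by
        rw [h0, div_zero, Complex.ofReal_zero, mul_zero]
      show Tendsto (fun z => D z * ((G j z / ∑ i ∈ J, G i z : ℝ) : ℂ)) (𝓝 z)
        (𝓝 (D z * ((G j z / ∑ i ∈ J, G i z : ℝ) : ℂ)))
      rw [hDz]
      refine squeeze_zero_norm (hb j hj) ?_
      have h1 := (hc j hj).tendsto z
      rwa [hGz] at h1
    · refine hD.continuousAt.mul (Complex.continuous_ofReal.continuousAt.comp ?_)
      exact (hc j hj).continuousAt.div hSc.continuousAt h0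
  · rw [← Finset.mul_sum, ← Complex.ofReal_sum, ← Finset.sum_div]
    by_cases h0 : ∑ i ∈ J, G i z = 0
    · have h1 := hle z
      rw [h0] at h1
      rw [norm_le_zero_iff.1 h1, zero_mul]
    · rw [div_self h0, Complex.ofReal_one, mul_one]

end Pool.Agent.H352R4.CA
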