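import Pool.Agent.H352R4.CA.Defs

/-!
# Module MMA: majorant modulus of a function (helper215)
-/

set_option autoImplicit false

open MeasureTheory Complex Filter Topology Metric
open scoped ComplexConjugate ZeroAtInfty
open Pool.Agent.H352R3.SA
open Pool.Agent.H761R2.SV (dbar)

namespace Pool.Agent.H352R4.CA

namespace Mma

/-- the term of the pair `p` -/
noncomputable def trm (f : ℂ → ℂ) (s : ℝ) (p : ℂ × ℂ) : ℝ :=
  ‖f p.1 - f p.2‖ * min 1 (Real.sqrt (s / ‖p.1 - p.2‖))

/-- the modulus -/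
noncomputable def om (f : ℂ → ℂ) (s : ℝ) : ℝ := Real.sqrt s + ⨆ p : ℂ × ℂ, trm f s p

theorem trm_nonneg (f : ℂ → ℂ) (s : ℝ) (p : ℂ × ℂ) : 0 ≤ trm f s p := by
  unfold trm
  positivity

theorem trm_le {f : ℂ → ℂ} {C : ℝ} (hC : ∀ x y, dist (f x) (f y) ≤ C) (s : ℝ) (p : ℂ × ℂ) :
    trm f s p ≤ C := by
  unfold trm
  have h1 := hC p.1 p.2
  rw [dist_eq_norm] at h1
  calc ‖f p.1 - f p.2‖ * min 1 (Real.sqrt (s / ‖p.1 - p.2‖)) ≤ ‖f p.1 - f p.2‖ * 1 :=
        mul_le_mul_of_nonneg_left (min_le_left _ _) (norm_nonneg _)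
    _ ≤ C := by rw [mul_one]; exact h1

theorem bddA {f : ℂ → ℂ} {C : ℝ} (hC : ∀ x y, dist (f x) (f y) ≤ C) (s : ℝ) :
    BddAbove (Set.range (trm f s)) := by
  refine ⟨C, ?_⟩
  rintro _ ⟨p, rfl⟩
  exact trm_le hC s p

end Mma

open Mma in
theorem exists_mod {f : ℂ → ℂ} (hf : Continuous f) (h0 : Tendsto f (cocompact ℂ) (𝓝 0)) :
    ∃ ω : ℝ → ℝ, Mod ω ∧ ∀ z u, ‖f (z + u) - f z‖ ≤ ω ‖u‖ := by
  obtain ⟨C, hC⟩ : ∃ C, ∀ x y : ℂ, dist (f x) (f y) ≤ C :=
    ZeroAtInftyContinuousMap.bounded (⟨⟨f, hf⟩, h0⟩ : C₀(ℂ, ℂ))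
  have hC0 : 0 ≤ C := dist_nonneg.trans (hC 0 0)
  have huc : UniformContinuous f := hf.uniformContinuous_of_tendsto_cocompact h0
  have hle : ∀ s p, trm f s p ≤ om f s := by
    intro s p
    unfold om
    have h1 := le_ciSup (bddA hC s) p
    have h2 := Real.sqrt_nonneg s
    linarith
  refine ⟨om f, ⟨?_, ?_, ?_, ?_, ?_⟩, ?_⟩
  · exact (trm_nonneg f 0 (0, 0)).trans (hle 0 (0, 0))
  · intro s hs
    unfold om
    have h1 := (trm_nonneg f s (0, 0)).trans (le_ciSup (bddA hC s) (0, 0))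
    have h2 := Real.sqrt_pos.2 hs
    linarith
  · intro s s' hs hss
    unfold om
    apply add_le_add (Real.sqrt_le_sqrt hss)
    apply ciSup_mono (bddA hC s')
    intro p
    unfold trm
    apply mul_le_mul_of_nonneg_left _ (norm_nonneg _)
    apply min_le_min_left
    apply Real.sqrt_le_sqrt
    exact div_le_div_of_nonneg_right hss (norm_nonneg _)
  · intro s s' hs hss
    have hs' : 0 < s' := lt_of_lt_of_le hs hss
    have e1 : Real.sqrt s' = Real.sqrt (s' / s) * Real.sqrt s := by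
      rw [← Real.sqrt_mul (by positivity), div_mul_cancel₀ _ hs.ne']
    have h1 : 1 ≤ Real.sqrt (s' / s) := by
      rw [Real.one_le_sqrt, one_le_div hs]
      exact hss
    unfold om
    rw [mul_add, ← e1]
    apply add_le_add le_rfl
    apply ciSup_le
    intro p
    have h2 : trm f s' p ≤ Real.sqrt (s' / s) * trm f s p := by
      unfold trm
      have h3 : min 1 (Real.sqrt (s' / ‖p.1 - p.2‖)) ≤
          Real.sqrt (s' / s) * min 1 (Real.sqrt (s / ‖p.1 - p.2‖)) := by
        rcases min_choice 1 (Real.sqrt (s / ‖p.1 - p.2‖)) with h4 | h4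
        · rw [h4, mul_one]
          exact (min_le_left _ _).trans h1
        · rw [h4, ← Real.sqrt_mul (by positivity)]
          refine (min_le_right _ _).trans (le_of_eq ?_)
          congr 1
          field_simp
      calc ‖f p.1 - f p.2‖ * min 1 (Real.sqrt (s' / ‖p.1 - p.2‖))
          ≤ ‖f p.1 - f p.2‖ * (Real.sqrt (s' / s) * min 1 (Real.sqrt (s / ‖p.1 - p.2‖))) :=
            mul_le_mul_of_nonneg_left h3 (norm_nonneg _)
        _ = _ := by ring
    refine h2.trans ?_
    exact mul_le_mul_of_nonneg_left (le_ciSup (bddA hC s) p) (Real.sqrt_nonneg _)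
  · rw [Metric.tendsto_nhds]
    intro q hq
    rw [Metric.uniformContinuous_iff] at huc
    obtain ⟨d0, hd0, hd⟩ := huc (q / 2) (by positivity)
    have hlim : Tendsto (fun s : ℝ => Real.sqrt s + (q / 2 + C * Real.sqrt (s / d0))) (𝓝[>] 0)
        (𝓝 (q / 2)) := by
      have h6 : Continuous (fun s : ℝ => Real.sqrt s + (q / 2 + C * Real.sqrt (s / d0))) := by
        fun_prop
      have h7 := (h6.tendsto 0).mono_left (nhdsWithin_le_nhds (s := Set.Ioi (0 : ℝ)))
      simpa using h7
    have hev := hlim.eventually (gt_mem_nhds (show q / 2 < q by linarith))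
    filter_upwards [hev, self_mem_nhdsWithin] with s hs hs0
    have hs0' : 0 < s := hs0
    have hnn : 0 ≤ om f s := (trm_nonneg f s (0, 0)).trans (hle s (0, 0))
    rw [Real.dist_eq, sub_zero, abs_of_nonneg hnn]
    refine lt_of_le_of_lt ?_ hs
    unfold om
    apply add_le_add le_rfl
    apply ciSup_le
    intro p
    have hsq := Real.sqrt_nonneg (s / d0)
    by_cases hp : ‖p.1 - p.2‖ < d0
    · have h1 := hd (a := p.1) (b := p.2) (by rw [dist_eq_norm]; exact hp)
      rw [dist_eq_norm] at h1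
      have h2 : trm f s p ≤ q / 2 := by
        unfold trm
        calc ‖f p.1 - f p.2‖ * min 1 (Real.sqrt (s / ‖p.1 - p.2‖)) ≤ ‖f p.1 - f p.2‖ * 1 :=
              mul_le_mul_of_nonneg_left (min_le_left _ _) (norm_nonneg _)
          _ ≤ q / 2 := by rw [mul_one]; exact h1.le
      have h3 := mul_nonneg hC0 hsq
      linarith
    · have hp' : d0 ≤ ‖p.1 - p.2‖ := not_lt.1 hp
      have h2 : trm f s p ≤ C * Real.sqrt (s / d0) := by
        unfold trm
        have h1 := hC p.1 p.2
        rw [dist_eq_norm] at h1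
        apply mul_le_mul h1 _ _ hC0
        · refine (min_le_right _ _).trans ?_
          apply Real.sqrt_le_sqrt
          exact div_le_div_of_nonneg_left hs0'.le hd0 hp'
        · exact le_min zero_le_one (Real.sqrt_nonneg _)
      linarith
  · intro z u
    by_cases hu : u = 0
    · subst hu
      rw [add_zero, sub_self, norm_zero]
      exact (trm_nonneg f 0 (0, 0)).trans (hle 0 (0, 0))
    · have hu' : 0 < ‖u‖ := norm_pos_iff.2 hu
      refine le_trans (le_of_eq ?_) (hle ‖u‖ (z + u, z))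
      unfold trm
      simp only [add_sub_cancel_left]
      rw [div_self hu'.ne', Real.sqrt_one, min_self, mul_one]

end Pool.Agent.H352R4.CA
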