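import Pool.Agent.H352R4.CA.Mai
import Pool.Agent.H352R4.CA.Mma
import Pool.Agent.H352R4.CA.Ali
import Pool.Agent.H352R4.CA.Alb
import Pool.Agent.H352R4.CA.Max

/-!
# Continuous analytic capacity is subadditive
-/

set_option autoImplicit false

open MeasureTheory Complex Filter Topology Metric
open scoped ComplexConjugate
open Pool.Agent.H352R3.SA

namespace Pool.Agent.H352R4.CA



theorem alpha_union_le {A B : Set ℂ} (hA : IsCompact A) (hB : IsCompact B) :
    alpha (A ∪ B) ≤ alpha A + alpha B := by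
  have h0 : 0 ≤ alpha A + alpha B := add_nonneg (alpha_nonneg A) (alpha_nonneg B)
  refine Real.sSup_le ?_ h0
  rintro c ⟨f, l, hf, hb, rfl⟩
  obtain ⟨ω, hω, ho⟩ := exists_mod hf.cont hf.zero
  have key : ∀ η : ℝ, 0 < η → η < 1 → (1 - η) * ‖l‖ ≤ (1 + η) * (alpha A + alpha B) := by
    intro η hη hη1
    obtain ⟨Θ, -, -, -, hm⟩ := main hω hη hη1
    have h1 := hm A B hA hB f l hf hb ho
    refine h1.trans ?_
    have h2 := al_le_alpha (Ω := Θ) hA
    have h3 := al_le_alpha (Ω := Θ) hB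
    apply mul_le_mul_of_nonneg_left (add_le_add h2 h3) (by linarith)
  -- let η → 0
  have t1 : Tendsto (fun η : ℝ => (1 - η) * ‖l‖) (𝓝[>] 0) (𝓝 ((1 - 0) * ‖l‖)) := by
    have : Continuous fun η : ℝ => (1 - η) * ‖l‖ := by fun_prop
    exact (this.tendsto 0).mono_left nhdsWithin_le_nhds
  have t2 : Tendsto (fun η : ℝ => (1 + η) * (alpha A + alpha B)) (𝓝[>] 0)
      (𝓝 ((1 + 0) * (alpha A + alpha B))) := by
    have : Continuous fun η : ℝ => (1 + η) * (alpha A + alpha B) := by fun_prop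
    exact (this.tendsto 0).mono_left nhdsWithin_le_nhds
  have h4 := le_of_tendsto_of_tendsto t1 t2 (by
    filter_upwards [Ioo_mem_nhdsGT (show (0:ℝ) < 1 by norm_num)] with η hη
    exact key η hη.1 hη.2)
  simpa using h4

theorem alpha_remove {E K : Set ℂ} (hE : IsCompact E) (hK : IsCompact K) (h0 : alpha K = 0) :
    sSup {c : ℝ | ∃ L : Set ℂ, IsCompact L ∧ L ⊆ E \ K ∧ c = alpha L} = alpha E := by
  set T : Set ℝ := {c : ℝ | ∃ L : Set ℂ, IsCompact L ∧ L ⊆ E \ K ∧ c = alpha L} with hT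
  have hbd : BddAbove T := by
    refine ⟨alpha E, ?_⟩
    rintro c ⟨L, hL, hLE, rfl⟩
    exact alpha_mono hE (hLE.trans Set.sdiff_subset)
  have hT0 : 0 ≤ sSup T := by
    refine Real.sSup_nonneg ?_
    rintro c ⟨L, hL, hLE, rfl⟩
    exact alpha_nonneg L
  apply le_antisymm
  · refine Real.sSup_le ?_ (alpha_nonneg E)
    rintro c ⟨L, hL, hLE, rfl⟩
    exact alpha_mono hE (hLE.trans Set.sdiff_subset)
  refine Real.sSup_le ?_ hT0
  rintro c ⟨f, l, hf, hb, rfl⟩
  obtain ⟨ω, hω, ho⟩ := exists_mod hf.cont hf.zero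
  have key : ∀ η : ℝ, 0 < η → η < 1 → (1 - η) * ‖l‖ ≤ (1 + η) * (sSup T + η) := by
    intro η hη hη1
    obtain ⟨Θ, hΘ0, hΘm, hΘl, hm⟩ := main hω hη hη1
    -- radius
    have hεpos : ∀ n : ℕ, 0 < (1:ℝ) / ((n:ℝ) + 1) := fun n => by positivity
    have hev := al_limit hK (Ωn := fun _ => Θ) (Θ := Θ) (fun _ => hΘm) hΘ0 hΘm hΘl
      (fun s _ => Eventually.of_forall fun _ => le_rfl) hεpos
      tendsto_one_div_add_atTop_nhds_zero_nat hη
    obtain ⟨n, hn⟩ := hev.exists
    set r : ℝ := (1:ℝ) / ((n:ℝ) + 1) with hr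
    have hrpos : 0 < r := hεpos n
    have hKr : al Θ (cthickening r K) ≤ η := by
      have h1 : al Θ K ≤ 0 := by rw [← h0]; exact al_le_alpha hK
      have h2 : al Θ (cthickening r K) ≤ al Θ K + η := hn
      linarith
    have cA : IsCompact (E \ thickening r K) := hE.diff isOpen_thickening
    have cB : IsCompact (E ∩ cthickening r K) := hE.inter_right isClosed_cthickening
    have hcK : IsCompact (cthickening r K) := hK.cthickening
    have hsub : (E \ thickening r K) ∪ (E ∩ cthickening r K) = E := by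
      ext z
      constructor
      · rintro (h | h)
        · exact h.1
        · exact h.1
      · intro hz
        by_cases h : z ∈ thickening r K
        · exact Or.inr ⟨hz, thickening_subset_cthickening r K h⟩
        · exact Or.inl ⟨hz, h⟩
    have h1 := hm (E \ thickening r K) (E ∩ cthickening r K) cA cB f l (by rw [hsub]; exact hf) hb ho
    refine h1.trans ?_
    have h2 : al Θ (E \ thickening r K) ≤ sSup T := by
      refine (al_le_alpha cA).trans (le_csSup hbd ⟨E \ thickening r K, cA, ?_, rfl⟩)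
      intro z hz
      exact ⟨hz.1, fun hzK => hz.2 (self_subset_thickening hrpos K hzK)⟩
    have h3 : al Θ (E ∩ cthickening r K) ≤ η :=
      (al_mono hcK (fun s _ => le_rfl) Set.inter_subset_right).trans hKr
    apply mul_le_mul_of_nonneg_left (add_le_add h2 h3) (by linarith)
  have t1 : Tendsto (fun η : ℝ => (1 - η) * ‖l‖) (𝓝[>] 0) (𝓝 ((1 - 0) * ‖l‖)) := by
    have : Continuous fun η : ℝ => (1 - η) * ‖l‖ := by fun_prop
    exact (this.tendsto 0).mono_left nhdsWithin_le_nhds
  have t2 : Tendsto (fun η : ℝ => (1 + η) * (sSup T + η)) (𝓝[>] 0)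
      (𝓝 ((1 + 0) * (sSup T + 0))) := by
    have : Continuous fun η : ℝ => (1 + η) * (sSup T + η) := by fun_prop
    exact (this.tendsto 0).mono_left nhdsWithin_le_nhds
  have h4 := le_of_tendsto_of_tendsto t1 t2 (by
    filter_upwards [Ioo_mem_nhdsGT (show (0:ℝ) < 1 by norm_num)] with η hη
    exact key η hη.1 hη.2)
  simpa using h4

end Pool.Agent.H352R4.CA
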