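import Pool.Agent.H352R4.CA.Sim

/-!
# The extremal function of a density
-/

set_option autoImplicit false

open MeasureTheory Complex Filter Topology Metric
open scoped ComplexConjugate
open Pool.Agent.H352R3.SA

namespace Pool.Agent.H352R4.CA

theorem extremal {g : ℂ → ℝ} (hg : Den g) : ∃ D : ℂ → ℂ, Continuous D ∧ HasCompactSupport D ∧
    (∀ z, ‖D z‖ ≤ g z) ∧ (∀ z, ‖pot D z‖ ≤ 1) ∧ ∫ z, D z = (Gam g : ℂ) := by
  have hsol := LK_sol hg
  set L : ℂ → ℂ := fun z => (LK g).1 z with hL
  set K : ℂ → ℂ := fun z => (LK g).2 z with hK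
  have cL : Continuous L := hsol.cL
  have cK : Continuous K := hsol.cK
  have hlt : ∀ z, ‖K z‖ < ‖L z‖ := fun z => norm_K_lt hg z
  have hL0 : ∀ z, L z ≠ 0 := fun z h => by
    have := hlt z
    rw [h, norm_zero] at this
    exact absurd this (not_lt.2 (norm_nonneg _))
  have cg : HasCompactSupport (fun w => (g w : ℂ)) :=
    hg.supp.comp_left (g := fun x : ℝ => (x : ℂ)) ofReal_zero
  have gc : Continuous (fun w => (g w : ℂ)) := continuous_ofReal.comp hg.cont
  -- lam, kap, nu
  set lam : ℂ → ℂ := fun w => -((g w : ℂ) * conj (K w)) with hlam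
  set kap : ℂ → ℂ := fun w => -((g w : ℂ) * conj (L w)) with hkap
  set nu : ℂ → ℂ := fun w => -(lam w / L w ^ 2) with hnu
  have clam : Continuous lam := (gc.mul (continuous_conj.comp cK)).neg
  have ckap : Continuous kap := (gc.mul (continuous_conj.comp cL)).neg
  have slam : HasCompactSupport lam := (cg.mul_right (f' := fun w => conj (K w))).neg
  have skap : HasCompactSupport kap := (cg.mul_right (f' := fun w => conj (L w))).neg
  have cinv : Continuous (fun w => (L w ^ 2)⁻¹) :=
    (cL.pow 2).inv₀ (fun w => pow_ne_zero 2 (hL0 w))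
  have cnu : Continuous nu := by
    have : nu = fun w => -(lam w * (L w ^ 2)⁻¹) := by
      funext w; rw [hnu]; simp only [div_eq_mul_inv]
    rw [this]
    exact (clam.mul cinv).neg
  have snu : HasCompactSupport nu := by
    have : nu = fun w => -(lam w * (L w ^ 2)⁻¹) := by
      funext w; rw [hnu]; simp only [div_eq_mul_inv]
    rw [this]
    exact (slam.mul_right (f' := fun w => (L w ^ 2)⁻¹)).neg
  have hneg : ∀ (φ : ℂ → ℂ) (z : ℂ), pot (fun w => -φ w) z = - pot φ z := by
    intro φ z
    unfold pot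
    rw [← integral_neg]
    congr 1
    funext w
    ring
  have eL : ∀ z, L z = 1 + pot lam z := by
    intro z
    have h := hsol.eL z
    have h2 : L z = 1 + cop g K z := h
    rw [h2, hlam, hneg]
    rfl
  have eK : ∀ z, K z = pot kap z := by
    intro z
    have h := hsol.eK z
    have h2 : K z = 0 + cop g L z := h
    rw [h2, zero_add, hkap, hneg]
    rfl
  have hadd : ∀ (φ ψ : ℂ → ℂ), Continuous φ → HasCompactSupport φ → Continuous ψ →
      HasCompactSupport ψ → ∀ z, pot (fun w => φ w + ψ w) z = pot φ z + pot ψ z := by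
    intro φ ψ hφ cφ hψ cψ z
    unfold pot
    rw [← integral_add (pot_integrable hφ cφ z) (pot_integrable hψ cψ z)]
    congr 1
    funext w
    ring
  -- 1 / L
  have clinv : Continuous (fun w => (L w)⁻¹) := cL.inv₀ hL0
  set Yf : ℂ → ℂ := fun z => L z * (1 + pot nu z) - 1 with hYf
  have cY : Continuous Yf := (cL.mul (continuous_const.add (pot_continuous cnu snu))).sub
    continuous_const
  have hY1 : ∀ z, Yf z = pot (fun w => lam w * (L w)⁻¹ * Yf w) z := by
    intro z
    have e1 : Yf z = pot lam z + pot nu z + pot lam z * pot nu z := by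
      rw [hYf]
      simp only [eL z]
      ring
    have cpl := pot_continuous clam slam
    have cpn := pot_continuous cnu snu
    have c3 : Continuous (fun w => lam w * pot nu w + nu w * pot lam w) :=
      (clam.mul cpn).add (cnu.mul cpl)
    have s3 : HasCompactSupport (fun w => lam w * pot nu w + nu w * pot lam w) :=
      (slam.mul_right (f' := fun w => pot nu w)).add (snu.mul_right (f' := fun w => pot lam w))
    rw [e1, pot_mul clam slam cnu snu, ← hadd lam nu clam slam cnu snu,
      ← hadd (fun w => lam w + nu w) _ (clam.add cnu) (slam.add snu) c3 s3]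
    congr 1
    funext w
    have e2 : pot lam w = L w - 1 := by rw [eL w]; ring
    rw [e2, hYf, hnu]
    field_simp [hL0 w]
    ring
  have hY0 : ∀ z, Yf z = 0 := by
    intro z
    set φ : ℂ → ℂ := fun w => lam w * (L w)⁻¹ * Yf w with hφ
    have c1 : Continuous (fun w => lam w * (L w)⁻¹) := clam.mul clinv
    have s1 : HasCompactSupport (fun w => lam w * (L w)⁻¹) :=
      slam.mul_right (f' := fun w => (L w)⁻¹)
    have cφ : Continuous φ := c1.mul cY
    have sφ : HasCompactSupport φ := s1.mul_right (f' := Yf)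
    have h := pot_exp cφ sφ c1 s1 0 z
    have h2 : (fun w => (φ w - (0 + pot φ w) * (lam w * (L w)⁻¹)) *
        exp (- pot (fun w => lam w * (L w)⁻¹) w)) = fun _ => 0 := by
      funext w
      rw [zero_add, ← hY1 w, hφ]
      ring
    rw [h2] at h
    have h3 : pot (fun _ => (0 : ℂ)) z = 0 := by
      unfold pot
      simp
    rw [h3, zero_add, zero_add] at h
    have h4 := (mul_eq_zero.1 h).resolve_right (exp_ne_zero _)
    rw [hY1 z]
    exact h4
  have hM : ∀ z, L z * (1 + pot nu z) = 1 := by
    intro z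
    have := hY0 z
    rw [hYf] at this
    exact sub_eq_zero.1 this
  -- the function D
  set D : ℂ → ℂ := fun w => (g w : ℂ) * (((‖L w‖ ^ 2 - ‖K w‖ ^ 2 : ℝ) : ℂ) * (L w ^ 2)⁻¹) with hD
  have cD : Continuous D := by
    refine gc.mul (Continuous.mul ?_ cinv)
    exact continuous_ofReal.comp ((cL.norm.pow 2).sub (cK.norm.pow 2))
  have sD : HasCompactSupport D := cg.mul_right
  have hpot : ∀ z, pot D z = -(K z * (L z)⁻¹) := by
    intro z
    have cpk := pot_continuous ckap skap
    have cpn := pot_continuous cnu snu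
    have c3 : Continuous (fun w => kap w * pot nu w + nu w * pot kap w) :=
      (ckap.mul cpn).add (cnu.mul cpk)
    have s3 : HasCompactSupport (fun w => kap w * pot nu w + nu w * pot kap w) :=
      (skap.mul_right (f' := fun w => pot nu w)).add (snu.mul_right (f' := fun w => pot kap w))
    have e1 : K z * (L z)⁻¹ = pot kap z + pot kap z * pot nu z := by
      have e2 : (L z)⁻¹ = 1 + pot nu z := inv_eq_of_mul_eq_one_right (hM z)
      rw [e2, eK z]
      ring
    rw [e1, pot_mul ckap skap cnu snu, ← hadd kap _ ckap skap c3 s3, ← hneg]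
    congr 1
    funext w
    have e3 : pot nu w = (L w)⁻¹ - 1 := by
      have := hM w
      field_simp [hL0 w]
      linear_combination this
    have e4 : pot kap w = K w := (eK w).symm
    rw [e3, e4, hD, hkap, hnu, hlam]
    have e5 : ((‖L w‖ ^ 2 - ‖K w‖ ^ 2 : ℝ) : ℂ) = conj (L w) * L w - conj (K w) * K w := by
      rw [ofReal_sub, ← Complex.normSq_eq_norm_sq, ← Complex.normSq_eq_norm_sq,
        Complex.normSq_eq_conj_mul_self, Complex.normSq_eq_conj_mul_self]
    simp only [e5]
    field_simp [hL0 w]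
    ring
  refine ⟨D, cD, sD, fun z => ?_, fun z => ?_, ?_⟩
  · rw [hD]
    simp only [norm_mul, norm_inv, norm_pow, Complex.norm_real, Real.norm_eq_abs]
    rw [abs_of_nonneg (hg.nonneg z)]
    have h1 := hlt z
    have h2 : 0 < ‖L z‖ := lt_of_le_of_lt (norm_nonneg _) h1
    have h3 : ‖K z‖ ^ 2 ≤ ‖L z‖ ^ 2 := pow_le_pow_left₀ (norm_nonneg _) h1.le 2
    rw [abs_of_nonneg (by linarith)]
    have h4 : (‖L z‖ ^ 2 - ‖K z‖ ^ 2) * (‖L z‖ ^ 2)⁻¹ ≤ 1 := by
      rw [← div_eq_mul_inv, div_le_one (by positivity)]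
      nlinarith [sq_nonneg ‖K z‖]
    calc _ ≤ g z * 1 := mul_le_mul_of_nonneg_left h4 (hg.nonneg z)
      _ = _ := mul_one _
  · rw [hpot, norm_neg, norm_mul, norm_inv, ← div_eq_mul_inv]
    have h1 := hlt z
    have h2 : 0 < ‖L z‖ := lt_of_le_of_lt (norm_nonneg _) h1
    rw [div_le_one h2]
    exact h1.le
  · have t1 := pot_tendsto cD sD
    have t2 : Tendsto (fun z => z * pot D z) (cocompact ℂ) (𝓝 (Gam g : ℂ)) := by
      have t3 : Tendsto (fun z => z * K z) (cocompact ℂ) (𝓝 (-(Gam g : ℂ))) := by
        have t4 := pot_tendsto ckap skap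
        have e1 : ∫ w, kap w = -(Gam g : ℂ) := by
          rw [hkap, integral_neg, Gam_complex hg]
        rw [e1] at t4
        refine t4.congr fun z => ?_
        rw [eK z]
      have t5 : Tendsto L (cocompact ℂ) (𝓝 1) := by
        have t6 := (pot_zero clam slam).const_add (1 : ℂ)
        rw [add_zero] at t6
        exact t6.congr fun z => (eL z).symm
      have t7 := (t3.mul (t5.inv₀ one_ne_zero)).neg
      have e2 : -(-(Gam g : ℂ) * (1 : ℂ)⁻¹) = (Gam g : ℂ) := by simp
      rw [e2] at t7
      refine t7.congr fun z => ?_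
      rw [hpot]
      ring
    exact tendsto_nhds_unique t1 t2

end Pool.Agent.H352R4.CA
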