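import Pool.Agent.H352R4.CA.Max
import Pool.Agent.H352R4.CA.Coe
import Pool.Agent.H352R4.CA.Alb

/-!
# Decay away from `S`
-/

set_option autoImplicit false

open MeasureTheory Complex Filter Topology Metric
open scoped ComplexConjugate
open Pool.Agent.H352R3.SA

namespace Pool.Agent.H352R4.CA

namespace FarAux

theorem quo_lim (z : ℂ) : Tendsto (fun w : ℂ => w * (w - z)⁻¹) (cocompact ℂ) (𝓝 1) := by
  have h1 : Tendsto (fun w : ℂ => (w - z)⁻¹) (cocompact ℂ) (𝓝 0) := by
    have h1 : Tendsto (fun w : ℂ => w - z) (cocompact ℂ) (cocompact ℂ) :=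
      (Homeomorph.subRight z).isClosedEmbedding.tendsto_cocompact
    rw [← Metric.cobounded_eq_cocompact] at h1 ⊢
    exact (tendsto_inv₀_cobounded (α := ℂ)).comp h1
  have h2 : Tendsto (fun w : ℂ => 1 + z * (w - z)⁻¹) (cocompact ℂ) (𝓝 1) := by
    have := (h1.const_mul z).const_add 1
    simpa using this
  refine h2.congr' ?_
  have h3 : ∀ᶠ w : ℂ in cocompact ℂ, w ≠ z := by
    have : ({z} : Set ℂ)ᶜ ∈ cocompact ℂ := (isCompact_singleton).compl_mem_cocompact
    filter_upwards [this] with w hw using hw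
  filter_upwards [h3] with w hw
  have : w - z ≠ 0 := sub_ne_zero.2 hw
  field_simp
  ring

end FarAux

theorem far {S : Set ℂ} {Ω : ℝ → ℝ} {ρ M d : ℝ} {h : ℂ → ℂ} {l z : ℂ} (hS : IsCompact S)
    (hρ : 0 < ρ) (hΩ : GM ρ Ω) (hM : 0 < M) (H : Kc M Ω S h l) (hd : ρ ≤ d)
    (hz : ∀ w ∈ S, d ≤ ‖w - z‖) : ‖h z‖ ≤ 8 * M / d * al Ω S := by
  have hd0 : 0 < d := lt_of_lt_of_le hρ hd
  have hzS : z ∉ S := fun hmem => by
    have := hz z hmem
    rw [sub_self, norm_zero] at this
    linarith
  have hnhds : Sᶜ ∈ 𝓝 z := hS.isClosed.isOpen_compl.mem_nhds hzS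
  have hdz : DifferentiableAt ℂ h z := H.ac.hol.differentiableAt hnhds
  set G : ℂ → ℂ := dslope h z with hG
  have hGne : ∀ w, w ≠ z → G w = (h w - h z) * (w - z)⁻¹ := by
    intro w hw
    rw [hG, dslope_of_ne h hw, slope_def_field, div_eq_mul_inv]
  have hΩ0 : ∀ s, 0 ≤ s → 0 ≤ Ω s := by
    intro s hs
    rcases le_or_gt s ρ with h1 | h1
    · exact (div_nonneg hs hρ.le).trans (hΩ.lin s hs h1)
    · exact le_trans (by norm_num) (hΩ.two s h1)
  have hAc : Ac S G (-h z) := by
    refine ⟨?_, ?_, ?_⟩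
    · rw [← continuousOn_univ]
      exact (continuousOn_dslope univ_mem).2 ⟨H.ac.cont.continuousOn, hdz⟩
    · exact (Complex.differentiableOn_dslope hnhds).2 H.ac.hol
    · have h1 : Tendsto (fun w => (w * (w - z)⁻¹) * (h w - h z)) (cocompact ℂ)
          (𝓝 (1 * (0 - h z))) :=
        (FarAux.quo_lim z).mul (H.ac.zero.sub tendsto_const_nhds)
      rw [one_mul, zero_sub] at h1
      refine h1.congr' ?_
      have h3 : ∀ᶠ w : ℂ in cocompact ℂ, w ≠ z := by
        have : ({z} : Set ℂ)ᶜ ∈ cocompact ℂ := (isCompact_singleton).compl_mem_cocompact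
        filter_upwards [this] with w hw using hw
      filter_upwards [h3] with w hw
      rw [hGne w hw]
      ring
  have hbS : ∀ w ∈ S, ‖G w‖ ≤ 2 * M / d := by
    intro w hw
    have hwz : w ≠ z := fun e => hzS (e ▸ hw)
    rw [hGne w hwz, norm_mul, norm_inv]
    have h1 : ‖h w - h z‖ ≤ 2 * M := by
      have := norm_sub_le (h w) (h z)
      have := H.bd w
      have := H.bd z
      linarith
    have h2 : ‖w - z‖⁻¹ ≤ d⁻¹ := inv_anti₀ hd0 (hz w hw)
    calc _ ≤ (2 * M) * d⁻¹ := mul_le_mul h1 h2 (by positivity) (by positivity)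
      _ = _ := by rw [div_eq_mul_inv]
  have hb : ∀ w, ‖G w‖ ≤ 2 * M / d := hAc.norm_le hS (by positivity) hbS
  have hosc : ∀ w u, ‖G (w + u) - G w‖ ≤ 8 * M / d * Ω ‖u‖ := by
    intro w u
    refine hAc.osc_le hS (s := ‖u‖) (mul_nonneg (by positivity) (hΩ0 _ (norm_nonneg _))) ?_ w u rfl
    intro w hw u' hu'
    set s : ℝ := ‖u‖ with hs
    have hs0 : 0 ≤ s := norm_nonneg _
    have hdw : d ≤ ‖w - z‖ := hz w hw
    rcases le_or_gt s (ρ / 2) with hc | hc
    · have h1 : d / 2 ≤ ‖w + u' - z‖ := by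
        have h2 : ‖w - z‖ ≤ ‖w + u' - z‖ + ‖u'‖ := by
          have := norm_sub_le (w + u' - z) u'
          have e : w + u' - z - u' = w - z := by ring
          rwa [e] at this
        rw [hu'] at h2
        linarith
      have hne1 : w + u' - z ≠ 0 := by
        intro h0
        rw [h0, norm_zero] at h1
        linarith
      have hne2 : w - z ≠ 0 := by
        intro h0
        rw [h0, norm_zero] at hdw
        linarith
      rw [hGne (w + u') (sub_ne_zero.1 hne1), hGne w (sub_ne_zero.1 hne2)]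
      have e1 : (h (w + u') - h z) * (w + u' - z)⁻¹ - (h w - h z) * (w - z)⁻¹ =
          (h (w + u') - h w) * (w + u' - z)⁻¹ -
            (h w - h z) * (u' * ((w + u' - z)⁻¹ * (w - z)⁻¹)) := by
        field_simp
        ring
      rw [e1]
      have i1 : ‖(w + u' - z)⁻¹‖ ≤ 2 / d := by
        rw [norm_inv]
        have := inv_anti₀ (by positivity : 0 < d / 2) h1
        rwa [inv_div] at this
      have i2 : ‖(w - z)⁻¹‖ ≤ 1 / d := by
        rw [norm_inv, one_div]
        exact inv_anti₀ hd0 hdw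
      have b1 : ‖(h (w + u') - h w) * (w + u' - z)⁻¹‖ ≤ (M * Ω s) * (2 / d) := by
        rw [norm_mul]
        have := H.osc w u'
        rw [hu'] at this
        exact mul_le_mul this i1 (norm_nonneg _) (mul_nonneg hM.le (hΩ0 s hs0))
      have b2 : ‖(h w - h z) * (u' * ((w + u' - z)⁻¹ * (w - z)⁻¹))‖ ≤
          (2 * M) * (s * ((2 / d) * (1 / d))) := by
        rw [norm_mul, norm_mul, norm_mul, hu']
        have h3 : ‖h w - h z‖ ≤ 2 * M := by
          have := norm_sub_le (h w) (h z)
          have := H.bd w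
          have := H.bd z
          linarith
        apply mul_le_mul h3 _ (by positivity) (by positivity)
        apply mul_le_mul_of_nonneg_left _ hs0
        exact mul_le_mul i1 i2 (norm_nonneg _) (by positivity)
      have b3 : s / d ≤ Ω s := by
        refine le_trans ?_ (hΩ.lin s hs0 (by linarith))
        exact div_le_div_of_nonneg_left hs0 hρ hd
      calc _ ≤ (M * Ω s) * (2 / d) + (2 * M) * (s * ((2 / d) * (1 / d))) :=
            (norm_sub_le _ _).trans (add_le_add b1 b2)
        _ = 2 * M / d * Ω s + 4 * M / d * (s / d) := by field_simp; ring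
        _ ≤ 2 * M / d * Ω s + 4 * M / d * Ω s := by
            have := mul_le_mul_of_nonneg_left b3 (show 0 ≤ 4 * M / d by positivity)
            linarith
        _ = 6 * M / d * Ω s := by ring
        _ ≤ 8 * M / d * Ω s := by
            apply mul_le_mul_of_nonneg_right _ (hΩ0 s hs0)
            apply div_le_div_of_nonneg_right _ hd0.le
            linarith
    · have h1 : 1 / 2 ≤ Ω s := by
        rcases le_or_gt s ρ with h2 | h2
        · refine le_trans ?_ (hΩ.lin s hs0 h2)
          rw [le_div_iff₀ hρ]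
          linarith
        · exact le_trans (by norm_num) (hΩ.two s h2)
      calc _ ≤ ‖G (w + u')‖ + ‖G w‖ := norm_sub_le _ _
        _ ≤ 2 * M / d + 2 * M / d := add_le_add (hb _) (hb _)
        _ = 8 * M / d * (1 / 2) := by ring
        _ ≤ _ := mul_le_mul_of_nonneg_left h1 (by positivity)
  have hK : Kc (8 * M / d) Ω S G (-h z) := by
    refine ⟨hAc, fun w => (hb w).trans ?_, hosc⟩
    apply div_le_div_of_nonneg_right _ hd0.le
    linarith
  have := hK.le hS (by positivity)
  rwa [norm_neg] at this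

end Pool.Agent.H352R4.CA
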