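import Pool.Agent.H352R3.SA.Defs
import Pool.Agent.H352R3.SA.Pot
import Pool.Agent.H352R3.SA.Fub
import Pool.Agent.H352R3.SA.Ene
import Pool.Agent.H352R3.SA.Opr
import Pool.Agent.H352R3.SA.Gam

/-!
# Sharp primal bound for the soft capacity
-/

set_option autoImplicit false

open MeasureTheory Complex Filter Topology
open scoped ComplexConjugate BoundedContinuousFunction
open Pool.Agent.H352R3.SA

namespace Pool.Agent.H352R4.CA

theorem int_le_Gam {g : ℂ → ℝ} (hg : Den g) {D : ℂ → ℂ} (hD : Continuous D)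
    (cD : HasCompactSupport D) (h : ∀ z, ‖D z‖ ≤ g z * (1 - ‖pot D z‖ ^ 2)) :
    ‖∫ z, D z‖ ≤ Gam g := by
  have hs := LK_sol hg
  set L : ℂ → ℂ := fun z => (LK g).1 z with hL
  set K : ℂ → ℂ := fun z => (LK g).2 z with hK
  have cL : Continuous L := hs.cL
  have cK : Continuous K := hs.cK
  set κ : ℂ → ℂ := fun w => (g w : ℂ) * conj (K w) with hκ
  have hgc : Continuous fun w => (g w : ℂ) := Complex.continuous_ofReal.comp hg.cont
  have hgs : HasCompactSupport fun w => (g w : ℂ) :=
    hg.supp.comp_left (g := fun x : ℝ => (x : ℂ)) Complex.ofReal_zero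
  have cκ : Continuous κ := hgc.mul (Complex.continuous_conj.comp cK)
  have sκ : HasCompactSupport κ := hgs.mul_right
  have cP : Continuous (pot κ) := pot_continuous cκ sκ
  have cF : Continuous (pot D) := pot_continuous hD cD
  have eL : ∀ z, L z = 1 - pot κ z := by
    intro z
    have := hs.eL z
    rw [sub_eq_add_neg]
    exact this
  -- integrability
  have iD : Integrable D := hD.integrable_of_hasCompactSupport cD
  have iDP : Integrable fun z => D z * pot κ z :=
    (hD.mul cP).integrable_of_hasCompactSupport cD.mul_right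
  have iDP2 : Integrable fun z => D z * pot κ z ^ 2 :=
    (hD.mul (cP.pow 2)).integrable_of_hasCompactSupport cD.mul_right
  have iκF : Integrable fun z => κ z * pot D z :=
    (cκ.mul cF).integrable_of_hasCompactSupport sκ.mul_right
  have iκPF : Integrable fun z => κ z * pot κ z * pot D z :=
    ((cκ.mul cP).mul cF).integrable_of_hasCompactSupport (sκ.mul_right.mul_right)
  -- the two identities
  have e1 : ∫ z, D z * pot κ z = - ∫ z, κ z * pot D z := anti hD cD cκ sκ
  have e2 : ∫ z, D z * pot κ z ^ 2 = - (2 * ∫ z, κ z * pot κ z * pot D z) := by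
    have h3 : ∀ z, D z * pot κ z ^ 2 = 2 * (D z * pot (fun w => κ w * pot κ w) z) := by
      intro z
      rw [pot_sq cκ sκ z]
      ring
    simp only [h3]
    have h4 := anti hD cD (ψ := fun w => κ w * pot κ w) (cκ.mul cP) sκ.mul_right
    rw [integral_const_mul, h4]
    ring
  have e3 : ∫ z, D z * L z ^ 2 =
      (∫ z, D z) - 2 * (∫ z, D z * pot κ z) + ∫ z, D z * pot κ z ^ 2 := by
    have i12 : Integrable (fun z => D z - 2 * (D z * pot κ z)) := iD.sub (iDP.const_mul 2)
    rw [← integral_const_mul, ← integral_sub iD (iDP.const_mul 2), ← integral_add i12 iDP2]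
    refine integral_congr_ae (Eventually.of_forall fun z => ?_)
    simp only [eL z]
    ring
  have e4 : ∫ z, κ z * pot D z * L z = (∫ z, κ z * pot D z) - ∫ z, κ z * pot κ z * pot D z := by
    rw [← integral_sub iκF iκPF]
    refine integral_congr_ae (Eventually.of_forall fun z => ?_)
    simp only [eL z]
    ring
  have e5 : ∫ z, D z = (∫ z, D z * L z ^ 2) - ∫ z, 2 * (κ z * pot D z * L z) := by
    rw [integral_const_mul, e3, e4, e1, e2]
    ring
  have i1 : Integrable fun z => D z * L z ^ 2 :=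
    (hD.mul (cL.pow 2)).integrable_of_hasCompactSupport cD.mul_right
  have i2 : Integrable fun z => 2 * (κ z * pot D z * L z) :=
    (continuous_const.mul ((cκ.mul cF).mul cL)).integrable_of_hasCompactSupport
        (sκ.mul_right.mul_right.mul_left)
  rw [e5, ← integral_sub i1 i2, Gam_eq hg]
  refine (norm_integral_le_integral_norm _).trans (integral_mono (i1.sub i2).norm ?_ fun z => ?_)
  · refine (Continuous.integrable_of_hasCompactSupport ?_ ?_)
    · exact hg.cont.mul ((cL.norm.pow 2).add (cK.norm.pow 2))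
    · exact hg.supp.mul_right
  · have g0 := hg.nonneg z
    have hz := h z
    have a1 : ‖D z * L z ^ 2‖ ≤ g z * (1 - ‖pot D z‖ ^ 2) * ‖L z‖ ^ 2 := by
      rw [norm_mul, norm_pow]
      exact mul_le_mul_of_nonneg_right hz (by positivity)
    have a2 : ‖2 * (κ z * pot D z * L z)‖ = 2 * (g z * ‖K z‖ * ‖pot D z‖ * ‖L z‖) := by
      simp only [norm_mul, hκ, Complex.norm_real, Real.norm_eq_abs, abs_of_nonneg g0,
        RCLike.norm_conj, Complex.norm_ofNat]
    have a3 : ‖D z * L z ^ 2 - 2 * (κ z * pot D z * L z)‖ ≤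
        g z * (1 - ‖pot D z‖ ^ 2) * ‖L z‖ ^ 2 + 2 * (g z * ‖K z‖ * ‖pot D z‖ * ‖L z‖) := by
      refine (norm_sub_le _ _).trans ?_
      rw [a2]
      linarith
    refine a3.trans ?_
    have a4 : 0 ≤ g z * (‖pot D z‖ * ‖L z‖ - ‖K z‖) ^ 2 := by positivity
    have a5 : g z * (‖L z‖ ^ 2 + ‖K z‖ ^ 2) -
        (g z * (1 - ‖pot D z‖ ^ 2) * ‖L z‖ ^ 2 + 2 * (g z * ‖K z‖ * ‖pot D z‖ * ‖L z‖)) =
        g z * (‖pot D z‖ * ‖L z‖ - ‖K z‖) ^ 2 := by ring
    show _ ≤ g z * (‖L z‖ ^ 2 + ‖K z‖ ^ 2)
    linarith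

end Pool.Agent.H352R4.CA
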