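import Pool.Agent.H352R4.CA.Defs

/-!
# Module GLO: modulus of continuity of the glued function
-/

set_option autoImplicit false

open MeasureTheory Complex Filter Topology Metric
open scoped ComplexConjugate
open Pool.Agent.H352R3.SA
open Pool.Agent.H761R2.SV (dbar)

namespace Pool.Agent.H352R4.CA

namespace GloAux

/-- lattice points near `z` -/
noncomputable def box (δ : ℝ) (z : ℂ) : Finset (ℤ × ℤ) :=
  (Finset.Icc ⌈z.re / δ - 8⌉ ⌊z.re / δ + 8⌋) ×ˢ (Finset.Icc ⌈z.im / δ - 8⌉ ⌊z.im / δ + 8⌋)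

theorem card_icc (x : ℝ) : (Finset.Icc ⌈x - 8⌉ ⌊x + 8⌋).card ≤ 17 := by
  rw [Int.card_Icc]
  have h1 : ((⌊x + 8⌋ : ℤ) : ℝ) ≤ x + 8 := Int.floor_le _
  have h2 : x - 8 ≤ ((⌈x - 8⌉ : ℤ) : ℝ) := Int.le_ceil _
  have h3 : ((⌊x + 8⌋ + 1 - ⌈x - 8⌉ : ℤ) : ℝ) ≤ 17 := by
    push_cast
    linarith
  have h4 : ⌊x + 8⌋ + 1 - ⌈x - 8⌉ ≤ 17 := by exact_mod_cast h3
  omega

theorem card_box (δ : ℝ) (z : ℂ) : (box δ z).card ≤ 289 := by
  unfold box
  rw [Finset.card_product]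
  calc _ ≤ 17 * 17 := Nat.mul_le_mul (card_icc _) (card_icc _)
    _ = 289 := by norm_num

theorem gp_re (δ : ℝ) (j : ℤ × ℤ) : (gp δ j).re = δ * (j.1 : ℝ) := by
  unfold gp
  simp

theorem gp_im (δ : ℝ) (j : ℤ × ℤ) : (gp δ j).im = δ * (j.2 : ℝ) := by
  unfold gp
  simp

theorem coord {δ x : ℝ} (hδ : 0 < δ) {n : ℤ} (h : |x - δ * n| < 8 * δ) :
    n ∈ Finset.Icc ⌈x / δ - 8⌉ ⌊x / δ + 8⌋ := by
  rw [Finset.mem_Icc, Int.ceil_le, Int.le_floor]
  rw [abs_lt] at h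
  obtain ⟨h1, h2⟩ := h
  constructor
  · have : x / δ < n + 8 := by
      rw [div_lt_iff₀ hδ]
      linarith
    linarith
  · have : (n : ℝ) - 8 < x / δ := by
      rw [lt_div_iff₀ hδ]
      linarith
    linarith

theorem mem_box {δ : ℝ} (hδ : 0 < δ) {z : ℂ} {j : ℤ × ℤ} (h : ‖z - gp δ j‖ < 8 * δ) :
    j ∈ box δ z := by
  unfold box
  rw [Finset.mem_product]
  constructor
  · apply coord hδ
    have := Complex.abs_re_le_norm (z - gp δ j)
    rw [Complex.sub_re, gp_re] at this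
    linarith
  · apply coord hδ
    have := Complex.abs_im_le_norm (z - gp δ j)
    rw [Complex.sub_im, gp_im] at this
    linarith

end GloAux

open GloAux in
theorem glue_osc (C : ℝ) (hC : 1 ≤ C) : ∃ C' : ℝ, 1 ≤ C' ∧ ∀ (δ t : ℝ) (Ω : ℝ → ℝ)
    (J : Finset (ℤ × ℤ)) (e : ℤ × ℤ → ℂ → ℂ) (l κ : ℤ × ℤ → ℂ) (S : ℤ × ℤ → Set ℂ), 0 < δ →
    0 ≤ t → t ≤ 1 → (∀ s, 0 ≤ s → 0 ≤ Ω s) →
    (∀ j ∈ J, Kc 1 Ω (S j) (e j) (l j)) → (∀ j ∈ J, S j ⊆ closedBall (gp δ j) (3 * δ)) →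
    (∀ j ∈ J, ‖κ j‖ ≤ C * t) → (∀ z, ‖∑ j ∈ J, κ j * e j z‖ ≤ 2) →
    ∀ z u : ℂ, ‖u‖ ≤ δ → ‖∑ j ∈ J, κ j * e j (z + u) - ∑ j ∈ J, κ j * e j z‖ ≤
      C' * t * Ω ‖u‖ + C' * ‖u‖ / δ := by
  refine ⟨600 * C, by linarith, ?_⟩
  intro δ t Ω J e l κ S hδ ht ht1 hΩ hK hS hκ hb z u hu
  classical
  set N : Finset (ℤ × ℤ) := J.filter (fun j => ‖z - gp δ j‖ < 8 * δ) with hN
  set F : Finset (ℤ × ℤ) := J.filter (fun j => ¬ ‖z - gp δ j‖ < 8 * δ) with hF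
  have hsplit : ∀ w, ∑ j ∈ J, κ j * e j w = ∑ j ∈ N, κ j * e j w + ∑ j ∈ F, κ j * e j w := by
    intro w
    rw [hN, hF, Finset.sum_filter_add_sum_filter_not]
  have hNJ : ∀ j ∈ N, j ∈ J := fun j hj => (Finset.mem_filter.mp hj).1
  have hFJ : ∀ j ∈ F, j ∈ J := fun j hj => (Finset.mem_filter.mp hj).1
  have hcard : (N.card : ℝ) ≤ 289 := by
    have h1 : N ⊆ box δ z := by
      intro j hj
      exact mem_box hδ (Finset.mem_filter.mp hj).2
    have h2 := (Finset.card_le_card h1).trans (card_box δ z)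
    exact_mod_cast h2
  have hCt : 0 ≤ C * t := mul_nonneg (by linarith) ht
  -- near part, oscillation
  have hnear : ‖∑ j ∈ N, κ j * e j (z + u) - ∑ j ∈ N, κ j * e j z‖ ≤ 289 * (C * t) * Ω ‖u‖ := by
    rw [← Finset.sum_sub_distrib]
    have hΩu : 0 ≤ Ω ‖u‖ := hΩ _ (norm_nonneg u)
    calc ‖∑ j ∈ N, (κ j * e j (z + u) - κ j * e j z)‖
        ≤ ∑ j ∈ N, ‖κ j * e j (z + u) - κ j * e j z‖ := norm_sum_le _ _
      _ ≤ ∑ j ∈ N, (C * t * Ω ‖u‖) := by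
          apply Finset.sum_le_sum
          intro j hj
          rw [← mul_sub, norm_mul]
          have h1 := (hK j (hNJ j hj)).osc z u
          rw [one_mul] at h1
          exact mul_le_mul (hκ j (hNJ j hj)) h1 (norm_nonneg _) hCt
      _ = N.card * (C * t * Ω ‖u‖) := by rw [Finset.sum_const, nsmul_eq_mul]
      _ ≤ 289 * (C * t * Ω ‖u‖) := by
          apply mul_le_mul_of_nonneg_right hcard
          exact mul_nonneg hCt hΩu
      _ = 289 * (C * t) * Ω ‖u‖ := by ring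
  -- near part, size
  have hnear2 : ∀ w, ‖∑ j ∈ N, κ j * e j w‖ ≤ 289 * C := by
    intro w
    calc ‖∑ j ∈ N, κ j * e j w‖ ≤ ∑ j ∈ N, ‖κ j * e j w‖ := norm_sum_le _ _
      _ ≤ ∑ j ∈ N, C := by
          apply Finset.sum_le_sum
          intro j hj
          rw [norm_mul]
          have h1 := (hK j (hNJ j hj)).bd w
          have h2 := hκ j (hNJ j hj)
          have h3 : C * t ≤ C := by nlinarith
          calc ‖κ j‖ * ‖e j w‖ ≤ (C * t) * 1 := mul_le_mul h2 h1 (norm_nonneg _) hCt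
            _ ≤ C := by linarith
      _ = N.card * C := by rw [Finset.sum_const, nsmul_eq_mul]
      _ ≤ 289 * C := by
          apply mul_le_mul_of_nonneg_right hcard
          linarith
  have hfar2 : ∀ w, ‖∑ j ∈ F, κ j * e j w‖ ≤ 2 + 289 * C := by
    intro w
    have h1 : ∑ j ∈ F, κ j * e j w = ∑ j ∈ J, κ j * e j w - ∑ j ∈ N, κ j * e j w := by
      rw [hsplit w]
      ring
    rw [h1]
    calc _ ≤ ‖∑ j ∈ J, κ j * e j w‖ + ‖∑ j ∈ N, κ j * e j w‖ := norm_sub_le _ _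
      _ ≤ 2 + 289 * C := add_le_add (hb w) (hnear2 w)
  have hdiff : DifferentiableOn ℂ (fun w => ∑ j ∈ F, κ j * e j w) (ball z (5 * δ)) := by
    apply DifferentiableOn.fun_sum
    intro j hj
    apply DifferentiableOn.const_mul
    apply (hK j (hFJ j hj)).ac.hol.mono
    intro w hw hwS
    have h1 := hS j (hFJ j hj) hwS
    have h2 := (Finset.mem_filter.mp hj).2
    rw [mem_closedBall, dist_eq_norm] at h1
    rw [mem_ball, dist_eq_norm] at hw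
    apply h2
    calc ‖z - gp δ j‖ = ‖(w - gp δ j) - (w - z)‖ := by congr 1; ring
      _ ≤ ‖w - gp δ j‖ + ‖w - z‖ := norm_sub_le _ _
      _ < 8 * δ := by linarith
  have hmaps : Set.MapsTo (fun w => ∑ j ∈ F, κ j * e j w) (ball z (5 * δ))
      (ball ((fun w => ∑ j ∈ F, κ j * e j w) z) (2 * (2 + 289 * C) + 1)) := by
    intro w _
    rw [mem_ball, dist_eq_norm]
    calc _ ≤ ‖∑ j ∈ F, κ j * e j w‖ + ‖∑ j ∈ F, κ j * e j z‖ := norm_sub_le _ _
      _ < 2 * (2 + 289 * C) + 1 := by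
          have h1 := hfar2 w
          have h2 := hfar2 z
          linarith
  have hzu : z + u ∈ ball z (5 * δ) := by
    rw [mem_ball, dist_eq_norm, add_sub_cancel_left]
    linarith
  have hfar : ‖∑ j ∈ F, κ j * e j (z + u) - ∑ j ∈ F, κ j * e j z‖ ≤
      (2 * (2 + 289 * C) + 1) / (5 * δ) * ‖u‖ := by
    have h := Complex.dist_le_div_mul_dist_of_mapsTo_ball hdiff
      (hmaps.mono_right ball_subset_closedBall) hzu
    rw [dist_eq_norm, dist_eq_norm, add_sub_cancel_left] at h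
    exact h
  have htot : ∑ j ∈ J, κ j * e j (z + u) - ∑ j ∈ J, κ j * e j z =
      (∑ j ∈ N, κ j * e j (z + u) - ∑ j ∈ N, κ j * e j z) +
      (∑ j ∈ F, κ j * e j (z + u) - ∑ j ∈ F, κ j * e j z) := by
    rw [hsplit, hsplit]
    ring
  rw [htot]
  have hΩu : 0 ≤ Ω ‖u‖ := hΩ _ (norm_nonneg u)
  calc _ ≤ 289 * (C * t) * Ω ‖u‖ + (2 * (2 + 289 * C) + 1) / (5 * δ) * ‖u‖ :=
        (norm_add_le _ _).trans (add_le_add hnear hfar)
    _ ≤ 600 * C * t * Ω ‖u‖ + 600 * C * ‖u‖ / δ := by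
        apply add_le_add
        · have : 0 ≤ C * t * Ω ‖u‖ := mul_nonneg hCt hΩu
          nlinarith
        · rw [div_mul_eq_mul_div, div_le_div_iff₀ (by positivity) hδ]
          have h1 : 0 ≤ ‖u‖ := norm_nonneg u
          have h2 : 0 ≤ ‖u‖ * δ := mul_nonneg h1 hδ.le
          nlinarith

end Pool.Agent.H352R4.CA
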