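import Pool.Agent.H352R4.CA.Defs
import Pool.Agent.H352R4.CA.Core

set_option autoImplicit false

open MeasureTheory Complex Filter Topology Metric
open scoped ComplexConjugate
open Pool.Agent.H352R3.SA

namespace Pool.Agent.H352R4.CA

namespace GlueAux

theorem core_fin (C : ℝ) (hC : 1 ≤ C) : ∃ C' : ℝ, 1 ≤ C' ∧ ∀ (δ t : ℝ) (s : Finset (ℤ × ℤ))
    (p : ℤ × ℤ → ℂ) (b : ℤ × ℤ → ℝ) (e P : ℤ × ℤ → ℂ → ℂ) (lam mu : ℤ × ℤ → ℂ),
    0 < δ → 0 ≤ t → (∀ i ∈ s, ∀ j ∈ s, i ≠ j → δ ≤ ‖p i - p j‖) →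
    (∀ j ∈ s, Loc C δ (p j) (b j) (e j)) →
    (∀ j ∈ s, Pie C δ t (p j) (b j) (P j) (lam j) (mu j)) →
    ∃ κ : ℤ × ℤ → ℂ, (∀ j ∈ s, ‖κ j‖ ≤ C' * t) ∧
      (∀ z, ‖∑ j ∈ s, κ j * e j z - ∑ j ∈ s, P j z‖ ≤ C' * t) ∧
      ∑ j ∈ s, κ j * (b j : ℂ) = ∑ j ∈ s, lam j := by
  classical
  obtain ⟨C', h1, H⟩ := core C hC
  refine ⟨C', h1, ?_⟩
  intro δ t s p b e P lam mu hδ ht hsep hL hP
  let g : Fin s.card → s := fun i => s.equivFin.symm i
  let f : Fin s.card → ℝ := fun i => - b (g i)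
  let E : Fin s.card ≃ s := (Tuple.sort f).trans s.equivFin.symm
  have hE : ∀ i, E i = g (Tuple.sort f i) := fun i => rfl
  have hmono : ∀ i j, i ≤ j → b (E j) ≤ b (E i) := by
    intro i j hij
    have := Tuple.monotone_sort f hij
    simp only [Function.comp, f] at this
    rw [hE, hE]
    linarith
  obtain ⟨κ0, k1, k2, k3⟩ := H δ t s.card (fun i => p (E i)) (fun i => b (E i))
    (fun i => e (E i)) (fun i => P (E i)) (fun i => lam (E i)) (fun i => mu (E i)) hδ ht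
    (fun i j hij => hsep _ (E i).2 _ (E j).2
      (fun h => hij (E.injective (Subtype.ext h))))
    (fun i => hL _ (E i).2) (fun i => hP _ (E i).2) hmono
  have hsum : ∀ F : ℤ × ℤ → ℂ, ∑ i, F (E i) = ∑ j ∈ s, F j := by
    intro F
    rw [Equiv.sum_comp E (fun x : s => F x), Finset.sum_coe_sort]
  let κ : ℤ × ℤ → ℂ := fun j => if h : j ∈ s then κ0 (E.symm ⟨j, h⟩) else 0
  have hκ : ∀ i, κ (E i) = κ0 i := by
    intro i
    have h : ((E i : s) : ℤ × ℤ) ∈ s := (E i).2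
    simp only [κ, dif_pos h]
    congr 1
    exact E.symm_apply_apply i
  refine ⟨κ, ?_, ?_, ?_⟩
  · intro j hj
    have h := k1 (E.symm ⟨j, hj⟩)
    rw [← hκ, Equiv.apply_symm_apply] at h
    exact h
  · intro z
    rw [← hsum (fun j => κ j * e j z), ← hsum (fun j => P j z)]
    simp only [hκ]
    exact k2 z
  · rw [← hsum (fun j => κ j * (b j : ℂ)), ← hsum (fun j => lam j)]
    simp only [hκ]
    exact k3

theorem gp_sub (δ : ℝ) (i j : ℤ × ℤ) :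
    gp δ i - gp δ j = (δ : ℂ) * (((i.1 - j.1 : ℤ) : ℂ) + ((i.2 - j.2 : ℤ) : ℂ) * I) := by
  unfold gp; push_cast; ring

theorem norm_int_ge (a c : ℤ) (N : ℕ) (h : (N : ℤ) ∣ a) (h' : (N : ℤ) ∣ c) (hne : a ≠ 0 ∨ c ≠ 0) :
    (N : ℝ) ≤ ‖((a : ℂ) + (c : ℂ) * I)‖ := by
  have h1 : ((a : ℂ) + (c : ℂ) * I).re = a := by simp
  have h2 : ((a : ℂ) + (c : ℂ) * I).im = c := by simp
  rcases hne with h3 | h3
  · have h4 : (N : ℤ) ≤ |a| := Int.le_of_dvd (abs_pos.mpr h3) ((dvd_abs _ _).mpr h)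
    have h5 := Complex.abs_re_le_norm ((a : ℂ) + (c : ℂ) * I)
    rw [h1] at h5
    have h6 : (N : ℝ) ≤ |(a : ℝ)| := by exact_mod_cast h4
    linarith
  · have h4 : (N : ℤ) ≤ |c| := Int.le_of_dvd (abs_pos.mpr h3) ((dvd_abs _ _).mpr h')
    have h5 := Complex.abs_im_le_norm ((a : ℂ) + (c : ℂ) * I)
    rw [h2] at h5
    have h6 : (N : ℝ) ≤ |(c : ℝ)| := by exact_mod_cast h4
    linarith

end GlueAux

open GlueAux in
theorem glue (C : ℝ) (hC : 1 ≤ C) : ∃ C' : ℝ, 1 ≤ C' ∧ ∀ (δ t : ℝ) (J : Finset (ℤ × ℤ))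
    (p : ℤ × ℤ → ℂ) (b : ℤ × ℤ → ℝ) (e P : ℤ × ℤ → ℂ → ℂ) (lam mu : ℤ × ℤ → ℂ),
    0 < δ → 0 ≤ t → (∀ j ∈ J, ‖p j - gp δ j‖ ≤ C * δ) →
    (∀ j ∈ J, Loc C δ (p j) (b j) (e j)) →
    (∀ j ∈ J, Pie C δ t (p j) (b j) (P j) (lam j) (mu j)) →
    ∃ κ : ℤ × ℤ → ℂ, (∀ j ∈ J, ‖κ j‖ ≤ C' * t) ∧
      (∀ z, ‖∑ j ∈ J, κ j * e j z - ∑ j ∈ J, P j z‖ ≤ C' * t) ∧
      ∑ j ∈ J, κ j * (b j : ℂ) = ∑ j ∈ J, lam j := by
  classical
  obtain ⟨C₁, h1, H⟩ := core_fin C hC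
  obtain ⟨N, hN⟩ := exists_nat_ge (2 * C + 1)
  have hN1 : (1:ℝ) ≤ N := by linarith
  have hN0 : 0 < N := by
    have : (0:ℝ) < N := by linarith
    exact_mod_cast this
  haveI : NeZero N := ⟨hN0.ne'⟩
  have hNN : (1:ℝ) ≤ (N:ℝ) * N := by nlinarith
  refine ⟨N * N * C₁, by nlinarith, ?_⟩
  intro δ t J p b e P lam mu hδ ht hgp hL hP
  let cls : ℤ × ℤ → ZMod N × ZMod N := fun j => ((j.1 : ZMod N), (j.2 : ZMod N))
  have hsep : ∀ c : ZMod N × ZMod N, ∀ i ∈ J.filter (fun j => cls j = c),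
      ∀ j ∈ J.filter (fun j => cls j = c), i ≠ j → δ ≤ ‖p i - p j‖ := by
    intro c i hi j hj hij
    rw [Finset.mem_filter] at hi hj
    have hcls : cls i = cls j := hi.2.trans hj.2.symm
    have e1 : ((i.1 : ℤ) : ZMod N) = ((j.1 : ℤ) : ZMod N) := congrArg Prod.fst hcls
    have e2 : ((i.2 : ℤ) : ZMod N) = ((j.2 : ℤ) : ZMod N) := congrArg Prod.snd hcls
    have d1 : (N : ℤ) ∣ i.1 - j.1 := (ZMod.intCast_eq_intCast_iff_dvd_sub _ _ _).mp e1.symm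
    have d2 : (N : ℤ) ∣ i.2 - j.2 := (ZMod.intCast_eq_intCast_iff_dvd_sub _ _ _).mp e2.symm
    have hne : i.1 - j.1 ≠ 0 ∨ i.2 - j.2 ≠ 0 := by
      by_contra hcon
      push Not at hcon
      exact hij (Prod.ext (by omega) (by omega))
    have h3 : (N : ℝ) * δ ≤ ‖gp δ i - gp δ j‖ := by
      rw [gp_sub, norm_mul, Complex.norm_real, Real.norm_of_nonneg hδ.le, mul_comm]
      exact mul_le_mul_of_nonneg_left (norm_int_ge _ _ N d1 d2 hne) hδ.le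
    have h4 : ‖gp δ i - gp δ j‖ ≤ ‖p i - gp δ i‖ + ‖p i - p j‖ + ‖p j - gp δ j‖ := by
      have : gp δ i - gp δ j = -(p i - gp δ i) + (p i - p j) + (p j - gp δ j) := by ring
      rw [this]
      calc ‖-(p i - gp δ i) + (p i - p j) + (p j - gp δ j)‖
          ≤ ‖-(p i - gp δ i) + (p i - p j)‖ + ‖p j - gp δ j‖ := norm_add_le _ _
        _ ≤ ‖-(p i - gp δ i)‖ + ‖p i - p j‖ + ‖p j - gp δ j‖ := by
            gcongr; exact norm_add_le _ _
        _ = _ := by rw [norm_neg]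
    have h5 := hgp i hi.1
    have h6 := hgp j hj.1
    nlinarith
  have hex : ∀ c : ZMod N × ZMod N, ∃ κ : ℤ × ℤ → ℂ,
      (∀ j ∈ J.filter (fun j => cls j = c), ‖κ j‖ ≤ C₁ * t) ∧
      (∀ z, ‖∑ j ∈ J.filter (fun j => cls j = c), κ j * e j z
        - ∑ j ∈ J.filter (fun j => cls j = c), P j z‖ ≤ C₁ * t) ∧
      ∑ j ∈ J.filter (fun j => cls j = c), κ j * (b j : ℂ)
        = ∑ j ∈ J.filter (fun j => cls j = c), lam j := by
    intro c
    exact H δ t (J.filter (fun j => cls j = c)) p b e P lam mu hδ ht (hsep c)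
      (fun j hj => hL j (Finset.mem_filter.mp hj).1)
      (fun j hj => hP j (Finset.mem_filter.mp hj).1)
  choose κ k1 k2 k3 using hex
  have hfib : ∀ F : ℤ × ℤ → ℂ, ∑ j ∈ J, F j
      = ∑ c : ZMod N × ZMod N, ∑ j ∈ J.filter (fun j => cls j = c), F j := by
    intro F
    exact (Finset.sum_fiberwise J cls F).symm
  have hC1t : 0 ≤ C₁ * t := mul_nonneg (by linarith) ht
  refine ⟨fun j => κ (cls j) j, ?_, ?_, ?_⟩
  · intro j hj
    have := k1 (cls j) j (Finset.mem_filter.mpr ⟨hj, rfl⟩)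
    calc ‖κ (cls j) j‖ ≤ C₁ * t := this
      _ ≤ (N * N) * (C₁ * t) := le_mul_of_one_le_left hC1t hNN
      _ = N * N * C₁ * t := by ring
  · intro z
    rw [hfib (fun j => κ (cls j) j * e j z), hfib (fun j => P j z), ← Finset.sum_sub_distrib]
    have h6 : ∀ c : ZMod N × ZMod N, ∑ j ∈ J.filter (fun j => cls j = c), κ (cls j) j * e j z
        = ∑ j ∈ J.filter (fun j => cls j = c), κ c j * e j z := by
      intro c
      apply Finset.sum_congr rfl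
      intro j hj
      rw [(Finset.mem_filter.mp hj).2]
    simp only [h6]
    calc ‖∑ c : ZMod N × ZMod N, (∑ j ∈ J.filter (fun j => cls j = c), κ c j * e j z
          - ∑ j ∈ J.filter (fun j => cls j = c), P j z)‖
        ≤ ∑ c : ZMod N × ZMod N, ‖∑ j ∈ J.filter (fun j => cls j = c), κ c j * e j z
          - ∑ j ∈ J.filter (fun j => cls j = c), P j z‖ := norm_sum_le _ _
      _ ≤ ∑ _c : ZMod N × ZMod N, C₁ * t := Finset.sum_le_sum (fun c _ => k2 c z)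
      _ = N * N * C₁ * t := by
          rw [Finset.sum_const, Finset.card_univ, Fintype.card_prod, ZMod.card, nsmul_eq_mul]
          push_cast; ring
  · rw [hfib (fun j => κ (cls j) j * (b j : ℂ)), hfib (fun j => lam j)]
    apply Finset.sum_congr rfl
    intro c _
    rw [← k3 c]
    apply Finset.sum_congr rfl
    intro j hj
    rw [(Finset.mem_filter.mp hj).2]

end Pool.Agent.H352R4.CA
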