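import Pool.Agent.H352R4.CA.Max
import Pool.Agent.H352R4.CA.Coe
import Pool.Agent.H352R4.CA.Alb
import Pool.Agent.H352R4.CA.Far

/-!
# Continuous analytic capacity: local data of near extremal functions (module LOC)
-/

set_option autoImplicit false

open MeasureTheory Complex Filter Topology Metric
open scoped ComplexConjugate
open Pool.Agent.H352R3.SA
open Pool.Agent.H761R2.SV (dbar)

namespace Pool.Agent.H352R4.CA

namespace LocAux

/-- a near extremal function with positive coefficient -/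
theorem exists_near {S : Set ℂ} {Ω : ℝ → ℝ} (hal : 0 < al Ω S) :
    ∃ (e : ℂ → ℂ) (b : ℝ), 0 < b ∧ al Ω S ≤ 2 * b ∧ Kc 1 Ω S e (b : ℂ) := by
  have hne : {c | ∃ h l, Kc 1 Ω S h l ∧ c = ‖l‖}.Nonempty := by
    by_contra hn
    rw [Set.not_nonempty_iff_eq_empty] at hn
    have h0 : al Ω S = 0 := by
      unfold al
      rw [hn, Real.sSup_empty]
    linarith
  obtain ⟨c, ⟨h, l, H, rfl⟩, hc⟩ := exists_lt_of_lt_csSup hne (half_lt_self hal)
  have hc' : al Ω S / 2 < ‖l‖ := hc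
  have hl : 0 < ‖l‖ := by linarith
  have hl0 : l ≠ 0 := norm_pos_iff.mp hl
  refine ⟨fun z => (‖l‖ / l) * h z, ‖l‖, hl, by linarith, ?_⟩
  have h1 := H.cmul ((‖l‖ : ℂ) / l)
  have h2 : ‖(‖l‖ : ℂ) / l‖ * 1 = 1 := by
    rw [norm_div, mul_one, Complex.norm_real, norm_norm, div_self hl.ne']
  have h3 : (‖l‖ : ℂ) / l * l = (‖l‖ : ℂ) := div_mul_cancel₀ _ hl0
  rw [h2, h3] at h1
  exact h1

end LocAux

open LocAux

theorem loc : ∃ C : ℝ, 1 ≤ C ∧ ∀ (δ : ℝ) (z₀ : ℂ) (S : Set ℂ) (Ω : ℝ → ℝ), 0 < δ →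
    IsCompact S → S ⊆ closedBall z₀ (3 * δ) → GM (3 * δ) Ω → 0 < al Ω S →
    ∃ (e : ℂ → ℂ) (b : ℝ) (p : ℂ), Kc 1 Ω S e (b : ℂ) ∧ al Ω S ≤ 2 * b ∧
      ‖p - z₀‖ ≤ C * δ ∧ Loc C δ p b e := by
  refine ⟨10368, by norm_num, ?_⟩
  intro δ z₀ S Ω hδ hS hSz hΩ hal
  obtain ⟨e, b, hb, hab, H⟩ := exists_near hal
  obtain ⟨ρ, hρd⟩ : ∃ ρ : ℝ, ρ = 3 * δ := ⟨_, rfl⟩
  have hρ : 0 < ρ := by linarith
  rw [← hρd] at hΩ hSz
  have hSd : ∀ w ∈ S, ‖w - z₀‖ ≤ ρ := fun w hw => by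
    have := hSz hw
    rwa [mem_closedBall, dist_eq_norm] at this
  have hb1 : b ≤ ρ := by
    have h1 := H.ac.coef_le hρ hSz (M := 1) H.bd
    rwa [Complex.norm_real, Real.norm_of_nonneg hb.le, mul_one] at h1
  have hdec := H.ac.decay hρ hSz (M := 1) H.bd
  have he0 := H.ac.zero
  have hΩn : ∀ s, 0 ≤ s → 0 ≤ Ω s := by
    intro s hs
    by_cases h : s ≤ ρ
    · exact le_trans (by positivity) (hΩ.lin s hs h)
    · have := hΩ.two s (not_le.mp h)
      linarith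
  have hΩl : ∀ s, 0 ≤ s → s ≤ ρ → s ≤ ρ * Ω s := by
    intro s hs h
    have := hΩ.lin s hs h
    rw [div_le_iff₀ hρ] at this
    linarith
  -- the function `h₁`
  obtain ⟨l₁, A₁⟩ : ∃ l₁, Ac S (fun z => (z - z₀) * e z - b) l₁ := by
    refine Ac.of_tendsto hS ?_ ?_ ?_
    · exact ((continuous_id.sub continuous_const).mul H.ac.cont).sub continuous_const
    · exact (((differentiable_id.sub_const z₀).differentiableOn).mul H.ac.hol).sub_const _
    · have h1 : Tendsto (fun z => z * e z - z₀ * e z - b) (cocompact ℂ) (𝓝 ((b : ℂ) - z₀ * 0 - b)) :=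
        (H.ac.lim.sub (he0.const_mul z₀)).sub_const _
      simp only [mul_zero, sub_zero, sub_self] at h1
      refine h1.congr fun z => ?_
      ring
  have B₁ : ∀ z, ‖(z - z₀) * e z - b‖ ≤ 2 * ρ := by
    refine A₁.norm_le hS (by positivity) fun w hw => ?_
    have h1 := hSd w hw
    have h2 := H.bd w
    calc ‖(w - z₀) * e w - b‖ ≤ ‖(w - z₀) * e w‖ + ‖(b : ℂ)‖ := norm_sub_le _ _
      _ = ‖w - z₀‖ * ‖e w‖ + b := by
        rw [norm_mul, Complex.norm_real, Real.norm_of_nonneg hb.le]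
      _ ≤ ρ * 1 + ρ := by gcongr
      _ = 2 * ρ := by ring
  have O₁ : ∀ z u, ‖((z + u - z₀) * e (z + u) - b) - ((z - z₀) * e z - b)‖ ≤
      2 * ρ * Ω ‖u‖ := by
    intro z u
    refine A₁.osc_le hS (s := ‖u‖) ?_ ?_ z u rfl
    · have := hΩn ‖u‖ (norm_nonneg _)
      positivity
    · intro w hw v hv
      rw [← hv]
      by_cases hs : ‖v‖ ≤ ρ
      · have h1 := hSd w hw
        have h2 := H.osc w v
        have h3 := H.bd (w + v)
        have h4 := hΩl ‖v‖ (norm_nonneg _) hs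
        have h5 := hΩn ‖v‖ (norm_nonneg _)
        calc ‖((w + v - z₀) * e (w + v) - b) - ((w - z₀) * e w - b)‖
            = ‖(w - z₀) * (e (w + v) - e w) + v * e (w + v)‖ := by congr 1; ring
          _ ≤ ‖w - z₀‖ * ‖e (w + v) - e w‖ + ‖v‖ * ‖e (w + v)‖ := by
              refine (norm_add_le _ _).trans ?_
              rw [norm_mul, norm_mul]
          _ ≤ ρ * (1 * Ω ‖v‖) + ρ * Ω ‖v‖ * 1 := by gcongr
          _ = 2 * ρ * Ω ‖v‖ := by ring
      · have h2 := hΩ.two _ (not_le.mp hs)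
        calc ‖((w + v - z₀) * e (w + v) - b) - ((w - z₀) * e w - b)‖
            ≤ ‖(w + v - z₀) * e (w + v) - b‖ + ‖(w - z₀) * e w - b‖ := norm_sub_le _ _
          _ ≤ 2 * ρ + 2 * ρ := add_le_add (B₁ _) (B₁ _)
          _ = 2 * ρ * 2 := by ring
          _ ≤ 2 * ρ * Ω ‖v‖ := by gcongr
  have K₁ : Kc (2 * ρ) Ω S (fun z => (z - z₀) * e z - b) l₁ := ⟨A₁, B₁, O₁⟩
  have hl₁ : ‖l₁‖ ≤ 4 * ρ * b := by
    have h1 := K₁.le hS (by positivity)
    calc ‖l₁‖ ≤ 2 * ρ * al Ω S := h1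
      _ ≤ 2 * ρ * (2 * b) := by gcongr
      _ = 4 * ρ * b := by ring
  -- the point `p`
  have hbC : (b : ℂ) ≠ 0 := by exact_mod_cast hb.ne'
  obtain ⟨p, hp⟩ : ∃ p : ℂ, p = z₀ + l₁ / b := ⟨_, rfl⟩
  have hpz : ‖p - z₀‖ ≤ 4 * ρ := by
    rw [hp, add_sub_cancel_left, norm_div, Complex.norm_real, Real.norm_of_nonneg hb.le,
      div_le_iff₀ hb]
    exact hl₁
  -- the function `h₂`
  have A₂ : Ac S (fun z => (z - p) * e z - b) 0 := by
    refine ⟨?_, ?_, ?_⟩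
    · exact ((continuous_id.sub continuous_const).mul H.ac.cont).sub continuous_const
    · exact (((differentiable_id.sub_const p).differentiableOn).mul H.ac.hol).sub_const _
    · have h1 : Tendsto (fun z => z * ((z - z₀) * e z - b) - (p - z₀) * (z * e z))
          (cocompact ℂ) (𝓝 (l₁ - (p - z₀) * b)) :=
        A₁.lim.sub (H.ac.lim.const_mul _)
      have h2 : l₁ - (p - z₀) * b = 0 := by
        rw [hp, add_sub_cancel_left, div_mul_cancel₀ _ hbC, sub_self]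
      rw [h2] at h1
      refine h1.congr fun z => ?_
      ring
  have B₂ : ∀ z, ‖(z - p) * e z - b‖ ≤ 6 * ρ := by
    intro z
    have h1 := B₁ z
    have h2 := H.bd z
    calc ‖(z - p) * e z - b‖ = ‖((z - z₀) * e z - b) - (p - z₀) * e z‖ := by congr 1; ring
      _ ≤ ‖(z - z₀) * e z - b‖ + ‖p - z₀‖ * ‖e z‖ := by
          refine (norm_sub_le _ _).trans ?_
          rw [norm_mul]
      _ ≤ 2 * ρ + 4 * ρ * 1 := by gcongr
      _ = 6 * ρ := by ring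
  have O₂ : ∀ z u, ‖((z + u - p) * e (z + u) - b) - ((z - p) * e z - b)‖ ≤
      6 * ρ * Ω ‖u‖ := by
    intro z u
    have h1 := O₁ z u
    have h2 := H.osc z u
    calc ‖((z + u - p) * e (z + u) - b) - ((z - p) * e z - b)‖
        = ‖(((z + u - z₀) * e (z + u) - b) - ((z - z₀) * e z - b)) -
            (p - z₀) * (e (z + u) - e z)‖ := by congr 1; ring
      _ ≤ ‖((z + u - z₀) * e (z + u) - b) - ((z - z₀) * e z - b)‖ +
            ‖p - z₀‖ * ‖e (z + u) - e z‖ := by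
          refine (norm_sub_le _ _).trans ?_
          rw [norm_mul]
      _ ≤ 2 * ρ * Ω ‖u‖ + 4 * ρ * (1 * Ω ‖u‖) := by gcongr
      _ = 6 * ρ * Ω ‖u‖ := by ring
  -- the function `h₃`
  have hSp : ∀ w ∈ S, ‖w - p‖ ≤ 5 * ρ := by
    intro w hw
    have h1 := hSd w hw
    calc ‖w - p‖ = ‖(w - z₀) - (p - z₀)‖ := by congr 1; ring
      _ ≤ ‖w - z₀‖ + ‖p - z₀‖ := norm_sub_le _ _
      _ ≤ ρ + 4 * ρ := add_le_add h1 hpz
      _ = 5 * ρ := by ring
  obtain ⟨l₃, A₃⟩ : ∃ l₃, Ac S (fun z => (z - p) * ((z - p) * e z - b)) l₃ := by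
    refine Ac.of_tendsto hS ?_ ?_ ?_
    · exact (continuous_id.sub continuous_const).mul A₂.cont
    · exact ((differentiable_id.sub_const p).differentiableOn).mul A₂.hol
    · have h1 : Tendsto (fun z => z * ((z - p) * e z - b) - p * ((z - p) * e z - b))
          (cocompact ℂ) (𝓝 (0 - p * 0)) := A₂.lim.sub (A₂.zero.const_mul p)
      simp only [mul_zero, sub_zero] at h1
      refine h1.congr fun z => ?_
      ring
  have B₃ : ∀ z, ‖(z - p) * ((z - p) * e z - b)‖ ≤ 30 * ρ ^ 2 := by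
    refine A₃.norm_le hS (by positivity) fun w hw => ?_
    have h1 := hSp w hw
    have h2 := B₂ w
    calc ‖(w - p) * ((w - p) * e w - b)‖ = ‖w - p‖ * ‖(w - p) * e w - b‖ := norm_mul _ _
      _ ≤ 5 * ρ * (6 * ρ) := by gcongr
      _ = 30 * ρ ^ 2 := by ring
  have O₃ : ∀ z u, ‖(z + u - p) * ((z + u - p) * e (z + u) - b) -
      (z - p) * ((z - p) * e z - b)‖ ≤ 36 * ρ ^ 2 * Ω ‖u‖ := by
    intro z u
    refine A₃.osc_le hS (s := ‖u‖) ?_ ?_ z u rfl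
    · have := hΩn ‖u‖ (norm_nonneg _)
      positivity
    · intro w hw v hv
      rw [← hv]
      by_cases hs : ‖v‖ ≤ ρ
      · have h1 := hSp w hw
        have h2 := O₂ w v
        have h3 := B₂ (w + v)
        have h4 := hΩl ‖v‖ (norm_nonneg _) hs
        have h5 := hΩn ‖v‖ (norm_nonneg _)
        calc ‖(w + v - p) * ((w + v - p) * e (w + v) - b) - (w - p) * ((w - p) * e w - b)‖
            = ‖(w - p) * (((w + v - p) * e (w + v) - b) - ((w - p) * e w - b)) +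
                v * ((w + v - p) * e (w + v) - b)‖ := by congr 1; ring
          _ ≤ ‖w - p‖ * ‖((w + v - p) * e (w + v) - b) - ((w - p) * e w - b)‖ +
                ‖v‖ * ‖(w + v - p) * e (w + v) - b‖ := by
              refine (norm_add_le _ _).trans ?_
              rw [norm_mul, norm_mul]
          _ ≤ 5 * ρ * (6 * ρ * Ω ‖v‖) + ρ * Ω ‖v‖ * (6 * ρ) := by gcongr
          _ = 36 * ρ ^ 2 * Ω ‖v‖ := by ring
      · have h2 := hΩ.two _ (not_le.mp hs)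
        calc ‖(w + v - p) * ((w + v - p) * e (w + v) - b) - (w - p) * ((w - p) * e w - b)‖
            ≤ ‖(w + v - p) * ((w + v - p) * e (w + v) - b)‖ +
                ‖(w - p) * ((w - p) * e w - b)‖ := norm_sub_le _ _
          _ ≤ 30 * ρ ^ 2 + 30 * ρ ^ 2 := add_le_add (B₃ _) (B₃ _)
          _ ≤ 36 * ρ ^ 2 * 2 := by nlinarith [sq_nonneg ρ]
          _ ≤ 36 * ρ ^ 2 * Ω ‖v‖ := by gcongr
  have K₃ : Kc (36 * ρ ^ 2) Ω S (fun z => (z - p) * ((z - p) * e z - b)) l₃ :=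
    ⟨A₃, fun z => (B₃ z).trans (by nlinarith [sq_nonneg ρ]), O₃⟩
  refine ⟨e, b, p, H, hab, ?_, hb, ?_, H.bd, ?_, ?_⟩
  · refine hpz.trans ?_
    rw [hρd]
    nlinarith
  · refine hb1.trans ?_
    rw [hρd]
    nlinarith
  · intro z
    have h1 := hdec z
    have h2 := H.bd z
    have h3 : ‖z - p‖ ≤ ‖z - z₀‖ + ‖p - z₀‖ := by
      calc ‖z - p‖ = ‖(z - z₀) - (p - z₀)‖ := by congr 1; ring
        _ ≤ ‖z - z₀‖ + ‖p - z₀‖ := norm_sub_le _ _
    calc ‖z - p‖ * ‖e z‖ ≤ (‖z - z₀‖ + ‖p - z₀‖) * ‖e z‖ := by gcongr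
      _ = ‖z - z₀‖ * ‖e z‖ + ‖p - z₀‖ * ‖e z‖ := by ring
      _ ≤ ρ * 1 + 4 * ρ * 1 := by gcongr
      _ ≤ 10368 * δ := by rw [hρd]; nlinarith
  · intro z hz
    have hz' : 10 * ρ ≤ ‖z - p‖ := le_trans (by rw [hρd]; nlinarith) hz
    have hzp : 0 < ‖z - p‖ := by linarith
    have hzp0 : z - p ≠ 0 := norm_pos_iff.mp hzp
    have h1 : ‖(z - p) * ((z - p) * e z - b)‖ ≤ 8 * (36 * ρ ^ 2) / (‖z - p‖ / 2) * al Ω S := by
      refine far (h := fun z => (z - p) * ((z - p) * e z - b)) hS hρ hΩ (by positivity) K₃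
        (by linarith) fun w hw => ?_
      have h2 := hSp w hw
      have h3 : ‖z - p‖ ≤ ‖w - z‖ + ‖w - p‖ := by
        calc ‖z - p‖ = ‖(w - p) - (w - z)‖ := by congr 1; ring
          _ ≤ ‖w - p‖ + ‖w - z‖ := norm_sub_le _ _
          _ = ‖w - z‖ + ‖w - p‖ := add_comm _ _
      linarith
    have h4 : ‖(z - p) * ((z - p) * e z - b)‖ = ‖e z - (b : ℂ) / (z - p)‖ * ‖z - p‖ ^ 2 := by
      rw [← norm_pow, ← norm_mul]
      congr 1
      field_simp
    rw [h4] at h1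
    have h5 : 8 * (36 * ρ ^ 2) / (‖z - p‖ / 2) * al Ω S ≤
        8 * (36 * ρ ^ 2) / (‖z - p‖ / 2) * (2 * b) := by gcongr
    have h6 := h1.trans h5
    calc ‖e z - (b : ℂ) / (z - p)‖ * ‖z - p‖ ^ 3 =
          ‖e z - (b : ℂ) / (z - p)‖ * ‖z - p‖ ^ 2 * ‖z - p‖ := by ring
      _ ≤ 8 * (36 * ρ ^ 2) / (‖z - p‖ / 2) * (2 * b) * ‖z - p‖ := by gcongr
      _ = 1152 * ρ ^ 2 * b := by
          field_simp
          ring
      _ = 10368 * δ ^ 2 * b := by rw [hρd]; ring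

end Pool.Agent.H352R4.CA
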