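import Pool.Agent.H352R4.CA.Defs
import Pool.Agent.H352R3.SA.Pot
import Pool.Agent.H761R2.SV.Pomp
import Pool.Agent.H761R2.SV.Hol

/-!
# Module MOL: mollification
-/

set_option autoImplicit false

open MeasureTheory Complex Filter Topology Metric
open scoped ComplexConjugate ContDiff Convolution
open Pool.Agent.H352R3.SA
open Pool.Agent.H761R2.SV (dbar dbarR)

namespace Pool.Agent.H352R4.CA

namespace MolAux

lemma phi0_contDiff : ContDiff ℝ ∞ phi0 := bmp0.contDiff_normed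

lemma phi0_nonneg (z : ℂ) : 0 ≤ phi0 z := bmp0.nonneg_normed z

lemma phi0_int : ∫ z, phi0 z = 1 := bmp0.integral_normed

lemma phi0_compact : HasCompactSupport phi0 := bmp0.hasCompactSupport_normed

lemma phi0_zero {u : ℂ} (hu : 1 ≤ ‖u‖) : phi0 u = 0 := by
  have h : u ∉ Function.support phi0 := by
    have e : Function.support phi0 = ball (0 : ℂ) 1 := bmp0.support_normed_eq
    rw [e, mem_ball_zero_iff]
    linarith
  exact Function.notMem_support.1 h

lemma phi0_integrable : Integrable phi0 :=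
  phi0_contDiff.continuous.integrable_of_hasCompactSupport phi0_compact

/-- the kernel as a real function -/
noncomputable def KK (δ : ℝ) (v : ℂ) : ℝ := phi0 (v / (δ : ℂ))

/-- the kernel as a complex function -/
noncomputable def KC (δ : ℝ) (v : ℂ) : ℂ := ((KK δ v : ℝ) : ℂ)

lemma chi_eq (δ : ℝ) (z w : ℂ) : chi δ z w = KC δ (z - w) := rfl

lemma KK_contDiff (δ : ℝ) : ContDiff ℝ ∞ (KK δ) :=
  phi0_contDiff.comp (contDiff_id.div_const _)

lemma KC_contDiff (δ : ℝ) : ContDiff ℝ ∞ (KC δ) :=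
  Complex.ofRealCLM.contDiff.comp (KK_contDiff δ)

lemma KK_zero {δ : ℝ} (hδ : 0 < δ) {v : ℂ} (hv : δ ≤ ‖v‖) : KK δ v = 0 := by
  apply phi0_zero
  rw [norm_div, Complex.norm_real, Real.norm_eq_abs, abs_of_pos hδ, le_div_iff₀ hδ, one_mul]
  exact hv

lemma KC_zero {δ : ℝ} (hδ : 0 < δ) {v : ℂ} (hv : δ ≤ ‖v‖) : KC δ v = 0 := by
  unfold KC; rw [KK_zero hδ hv]; simp

lemma KC_compact {δ : ℝ} (hδ : 0 < δ) : HasCompactSupport (KC δ) := by
  apply HasCompactSupport.intro (isCompact_closedBall 0 δ)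
  intro v hv
  rw [mem_closedBall_zero_iff, not_le] at hv
  exact KC_zero hδ hv.le

lemma dbar_chi {δ : ℝ} (z w : ℂ) : dbar (chi δ z) w = - dbar (KC δ) (z - w) := by
  have h1 : HasFDerivAt (KC δ) (fderiv ℝ (KC δ) (z - w)) (z - w) :=
    ((KC_contDiff δ).differentiable (by simp) (z - w)).hasFDerivAt
  have h2 : HasFDerivAt (fun w : ℂ => z - w) (-ContinuousLinearMap.id ℝ ℂ) w := by
    simpa using (hasFDerivAt_id (𝕜 := ℝ) w).const_sub z
  have h3 : HasFDerivAt (chi δ z) ((fderiv ℝ (KC δ) (z - w)).comp (-ContinuousLinearMap.id ℝ ℂ)) w :=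
    h1.comp w h2
  unfold dbar
  rw [h3.fderiv]
  simp only [ContinuousLinearMap.comp_apply, neg_apply,
    ContinuousLinearMap.id_apply, map_neg]
  ring

lemma den_eq (δ : ℝ) (h : ℂ → ℂ) (z : ℂ) :
    den δ h z = ((Real.pi : ℂ) * (δ : ℂ) ^ 2)⁻¹ * ∫ w, h w * dbar (KC δ) (z - w) := by
  unfold den
  have : (fun w => h w * dbar (chi δ z) w) = fun w => - (h w * dbar (KC δ) (z - w)) := by
    funext w; rw [dbar_chi]; ring
  rw [this, integral_neg]
  ring

lemma mol_conv (δ : ℝ) (h : ℂ → ℂ) :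
    mol δ h = fun z => ((δ : ℂ) ^ 2)⁻¹ * (h ⋆[ContinuousLinearMap.mul ℝ ℂ, volume] KC δ) z := by
  funext z
  rfl

lemma den_conv (δ : ℝ) (h : ℂ → ℂ) :
    den δ h = fun z => ((Real.pi : ℂ) * (δ : ℂ) ^ 2)⁻¹ *
      (h ⋆[ContinuousLinearMap.mul ℝ ℂ, volume] dbar (KC δ)) z := by
  funext z
  rw [den_eq]
  rfl

lemma dbar_KC_continuous (δ : ℝ) : Continuous (dbar (KC δ)) :=
  Pool.Agent.H761R2.SV.continuous_dbar ((KC_contDiff δ).of_le (by simp))

lemma dbar_zero_of_notMem {f : ℂ → ℂ} {z : ℂ} (h : z ∉ tsupport f) : dbar f z = 0 := by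
  have h0 : f =ᶠ[𝓝 z] fun _ => 0 := notMem_tsupport_iff_eventuallyEq.1 h
  rw [Pool.Agent.H761R2.SV.dbar_congr h0, Pool.Agent.H761R2.SV.dbar_const]

lemma tsupport_dbar {f : ℂ → ℂ} : tsupport (dbar f) ⊆ tsupport f := by
  apply closure_minimal _ (isClosed_tsupport f)
  intro z hz
  by_contra h
  exact hz (dbar_zero_of_notMem h)

lemma dbar_compact {f : ℂ → ℂ} (hf : HasCompactSupport f) : HasCompactSupport (dbar f) :=
  hf.isCompact.of_isClosed_subset (isClosed_tsupport _) tsupport_dbar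


lemma h_li {h : ℂ → ℂ} (hh : Continuous h) : LocallyIntegrable h volume := hh.locallyIntegrable

lemma mol_contDiff {h : ℂ → ℂ} {δ : ℝ} (hδ : 0 < δ) (hh : Continuous h) :
    ContDiff ℝ 1 (mol δ h) := by
  rw [mol_conv]
  apply contDiff_const.mul
  exact (KC_compact hδ).contDiff_convolution_right _ (h_li hh) ((KC_contDiff δ).of_le (by simp))

lemma fderiv_mol {h : ℂ → ℂ} {δ : ℝ} (hδ : 0 < δ) (hh : Continuous h) (z v : ℂ) :
    fderiv ℝ (mol δ h) z v = ((δ : ℂ) ^ 2)⁻¹ * ∫ w, h w * fderiv ℝ (KC δ) (z - w) v := by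
  have h1 := (KC_compact hδ).hasFDerivAt_convolution_right (ContinuousLinearMap.mul ℝ ℂ) (h_li hh)
    ((KC_contDiff δ).of_le (by simp)) z
  have h2 := h1.const_mul (((δ : ℂ) ^ 2)⁻¹)
  rw [mol_conv, h2.fderiv]
  have h3 := convolution_precompR_apply (ContinuousLinearMap.mul ℝ ℂ) (h_li hh)
    ((KC_compact hδ).fderiv ℝ) ((KC_contDiff δ).continuous_fderiv (by simp)) z v
  rw [smul_apply, h3, smul_eq_mul]
  rfl

lemma int_h {h : ℂ → ℂ} (hh : Continuous h) {k : ℂ → ℂ} (hk : Continuous k)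
    (hc : HasCompactSupport k) (z : ℂ) : Integrable fun w => h w * k (z - w) := by
  apply Continuous.integrable_of_hasCompactSupport (by fun_prop)
  have h1 : HasCompactSupport fun w => k (z - w) :=
    hc.comp_isClosedEmbedding (Homeomorph.subLeft z).isClosedEmbedding
  exact h1.mul_left

lemma dbar_mol {h : ℂ → ℂ} {δ : ℝ} (hδ : 0 < δ) (hh : Continuous h) (z : ℂ) :
    dbar (mol δ h) z = (Real.pi : ℂ) * den δ h z := by
  have hπ : (Real.pi : ℂ) ≠ 0 := by exact_mod_cast Real.pi_ne_zero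
  have hδ' : (δ : ℂ) ≠ 0 := by exact_mod_cast hδ.ne'
  have hf : Continuous (fderiv ℝ (KC δ)) := (KC_contDiff δ).continuous_fderiv (by simp)
  have c1 : ∀ v : ℂ, Continuous fun a => fderiv ℝ (KC δ) a v := fun v => hf.clm_apply continuous_const
  have c2 : ∀ v : ℂ, HasCompactSupport fun a => fderiv ℝ (KC δ) a v := fun v =>
    ((KC_compact hδ).fderiv ℝ).comp_left (g := fun L : ℂ →L[ℝ] ℂ => L v) (by simp)
  have i1 := int_h hh (c1 1) (c2 1) z
  have i2 := int_h hh (c1 I) (c2 I) z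
  rw [den_eq]
  have e : ∀ f : ℂ → ℂ, dbar f z = (fderiv ℝ f z 1 + I * fderiv ℝ f z I) / 2 := fun f => rfl
  rw [e, fderiv_mol hδ hh, fderiv_mol hδ hh]
  have e2 : (fun w => h w * dbar (KC δ) (z - w)) = fun w =>
      (2 : ℂ)⁻¹ * (h w * fderiv ℝ (KC δ) (z - w) 1 + I * (h w * fderiv ℝ (KC δ) (z - w) I)) := by
    funext w
    unfold dbar
    ring
  rw [e2, integral_const_mul, integral_add i1 (i2.const_mul I), integral_const_mul]
  field_simp

/-- the mollification as an average -/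
lemma mol_avg {h : ℂ → ℂ} {δ : ℝ} (hδ : 0 < δ) (z : ℂ) :
    mol δ h z = ∫ u, h (z - (δ : ℂ) * u) * ((phi0 u : ℝ) : ℂ) := by
  have hδ' : (δ : ℂ) ≠ 0 := by exact_mod_cast hδ.ne'
  unfold mol
  have h1 : ∫ w, h w * chi δ z w = ∫ v, h (z - v) * KC δ v := by
    rw [← integral_sub_left_eq_self (fun w => h w * chi δ z w) volume z]
    apply integral_congr_ae
    refine Eventually.of_forall fun v => ?_
    simp only [chi_eq, sub_sub_cancel]
  have h2 := Measure.integral_comp_smul (volume : Measure ℂ) (fun v => h (z - v) * KC δ v) δ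
  rw [Complex.finrank_real_complex, abs_of_pos (by positivity)] at h2
  have h3 : ∀ u : ℂ, KC δ ((δ : ℂ) * u) = ((phi0 u : ℝ) : ℂ) := by
    intro u
    unfold KC KK
    rw [mul_div_cancel_left₀ _ hδ']
  rw [h1]
  simp only [Complex.real_smul] at h2
  simp only [h3] at h2
  rw [h2, Complex.ofReal_inv, Complex.ofReal_pow]

lemma avg_le {F : ℂ → ℂ} {M : ℝ} (_hM : 0 ≤ M) (hF : ∀ u, ‖u‖ ≤ 1 → ‖F u‖ ≤ M) :
    ‖∫ u, F u * ((phi0 u : ℝ) : ℂ)‖ ≤ M := by
  have h1 : ‖∫ u, F u * ((phi0 u : ℝ) : ℂ)‖ ≤ ∫ u, M * phi0 u := by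
    apply norm_integral_le_of_norm_le (phi0_integrable.const_mul M)
    refine Eventually.of_forall fun u => ?_
    rw [norm_mul, Complex.norm_real, Real.norm_eq_abs, abs_of_nonneg (phi0_nonneg u)]
    rcases le_or_gt ‖u‖ 1 with h | h
    · exact mul_le_mul_of_nonneg_right (hF u h) (phi0_nonneg u)
    · rw [phi0_zero h.le]; simp
  rw [integral_const_mul, phi0_int, mul_one] at h1
  exact h1

lemma avg_int {h : ℂ → ℂ} (hh : Continuous h) (δ : ℝ) (z : ℂ) :
    Integrable fun u => h (z - (δ : ℂ) * u) * ((phi0 u : ℝ) : ℂ) := by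
  have c0 : Continuous fun u : ℂ => ((phi0 u : ℝ) : ℂ) :=
    Complex.continuous_ofReal.comp phi0_contDiff.continuous
  have s0 : HasCompactSupport fun u : ℂ => ((phi0 u : ℝ) : ℂ) :=
    phi0_compact.comp_left (g := fun x : ℝ => (x : ℂ)) (by simp)
  apply Continuous.integrable_of_hasCompactSupport (by fun_prop)
  exact s0.mul_left

lemma phi0_int' : ∫ u, ((phi0 u : ℝ) : ℂ) = 1 := by
  rw [integral_complex_ofReal, phi0_int]; simp

lemma Ac_zero {S : Set ℂ} {h : ℂ → ℂ} {l : ℂ} (H : Ac S h l) :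
    Tendsto h (cocompact ℂ) (𝓝 0) := by
  have h1 := H.lim
  have h2 : Tendsto (fun z : ℂ => z⁻¹) (cocompact ℂ) (𝓝 0) := by
    rw [← Metric.cobounded_eq_cocompact]
    exact tendsto_inv₀_cobounded (α := ℂ)
  have h3 := h1.mul h2
  rw [mul_zero] at h3
  refine h3.congr' ?_
  have h4 : ∀ᶠ z : ℂ in cocompact ℂ, z ≠ 0 := by
    have := (isCompact_singleton (x := (0 : ℂ))).compl_mem_cocompact
    filter_upwards [this] with z hz
    exact hz
  filter_upwards [h4] with z hz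
  field_simp

/-- a limit at infinity, uniform version -/
lemma far_of_tendsto {F : ℂ → ℂ} {c : ℂ} (hF : Tendsto F (cocompact ℂ) (𝓝 c)) {ε : ℝ} (hε : 0 < ε) :
    ∃ R : ℝ, 0 < R ∧ ∀ z, R ≤ ‖z‖ → ‖F z - c‖ ≤ ε := by
  have h1 : ∀ᶠ z in cocompact ℂ, ‖F z - c‖ ≤ ε := by
    have h2 := (Metric.tendsto_nhds.1 hF) ε hε
    filter_upwards [h2] with z hz
    rw [dist_eq_norm] at hz
    exact hz.le
  rw [← Metric.cobounded_eq_cocompact] at h1
  obtain ⟨R, hR⟩ := (Metric.hasBasis_cobounded_compl_closedBall (0 : ℂ)).eventually_iff.1 h1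
  refine ⟨max (R + 1) 1, by positivity, fun z hz => hR.2 ?_⟩
  rw [Set.mem_compl_iff, mem_closedBall_zero_iff, not_le]
  have := le_max_left (R + 1) 1
  linarith

lemma mol_zero {S : Set ℂ} {h : ℂ → ℂ} {l : ℂ} {δ : ℝ} (hδ : 0 < δ) (H : Ac S h l) :
    Tendsto (mol δ h) (cocompact ℂ) (𝓝 0) := by
  rw [Metric.tendsto_nhds]
  intro ε hε
  obtain ⟨R, hR, hR2⟩ := far_of_tendsto (Ac_zero H) (half_pos hε)
  have h1 := (isCompact_closedBall (0 : ℂ) (R + δ)).compl_mem_cocompact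
  filter_upwards [h1] with z hz
  rw [Set.mem_compl_iff, mem_closedBall_zero_iff, not_le] at hz
  rw [dist_zero_right, mol_avg hδ]
  have h2 : ‖∫ u, h (z - (δ : ℂ) * u) * ((phi0 u : ℝ) : ℂ)‖ ≤ ε / 2 := by
    apply avg_le (half_pos hε).le
    intro u hu
    have h3 := hR2 (z - (δ : ℂ) * u) (by
      have h4 : ‖z‖ ≤ ‖z - (δ : ℂ) * u‖ + ‖(δ : ℂ) * u‖ := by
        simpa using norm_add_le (z - (δ : ℂ) * u) ((δ : ℂ) * u)
      have h5 : ‖(δ : ℂ) * u‖ ≤ δ := by
        rw [norm_mul, Complex.norm_real, Real.norm_eq_abs, abs_of_pos hδ]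
        nlinarith
      linarith)
    simpa using h3
  linarith

lemma mol_lim {S : Set ℂ} {h : ℂ → ℂ} {l : ℂ} {δ : ℝ} (hδ : 0 < δ) (H : Ac S h l) :
    Tendsto (fun z => z * mol δ h z) (cocompact ℂ) (𝓝 l) := by
  rw [Metric.tendsto_nhds]
  intro ε hε
  obtain ⟨R, hR, hR2⟩ := far_of_tendsto (Ac_zero H) (show 0 < ε / (4 * δ) by positivity)
  obtain ⟨R', hR', hR2'⟩ := far_of_tendsto H.lim (show 0 < ε / 4 by positivity)
  have h1 := (isCompact_closedBall (0 : ℂ) (R + R' + δ)).compl_mem_cocompact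
  filter_upwards [h1] with z hz
  rw [Set.mem_compl_iff, mem_closedBall_zero_iff, not_le] at hz
  rw [dist_eq_norm]
  have c0 : Integrable fun u : ℂ => ((phi0 u : ℝ) : ℂ) := phi0_integrable.ofReal
  have e : z * mol δ h z - l = ∫ u, (z * h (z - (δ : ℂ) * u) - l) * ((phi0 u : ℝ) : ℂ) := by
    have e1 : (fun u => (z * h (z - (δ : ℂ) * u) - l) * ((phi0 u : ℝ) : ℂ)) = fun u =>
        z * (h (z - (δ : ℂ) * u) * ((phi0 u : ℝ) : ℂ)) - l * ((phi0 u : ℝ) : ℂ) := by
      funext u; ring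
    rw [e1, integral_sub ((avg_int H.cont δ z).const_mul z) (c0.const_mul l), integral_const_mul,
      integral_const_mul, phi0_int', ← mol_avg hδ, mul_one]
  rw [e]
  have h2 : ‖∫ u, (z * h (z - (δ : ℂ) * u) - l) * ((phi0 u : ℝ) : ℂ)‖ ≤ ε / 2 := by
    apply avg_le (half_pos hε).le
    intro u hu
    have h5 : ‖(δ : ℂ) * u‖ ≤ δ := by
      rw [norm_mul, Complex.norm_real, Real.norm_eq_abs, abs_of_pos hδ]
      nlinarith
    have h4 : ‖z‖ ≤ ‖z - (δ : ℂ) * u‖ + ‖(δ : ℂ) * u‖ := by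
      simpa using norm_add_le (z - (δ : ℂ) * u) ((δ : ℂ) * u)
    have h3 := hR2 (z - (δ : ℂ) * u) (by linarith)
    have h3' := hR2' (z - (δ : ℂ) * u) (by linarith)
    rw [sub_zero] at h3
    have e2 : z * h (z - (δ : ℂ) * u) - l = ((z - (δ : ℂ) * u) * h (z - (δ : ℂ) * u) - l) +
        ((δ : ℂ) * u) * h (z - (δ : ℂ) * u) := by ring
    rw [e2]
    refine (norm_add_le _ _).trans ?_
    have h6 : ‖((δ : ℂ) * u) * h (z - (δ : ℂ) * u)‖ ≤ δ * (ε / (4 * δ)) := by
      rw [norm_mul]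
      exact mul_le_mul h5 h3 (norm_nonneg _) hδ.le
    have h7 : δ * (ε / (4 * δ)) = ε / 4 := by field_simp
    linarith
  linarith

/-- `∫ dbar G = 0` for compactly supported `G` -/
lemma int_dbar_zero {G : ℂ → ℂ} (hG : ContDiff ℝ 1 G) (hc : HasCompactSupport G) :
    ∫ w, dbar G w = 0 := by
  have h1 := pot_tendsto (Pool.Agent.H761R2.SV.continuous_dbar hG) (dbar_compact hc)
  have h2 : (fun z => z * pot (dbar G) z) = fun z => z * ((Real.pi : ℂ) * G z) := by
    funext z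
    have := Pool.Agent.H761R2.SV.pompeiu_compact hG hc z
    unfold pot
    rw [this]
  rw [h2] at h1
  have h3 : Tendsto (fun z => z * ((Real.pi : ℂ) * G z)) (cocompact ℂ) (𝓝 0) := by
    apply tendsto_const_nhds.congr'
    filter_upwards [hc.isCompact.compl_mem_cocompact] with z hz
    rw [image_eq_zero_of_notMem_tsupport hz]
    simp
  have : (cocompact ℂ).NeBot := by infer_instance
  exact tendsto_nhds_unique h1 h3

end MolAux

theorem den_continuous {h : ℂ → ℂ} {δ : ℝ} (hδ : 0 < δ) (hh : Continuous h) :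
    Continuous (den δ h) := by
  rw [MolAux.den_conv]
  exact continuous_const.mul ((MolAux.dbar_compact (MolAux.KC_compact hδ)).continuous_convolution_right _
    (MolAux.h_li hh) (MolAux.dbar_KC_continuous δ))

theorem den_zero {S : Set ℂ} {h : ℂ → ℂ} {l : ℂ} {δ : ℝ} (hδ : 0 < δ) (hS : IsCompact S)
    (H : Ac S h l) {z : ℂ} (hz : Disjoint S (closedBall z δ)) : den δ h z = 0 := by
  set s : ℂ → ℝ := fun w => MolAux.KK δ (z - w) with hs
  have hsd : ContDiff ℝ ∞ s := (MolAux.KK_contDiff δ).comp (contDiff_const.sub contDiff_id)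
  have hts0 : tsupport s ⊆ closedBall z δ := by
    apply closure_minimal _ isClosed_closedBall
    intro w hw
    by_contra hc
    apply hw
    rw [mem_closedBall, not_le, dist_comm, dist_eq_norm] at hc
    exact MolAux.KK_zero hδ hc.le
  have hts : tsupport s ⊆ Sᶜ := fun w hw hwS => Set.disjoint_left.1 hz hwS (hts0 hw)
  have hO : IsOpen Sᶜ := hS.isClosed.isOpen_compl
  have hG := Pool.Agent.H761R2.SV.fS_contDiff hO hsd hts H.hol 0
  have hcs : HasCompactSupport fun w => h w * ((s w : ℝ) : ℂ) ^ (0 + 1) := by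
    apply HasCompactSupport.intro (isCompact_closedBall z δ)
    intro w hw
    have : s w = 0 := by
      by_contra hc
      exact hw (hts0 (subset_tsupport _ hc))
    rw [this]; simp
  have h1 := MolAux.int_dbar_zero (hG.of_le (by simp)) hcs
  have h2 : ∀ w, dbar (fun w => h w * ((s w : ℝ) : ℂ) ^ (0 + 1)) w = h w * dbar (chi δ z) w := by
    intro w
    rw [Pool.Agent.H761R2.SV.fS_dbar hO hsd hts H.hol 0 w,
      ← Pool.Agent.H761R2.SV.dbar_ofReal ((hsd.differentiable (by simp)).differentiableAt)]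
    have : (fun w => ((s w : ℝ) : ℂ)) = chi δ z := by funext w; rfl
    rw [this]
    simp
  have h3 : (fun w => dbar (fun w => h w * ((s w : ℝ) : ℂ) ^ (0 + 1)) w) = fun w => h w * dbar (chi δ z) w := by
    funext w; exact h2 w
  rw [h3] at h1
  unfold den
  rw [h1, mul_zero]

theorem den_supp {S : Set ℂ} {h : ℂ → ℂ} {l : ℂ} {δ : ℝ} (hδ : 0 < δ) (hS : IsCompact S)
    (H : Ac S h l) : HasCompactSupport (den δ h) := by
  obtain ⟨R, hR⟩ := hS.isBounded.subset_closedBall (0 : ℂ)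
  apply HasCompactSupport.intro (isCompact_closedBall (0 : ℂ) (R + δ))
  intro z hz
  rw [mem_closedBall_zero_iff, not_le] at hz
  apply den_zero hδ hS H
  rw [Set.disjoint_left]
  intro w hw hw2
  have h1 := hR hw
  rw [mem_closedBall_zero_iff] at h1
  rw [mem_closedBall, dist_comm, dist_eq_norm] at hw2
  have h2 : ‖z‖ ≤ ‖z - w‖ + ‖w‖ := by simpa using norm_add_le (z - w) w
  linarith

theorem den_pot {S : Set ℂ} {h : ℂ → ℂ} {l : ℂ} {δ : ℝ} (hδ : 0 < δ) (hS : IsCompact S)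
    (H : Ac S h l) (z : ℂ) : pot (den δ h) z = mol δ h z := by
  have hπ : (Real.pi : ℂ) ≠ 0 := by exact_mod_cast Real.pi_ne_zero
  have e : dbar (mol δ h) = fun w => (Real.pi : ℂ) * den δ h w := by
    funext w; exact MolAux.dbar_mol hδ H.cont w
  have h1 := Pool.Agent.H761R2.SV.pompeiu (MolAux.mol_contDiff hδ H.cont) (by
    rw [e]; exact (den_supp hδ hS H).mul_left) (MolAux.mol_zero hδ H) z
  rw [e] at h1
  have h2 : (fun w => (Real.pi : ℂ) * den δ h w * (z - w)⁻¹) =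
      fun w => (Real.pi : ℂ) * (den δ h w * (z - w)⁻¹) := by funext w; ring
  rw [h2, integral_const_mul] at h1
  exact mul_left_cancel₀ hπ h1

theorem den_int {S : Set ℂ} {h : ℂ → ℂ} {l : ℂ} {δ : ℝ} (hδ : 0 < δ) (hS : IsCompact S)
    (H : Ac S h l) : ∫ z, den δ h z = l := by
  have h1 := pot_tendsto (den_continuous hδ H.cont) (den_supp hδ hS H)
  have h2 : (fun z => z * pot (den δ h) z) = fun z => z * mol δ h z := by
    funext z; rw [den_pot hδ hS H]
  rw [h2] at h1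
  have : (cocompact ℂ).NeBot := by infer_instance
  exact tendsto_nhds_unique h1 (MolAux.mol_lim hδ H)

theorem mol_le {h : ℂ → ℂ} {δ M : ℝ} (hδ : 0 < δ) (hh : Continuous h) (hM : ∀ z, ‖h z‖ ≤ M)
    (z : ℂ) : ‖mol δ h z‖ ≤ M := by
  have _ := hh
  rw [MolAux.mol_avg hδ]
  exact MolAux.avg_le ((norm_nonneg _).trans (hM 0)) fun u _ => hM _

end Pool.Agent.H352R4.CA
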