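import Pool.Agent.H352R4.CA.Mol

/-!
# Module VIT: Vitushkin localisation
-/

set_option autoImplicit false

open MeasureTheory Complex Filter Topology Metric
open scoped ComplexConjugate ContDiff
open Pool.Agent.H352R3.SA
open Pool.Agent.H761R2.SV (dbar dbarR)

namespace Pool.Agent.H352R4.CA

namespace VitAux

lemma chi_contDiff (δ : ℝ) (z : ℂ) : ContDiff ℝ ∞ (chi δ z) :=
  (MolAux.KC_contDiff δ).comp (contDiff_const.sub contDiff_id)

lemma chi_zero {δ : ℝ} (hδ : 0 < δ) {z w : ℂ} (hw : w ∉ closedBall z δ) : chi δ z w = 0 := by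
  rw [mem_closedBall, not_le, dist_comm, dist_eq_norm] at hw
  exact MolAux.KC_zero hδ hw.le

lemma chi_tsupport {δ : ℝ} (hδ : 0 < δ) (z : ℂ) : tsupport (chi δ z) ⊆ closedBall z δ := by
  apply closure_minimal _ isClosed_closedBall
  intro w hw
  by_contra hc
  exact hw (chi_zero hδ hc)

lemma chi_compact {δ : ℝ} (hδ : 0 < δ) (z : ℂ) : HasCompactSupport (chi δ z) :=
  (isCompact_closedBall z δ).of_isClosed_subset (isClosed_tsupport _) (chi_tsupport hδ z)

lemma dchi_continuous (δ : ℝ) (z : ℂ) : Continuous (dbar (chi δ z)) :=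
  Pool.Agent.H761R2.SV.continuous_dbar ((chi_contDiff δ z).of_le (by simp))

lemma dchi_compact {δ : ℝ} (hδ : 0 < δ) (z : ℂ) : HasCompactSupport (dbar (chi δ z)) :=
  MolAux.dbar_compact (chi_compact hδ z)

lemma pot_add {φ ψ : ℂ → ℂ} (hφ : Continuous φ) (cφ : HasCompactSupport φ) (hψ : Continuous ψ)
    (cψ : HasCompactSupport ψ) (z : ℂ) : pot (fun w => φ w + ψ w) z = pot φ z + pot ψ z := by
  unfold pot
  rw [← integral_add (pot_integrable hφ cφ z) (pot_integrable hψ cψ z)]
  congr 1
  funext w
  ring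

lemma pot_diffAt {φ : ℂ → ℂ} (hφ : Continuous φ) (cφ : HasCompactSupport φ) {z : ℂ}
    (hz : φ =ᶠ[𝓝 z] fun _ => 0) : DifferentiableAt ℂ (pot φ) z := by
  have h1 : z ∈ (tsupport φ)ᶜ := notMem_tsupport_iff_eventuallyEq.2 hz
  exact (pot_differentiableOn hφ cφ).differentiableAt ((isClosed_tsupport φ).isOpen_compl.mem_nhds h1)

end VitAux

open VitAux in
theorem vit_ac {S : Set ℂ} {h : ℂ → ℂ} {l : ℂ} {δ : ℝ} (hδ : 0 < δ) (hS : IsCompact S)
    (H : Ac S h l) (z : ℂ) :
    Ac (S ∩ closedBall z δ) (vit δ h z) ((δ : ℂ) ^ 2 * den δ h z) := by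
  have hπ : (Real.pi : ℂ) ≠ 0 := by exact_mod_cast Real.pi_ne_zero
  have hδ' : (δ : ℂ) ≠ 0 := by exact_mod_cast hδ.ne'
  have hh := H.cont
  have c1 : Continuous (chi δ z) := (chi_contDiff δ z).continuous
  have c2 : Continuous fun w => h w * dbar (chi δ z) w := hh.mul (dchi_continuous δ z)
  have s2 : HasCompactSupport fun w => h w * dbar (chi δ z) w := (dchi_compact hδ z).mul_left
  refine ⟨?_, ?_, ?_⟩
  · unfold vit
    exact (c1.mul hh).sub (continuous_const.mul (pot_continuous c2 s2))
  · intro ζ₀ hζ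
    apply DifferentiableAt.differentiableWithinAt
    by_cases hb : ζ₀ ∈ closedBall z δ
    · have hS0 : ζ₀ ∉ S := fun hc => hζ ⟨hc, hb⟩
      obtain ⟨r, hr, hr2⟩ := Metric.isOpen_iff.1 hS.isClosed.isOpen_compl ζ₀ hS0
      let b : ContDiffBump ζ₀ := ⟨r / 4, r / 2, by positivity, by linarith⟩
      have hbd : ContDiff ℝ ∞ (fun w => b w) := b.contDiff
      have hts : tsupport (fun w => b w) ⊆ Sᶜ := by
        have h1 : tsupport (fun w => b w) = closedBall ζ₀ (r / 2) := b.tsupport_eq
        rw [h1]
        exact (closedBall_subset_ball (by linarith)).trans hr2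
      have hbc : HasCompactSupport (fun w => b w) := b.hasCompactSupport
      have hO : IsOpen Sᶜ := hS.isClosed.isOpen_compl
      have hG0 := Pool.Agent.H761R2.SV.fS_contDiff hO hbd hts H.hol 0
      set θ : ℂ → ℂ := fun w => ((b w : ℝ) : ℂ) with hθ
      have hθd : ContDiff ℝ ∞ θ := Complex.ofRealCLM.contDiff.comp hbd
      have hθc : HasCompactSupport θ := hbc.comp_left (g := fun x : ℝ => (x : ℂ)) (by simp)
      have hθ1 : θ =ᶠ[𝓝 ζ₀] fun _ => 1 := by
        filter_upwards [b.eventuallyEq_one] with w hw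
        rw [hθ]
        simp only
        rw [hw]
        simp
      -- the product
      set F : ℂ → ℂ := fun w => h w * ((b w : ℝ) : ℂ) ^ (0 + 1) with hF
      have hFd : ContDiff ℝ 1 F := hG0.of_le (by simp)
      have hFdb : ∀ w, dbar F w = h w * dbar θ w := by
        intro w
        rw [hF, Pool.Agent.H761R2.SV.fS_dbar hO hbd hts H.hol 0 w, hθ,
          Pool.Agent.H761R2.SV.dbar_ofReal ((hbd.differentiable (by simp)).differentiableAt)]
        simp
      have hFe : ∀ w, F w = h w * θ w := by
        intro w; rw [hF, hθ]; simp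
      have hGd : ContDiff ℝ 1 fun w => F w * chi δ z w := hFd.mul ((chi_contDiff δ z).of_le (by simp))
      have hGc : HasCompactSupport fun w => F w * chi δ z w := (chi_compact hδ z).mul_left
      have hp := fun ζ => Pool.Agent.H761R2.SV.pompeiu_compact hGd hGc ζ
      have e1 : dbar (fun w => F w * chi δ z w) = fun w =>
          h w * dbar θ w * chi δ z w + h w * θ w * dbar (chi δ z) w := by
        funext w
        rw [Pool.Agent.H761R2.SV.dbar_mul hFd ((chi_contDiff δ z).of_le (by simp)), hFdb, hFe]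
      have cθ : Continuous θ := hθd.continuous
      have cdθ : Continuous (dbar θ) := Pool.Agent.H761R2.SV.continuous_dbar (hθd.of_le (by simp))
      have cA : Continuous fun w => h w * dbar θ w * chi δ z w := (hh.mul cdθ).mul c1
      have sA : HasCompactSupport fun w => h w * dbar θ w * chi δ z w := (chi_compact hδ z).mul_left
      have cB : Continuous fun w => h w * θ w * dbar (chi δ z) w := (hh.mul cθ).mul (dchi_continuous δ z)
      have sB : HasCompactSupport fun w => h w * θ w * dbar (chi δ z) w := (dchi_compact hδ z).mul_left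
      have cE : Continuous fun w => h w * (1 - θ w) * dbar (chi δ z) w :=
        (hh.mul (continuous_const.sub cθ)).mul (dchi_continuous δ z)
      have sE : HasCompactSupport fun w => h w * (1 - θ w) * dbar (chi δ z) w :=
        (dchi_compact hδ z).mul_left
      have e2 : ∀ ζ, pot (fun w => h w * dbar (chi δ z) w) ζ =
          pot (fun w => h w * θ w * dbar (chi δ z) w) ζ +
          pot (fun w => h w * (1 - θ w) * dbar (chi δ z) w) ζ := by
        intro ζ
        rw [← pot_add cB sB cE sE]
        congr 1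
        funext w
        ring
      have e3 : ∀ ζ, (Real.pi : ℂ) * (F ζ * chi δ z ζ) =
          pot (fun w => h w * dbar θ w * chi δ z w) ζ +
          pot (fun w => h w * θ w * dbar (chi δ z) w) ζ := by
        intro ζ
        rw [← pot_add cA sA cB sB, ← hp ζ, e1]
        rfl
      have e4 : vit δ h z =ᶠ[𝓝 ζ₀] fun ζ => (Real.pi : ℂ)⁻¹ * pot (fun w => h w * dbar θ w * chi δ z w) ζ -
          (Real.pi : ℂ)⁻¹ * pot (fun w => h w * (1 - θ w) * dbar (chi δ z) w) ζ := by
        filter_upwards [hθ1] with ζ hζ1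
        unfold vit
        rw [e2 ζ]
        have e5 := e3 ζ
        rw [hFe, hζ1, mul_one] at e5
        have e6 : pot (fun w => h w * θ w * dbar (chi δ z) w) ζ =
            (Real.pi : ℂ) * (h ζ * chi δ z ζ) - pot (fun w => h w * dbar θ w * chi δ z w) ζ := by
          rw [e5]; ring
        rw [e6]
        field_simp
        ring
      have hθ1' : ∀ᶠ w in 𝓝 ζ₀, dbar θ w = 0 := by
        have := eventually_eventually_nhds.2 hθ1
        filter_upwards [this] with w hw
        rw [Pool.Agent.H761R2.SV.dbar_congr hw, Pool.Agent.H761R2.SV.dbar_const]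
      have dA := pot_diffAt cA sA (z := ζ₀) (by
        filter_upwards [hθ1'] with w hw
        rw [hw]; ring)
      have dE := pot_diffAt cE sE (z := ζ₀) (by
        filter_upwards [hθ1] with w hw
        rw [hw]; ring)
      exact ((dA.const_mul _).sub (dE.const_mul _)).congr_of_eventuallyEq e4
    · have hev : ∀ᶠ w in 𝓝 ζ₀, w ∉ closedBall z δ := isClosed_closedBall.isOpen_compl.mem_nhds hb
      have e1 : vit δ h z =ᶠ[𝓝 ζ₀] fun ζ => - ((Real.pi : ℂ)⁻¹ * pot (fun w => h w * dbar (chi δ z) w) ζ) := by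
        filter_upwards [hev] with ζ hζ1
        unfold vit
        rw [chi_zero hδ hζ1]
        ring
      have d1 := pot_diffAt c2 s2 (z := ζ₀) (by
        filter_upwards [hev] with w hw
        rw [MolAux.dbar_zero_of_notMem (fun hc => hw (chi_tsupport hδ z hc)), mul_zero])
      exact ((d1.const_mul _).neg).congr_of_eventuallyEq e1
  · have h1 := (pot_tendsto c2 s2).const_mul (-(Real.pi : ℂ)⁻¹)
    have e : (δ : ℂ) ^ 2 * den δ h z = -(Real.pi : ℂ)⁻¹ * ∫ w, h w * dbar (chi δ z) w := by
      unfold den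
      field_simp
    rw [e]
    refine h1.congr' ?_
    filter_upwards [(isCompact_closedBall z δ).compl_mem_cocompact] with ζ hζ
    unfold vit
    rw [chi_zero hδ hζ]
    ring

end Pool.Agent.H352R4.CA
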