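import Pool.Agent.H352R4.CA.Defs
import Pool.Agent.H352R4.CA.Alb
import Pool.Agent.H352R4.CA.Fon
import Pool.Agent.H352R4.CA.Mol
import Pool.Agent.H352R4.CA.Vit
import Pool.Agent.H352R3.SA.Sub

set_option autoImplicit false

open MeasureTheory Complex Filter Topology Metric
open scoped ComplexConjugate
open Pool.Agent.H352R3.SA
open Pool.Agent.H761R2.SV (dbar)

namespace Pool.Agent.H352R4.CA

namespace OneAux

theorem nearest {δ : ℝ} (hδ : 0 < δ) (z : ℂ) : ∃ j : ℤ × ℤ, ‖z - gp δ j‖ ≤ 3 / 4 * δ := by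
  refine ⟨(round (z.re / δ), round (z.im / δ)), ?_⟩
  have key : ∀ x : ℝ, (x - δ * (round (x / δ) : ℝ)) ^ 2 ≤ (δ / 2) ^ 2 := by
    intro x
    have h1 := abs_sub_round (x / δ)
    have h2 : x - δ * (round (x / δ) : ℝ) = δ * (x / δ - (round (x / δ) : ℝ)) := by
      field_simp
    rw [h2, ← sq_abs, abs_mul, abs_of_pos hδ]
    exact pow_le_pow_left₀ (by positivity) (by nlinarith) 2
  have h3 : ‖z - gp δ (round (z.re / δ), round (z.im / δ))‖ ^ 2 ≤ (3 / 4 * δ) ^ 2 := by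
    rw [Complex.sq_norm, Complex.normSq_apply]
    have e1 : (z - gp δ (round (z.re / δ), round (z.im / δ))).re =
        z.re - δ * (round (z.re / δ) : ℝ) := by
      simp [gp]
    have e2 : (z - gp δ (round (z.re / δ), round (z.im / δ))).im =
        z.im - δ * (round (z.im / δ) : ℝ) := by
      simp [gp]
    rw [e1, e2]
    have k1 := key z.re
    have k2 := key z.im
    nlinarith [sq_nonneg δ]
  exact le_of_sq_le_sq₀ h3 (by positivity)
where
  le_of_sq_le_sq₀ {a b : ℝ} (h : a ^ 2 ≤ b ^ 2) (hb : 0 ≤ b) : a ≤ b :=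
    le_of_abs_le_abs_aux h hb
  le_of_abs_le_abs_aux {a b : ℝ} (h : a ^ 2 ≤ b ^ 2) (hb : 0 ≤ b) : a ≤ b := by
    nlinarith [abs_le_of_sq_le_sq h hb, le_abs_self a]

theorem finite_J {δ : ℝ} (hδ : 0 < δ) {E : Set ℂ} (hE : Bornology.IsBounded E) :
    ∃ J : Finset (ℤ × ℤ), ∀ j, j ∈ J ↔ gp δ j ∈ E := by
  classical
  obtain ⟨R, hR⟩ := hE.exists_norm_le
  set n : ℤ := ⌈R / δ⌉ with hn
  refine ⟨(Finset.Icc (-n) n ×ˢ Finset.Icc (-n) n).filter fun j => gp δ j ∈ E, ?_⟩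
  intro j
  rw [Finset.mem_filter]
  refine ⟨fun h => h.2, fun h => ⟨?_, h⟩⟩
  have hb := hR _ h
  have key : ∀ m : ℤ, |δ * (m : ℝ)| ≤ R → -n ≤ m ∧ m ≤ n := by
    intro m hm
    rw [abs_mul, abs_of_pos hδ] at hm
    have h1 : |(m : ℝ)| ≤ R / δ := by rw [le_div_iff₀ hδ]; linarith
    have h2 : |(m : ℝ)| ≤ (n : ℝ) := h1.trans (Int.le_ceil _)
    have h3 : |m| ≤ n := by exact_mod_cast h2
    exact abs_le.mp h3
  have e1 : (gp δ j).re = δ * (j.1 : ℝ) := by simp [gp]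
  have e2 : (gp δ j).im = δ * (j.2 : ℝ) := by simp [gp]
  rw [Finset.mem_product, Finset.mem_Icc, Finset.mem_Icc]
  exact ⟨key _ (by rw [← e1]; exact (Complex.abs_re_le_norm _).trans hb),
    key _ (by rw [← e2]; exact (Complex.abs_im_le_norm _).trans hb)⟩

theorem bmp_cont (δ : ℝ) (j : ℤ × ℤ) : Continuous (bmp δ j) := by
  unfold bmp
  fun_prop

theorem bmp_nonneg (δ : ℝ) (j : ℤ × ℤ) (z : ℂ) : 0 ≤ bmp δ j z := le_max_left _ _

theorem bmp_supp {δ : ℝ} (hδ : 0 < δ) (j : ℤ × ℤ) : HasCompactSupport (bmp δ j) := by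
  refine HasCompactSupport.intro (isCompact_closedBall (gp δ j) δ) ?_
  intro z hz
  rw [mem_closedBall, not_le, dist_eq_norm] at hz
  unfold bmp
  refine max_eq_left ((min_le_right _ _).trans ?_)
  have : 1 < ‖z - gp δ j‖ / δ := by rw [lt_div_iff₀ hδ]; linarith
  have e : 4 * ‖z - gp δ j‖ / δ = 4 * (‖z - gp δ j‖ / δ) := by ring
  rw [e]; linarith

theorem bmp_one {δ : ℝ} (hδ : 0 < δ) {j : ℤ × ℤ} {z : ℂ} (h : ‖z - gp δ j‖ ≤ 3 / 4 * δ) :
    bmp δ j z = 1 := by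
  have h1 : ‖z - gp δ j‖ / δ ≤ 3 / 4 := by rw [div_le_iff₀ hδ]; exact h
  have e : 4 * ‖z - gp δ j‖ / δ = 4 * (‖z - gp δ j‖ / δ) := by ring
  unfold bmp
  rw [min_eq_left (by rw [e]; linarith)]
  norm_num

theorem den_dg {δ t : ℝ} (hδ : 0 < δ) (ht : 0 ≤ t) (Ω : ℝ → ℝ) (A : Set ℂ)
    (J : Finset (ℤ × ℤ)) : Den (dg δ t Ω A J) := by
  have hc : ∀ j, 0 ≤ t / δ ^ 2 * al Ω (A ∩ closedBall (gp δ j) (3 * δ)) := fun j =>
    mul_nonneg (by positivity) (al_nonneg _ _)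
  refine ⟨?_, ?_, ?_⟩
  · unfold dg
    exact continuous_finsetSum _ fun j _ => continuous_const.mul (bmp_cont δ j)
  · have : ∀ I : Finset (ℤ × ℤ), HasCompactSupport (dg δ t Ω A I) := by
      intro I
      classical
      induction I using Finset.induction_on with
      | empty =>
        have : dg δ t Ω A ∅ = fun _ => 0 := by
          funext z; simp [dg]
        rw [this]
        exact HasCompactSupport.zero
      | insert a s ha ih =>
        have : dg δ t Ω A (insert a s) = (fun z => t / δ ^ 2 *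
            al Ω (A ∩ closedBall (gp δ a) (3 * δ)) * bmp δ a z) + dg δ t Ω A s := by
          funext z
          simp [dg, Finset.sum_insert ha]
        rw [this]
        refine HasCompactSupport.add ?_ ih
        exact (bmp_supp hδ a).mul_left
    exact this J
  · intro z
    exact Finset.sum_nonneg fun j _ => mul_nonneg (hc j) (bmp_nonneg δ j z)

theorem dg_ge {δ t : ℝ} (hδ : 0 < δ) (ht : 0 ≤ t) (Ω : ℝ → ℝ) {A : Set ℂ} (hA : IsCompact A)
    {J : Finset (ℤ × ℤ)} {j : ℤ × ℤ} (hj : j ∈ J) {z : ℂ} (hz : ‖z - gp δ j‖ ≤ 3 / 4 * δ) :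
    t / δ ^ 2 * al Ω (A ∩ closedBall z (2 * δ)) ≤ dg δ t Ω A J z := by
  have h1 : t / δ ^ 2 * al Ω (A ∩ closedBall z (2 * δ)) ≤
      t / δ ^ 2 * al Ω (A ∩ closedBall (gp δ j) (3 * δ)) * bmp δ j z := by
    rw [bmp_one hδ hz, mul_one]
    refine mul_le_mul_of_nonneg_left ?_ (by positivity)
    refine al_mono (hA.inter_right isClosed_closedBall) (fun s _ => le_rfl) ?_
    refine Set.inter_subset_inter_right _ ?_
    refine closedBall_subset_closedBall' ?_
    rw [dist_eq_norm]; linarith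
  refine h1.trans ?_
  refine Finset.single_le_sum (f := fun j => t / δ ^ 2 *
    al Ω (A ∩ closedBall (gp δ j) (3 * δ)) * bmp δ j z) (fun i _ => ?_) hj
  exact mul_nonneg (mul_nonneg (by positivity) (al_nonneg _ _)) (bmp_nonneg _ _ _)

theorem pot_cmul (c : ℂ) (φ : ℂ → ℂ) (z : ℂ) : pot (fun w => c * φ w) z = c * pot φ z := by
  unfold pot
  rw [← integral_const_mul]
  congr 1
  funext w
  ring

end OneAux

open OneAux

theorem one {C t₀ C₆ : ℝ} (hT : TR C t₀) (hV : VO C₆) {ω Ω : ℝ → ℝ} (hω : Mod ω)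
    {A B A' B' : Set ℂ} {δ' : ℝ} (hδ' : 0 < δ') (hΩ : GM (3 * δ') Ω) (hA' : IsCompact A')
    (hB' : IsCompact B') (hP : Pst ω Ω A B A' B' δ') {S : Set ℂ} {h : ℂ → ℂ} {l : ℂ}
    {M N t : ℝ} (hS : IsCompact S) (hSA : S ⊆ A ∪ B) (H : Ac S h l) (hM0 : 0 ≤ M)
    (hMN : M < N) (hM : ∀ z, ‖h z‖ ≤ M) (ho : ∀ z u, ‖h (z + u) - h z‖ ≤ ω ‖u‖) (ht : 0 < t)
    (ht0 : t ≤ t₀) (hc : 8 * C₆ * ω (4 * δ') / N ≤ t * (1 - (M / N) ^ 2)) :
    ‖l‖ ≤ N * (1 + C * t) * (al (Ph C δ' Ω) (A' ∩ cthickening (5 * δ') S) +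
      al (Ph C δ' Ω) (B' ∩ cthickening (5 * δ') S)) := by
  have hN : 0 < N := by linarith
  have hC1 : 1 ≤ C := hT.1
  have hC6 : 1 ≤ C₆ := hV.1
  set q : ℝ := 1 - (M / N) ^ 2 with hq
  have hMN1 : M / N < 1 := (div_lt_one hN).mpr hMN
  have hMN0 : 0 ≤ M / N := div_nonneg hM0 hN.le
  have hq0 : 0 < q := by nlinarith
  -- the density
  set D : ℂ → ℂ := fun z => (N : ℂ)⁻¹ * den δ' h z with hD
  have cD : Continuous D := continuous_const.mul (den_continuous hδ' H.cont)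
  have sD : HasCompactSupport D := (den_supp hδ' hS H).mul_left
  have pD : ∀ z, ‖pot D z‖ ≤ M / N := by
    intro z
    rw [hD, pot_cmul, den_pot hδ' hS H, norm_mul, norm_inv, Complex.norm_real,
      Real.norm_of_nonneg hN.le]
    have := mol_le hδ' H.cont hM z
    rw [div_eq_inv_mul]
    exact mul_le_mul_of_nonneg_left this (by positivity)
  have iD : ∫ z, D z = (N : ℂ)⁻¹ * l := by
    rw [hD, integral_const_mul, den_int hδ' hS H]
  -- lattice points near S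
  obtain ⟨J, hJ⟩ := finite_J hδ' (hS.cthickening (r := 2 * δ')).isBounded
  set gA := dg δ' t Ω A' J with hgA
  set gB := dg δ' t Ω B' J with hgB
  have dA : Den gA := den_dg hδ' ht.le Ω A' J
  have dB : Den gB := den_dg hδ' ht.le Ω B' J
  have dAB : Den (fun z => gA z + gB z) :=
    ⟨dA.cont.add dB.cont, dA.supp.add dB.supp, fun z => add_nonneg (dA.nonneg z) (dB.nonneg z)⟩
  have claim : ∀ z, ‖D z‖ ≤ (gA z + gB z) * (1 - ‖pot D z‖ ^ 2) := by
    intro z
    have hq1 : q ≤ 1 - ‖pot D z‖ ^ 2 := by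
      have := pow_le_pow_left₀ (norm_nonneg _) (pD z) 2
      rw [hq]; linarith
    have hg0 := dAB.nonneg z
    have hred : ‖D z‖ ≤ (gA z + gB z) * q → ‖D z‖ ≤ (gA z + gB z) * (1 - ‖pot D z‖ ^ 2) :=
      fun h => h.trans (mul_le_mul_of_nonneg_left hq1 hg0)
    apply hred
    by_cases hdis : Disjoint S (closedBall z δ')
    · have h0 : D z = 0 := by
        rw [hD]; simp only [den_zero hδ' hS H hdis, mul_zero]
      rw [h0, norm_zero]
      exact mul_nonneg hg0 hq0.le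
    · obtain ⟨w, hwS, hwz⟩ := Set.not_disjoint_iff.mp hdis
      rw [mem_closedBall, dist_eq_norm] at hwz
      obtain ⟨j, hj⟩ := nearest hδ' z
      have hjJ : j ∈ J := by
        rw [hJ]
        refine mem_cthickening_of_dist_le _ w _ _ hwS ?_
        rw [dist_eq_norm]
        calc ‖gp δ' j - w‖ = ‖(z - w) - (z - gp δ' j)‖ := by congr 1; ring
          _ ≤ ‖z - w‖ + ‖z - gp δ' j‖ := norm_sub_le _ _
          _ ≤ 2 * δ' := by rw [norm_sub_rev z w]; linarith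
      have v1 : Ac ((A ∪ B) ∩ closedBall z δ') (fun ζ => (C₆ : ℂ)⁻¹ * vit δ' h z ζ)
          ((C₆ : ℂ)⁻¹ * ((δ' : ℂ) ^ 2 * den δ' h z)) :=
        ((vit_ac hδ' hS H z).cmul _).mono (Set.inter_subset_inter_left _ hSA)
      have v2 : ∀ w u, ‖(C₆ : ℂ)⁻¹ * vit δ' h z (w + u) - (C₆ : ℂ)⁻¹ * vit δ' h z w‖ ≤
          ω ‖u‖ := by
        intro w u
        rw [← mul_sub, norm_mul, norm_inv, Complex.norm_real, Real.norm_of_nonneg (by linarith)]
        have := hV.2 ω hω h H.cont ho δ' hδ' z w u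
        calc C₆⁻¹ * ‖vit δ' h z (w + u) - vit δ' h z w‖ ≤ C₆⁻¹ * (C₆ * ω ‖u‖) :=
              mul_le_mul_of_nonneg_left this (by positivity)
          _ = ω ‖u‖ := by field_simp
      have v3 := hP z _ _ v1 v2
      rw [norm_mul, norm_mul, norm_inv, Complex.norm_real, Real.norm_of_nonneg (by linarith),
        norm_pow, Complex.norm_real, Real.norm_of_nonneg hδ'.le] at v3
      set a := al Ω (A' ∩ closedBall z (2 * δ')) + al Ω (B' ∩ closedBall z (2 * δ')) with ha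
      have ha0 : 0 ≤ a := add_nonneg (al_nonneg _ _) (al_nonneg _ _)
      have v4 : ‖den δ' h z‖ ≤ 8 * C₆ * ω (4 * δ') * a / δ' ^ 2 := by
        rw [le_div_iff₀ (by positivity)]
        have h1 : C₆ * (C₆⁻¹ * (δ' ^ 2 * ‖den δ' h z‖)) ≤ C₆ * (8 * ω (4 * δ') * a) :=
          mul_le_mul_of_nonneg_left v3 (by linarith)
        have e1 : C₆ * (C₆⁻¹ * (δ' ^ 2 * ‖den δ' h z‖)) = ‖den δ' h z‖ * δ' ^ 2 := by
          field_simp
        rw [e1] at h1
        linarith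
      have g1 := dg_ge hδ' ht.le Ω hA' hjJ hj
      have g2 := dg_ge hδ' ht.le Ω hB' hjJ hj
      have g3 : t / δ' ^ 2 * a ≤ gA z + gB z := by
        rw [ha, mul_add]; exact add_le_add g1 g2
      calc ‖D z‖ = N⁻¹ * ‖den δ' h z‖ := by
            rw [hD, norm_mul, norm_inv, Complex.norm_real, Real.norm_of_nonneg hN.le]
        _ ≤ N⁻¹ * (8 * C₆ * ω (4 * δ') * a / δ' ^ 2) :=
            mul_le_mul_of_nonneg_left v4 (by positivity)
        _ = (8 * C₆ * ω (4 * δ') / N) * (a / δ' ^ 2) := by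
            field_simp
        _ ≤ (t * q) * (a / δ' ^ 2) :=
            mul_le_mul_of_nonneg_right hc (by positivity)
        _ = (t / δ' ^ 2 * a) * q := by ring
        _ ≤ (gA z + gB z) * q := mul_le_mul_of_nonneg_right g3 hq0.le
  have k1 := int_le_Gam dAB cD sD claim
  have k2 := Gam_add_le dA dB
  have sub : ∀ (E : Set ℂ), (⋃ j ∈ J, E ∩ closedBall (gp δ' j) (3 * δ')) ⊆
      E ∩ cthickening (5 * δ') S := by
    intro E x hx
    simp only [Set.mem_iUnion] at hx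
    obtain ⟨j, hj, hxE, hxj⟩ := hx
    refine ⟨hxE, ?_⟩
    have h1 : gp δ' j ∈ cthickening (2 * δ') S := (hJ j).mp hj
    have h2 : x ∈ cthickening (3 * δ') (cthickening (2 * δ') S) :=
      mem_cthickening_of_dist_le _ _ _ _ h1 (mem_closedBall.mp hxj)
    have h3 := cthickening_cthickening_subset (ε := 3 * δ') (δ := 2 * δ') (by positivity)
      (by positivity) S h2
    rwa [show 3 * δ' + 2 * δ' = 5 * δ' by ring] at h3
  have hCt : 0 ≤ 1 + C * t := by positivity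
  have k3 : Gam gA ≤ (1 + C * t) * al (Ph C δ' Ω) (A' ∩ cthickening (5 * δ') S) := by
    refine (hT.2.2.2 δ' t Ω A' J hδ' ht ht0 hΩ hA').trans ?_
    exact mul_le_mul_of_nonneg_left (al_mono (hA'.inter_right isClosed_cthickening)
      (fun s _ => le_rfl) (sub A')) hCt
  have k4 : Gam gB ≤ (1 + C * t) * al (Ph C δ' Ω) (B' ∩ cthickening (5 * δ') S) := by
    refine (hT.2.2.2 δ' t Ω B' J hδ' ht ht0 hΩ hB').trans ?_
    exact mul_le_mul_of_nonneg_left (al_mono (hB'.inter_right isClosed_cthickening)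
      (fun s _ => le_rfl) (sub B')) hCt
  rw [iD, norm_mul, norm_inv, Complex.norm_real, Real.norm_of_nonneg hN.le] at k1
  have k5 : N⁻¹ * ‖l‖ ≤ (1 + C * t) * (al (Ph C δ' Ω) (A' ∩ cthickening (5 * δ') S) +
      al (Ph C δ' Ω) (B' ∩ cthickening (5 * δ') S)) := by
    rw [mul_add]
    linarith
  calc ‖l‖ = N * (N⁻¹ * ‖l‖) := by field_simp
    _ ≤ N * ((1 + C * t) * (al (Ph C δ' Ω) (A' ∩ cthickening (5 * δ') S) +
      al (Ph C δ' Ω) (B' ∩ cthickening (5 * δ') S))) := mul_le_mul_of_nonneg_left k5 hN.le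
    _ = _ := by ring

end Pool.Agent.H352R4.CA
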