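import Pool.Agent.H352R4.CA.Defs
import Pool.Agent.H352R4.CA.One
import Pool.Agent.H352R4.CA.Bas
import Pool.Agent.H352R4.CA.Alb

set_option autoImplicit false

open MeasureTheory Complex Filter Topology Metric
open scoped ComplexConjugate
open Pool.Agent.H352R3.SA
open Pool.Agent.H761R2.SV (dbar)

namespace Pool.Agent.H352R4.CA

theorem step {C t₀ C₆ : ℝ} (hT : TR C t₀) (hV : VO C₆) {ω Ω : ℝ → ℝ} (hω : Mod ω)
    {A B A' B' : Set ℂ} {δ δ' : ℝ} (hδ' : 0 < δ') (hδδ : 5 * δ' ≤ δ) (hΩ : GM (3 * δ') Ω)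
    (hA : IsCompact A) (hB : IsCompact B) (hA' : IsCompact A') (hB' : IsCompact B')
    (hr : 4 * C₆ * ω (4 * δ') ≤ t₀ * ω (4 * δ)) (hP : Pst ω Ω A B A' B' δ') :
    Pst ω (Ph C δ' Ω) A B A' B' δ := by
  intro z₀ h l H ho
  have hδ : 0 < δ := by linarith
  obtain ⟨hC1, ht0, hCt, -⟩ := id hT
  set S : Set ℂ := (A ∪ B) ∩ closedBall z₀ δ with hSdef
  have hS : IsCompact S := (hA.union hB).inter_right isClosed_closedBall
  have hSz : S ⊆ closedBall z₀ δ := Set.inter_subset_right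
  have hw : 0 < ω (4 * δ) := hω.pos _ (by positivity)
  have hbd := bound_of_osc hω hδ hS hSz H ho
  have key := one (M := 2 * ω (4 * δ)) (N := 4 * ω (4 * δ)) (t := t₀) hT hV hω hδ' hΩ hA' hB' hP
    hS Set.inter_subset_left H (by linarith) (by linarith) hbd ho ht0 le_rfl (by
      have e1 : (2 * ω (4 * δ)) / (4 * ω (4 * δ)) = 1 / 2 := by
        field_simp; norm_num
      rw [e1, div_le_iff₀ (by linarith)]
      nlinarith [mul_pos ht0 hw])
  have hsub : cthickening (5 * δ') S ⊆ closedBall z₀ (2 * δ) := by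
    have h1 : cthickening (5 * δ') S ⊆ cthickening (5 * δ') (closedBall z₀ δ) :=
      cthickening_subset_of_subset _ hSz
    rw [cthickening_closedBall (by linarith) hδ.le] at h1
    exact h1.trans (closedBall_subset_closedBall (by linarith))
  have m1 : al (Ph C δ' Ω) (A' ∩ cthickening (5 * δ') S) ≤
      al (Ph C δ' Ω) (A' ∩ closedBall z₀ (2 * δ)) :=
    al_mono (hA'.inter_right isClosed_closedBall) (fun s _ => le_rfl)
      (Set.inter_subset_inter_right _ hsub)
  have m2 : al (Ph C δ' Ω) (B' ∩ cthickening (5 * δ') S) ≤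
      al (Ph C δ' Ω) (B' ∩ closedBall z₀ (2 * δ)) :=
    al_mono (hB'.inter_right isClosed_closedBall) (fun s _ => le_rfl)
      (Set.inter_subset_inter_right _ hsub)
  have n1 := al_nonneg (Ph C δ' Ω) (A' ∩ cthickening (5 * δ') S)
  have n2 := al_nonneg (Ph C δ' Ω) (B' ∩ cthickening (5 * δ') S)
  calc ‖l‖ ≤ _ := key
    _ ≤ 8 * ω (4 * δ) * (al (Ph C δ' Ω) (A' ∩ cthickening (5 * δ') S) +
      al (Ph C δ' Ω) (B' ∩ cthickening (5 * δ') S)) := by
        refine mul_le_mul_of_nonneg_right ?_ (add_nonneg n1 n2)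
        nlinarith
    _ ≤ _ := by
        refine mul_le_mul_of_nonneg_left (add_le_add m1 m2) (by linarith)

end Pool.Agent.H352R4.CA
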