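import Pool.Agent.H352R4.CA.Defs
import Pool.Agent.H352R3.SA.Pot
import Pool.Agent.H761R2.SV.Quad

/-!
# Pieces of potentials
-/

set_option autoImplicit false

open MeasureTheory Complex Filter Topology Metric
open scoped ComplexConjugate
open Pool.Agent.H352R3.SA
open Pool.Agent.H761R2.SV (dbar)

namespace Pool.Agent.H352R4.CA

namespace PieAux

theorem vol_ball (z₀ : ℂ) {δ : ℝ} (hδ : 0 < δ) :
    volume.real (closedBall z₀ δ) = Real.pi * δ ^ 2 := by
  rw [Measure.real, Complex.volume_closedBall, ENNReal.toReal_mul, ENNReal.toReal_pow,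
    ENNReal.toReal_ofReal hδ.le]
  simp [mul_comm]

theorem int_le {z₀ : ℂ} {δ m : ℝ} (hδ : 0 < δ) {f : ℂ → ℂ}
    (h0 : ∀ w, δ < ‖w - z₀‖ → f w = 0) (h : ∀ w, ‖w - z₀‖ ≤ δ → ‖f w‖ ≤ m) :
    ‖∫ w, f w‖ ≤ m * (Real.pi * δ ^ 2) := by
  have h1 : ∫ w, f w = ∫ w in closedBall z₀ δ, f w := by
    rw [setIntegral_eq_integral_of_forall_compl_eq_zero]
    intro w hw
    apply h0
    simpa [dist_eq_norm] using hw
  rw [h1, ← vol_ball z₀ hδ]
  apply norm_setIntegral_le_of_norm_le_const
  · rw [Complex.volume_closedBall]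
    exact ENNReal.mul_lt_top (ENNReal.pow_lt_top ENNReal.ofReal_lt_top) ENNReal.coe_lt_top
  · intro w hw
    apply h
    simpa [dist_eq_norm] using hw

theorem hcs' {z₀ : ℂ} {δ : ℝ} {D : ℂ → ℂ} (h0 : ∀ w, δ < ‖w - z₀‖ → D w = 0) :
    HasCompactSupport D := by
  apply HasCompactSupport.intro (isCompact_closedBall z₀ δ)
  intro w hw
  apply h0
  simpa [dist_eq_norm] using hw

theorem pot_le {z₀ : ℂ} {δ κ : ℝ} (hδ : 0 < δ) (hκ : 0 ≤ κ) {D : ℂ → ℂ}
    (h0 : ∀ w, δ < ‖w - z₀‖ → D w = 0) (h : ∀ w, ‖D w‖ ≤ κ) (z : ℂ) :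
    ‖pot D z‖ ≤ κ * (7 * Real.pi * δ) := by
  have hi1 := Pool.Agent.H761R2.SV.Quad.integrable_sing (3 * δ) z
  have hi2 : Integrable ((closedBall z₀ δ).indicator (fun _ : ℂ => (1:ℝ) / δ)) := by
    rw [integrable_indicator_iff measurableSet_closedBall]
    exact integrableOn_const (by
      rw [Complex.volume_closedBall]
      exact (ENNReal.mul_lt_top (ENNReal.pow_lt_top ENNReal.ofReal_lt_top)
        ENNReal.coe_lt_top).ne)
  have h3 : ‖pot D z‖ ≤ ∫ w, κ * (Pool.Agent.H761R2.SV.Quad.sing (3 * δ) z w +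
      (closedBall z₀ δ).indicator (fun _ : ℂ => (1:ℝ) / δ) w) := by
    unfold pot
    apply norm_integral_le_of_norm_le ((hi1.add hi2).const_mul κ)
    refine Eventually.of_forall fun w => ?_
    rw [norm_mul, norm_inv]
    have hs := Pool.Agent.H761R2.SV.Quad.sing_nonneg (3 * δ) z w
    by_cases hw : w ∈ closedBall z₀ δ
    · apply mul_le_mul (h w) _ (by positivity) hκ
      simp only [Pi.add_apply]
      rw [Set.indicator_of_mem hw]
      by_cases hz : ‖z - w‖ < 3 * δ
      · unfold Pool.Agent.H761R2.SV.Quad.sing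
        rw [Set.indicator_of_mem (by simpa using hz)]
        have : 0 ≤ 1 / δ := by positivity
        linarith
      · push Not at hz
        have : ‖z - w‖⁻¹ ≤ 1 / δ := by
          rw [inv_eq_one_div]
          apply one_div_le_one_div_of_le hδ
          linarith
        linarith
    · rw [h0 w (by simpa [dist_eq_norm] using hw)]
      simp only [norm_zero, zero_mul, Pi.add_apply]
      rw [Set.indicator_of_notMem hw]
      apply mul_nonneg hκ
      linarith
  refine h3.trans ?_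
  rw [integral_const_mul]
  apply mul_le_mul_of_nonneg_left _ hκ
  rw [integral_add hi1 hi2, Pool.Agent.H761R2.SV.Quad.integral_sing (by positivity),
    integral_indicator measurableSet_closedBall, setIntegral_const, vol_ball z₀ hδ, smul_eq_mul]
  apply le_of_eq
  field_simp
  ring

end PieAux

open PieAux

theorem pie (C₁ : ℝ) (h1 : 1 ≤ C₁) : ∃ C : ℝ, 1 ≤ C ∧ ∀ (δ t b : ℝ) (z₀ p : ℂ) (D : ℂ → ℂ),
    0 < δ → 0 ≤ t → 0 < b → b ≤ C₁ * δ → ‖p - z₀‖ ≤ C₁ * δ → Continuous D →
    (∀ z, ‖D z‖ ≤ t * b / δ ^ 2) → (∀ z, δ < ‖z - z₀‖ → D z = 0) →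
    Pie C δ t p b (pot D) (∫ w, D w) (∫ w, (w - p) * D w) := by
  set K : ℝ := C₁ + 1 with hK
  have hK2 : 2 ≤ K := by linarith
  have hpi := Real.pi_pos
  have hpi4 := Real.pi_le_four
  refine ⟨100 * K ^ 2, by nlinarith, ?_⟩
  intro δ t b z₀ p D hδ ht hb hbC hp hD hDle hD0
  have hsupp : HasCompactSupport D := hcs' hD0
  have hκ0 : 0 ≤ t * b / δ ^ 2 := by positivity
  -- near p
  have hwp : ∀ w, ‖w - z₀‖ ≤ δ → ‖w - p‖ ≤ K * δ := by
    intro w hw
    have h2 : w - p = (w - z₀) - (p - z₀) := by ring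
    rw [h2]
    calc ‖(w - z₀) - (p - z₀)‖ ≤ ‖w - z₀‖ + ‖p - z₀‖ := norm_sub_le _ _
      _ ≤ δ + C₁ * δ := add_le_add hw hp
      _ = K * δ := by rw [hK]; ring
  have hfar : ∀ z w, 2 * K * δ ≤ ‖z - p‖ → ‖w - z₀‖ ≤ δ → ‖z - p‖ / 2 ≤ ‖z - w‖ := by
    intro z w hz hw
    have h2 := hwp w hw
    have h3 : ‖z - p‖ ≤ ‖z - w‖ + ‖w - p‖ := by
      have := norm_add_le (z - w) (w - p)
      rwa [sub_add_sub_cancel] at this
    linarith
  have hpot : ∀ z, ‖pot D z‖ ≤ 28 * C₁ * t := by
    intro z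
    refine (pot_le hδ hκ0 hD0 hDle z).trans ?_
    have h2 : t * b / δ ^ 2 * (7 * Real.pi * δ) = 7 * Real.pi * t * (b / δ) := by
      field_simp
    rw [h2]
    have h3 : b / δ ≤ C₁ := by rw [div_le_iff₀ hδ]; exact hbC
    have h4 : 0 ≤ b / δ := by positivity
    calc 7 * Real.pi * t * (b / δ) ≤ 7 * 4 * t * C₁ := by
          apply mul_le_mul _ h3 h4 (by positivity)
          apply mul_le_mul_of_nonneg_right _ ht
          linarith
      _ = 28 * C₁ * t := by ring
  have hC1K : C₁ ≤ K := by linarith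
  have hKK : K ≤ K ^ 2 := by nlinarith
  have hCK2 : C₁ ≤ K ^ 2 := hC1K.trans hKK
  refine ⟨?_, ?_, ?_, ?_, ?_⟩
  · intro z
    refine (hpot z).trans ?_
    apply mul_le_mul_of_nonneg_right _ ht
    nlinarith
  · intro z
    by_cases hz : 2 * K * δ ≤ ‖z - p‖
    · have hz0 : 0 < ‖z - p‖ := by
        have : 0 < 2 * K * δ := by positivity
        linarith
      have h2 : ‖pot D z‖ ≤ (t * b / δ ^ 2 * (2 / ‖z - p‖)) * (Real.pi * δ ^ 2) := by
        unfold pot
        apply int_le hδ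
        · intro w hw; rw [hD0 w hw, zero_mul]
        · intro w hw
          rw [norm_mul, norm_inv]
          apply mul_le_mul (hDle w) _ (by positivity) hκ0
          rw [inv_eq_one_div, div_le_div_iff₀ (by linarith [hfar z w hz hw]) hz0]
          linarith [hfar z w hz hw]
      calc ‖z - p‖ * ‖pot D z‖ ≤ ‖z - p‖ * ((t * b / δ ^ 2 * (2 / ‖z - p‖)) *
            (Real.pi * δ ^ 2)) := mul_le_mul_of_nonneg_left h2 hz0.le
        _ = 2 * Real.pi * t * b := by field_simp
        _ ≤ 2 * 4 * t * (C₁ * δ) := by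
            apply mul_le_mul _ hbC hb.le (by positivity)
            apply mul_le_mul_of_nonneg_right _ ht
            linarith
        _ ≤ 100 * K ^ 2 * δ * t := by
            have h5 : 0 ≤ δ * t := by positivity
            nlinarith [mul_le_mul_of_nonneg_right hCK2 h5]
    · push Not at hz
      calc ‖z - p‖ * ‖pot D z‖ ≤ (2 * K * δ) * (28 * C₁ * t) :=
            mul_le_mul hz.le (hpot z) (norm_nonneg _) (by positivity)
        _ = 56 * (K * C₁) * (δ * t) := by ring
        _ ≤ 56 * (K * K) * (δ * t) := by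
            apply mul_le_mul_of_nonneg_right _ (by positivity)
            apply mul_le_mul_of_nonneg_left _ (by norm_num)
            exact mul_le_mul_of_nonneg_left hC1K (by positivity)
        _ ≤ 100 * K ^ 2 * δ * t := by
            have h5 : 0 ≤ K ^ 2 * (δ * t) := by positivity
            nlinarith
  · intro z hz
    have hz2 : 2 * K * δ ≤ ‖z - p‖ := by
      refine le_trans ?_ hz
      apply mul_le_mul_of_nonneg_right _ hδ.le
      nlinarith
    have hz0 : 0 < ‖z - p‖ := by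
      have : 0 < 2 * K * δ := by positivity
      linarith
    have hzp : z - p ≠ 0 := norm_pos_iff.mp hz0
    have hi1 : Integrable (fun w => D w * (z - w)⁻¹) := pot_integrable hD hsupp z
    have hi2 : Integrable (fun w => D w / (z - p)) :=
      (hD.integrable_of_hasCompactSupport hsupp).div_const _
    have hi3 : Integrable (fun w => (w - p) * D w / (z - p) ^ 2) := by
      apply Integrable.div_const
      exact Continuous.integrable_of_hasCompactSupport (by fun_prop) hsupp.mul_left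
    have heq : pot D z - (∫ w, D w) / (z - p) - (∫ w, (w - p) * D w) / (z - p) ^ 2 =
        ∫ w, (D w * (z - w)⁻¹ - D w / (z - p) - (w - p) * D w / (z - p) ^ 2) := by
      have e1 : ∫ w, (D w * (z - w)⁻¹ - D w / (z - p) - (w - p) * D w / (z - p) ^ 2) =
          (∫ w, (D w * (z - w)⁻¹ - D w / (z - p))) - ∫ w, (w - p) * D w / (z - p) ^ 2 :=
        integral_sub (hi1.sub hi2) hi3
      have e2 : ∫ w, (D w * (z - w)⁻¹ - D w / (z - p)) =
          (∫ w, D w * (z - w)⁻¹) - ∫ w, D w / (z - p) := integral_sub hi1 hi2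
      rw [e1, e2, integral_div, integral_div]
      rfl
    have h2 : ‖pot D z - (∫ w, D w) / (z - p) - (∫ w, (w - p) * D w) / (z - p) ^ 2‖ ≤
        (t * b / δ ^ 2 * ((K * δ) ^ 2 * (2 / ‖z - p‖ ^ 3))) * (Real.pi * δ ^ 2) := by
      rw [heq]
      apply int_le (z₀ := z₀) hδ
      · intro w hw; rw [hD0 w hw]; simp
      · intro w hw
        have h3 := hfar z w hz2 hw
        have hzw0 : 0 < ‖z - w‖ := by linarith
        have hzw : z - w ≠ 0 := norm_pos_iff.mp hzw0
        have h4 : D w * (z - w)⁻¹ - D w / (z - p) - (w - p) * D w / (z - p) ^ 2 =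
            D w * ((w - p) ^ 2 * ((z - p) ^ 2 * (z - w))⁻¹) := by
          field_simp
          ring
        rw [h4, norm_mul, norm_mul, norm_inv, norm_mul, norm_pow, norm_pow]
        apply mul_le_mul (hDle w) _ (by positivity) hκ0
        apply mul_le_mul (pow_le_pow_left₀ (norm_nonneg _) (hwp w hw) 2) _ (by positivity)
          (by positivity)
        rw [inv_eq_one_div, div_le_div_iff₀ (by positivity) (by positivity)]
        have h5 : ‖z - p‖ ^ 3 = ‖z - p‖ ^ 2 * ‖z - p‖ := by ring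
        rw [h5, one_mul]
        have h6 : 0 ≤ ‖z - p‖ ^ 2 := by positivity
        nlinarith [mul_le_mul_of_nonneg_left h3 h6]
    calc ‖pot D z - (∫ w, D w) / (z - p) - (∫ w, (w - p) * D w) / (z - p) ^ 2‖ *
          ‖z - p‖ ^ 3
        ≤ ((t * b / δ ^ 2 * ((K * δ) ^ 2 * (2 / ‖z - p‖ ^ 3))) * (Real.pi * δ ^ 2)) *
          ‖z - p‖ ^ 3 := mul_le_mul_of_nonneg_right h2 (by positivity)
      _ = (2 * Real.pi) * (K ^ 2 * (t * b * δ ^ 2)) := by field_simp
      _ ≤ 100 * (K ^ 2 * (t * b * δ ^ 2)) := by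
          apply mul_le_mul_of_nonneg_right _ (by positivity)
          linarith
      _ = 100 * K ^ 2 * t * δ ^ 2 * b := by ring
  · have h2 : ‖∫ w, D w‖ ≤ (t * b / δ ^ 2) * (Real.pi * δ ^ 2) :=
      int_le hδ hD0 (fun w _ => hDle w)
    calc ‖∫ w, D w‖ ≤ (t * b / δ ^ 2) * (Real.pi * δ ^ 2) := h2
      _ = Real.pi * (t * b) := by field_simp
      _ ≤ 100 * K ^ 2 * (t * b) := by
          apply mul_le_mul_of_nonneg_right _ (by positivity)
          nlinarith
      _ = 100 * K ^ 2 * t * b := by ring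
  · have h2 : ‖∫ w, (w - p) * D w‖ ≤ (K * δ * (t * b / δ ^ 2)) * (Real.pi * δ ^ 2) := by
      apply int_le hδ
      · intro w hw; rw [hD0 w hw, mul_zero]
      · intro w hw
        rw [norm_mul]
        exact mul_le_mul (hwp w hw) (hDle w) (norm_nonneg _) (by positivity)
    calc ‖∫ w, (w - p) * D w‖ ≤ (K * δ * (t * b / δ ^ 2)) * (Real.pi * δ ^ 2) := h2
      _ = (Real.pi * K) * (t * δ * b) := by field_simp
      _ ≤ (100 * K ^ 2) * (t * δ * b) := by
          apply mul_le_mul_of_nonneg_right _ (by positivity)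
          nlinarith
      _ = 100 * K ^ 2 * t * δ * b := by ring

end Pool.Agent.H352R4.CA
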