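import Pool.Agent.H352R4.CA.Defs
import Pool.Agent.H352R4.CA.Alb
import Pool.Agent.H352R4.CA.Ext
import Pool.Agent.H352R4.CA.Loc
import Pool.Agent.H352R4.CA.Pie
import Pool.Agent.H352R4.CA.Glue
import Pool.Agent.H352R4.CA.Glo
import Pool.Agent.H352R4.CA.Dec
import Pool.Agent.H352R3.SA.Pot
import Pool.Agent.H352R3.SA.Gam

/-!
# The transplant theorem (module TRX, helper97)
-/

set_option autoImplicit false

open MeasureTheory Complex Filter Topology Metric
open scoped ComplexConjugate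
open Pool.Agent.H352R3.SA
open Pool.Agent.H761R2.SV (dbar)

namespace Pool.Agent.H352R4.CA

namespace Trx

theorem loc_mono {C C' δ : ℝ} {p : ℂ} {b : ℝ} {e : ℂ → ℂ} (hδ : 0 < δ) (hC : C ≤ C')
    (H : Loc C δ p b e) : Loc C' δ p b e where
  b0 := H.b0
  b1 := H.b1.trans (mul_le_mul_of_nonneg_right hC hδ.le)
  e1 := H.e1
  e2 := fun z => (H.e2 z).trans (mul_le_mul_of_nonneg_right hC hδ.le)
  e3 := fun z hz => by
    refine (H.e3 z ((mul_le_mul_of_nonneg_right hC hδ.le).trans hz)).trans ?_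
    have := H.b0
    gcongr

theorem pie_mono {C C' δ t : ℝ} {p : ℂ} {b : ℝ} {P : ℂ → ℂ} {lam mu : ℂ} (hδ : 0 < δ)
    (ht : 0 ≤ t) (hb : 0 < b) (hC : C ≤ C') (H : Pie C δ t p b P lam mu) :
    Pie C' δ t p b P lam mu where
  p1 := fun z => (H.p1 z).trans (by gcongr)
  p2 := fun z => (H.p2 z).trans (by gcongr)
  p3 := fun z hz => (H.p3 z ((mul_le_mul_of_nonneg_right hC hδ.le).trans hz)).trans (by gcongr)
  l1 := H.l1.trans (by gcongr)
  m1 := H.m1.trans (by gcongr)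

theorem bmp_nonneg (δ : ℝ) (j : ℤ × ℤ) (z : ℂ) : 0 ≤ bmp δ j z := le_max_left _ _

theorem bmp_le_one (δ : ℝ) (j : ℤ × ℤ) (z : ℂ) : bmp δ j z ≤ 1 :=
  max_le zero_le_one (min_le_left _ _)

theorem bmp_zero {δ : ℝ} (hδ : 0 < δ) {j : ℤ × ℤ} {z : ℂ} (hz : δ < ‖z - gp δ j‖) :
    bmp δ j z = 0 := by
  unfold bmp
  apply max_eq_left
  refine (min_le_right _ _).trans ?_
  have h1 : 1 ≤ ‖z - gp δ j‖ / δ := (one_le_div hδ).2 hz.le
  have h2 : 4 * ‖z - gp δ j‖ / δ = 4 * (‖z - gp δ j‖ / δ) := by ring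
  rw [h2]
  linarith

theorem bmp_continuous (δ : ℝ) (j : ℤ × ℤ) : Continuous (bmp δ j) := by
  unfold bmp
  fun_prop

theorem den_bmp {δ : ℝ} (hδ : 0 < δ) (j : ℤ × ℤ) {c : ℝ} (hc : 0 ≤ c) :
    Den (fun z => c * bmp δ j z) where
  cont := continuous_const.mul (bmp_continuous δ j)
  supp := by
    refine HasCompactSupport.intro (isCompact_closedBall (gp δ j) δ) (fun z hz => ?_)
    rw [mem_closedBall, dist_eq_norm, not_le] at hz
    rw [bmp_zero hδ hz, mul_zero]
  nonneg := fun z => mul_nonneg hc (bmp_nonneg δ j z)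

theorem den_sum {ι : Type*} (J : Finset ι) (G : ι → ℂ → ℝ) (hG : ∀ j ∈ J, Den (G j)) :
    Den (fun z => ∑ j ∈ J, G j z) where
  cont := continuous_finsetSum _ fun j hj => (hG j hj).cont
  supp := by
    refine HasCompactSupport.intro (K := ⋃ j ∈ J, tsupport (G j))
      (J.isCompact_biUnion fun j hj => (hG j hj).supp) (fun z hz => ?_)
    refine Finset.sum_eq_zero fun j hj => ?_
    simp only [Set.mem_iUnion, not_exists] at hz
    exact image_eq_zero_of_notMem_tsupport (hz j hj)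
  nonneg := fun z => Finset.sum_nonneg fun j hj => (hG j hj).nonneg z

theorem supp_of_le {g : ℂ → ℝ} (hg : Den g) {D : ℂ → ℂ} (h : ∀ z, ‖D z‖ ≤ g z) :
    HasCompactSupport D := by
  refine HasCompactSupport.intro (K := tsupport g) hg.supp (fun z hz => ?_)
  have h1 := h z
  rw [image_eq_zero_of_notMem_tsupport hz] at h1
  exact norm_le_zero_iff.1 h1

theorem gm_nonneg {ρ : ℝ} {Ω : ℝ → ℝ} (hρ : 0 < ρ) (H : GM ρ Ω) (s : ℝ) (hs : 0 ≤ s) :
    0 ≤ Ω s := by
  rcases le_or_gt s ρ with h | h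
  · exact (div_nonneg hs hρ.le).trans (H.lin s hs h)
  · exact zero_le_two.trans (H.two s h)

end Trx

open Trx in
theorem transplant : ∃ C t₀ : ℝ, TR C t₀ := by
  obtain ⟨C₁, hC₁, hloc⟩ := loc
  obtain ⟨C₂, hC₂, hpie⟩ := pie C₁ hC₁
  obtain ⟨C₄, hC₄, hglue⟩ := glue (max C₁ C₂) (hC₁.trans (le_max_left _ _))
  obtain ⟨C₅, hC₅, hosc⟩ := glue_osc (2 * C₄) (by linarith)
  set C : ℝ := max (2 * C₄) C₅ with hC
  have hC4 : 2 * C₄ ≤ C := le_max_left _ _
  have hC5 : C₅ ≤ C := le_max_right _ _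
  have hC1 : 1 ≤ C := by linarith
  have hCpos : 0 < C := by linarith
  refine ⟨C, 1 / (2 * C), hC1, by positivity, le_of_eq (by field_simp), ?_⟩
  intro δ t Ω A J hδ ht ht0 hΩ hA
  have hCt : C * t ≤ 1 / 2 := by
    calc C * t ≤ C * (1 / (2 * C)) := mul_le_mul_of_nonneg_left ht0 hCpos.le
      _ = 1 / 2 := by field_simp
  have ht1 : t ≤ 1 := by nlinarith
  have hΩ0 := gm_nonneg (by positivity) hΩ
  -- the sets
  set S : ℤ × ℤ → Set ℂ := fun j => A ∩ closedBall (gp δ j) (3 * δ) with hS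
  have hSc : ∀ j, IsCompact (S j) := fun j => hA.inter_right isClosed_closedBall
  classical
  set J' : Finset (ℤ × ℤ) := J.filter (fun j => 0 < al Ω (S j)) with hJ'
  set G : ℤ × ℤ → ℂ → ℝ := fun j z => t / δ ^ 2 * al Ω (S j) * bmp δ j z with hG
  have hGden : ∀ j ∈ J', Den (G j) := fun j _ =>
    den_bmp hδ j (mul_nonneg (by positivity) (al_nonneg _ _))
  have hdg : dg δ t Ω A J = fun z => ∑ j ∈ J', G j z := by
    funext z
    unfold dg
    rw [hJ', Finset.sum_filter]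
    refine Finset.sum_congr rfl fun j _ => ?_
    split_ifs with h
    · rfl
    · have h0 : al Ω (S j) = 0 := le_antisymm (not_lt.1 h) (al_nonneg _ _)
      have h0' : al Ω (A ∩ closedBall (gp δ j) (3 * δ)) = 0 := h0
      rw [h0', mul_zero, zero_mul]
  have hden : Den (dg δ t Ω A J) := by rw [hdg]; exact den_sum J' G hGden
  obtain ⟨D, hDc, hDs, hDle, hDpot, hDint⟩ := extremal hden
  obtain ⟨D', hD'c, hD'le, hD'sum⟩ := decomp J' G hGden hDc (fun z => by
    have := hDle z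
    rw [hdg] at this
    exact this)
  have hD's : ∀ j ∈ J', HasCompactSupport (D' j) := fun j hj => supp_of_le (hGden j hj) (hD'le j hj)
  have hloc' : ∀ j ∈ J', ∃ (e : ℂ → ℂ) (b : ℝ) (p : ℂ), Kc 1 Ω (S j) e (b : ℂ) ∧
      al Ω (S j) ≤ 2 * b ∧ ‖p - gp δ j‖ ≤ C₁ * δ ∧ Loc C₁ δ p b e := by
    intro j hj
    exact hloc δ (gp δ j) (S j) Ω hδ (hSc j) Set.inter_subset_right hΩ (Finset.mem_filter.1 hj).2
  choose! e b p hK hal hp hL using hloc'
  have hpie' : ∀ j ∈ J', Pie C₂ δ (2 * t) (p j) (b j) (pot (D' j)) (∫ w, D' j w)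
      (∫ w, (w - p j) * D' j w) := by
    intro j hj
    refine hpie δ (2 * t) (b j) (gp δ j) (p j) (D' j) hδ (by positivity) (hL j hj).b0
      (hL j hj).b1 (hp j hj) (hD'c j hj) (fun z => ?_) (fun z hz => ?_)
    · refine (hD'le j hj z).trans ?_
      have h1 : G j z ≤ t / δ ^ 2 * al Ω (S j) * 1 := by
        apply mul_le_mul_of_nonneg_left (bmp_le_one δ j z)
        exact mul_nonneg (by positivity) (al_nonneg _ _)
      refine h1.trans ?_
      have h2 : t / δ ^ 2 * al Ω (S j) ≤ t / δ ^ 2 * (2 * b j) :=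
        mul_le_mul_of_nonneg_left (hal j hj) (by positivity)
      rw [mul_one]
      refine h2.trans (le_of_eq ?_)
      ring
    · have h1 := hD'le j hj z
      have h2 : G j z = 0 := by
        simp only [hG]
        rw [bmp_zero hδ hz, mul_zero]
      rw [h2] at h1
      exact norm_le_zero_iff.1 h1
  obtain ⟨κ, hκ, hclose, hκsum⟩ := hglue δ (2 * t) J' p b e (fun j => pot (D' j))
    (fun j => ∫ w, D' j w) (fun j => ∫ w, (w - p j) * D' j w) hδ (by positivity)
    (fun j hj => (hp j hj).trans (mul_le_mul_of_nonneg_right (le_max_left _ _) hδ.le))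
    (fun j hj => loc_mono hδ (le_max_left _ _) (hL j hj))
    (fun j hj => pie_mono hδ (by positivity) (hL j hj).b0 (le_max_right _ _) (hpie' j hj))
  have hpotsum : ∀ z, pot D z = ∑ j ∈ J', pot (D' j) z := by
    intro z
    unfold pot
    rw [← integral_finsetSum _ (fun j hj => pot_integrable (hD'c j hj) (hD's j hj) z)]
    refine integral_congr_ae (Eventually.of_forall fun w => ?_)
    simp only []
    rw [hD'sum w, Finset.sum_mul]
  have hintsum : ∫ w, D w = ∑ j ∈ J', ∫ w, D' j w := by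
    rw [← integral_finsetSum _ (fun j hj =>
      (hD'c j hj).integrable_of_hasCompactSupport (hD's j hj))]
    refine integral_congr_ae (Eventually.of_forall fun w => ?_)
    exact hD'sum w
  set H : ℂ → ℂ := fun z => ∑ j ∈ J', κ j * e j z with hH
  have hHle : ∀ z, ‖H z‖ ≤ 1 + C * t := by
    intro z
    have h1 := hclose z
    have h2 : ‖∑ j ∈ J', pot (D' j) z‖ ≤ 1 := by rw [← hpotsum]; exact hDpot z
    have h3 : ‖H z‖ ≤ ‖H z - ∑ j ∈ J', pot (D' j) z‖ + ‖∑ j ∈ J', pot (D' j) z‖ := by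
      have := norm_add_le (H z - ∑ j ∈ J', pot (D' j) z) (∑ j ∈ J', pot (D' j) z)
      rwa [sub_add_cancel] at this
    have h4 : C₄ * (2 * t) ≤ C * t := by nlinarith
    linarith
  have hosc' := hosc δ t Ω J' e (fun j => (b j : ℂ)) κ S hδ ht.le ht1 hΩ0
    hK (fun j _ => Set.inter_subset_right) (fun j hj => by
      refine (hκ j hj).trans (le_of_eq ?_); ring) (fun z => by
      refine (hHle z).trans ?_; linarith)
  have hAc : Ac (⋃ j ∈ J', S j) H (∑ j ∈ J', κ j * (b j : ℂ)) :=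
    Ac.sum (fun j hj => (hK j hj).ac)
  have hsub : (⋃ j ∈ J', S j) ⊆ ⋃ j ∈ J, A ∩ closedBall (gp δ j) (3 * δ) := by
    apply Set.biUnion_subset_biUnion_left
    intro j hj
    exact (Finset.mem_filter.1 hj).1
  have hUc : IsCompact (⋃ j ∈ J, A ∩ closedBall (gp δ j) (3 * δ)) :=
    J.isCompact_biUnion fun j _ => hSc j
  have hKc : Kc (1 + C * t) (Ph C δ Ω) (⋃ j ∈ J, A ∩ closedBall (gp δ j) (3 * δ)) H
      (∑ j ∈ J', κ j * (b j : ℂ)) := by
    refine ⟨hAc.mono hsub, hHle, fun z u => ?_⟩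
    have hCt0 : 0 < C * t := by positivity
    have h2 : ‖H (z + u) - H z‖ ≤ (1 + C * t) * 3 := by
      have h3 := norm_sub_le (H (z + u)) (H z)
      have h4 := hHle (z + u)
      have h5 := hHle z
      nlinarith
    unfold Ph
    split_ifs with hu
    · rw [mul_min_of_nonneg _ _ (by positivity)]
      refine le_min h2 ?_
      have h3 := hosc' z u hu
      have h4 : C₅ * t * Ω ‖u‖ ≤ Ω ‖u‖ / 2 := by
        have h5 : C₅ * t ≤ 1 / 2 := (mul_le_mul_of_nonneg_right hC5 ht.le).trans hCt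
        have h6 := hΩ0 ‖u‖ (norm_nonneg _)
        nlinarith
      have h5 : C₅ * ‖u‖ / δ ≤ C * ‖u‖ / δ := by
        apply div_le_div_of_nonneg_right _ hδ.le
        exact mul_le_mul_of_nonneg_right hC5 (norm_nonneg _)
      have h6 : 0 ≤ Ω ‖u‖ / 2 + C * ‖u‖ / δ := by
        have h7 := hΩ0 ‖u‖ (norm_nonneg _)
        positivity
      have h7 : Ω ‖u‖ / 2 + C * ‖u‖ / δ ≤ (1 + C * t) * (Ω ‖u‖ / 2 + C * ‖u‖ / δ) := by
        nlinarith
      linarith
    · exact h2
  have hfin := Kc.le hUc (by positivity) hKc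
  have hval : (∑ j ∈ J', κ j * (b j : ℂ)) = (Gam (dg δ t Ω A J) : ℂ) := by
    rw [hκsum, ← hintsum, hDint]
  rw [hval] at hfin
  have habs : Gam (dg δ t Ω A J) ≤ ‖((Gam (dg δ t Ω A J) : ℝ) : ℂ)‖ := by
    rw [Complex.norm_real]
    exact le_abs_self _
  exact habs.trans hfin

end Pool.Agent.H352R4.CA
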