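import Pool.Agent.H352R4.CA.Defs
import Pool.Agent.H352R3.SA.Bnd
import Pool.Agent.H352R3.SA.Pot
import Pool.Agent.H761R2.SV.Pomp
import Pool.Agent.H761R2.SV.Hol

/-!
# Oscillation bound for the Vitushkin localisation
-/

set_option autoImplicit false

open MeasureTheory Complex Filter Topology Metric
open scoped ComplexConjugate
open Pool.Agent.H352R3.SA
open Pool.Agent.H761R2.SV (dbar)

namespace Pool.Agent.H352R4.CA

namespace VioAux

/-- the bump as a complex function -/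
noncomputable def P (v : ℂ) : ℂ := ((phi0 v : ℝ) : ℂ)

theorem P_contDiff : ContDiff ℝ 1 P := by
  have h : ContDiff ℝ 1 (bmp0.normed volume : ℂ → ℝ) := bmp0.contDiff_normed
  exact Complex.ofRealCLM.contDiff.comp h

theorem P_zero {v : ℂ} (hv : 1 ≤ ‖v‖) : P v = 0 := by
  have h1 : v ∉ Function.support (bmp0.normed (volume : Measure ℂ)) := by
    rw [bmp0.support_normed_eq]
    intro h
    rw [mem_ball, dist_zero_right] at h
    change ‖v‖ < 1 at h
    linarith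
  have h2 : bmp0.normed (volume : Measure ℂ) v = 0 := by
    by_contra hne
    exact h1 hne
  unfold P phi0
  rw [h2]; simp

theorem P_supp : HasCompactSupport P :=
  HasCompactSupport.intro (isCompact_closedBall (0 : ℂ) 1) fun v hv => by
    apply P_zero
    rw [mem_closedBall, dist_zero_right, not_le] at hv
    exact hv.le

theorem dP_zero {v : ℂ} (hv : 1 < ‖v‖) : dbar P v = 0 := by
  have h : P =ᶠ[𝓝 v] fun _ => (0 : ℂ) := by
    have ho : {x : ℂ | 1 < ‖x‖} ∈ 𝓝 v := (isOpen_lt continuous_const continuous_norm).mem_nhds hv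
    filter_upwards [ho] with x hx
    exact P_zero (le_of_lt hx)
  rw [Pool.Agent.H761R2.SV.dbar_congr h, Pool.Agent.H761R2.SV.dbar_const]

theorem dP_cont : Continuous (dbar P) := Pool.Agent.H761R2.SV.continuous_dbar P_contDiff

theorem dP_supp : HasCompactSupport (dbar P) :=
  HasCompactSupport.intro (isCompact_closedBall (0 : ℂ) 1) fun v hv => by
    apply dP_zero
    rw [mem_closedBall, dist_zero_right, not_le] at hv
    exact hv

theorem bounds : ∃ C : ℝ, 1 ≤ C ∧ (∀ v, ‖P v‖ ≤ C) ∧ (∀ v, ‖dbar P v‖ ≤ C) ∧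
    ∀ v v', ‖P v - P v'‖ ≤ C * ‖v - v'‖ := by
  obtain ⟨C1, h1⟩ := P_supp.exists_bound_of_continuous P_contDiff.continuous
  obtain ⟨C2, h2⟩ := dP_supp.exists_bound_of_continuous dP_cont
  obtain ⟨C3, h3⟩ := ContDiff.lipschitzWith_of_hasCompactSupport P_supp P_contDiff one_ne_zero
  refine ⟨1 + |C1| + |C2| + C3, ?_, fun v => ?_, fun v => ?_, fun v v' => ?_⟩
  · have := abs_nonneg C1
    have := abs_nonneg C2
    have := C3.coe_nonneg
    linarith
  · have := h1 v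
    have := le_abs_self C1
    have := abs_nonneg C2
    have := C3.coe_nonneg
    linarith
  · have := h2 v
    have := le_abs_self C2
    have := abs_nonneg C1
    have := C3.coe_nonneg
    linarith
  · have h := h3.dist_le_mul v v'
    rw [dist_eq_norm, dist_eq_norm] at h
    refine h.trans (mul_le_mul_of_nonneg_right ?_ (norm_nonneg _))
    have := abs_nonneg C1
    have := abs_nonneg C2
    linarith

theorem dbar_chi {δ : ℝ} (z w : ℂ) :
    dbar (chi δ z) w = -((δ : ℂ)⁻¹) * dbar P ((z - w) / (δ : ℂ)) := by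
  have h2 : HasFDerivAt P (fderiv ℝ P ((z - w) / (δ : ℂ))) ((z - w) / (δ : ℂ)) :=
    (P_contDiff.differentiable (by simp) _).hasFDerivAt
  have h3 : HasFDerivAt (fun w : ℂ => (z - w) / (δ : ℂ))
      ((-(δ⁻¹ : ℝ)) • ContinuousLinearMap.id ℝ ℂ) w := by
    have h : HasFDerivAt (fun w : ℂ => (δ⁻¹ : ℝ) • (z - w))
        ((δ⁻¹ : ℝ) • -(ContinuousLinearMap.id ℝ ℂ)) w :=
      ((hasFDerivAt_id (𝕜 := ℝ) w).const_sub z).const_smul (δ⁻¹ : ℝ)
    have e1 : (fun w : ℂ => (z - w) / (δ : ℂ)) = fun w : ℂ => (δ⁻¹ : ℝ) • (z - w) := by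
      funext x
      rw [real_smul, ofReal_inv]
      ring
    rw [e1]
    refine h.congr_fderiv (ContinuousLinearMap.ext fun v => ?_)
    change (δ⁻¹ : ℝ) • (-v) = (-(δ⁻¹ : ℝ)) • v
    rw [real_smul, real_smul]
    push_cast
    ring
  have h4 := h2.comp w h3
  have h5 : chi δ z = P ∘ (fun w => (z - w) / (δ : ℂ)) := rfl
  have k : ∀ v : ℂ, (fderiv ℝ P ((z - w) / (δ : ℂ))) ((-(δ⁻¹ : ℝ)) • v) =
      -((δ : ℂ)⁻¹) * (fderiv ℝ P ((z - w) / (δ : ℂ))) v := by
    intro v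
    rw [map_smul, real_smul]
    push_cast
    ring
  unfold dbar
  rw [h5, h4.fderiv]
  change ((fderiv ℝ P ((z - w) / (δ : ℂ))) ((-(δ⁻¹ : ℝ)) • (1 : ℂ)) +
    I * (fderiv ℝ P ((z - w) / (δ : ℂ))) ((-(δ⁻¹ : ℝ)) • I)) / 2 = _
  rw [k, k]
  ring

theorem scale {δ : ℝ} (hδ : 0 < δ) (z : ℂ) (F : ℂ → ℂ) :
    ∫ w, F w = (δ : ℂ) ^ 2 * ∫ v, F (z - (δ : ℂ) * v) := by
  have h1 : ∫ w, F w = ∫ w, F (z - w) := (integral_sub_left_eq_self F volume z).symm
  have h2 := Measure.integral_comp_smul (volume : Measure ℂ) (fun w => F (z - w)) δ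
  rw [Complex.finrank_real_complex] at h2
  have h3 : ∫ v, F (z - (δ : ℂ) * v) = ∫ v, F (z - δ • v) := by
    simp only [real_smul]
  rw [h1, h3, h2, abs_of_pos (by positivity), real_smul]
  push_cast
  have : (δ : ℂ) ≠ 0 := by exact_mod_cast hδ.ne'
  field_simp

theorem vit_scale {δ : ℝ} (hδ : 0 < δ) {h : ℂ → ℂ} (hh : Continuous h) (z ξ : ℂ) :
    vit δ h z (z - (δ : ℂ) * ξ) = P ξ * (h (z - (δ : ℂ) * ξ) - h z) -
      (Real.pi : ℂ)⁻¹ * pot (fun v => (h (z - (δ : ℂ) * v) - h z) * dbar P v) ξ := by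
  have hδc : (δ : ℂ) ≠ 0 := by exact_mod_cast hδ.ne'
  have hpi : (Real.pi : ℂ) ≠ 0 := by exact_mod_cast Real.pi_ne_zero
  have e1 : chi δ z (z - (δ : ℂ) * ξ) = P ξ := by
    change P ((z - (z - (δ : ℂ) * ξ)) / (δ : ℂ)) = P ξ
    congr 1
    field_simp
    ring
  have e2 : pot (fun w => h w * dbar (chi δ z) w) (z - (δ : ℂ) * ξ) =
      pot (fun v => h (z - (δ : ℂ) * v) * dbar P v) ξ := by
    unfold pot
    rw [scale hδ z, ← integral_const_mul]
    congr 1
    funext v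
    beta_reduce
    rw [dbar_chi]
    have e3 : (z - (z - (δ : ℂ) * v)) / (δ : ℂ) = v := by field_simp; ring
    have e4 : z - (δ : ℂ) * ξ - (z - (δ : ℂ) * v) = -((δ : ℂ) * (ξ - v)) := by ring
    rw [e3, e4, ← neg_inv, mul_inv]
    field_simp
  have ch : Continuous (fun v : ℂ => h (z - (δ : ℂ) * v)) := hh.comp (by fun_prop)
  have c1 : Continuous (fun v => (h (z - (δ : ℂ) * v) - h z) * dbar P v) :=
    (ch.sub continuous_const).mul dP_cont
  have s1 : HasCompactSupport (fun v => (h (z - (δ : ℂ) * v) - h z) * dbar P v) :=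
    dP_supp.mul_left
  have e5 : pot (fun v => h (z - (δ : ℂ) * v) * dbar P v) ξ =
      pot (fun v => (h (z - (δ : ℂ) * v) - h z) * dbar P v) ξ + h z * (Real.pi * P ξ) := by
    have h6 := Pool.Agent.H761R2.SV.pompeiu_compact P_contDiff P_supp ξ
    rw [← h6]
    unfold pot
    rw [← integral_const_mul, ← integral_add (pot_integrable c1 s1 ξ)
      ((pot_integrable dP_cont dP_supp ξ).const_mul _)]
    congr 1
    funext v
    ring
  unfold vit
  rw [e1, e2, e5]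
  field_simp
  ring

end VioAux

open VioAux

theorem vit_osc : ∃ C : ℝ, VO C := by
  obtain ⟨C0, hC0, hP, hdP, hLip⟩ := bounds
  obtain ⟨C1, hC1, hb⟩ := pot_bound 1
  obtain ⟨C2, hC2, hh2⟩ := pot_holder 1
  have hC0' : 0 ≤ C0 := by linarith
  refine ⟨1 + 2 * (C0 + C1 * C0) + 3 * C0 + C2 * C0, ?_, ?_⟩
  · have := mul_nonneg hC1 hC0'
    have := mul_nonneg hC2 hC0'
    linarith
  intro ω hω h hcont hosc δ hδ z w u
  have hδc : (δ : ℂ) ≠ 0 := by exact_mod_cast hδ.ne'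
  have hCC : 0 ≤ 1 + 2 * (C0 + C1 * C0) + 3 * C0 + C2 * C0 := by
    have := mul_nonneg hC1 hC0'
    have := mul_nonneg hC2 hC0'
    linarith
  rcases eq_or_ne u 0 with hu | hu
  · rw [hu, add_zero, sub_self, norm_zero]
    exact mul_nonneg hCC hω.zero
  have hu0 : 0 < ‖u‖ := norm_pos_iff.2 hu
  have hωu : 0 < ω ‖u‖ := hω.pos _ hu0
  have hωδ : 0 < ω δ := hω.pos _ hδ
  set ξ : ℂ := (z - w) / (δ : ℂ) with hξ
  set ξ' : ℂ := (z - (w + u)) / (δ : ℂ) with hξ'
  have ew : w = z - (δ : ℂ) * ξ := by rw [hξ]; field_simp; ring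
  have ewu : w + u = z - (δ : ℂ) * ξ' := by rw [hξ']; field_simp; ring
  have hdist : ‖ξ' - ξ‖ = ‖u‖ / δ := by
    have : ξ' - ξ = -(u / (δ : ℂ)) := by rw [hξ, hξ']; field_simp; ring
    rw [this, norm_neg, norm_div, Complex.norm_real, Real.norm_eq_abs, abs_of_pos hδ]
  set H : ℂ → ℂ := fun v => h (z - (δ : ℂ) * v) - h z with hH
  have hHb : ∀ v, ‖H v‖ ≤ ω (δ * ‖v‖) := by
    intro v
    have h1 := hosc z (-((δ : ℂ) * v))
    rw [norm_neg, norm_mul, Complex.norm_real, Real.norm_eq_abs, abs_of_pos hδ] at h1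
    rw [hH]
    simpa [sub_eq_add_neg] using h1
  set g : ℂ → ℂ := fun v => H v * dbar P v with hg
  have cg : Continuous g := by
    have : Continuous H := (hcont.comp (by fun_prop : Continuous fun v : ℂ => z - (δ : ℂ) * v)).sub
      continuous_const
    exact this.mul dP_cont
  have g0 : ∀ v, 1 < ‖v‖ → g v = 0 := fun v hv => by rw [hg]; simp only [dP_zero hv, mul_zero]
  have gM : ∀ v, ‖g v‖ ≤ C0 * ω δ := by
    intro v
    rcases le_or_gt ‖v‖ 1 with hv | hv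
    · rw [hg]
      simp only [norm_mul]
      have h1 : ‖H v‖ ≤ ω δ := by
        refine (hHb v).trans (hω.mono _ _ (by positivity) ?_)
        nlinarith
      calc ‖H v‖ * ‖dbar P v‖ ≤ ω δ * C0 := mul_le_mul h1 (hdP v) (norm_nonneg _) hωδ.le
        _ = _ := mul_comm _ _
    · rw [g0 v hv, norm_zero]
      positivity
  have hpi : ‖((Real.pi : ℂ))⁻¹‖ ≤ 1 := by
    rw [norm_inv, Complex.norm_real, Real.norm_eq_abs, abs_of_pos Real.pi_pos]
    apply inv_le_one_of_one_le₀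
    linarith [Real.pi_gt_three]
  have hV : ∀ v, vit δ h z (z - (δ : ℂ) * v) = P v * H v - (Real.pi : ℂ)⁻¹ * pot g v :=
    fun v => vit_scale hδ hcont z v
  rw [ewu, hV, ew, hV]
  rcases le_or_gt δ ‖u‖ with hcase | hcase
  · -- large
    have hωδu : ω δ ≤ ω ‖u‖ := hω.mono _ _ hδ.le hcase
    have hone : ∀ v, ‖P v * H v - (Real.pi : ℂ)⁻¹ * pot g v‖ ≤ (C0 + C1 * C0) * ω δ := by
      intro v
      have h1 : ‖P v * H v‖ ≤ C0 * ω δ := by
        rcases le_or_gt ‖v‖ 1 with hv | hv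
        · rw [norm_mul]
          have h1 : ‖H v‖ ≤ ω δ := by
            refine (hHb v).trans (hω.mono _ _ (by positivity) ?_)
            nlinarith
          exact mul_le_mul (hP v) h1 (norm_nonneg _) hC0'
        · rw [P_zero hv.le, zero_mul, norm_zero]
          positivity
      have h2 : ‖(Real.pi : ℂ)⁻¹ * pot g v‖ ≤ C1 * (C0 * ω δ) := by
        rw [norm_mul]
        have h3 := hb g (C0 * ω δ) cg g0 gM v
        calc _ ≤ 1 * ‖pot g v‖ := mul_le_mul_of_nonneg_right hpi (norm_nonneg _)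
          _ ≤ _ := by rw [one_mul]; exact h3
      calc _ ≤ ‖P v * H v‖ + ‖(Real.pi : ℂ)⁻¹ * pot g v‖ := norm_sub_le _ _
        _ ≤ _ := by linarith
    have h1 := hone ξ
    have h2 := hone ξ'
    have hcc : 0 ≤ C0 + C1 * C0 := by
      have := mul_nonneg hC1 hC0'
      linarith
    calc _ ≤ ‖P ξ' * H ξ' - (Real.pi : ℂ)⁻¹ * pot g ξ'‖ + ‖P ξ * H ξ - (Real.pi : ℂ)⁻¹ * pot g ξ‖ :=
          norm_sub_le _ _
      _ ≤ 2 * (C0 + C1 * C0) * ω δ := by linarith
      _ ≤ 2 * (C0 + C1 * C0) * ω ‖u‖ := mul_le_mul_of_nonneg_left hωδu (by linarith)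
      _ ≤ _ := by
        apply mul_le_mul_of_nonneg_right _ hωu.le
        have := mul_nonneg hC2 hC0'
        linarith
  · -- small
    set s : ℝ := ‖u‖ / δ with hs
    have hs0 : 0 < s := by positivity
    have hs1 : s < 1 := by rw [hs, div_lt_one hδ]; exact hcase
    have hus : ‖u‖ = s * δ := by rw [hs]; field_simp
    have e1 : P ξ' * H ξ' - (Real.pi : ℂ)⁻¹ * pot g ξ' - (P ξ * H ξ - (Real.pi : ℂ)⁻¹ * pot g ξ) =
        P ξ' * (H ξ' - H ξ) + (P ξ' - P ξ) * H ξ - (Real.pi : ℂ)⁻¹ * (pot g ξ' - pot g ξ) := by ring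
    rw [e1]
    have t1 : ‖P ξ' * (H ξ' - H ξ)‖ ≤ C0 * ω ‖u‖ := by
      rw [norm_mul]
      have h1 : ‖H ξ' - H ξ‖ ≤ ω ‖u‖ := by
        have h2 := hosc w u
        rw [ewu] at h2
        rw [hH]
        have e2 : h (z - (δ : ℂ) * ξ') - h z - (h (z - (δ : ℂ) * ξ) - h z) =
            h (z - (δ : ℂ) * ξ') - h w := by
          rw [← ew]; ring
        simp only [e2]
        exact h2
      exact mul_le_mul (hP _) h1 (norm_nonneg _) hC0'
    have t2 : ‖(P ξ' - P ξ) * H ξ‖ ≤ 2 * C0 * ω ‖u‖ := by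
      rcases le_or_gt ‖ξ‖ 2 with hx | hx
      · rw [norm_mul]
        have h1 : ‖P ξ' - P ξ‖ ≤ C0 * s := by
          have := hLip ξ' ξ
          rwa [hdist] at this
        have h2 : ‖H ξ‖ ≤ ω (2 * δ) := by
          refine (hHb ξ).trans (hω.mono _ _ (by positivity) ?_)
          nlinarith
        have h3 : ω (2 * δ) ≤ Real.sqrt (2 * δ / ‖u‖) * ω ‖u‖ := hω.root _ _ hu0 (by linarith)
        have h4 : s * Real.sqrt (2 * δ / ‖u‖) ≤ 2 := by
          have e2 : 2 * δ / ‖u‖ = 2 / s := by rw [hus]; field_simp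
          rw [e2]
          have h5 : s * Real.sqrt (2 / s) = Real.sqrt (s ^ 2 * (2 / s)) := by
            rw [Real.sqrt_mul (by positivity), Real.sqrt_sq hs0.le]
          rw [h5]
          have e3 : s ^ 2 * (2 / s) = 2 * s := by field_simp
          rw [e3, Real.sqrt_le_left (by norm_num)]
          linarith
        calc ‖P ξ' - P ξ‖ * ‖H ξ‖ ≤ (C0 * s) * (Real.sqrt (2 * δ / ‖u‖) * ω ‖u‖) :=
              mul_le_mul h1 (h2.trans h3) (norm_nonneg _) (by positivity)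
          _ = C0 * (s * Real.sqrt (2 * δ / ‖u‖)) * ω ‖u‖ := by ring
          _ ≤ C0 * 2 * ω ‖u‖ := by
            apply mul_le_mul_of_nonneg_right _ hωu.le
            exact mul_le_mul_of_nonneg_left h4 hC0'
          _ = _ := by ring
      · have h1 : 1 ≤ ‖ξ'‖ := by
          have h2 : ‖ξ‖ ≤ ‖ξ'‖ + ‖ξ' - ξ‖ := by
            have := norm_sub_le ξ' (ξ' - ξ)
            rwa [sub_sub_cancel] at this
          rw [hdist] at h2
          linarith
        rw [P_zero h1, P_zero (by linarith), sub_self, zero_mul, norm_zero]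
        positivity
    have t3 : ‖(Real.pi : ℂ)⁻¹ * (pot g ξ' - pot g ξ)‖ ≤ C2 * C0 * ω ‖u‖ := by
      rw [norm_mul]
      have h1 := hh2 g (C0 * ω δ) cg g0 gM ξ' ξ
      rw [hdist] at h1
      have h2 : ω δ ≤ Real.sqrt (δ / ‖u‖) * ω ‖u‖ := hω.root _ _ hu0 hcase.le
      have h3 : Real.sqrt (δ / ‖u‖) * s ^ (1 / 2 : ℝ) = 1 := by
        rw [← Real.sqrt_eq_rpow, ← Real.sqrt_mul (by positivity)]
        have : δ / ‖u‖ * s = 1 := by rw [hs]; field_simp
        rw [this, Real.sqrt_one]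
      have hsr : 0 ≤ s ^ (1 / 2 : ℝ) := Real.rpow_nonneg hs0.le _
      calc _ ≤ 1 * ‖pot g ξ' - pot g ξ‖ := mul_le_mul_of_nonneg_right hpi (norm_nonneg _)
        _ ≤ C2 * (C0 * ω δ) * s ^ (1 / 2 : ℝ) := by rw [one_mul]; exact h1
        _ ≤ C2 * (C0 * (Real.sqrt (δ / ‖u‖) * ω ‖u‖)) * s ^ (1 / 2 : ℝ) := by
          apply mul_le_mul_of_nonneg_right _ hsr
          apply mul_le_mul_of_nonneg_left _ hC2
          exact mul_le_mul_of_nonneg_left h2 hC0'
        _ = C2 * C0 * ω ‖u‖ * (Real.sqrt (δ / ‖u‖) * s ^ (1 / 2 : ℝ)) := by ring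
        _ = _ := by rw [h3, mul_one]
    calc _ ≤ ‖P ξ' * (H ξ' - H ξ) + (P ξ' - P ξ) * H ξ‖ + ‖(Real.pi : ℂ)⁻¹ * (pot g ξ' - pot g ξ)‖ :=
          norm_sub_le _ _
      _ ≤ ‖P ξ' * (H ξ' - H ξ)‖ + ‖(P ξ' - P ξ) * H ξ‖ + ‖(Real.pi : ℂ)⁻¹ * (pot g ξ' - pot g ξ)‖ := by
          have := norm_add_le (P ξ' * (H ξ' - H ξ)) ((P ξ' - P ξ) * H ξ)
          linarith
      _ ≤ (3 * C0 + C2 * C0) * ω ‖u‖ := by linarith
      _ ≤ _ := by
        apply mul_le_mul_of_nonneg_right _ hωu.le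
        have := mul_nonneg hC1 hC0'
        linarith

end Pool.Agent.H352R4.CA
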