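import Pool.Agent.H352R4.CA.Defs

set_option autoImplicit false

open MeasureTheory Complex Filter Topology Metric

namespace Pool.Agent.H352R4.CA

namespace WmoAux

theorem le3 {C : ℝ} {δ : ℕ → ℝ} (n k : ℕ) (s : ℝ) : Wm C δ n k s ≤ 3 := by
  cases n with
  | zero => exact le_refl _
  | succ n =>
    show Ph C (δ k) (Wm C δ n (k + 1)) s ≤ 3
    unfold Ph
    split_ifs
    · exact min_le_left _ _
    · exact le_refl _

theorem unroll {C : ℝ} (hC : 1 ≤ C) {δ : ℕ → ℝ} (hδ : ∀ k, 0 < δ k)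
    (hδ' : ∀ k, δ (k + 1) ≤ δ k) : ∀ (m n k : ℕ) (s : ℝ), m < n → 0 ≤ s → s ≤ δ (k + m) →
      Wm C δ n k s ≤ 3 / 2 ^ (m + 1) + 2 * C * s / δ (k + m) := by
  have hanti : Antitone δ := antitone_nat_of_succ_le hδ'
  intro m
  induction m with
  | zero =>
    intro n k s hn hs hsd
    obtain ⟨n, rfl⟩ : ∃ n', n = n' + 1 := ⟨n - 1, by omega⟩
    show Ph C (δ k) (Wm C δ n (k + 1)) s ≤ _
    unfold Ph
    rw [if_pos (by simpa using hsd)]
    refine (min_le_right _ _).trans ?_
    have h1 := le3 (C := C) (δ := δ) n (k + 1) s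
    have h2 : 0 ≤ C * s / δ k := div_nonneg (mul_nonneg (by linarith) hs) (hδ k).le
    have h3 : 2 * C * s / δ (k + 0) = 2 * (C * s / δ k) := by
      rw [add_zero]; ring
    rw [h3]
    norm_num
    linarith
  | succ m ih =>
    intro n k s hn hs hsd
    obtain ⟨n, rfl⟩ : ∃ n', n = n' + 1 := ⟨n - 1, by omega⟩
    show Ph C (δ k) (Wm C δ n (k + 1)) s ≤ _
    unfold Ph
    have hle : δ (k + (m + 1)) ≤ δ k := hanti (by omega)
    rw [if_pos (hsd.trans hle)]
    refine (min_le_right _ _).trans ?_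
    have e1 : k + 1 + m = k + (m + 1) := by ring
    have h1 := ih n (k + 1) s (by omega) hs (by rw [e1]; exact hsd)
    rw [e1] at h1
    have h4 : C * s / δ k ≤ C * s / δ (k + (m + 1)) :=
      div_le_div_of_nonneg_left (mul_nonneg (by linarith) hs) (hδ _) hle
    have e2 : (3:ℝ) / 2 ^ (m + 1 + 1) = (3 / 2 ^ (m + 1)) / 2 := by
      rw [pow_succ]; field_simp
    have e3 : 2 * C * s / δ (k + (m + 1)) = 2 * (C * s / δ (k + (m + 1))) := by ring
    rw [e3] at h1 ⊢
    rw [e2]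
    linarith

end WmoAux

open WmoAux

theorem Wm_nonneg {C : ℝ} (hC : 1 ≤ C) {δ : ℕ → ℝ} (hδ : ∀ k, 0 < δ k) (n k : ℕ) {s : ℝ}
    (hs : 0 ≤ s) : 0 ≤ Wm C δ n k s := by
  induction n generalizing k with
  | zero => show (0:ℝ) ≤ 3; norm_num
  | succ n ih =>
    show 0 ≤ Ph C (δ k) (Wm C δ n (k + 1)) s
    unfold Ph
    split_ifs
    · refine le_min (by norm_num) ?_
      have h1 := ih (k + 1)
      have h2 : 0 ≤ C * s / δ k := div_nonneg (mul_nonneg (by linarith) hs) (hδ k).le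
      linarith
    · norm_num

theorem Wm_mono {C : ℝ} (hC : 1 ≤ C) {δ : ℕ → ℝ} (hδ : ∀ k, 0 < δ k) (n k : ℕ) {s s' : ℝ}
    (hs : 0 ≤ s) (hss : s ≤ s') : Wm C δ n k s ≤ Wm C δ n k s' := by
  induction n generalizing k with
  | zero => exact le_refl (3:ℝ)
  | succ n ih =>
    by_cases h' : s' ≤ δ k
    · show Ph C (δ k) (Wm C δ n (k + 1)) s ≤ Ph C (δ k) (Wm C δ n (k + 1)) s'
      unfold Ph
      rw [if_pos h', if_pos (hss.trans h')]
      refine min_le_min le_rfl ?_
      have h1 := ih (k + 1)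
      have h2 : C * s / δ k ≤ C * s' / δ k :=
        div_le_div_of_nonneg_right (mul_le_mul_of_nonneg_left hss (by linarith)) (hδ k).le
      linarith
    · refine (le3 _ _ _).trans ?_
      show 3 ≤ Ph C (δ k) (Wm C δ n (k + 1)) s'
      unfold Ph
      rw [if_neg h']

theorem Wm_GM {C : ℝ} (hC : 1 ≤ C) {δ : ℕ → ℝ} (hδ : ∀ k, 0 < δ k)
    (hδ' : ∀ k, δ (k + 1) ≤ δ k) (n k : ℕ) : GM (3 * δ k) (Wm C δ n (k + 1)) := by
  have h3 : 0 < 3 * δ k := by have := hδ k; linarith
  constructor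
  · intro s hs hsk
    have h1 : s / (3 * δ k) ≤ 1 := (div_le_one h3).mpr hsk
    cases n with
    | zero => show s / (3 * δ k) ≤ 3; linarith
    | succ n =>
      show s / (3 * δ k) ≤ Ph C (δ (k + 1)) (Wm C δ n (k + 1 + 1)) s
      unfold Ph
      split_ifs with h
      · refine le_min (by linarith) ?_
        have h2 := Wm_nonneg hC hδ n (k + 1 + 1) hs
        have h4 : s / (3 * δ k) ≤ C * s / δ (k + 1) := by
          have h5 : s / (3 * δ k) ≤ s / δ (k + 1) :=
            div_le_div_of_nonneg_left hs (hδ _) (by have := hδ' k; have := hδ k; linarith)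
          have h6 : s / δ (k + 1) ≤ C * s / δ (k + 1) :=
            div_le_div_of_nonneg_right (by nlinarith) (hδ _).le
          linarith
        linarith
      · linarith
  · intro s hs
    cases n with
    | zero => show (2:ℝ) ≤ 3; norm_num
    | succ n =>
      show 2 ≤ Ph C (δ (k + 1)) (Wm C δ n (k + 1 + 1)) s
      unfold Ph
      rw [if_neg (by have := hδ' k; have := hδ k; linarith)]
      norm_num

theorem Wm_lim {C : ℝ} (hC : 1 ≤ C) {δ : ℕ → ℝ} (hδ : ∀ k, 0 < δ k)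
    (hδ' : ∀ k, δ (k + 1) ≤ δ k) : ∃ Θ : ℝ → ℝ, 0 ≤ Θ 0 ∧
      (∀ s s', 0 ≤ s → s ≤ s' → Θ s ≤ Θ s') ∧ Tendsto Θ (𝓝[>] 0) (𝓝 0) ∧
      ∀ s, 0 < s → ∀ᶠ n in atTop, Wm C δ n 0 s ≤ Θ s := by
  set B : ℕ → ℝ → ℝ := fun m s =>
    3 / 2 ^ (m + 1) + 2 * C * s / δ m + (if s ≤ δ m then 0 else 3) with hB
  have B0 : ∀ m s, 0 ≤ s → 0 ≤ B m s := by
    intro m s hs
    have h1 : (0:ℝ) ≤ 3 / 2 ^ (m + 1) := by positivity
    have h2 : 0 ≤ 2 * C * s / δ m := div_nonneg (mul_nonneg (by linarith) hs) (hδ m).le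
    have h3 : (0:ℝ) ≤ (if s ≤ δ m then 0 else 3) := by split_ifs <;> norm_num
    simp only [hB]
    linarith
  have Bbdd : ∀ s, 0 ≤ s → BddBelow (Set.range fun m => B m s) := by
    intro s hs
    refine ⟨0, ?_⟩
    rintro _ ⟨m, rfl⟩
    exact B0 m s hs
  have Bmono : ∀ m s s', s ≤ s' → B m s ≤ B m s' := by
    intro m s s' hss
    have h2 : 2 * C * s / δ m ≤ 2 * C * s' / δ m :=
      div_le_div_of_nonneg_right (mul_le_mul_of_nonneg_left hss (by linarith)) (hδ m).le
    have h3 : (if s ≤ δ m then (0:ℝ) else 3) ≤ (if s' ≤ δ m then 0 else 3) := by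
      split_ifs with h1 h2
      · norm_num
      · norm_num
      · exact absurd (hss.trans ‹s' ≤ δ m›) h1
      · norm_num
    simp only [hB]
    linarith
  have Wle : ∀ m n s, 0 ≤ s → m < n → Wm C δ n 0 s ≤ B m s := by
    intro m n s hs hmn
    by_cases h : s ≤ δ m
    · have := unroll hC hδ hδ' m n 0 s hmn hs (by simpa using h)
      simp only [zero_add] at this
      simp only [hB, if_pos h, add_zero]
      exact this
    · refine (le3 _ _ _).trans ?_
      have h1 : (0:ℝ) ≤ 3 / 2 ^ (m + 1) := by positivity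
      have h2 : 0 ≤ 2 * C * s / δ m := div_nonneg (mul_nonneg (by linarith) hs) (hδ m).le
      simp only [hB, if_neg h]
      linarith
  refine ⟨fun s => (⨅ m, B m s) + s, ?_, ?_, ?_, ?_⟩
  · simp only [add_zero]
    exact le_ciInf fun m => B0 m 0 le_rfl
  · intro s s' hs hss
    exact add_le_add (ciInf_mono (Bbdd s hs) fun m => Bmono m s s' hss) hss
  · rw [Metric.tendsto_nhdsWithin_nhds]
    intro ε hε
    -- choose m with 3/2^(m+1) < ε/4
    obtain ⟨m, hm⟩ : ∃ m : ℕ, (3:ℝ) / 2 ^ (m + 1) < ε / 3 := by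
      have h1 : Tendsto (fun m : ℕ => (3:ℝ) * (1/2) ^ (m+1)) atTop (𝓝 (3 * 0)) :=
        ((tendsto_pow_atTop_nhds_zero_of_lt_one (by norm_num) (by norm_num)).comp
          (tendsto_add_atTop_nat 1)).const_mul 3
      rw [mul_zero] at h1
      have h2 := (h1.eventually (gt_mem_nhds (show (0:ℝ) < ε/3 by positivity))).exists
      obtain ⟨m, hm⟩ := h2
      refine ⟨m, ?_⟩
      have : (3:ℝ) / 2 ^ (m + 1) = 3 * (1/2)^(m+1) := by
        rw [one_div, inv_pow]; rfl
      rw [this]; exact hm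
    have hdm := hδ m
    refine ⟨min (δ m) (min (ε / 3) (ε * δ m / (6 * C + 1))), ?_, ?_⟩
    · refine lt_min hdm (lt_min (by positivity) ?_)
      have : (0:ℝ) < 6 * C + 1 := by linarith
      positivity
    · intro s hs hsd
      have hs0 : 0 < s := hs
      rw [Real.dist_eq, sub_zero, abs_of_pos hs0] at hsd
      have hs1 := hsd.trans_le (min_le_left _ _)
      have hs2 := hsd.trans_le ((min_le_right _ _).trans (min_le_left _ _))
      have hs3 := hsd.trans_le ((min_le_right _ _).trans (min_le_right _ _))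
      have hpos : 0 ≤ (⨅ m, B m s) + s :=
        add_nonneg (le_ciInf fun m => B0 m s hs0.le) hs0.le
      rw [Real.dist_eq, sub_zero, abs_of_nonneg hpos]
      have h1 : (⨅ m, B m s) ≤ B m s := ciInf_le (Bbdd s hs0.le) m
      have h2 : 2 * C * s / δ m < ε / 3 := by
        have h6 : (0:ℝ) < 6 * C + 1 := by linarith
        rw [lt_div_iff₀ h6] at hs3
        rw [div_lt_div_iff₀ hdm (by norm_num)]
        nlinarith
      have h3 : B m s = 3 / 2 ^ (m + 1) + 2 * C * s / δ m := by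
        simp only [hB, if_pos hs1.le, add_zero]
      rw [h3] at h1
      linarith
  · intro s hs
    have h1 : (⨅ m, B m s) < (⨅ m, B m s) + s := by linarith
    obtain ⟨m, hm⟩ := exists_lt_of_ciInf_lt h1
    filter_upwards [eventually_gt_atTop m] with n hn
    exact (Wle m n s hs.le hn).trans hm.le

end Pool.Agent.H352R4.CA
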