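import Pool.Agent.H352R4.CA.Defs
import Pool.Agent.H352R4.CA.Trx
import Pool.Agent.H352R4.CA.Vio
import Pool.Agent.H352R4.CA.Bas
import Pool.Agent.H352R4.CA.One
import Pool.Agent.H352R4.CA.Step
import Pool.Agent.H352R4.CA.Wmo
import Pool.Agent.H352R4.CA.Ali
import Pool.Agent.H352R4.CA.Alb

set_option autoImplicit false

open MeasureTheory Complex Filter Topology Metric
open scoped ComplexConjugate
open Pool.Agent.H352R3.SA
open Pool.Agent.H761R2.SV (dbar)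

namespace Pool.Agent.H352R4.CA

namespace MaiAux

/-- small scales -/
theorem small {ω : ℝ → ℝ} (hω : Mod ω) {C₆ c r : ℝ} (hC : 1 ≤ C₆) (hc : 0 < c) (hr : 0 < r) :
    ∃ δ, 0 < δ ∧ δ ≤ r ∧ C₆ * ω (4 * δ) ≤ c := by
  have h1 : ∀ᶠ s in 𝓝[>] (0:ℝ), ω s < c / C₆ :=
    hω.lim.eventually (gt_mem_nhds (by positivity))
  have h2 : ∀ᶠ s in 𝓝[>] (0:ℝ), s < 4 * r :=
    mem_nhdsWithin_of_mem_nhds (gt_mem_nhds (by linarith))
  have h3 : ∀ᶠ s in 𝓝[>] (0:ℝ), 0 < s := self_mem_nhdsWithin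
  obtain ⟨s, hs1, hs2, hs3⟩ := (h1.and (h2.and h3)).exists
  refine ⟨s / 4, by linarith, by linarith, ?_⟩
  rw [show 4 * (s / 4) = s by ring]
  rw [lt_div_iff₀ (by linarith)] at hs1
  linarith

/-- the chain of scales -/
theorem chain {C t₀ C₆ : ℝ} (hT : TR C t₀) (hV : VO C₆) {ω : ℝ → ℝ} (hω : Mod ω)
    {δ : ℕ → ℝ} (hδ : ∀ k, 0 < δ k) (h5 : ∀ k, 5 * δ (k + 1) ≤ δ k)
    (hr : ∀ k, 4 * C₆ * ω (4 * δ (k + 1)) ≤ t₀ * ω (4 * δ k))
    {A B : Set ℂ} (hA : IsCompact A) (hB : IsCompact B) (n : ℕ) : ∀ m k : ℕ, k + m = n →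
    Pst ω (Wm C δ m (k + 1)) A B (cthickening (δ n) A) (cthickening (δ n) B) (δ k) := by
  have hδ' : ∀ k, δ (k + 1) ≤ δ k := fun k => by have := h5 k; have := hδ (k + 1); linarith
  intro m
  induction m with
  | zero =>
    intro k hk
    obtain rfl : k = n := by omega
    exact base hω hA hB hA.cthickening hB.cthickening (hδ k) le_rfl subset_rfl subset_rfl
  | succ m ih =>
    intro k hk
    have h1 := ih (k + 1) (by omega)
    exact step hT hV hω (hδ (k + 1)) (h5 k) (Wm_GM hT.1 hδ hδ' m (k + 1)) hA hB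
      hA.cthickening hB.cthickening (hr k) h1

end MaiAux

open MaiAux

theorem main {ω : ℝ → ℝ} (hω : Mod ω) {η : ℝ} (hη : 0 < η) (hη1 : η < 1) :
    ∃ Θ : ℝ → ℝ, 0 ≤ Θ 0 ∧ (∀ s s', 0 ≤ s → s ≤ s' → Θ s ≤ Θ s') ∧
      Tendsto Θ (𝓝[>] 0) (𝓝 0) ∧ ∀ (A B : Set ℂ), IsCompact A → IsCompact B →
      ∀ (f : ℂ → ℂ) (l : ℂ), Ac (A ∪ B) f l → (∀ z, ‖f z‖ ≤ 1) →
      (∀ z u, ‖f (z + u) - f z‖ ≤ ω ‖u‖) →
      (1 - η) * ‖l‖ ≤ (1 + η) * (al Θ A + al Θ B) := by
  obtain ⟨C, t₀, hT⟩ := transplant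
  obtain ⟨C₆, hV⟩ := vit_osc
  obtain ⟨hC1, ht0, hCt, -⟩ := id hT
  have hC61 : 1 ≤ C₆ := hV.1
  have hC0 : 0 < C := by linarith
  set t : ℝ := min t₀ (η / C) with ht
  have htpos : 0 < t := lt_min ht0 (by positivity)
  have htle : t ≤ t₀ := min_le_left _ _
  have hCtη : C * t ≤ η := by
    have : t ≤ η / C := min_le_right _ _
    rw [le_div_iff₀ hC0] at this
    linarith
  have hq : 0 < 1 - (1 - η) ^ 2 := by nlinarith
  -- first scale
  obtain ⟨d0, hd0, -, hd0'⟩ := small hω (r := 1) (c := t * (1 - (1 - η) ^ 2) / 8) hC61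
    (by positivity) one_pos
  -- next scales
  have hnext : ∀ x : ℝ, 0 < x → ∃ y, 0 < y ∧ y ≤ x / 5 ∧ C₆ * ω (4 * y) ≤ t₀ * ω (4 * x) / 4 := by
    intro x hx
    have hwx : 0 < ω (4 * x) := hω.pos _ (by positivity)
    exact small hω hC61 (by positivity) (by positivity)
  choose! g hg0 hg5 hgw using hnext
  set δ : ℕ → ℝ := fun k => g^[k] d0 with hδdef
  have hsucc : ∀ k, δ (k + 1) = g (δ k) := fun k => Function.iterate_succ_apply' g k d0
  have hδ : ∀ k, 0 < δ k := by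
    intro k
    induction k with
    | zero => exact hd0
    | succ k ih => rw [hsucc]; exact hg0 _ ih
  have h5 : ∀ k, 5 * δ (k + 1) ≤ δ k := by
    intro k
    have := hg5 (δ k) (hδ k)
    rw [hsucc]; linarith
  have hr : ∀ k, 4 * C₆ * ω (4 * δ (k + 1)) ≤ t₀ * ω (4 * δ k) := by
    intro k
    have := hgw (δ k) (hδ k)
    rw [hsucc]; linarith
  have hδ' : ∀ k, δ (k + 1) ≤ δ k := fun k => by have := h5 k; have := hδ (k + 1); linarith
  have hδlim : Tendsto δ atTop (𝓝 0) := by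
    have h1 : ∀ k, δ k ≤ d0 * (1 / 5) ^ k := by
      intro k
      induction k with
      | zero => simp [hδdef]
      | succ k ih =>
        have := h5 k
        rw [pow_succ]
        linarith
    have h2 : Tendsto (fun k : ℕ => d0 * (1 / 5 : ℝ) ^ k) atTop (𝓝 (d0 * 0)) :=
      (tendsto_pow_atTop_nhds_zero_of_lt_one (by norm_num) (by norm_num)).const_mul d0
    rw [mul_zero] at h2
    exact squeeze_zero (fun k => (hδ k).le) h1 h2
  obtain ⟨Θ, hΘ0, hΘm, hΘl, hΘW⟩ := Wm_lim hC1 hδ hδ'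
  refine ⟨Θ, hΘ0, hΘm, hΘl, ?_⟩
  intro A B hA hB f l hf hf1 hfo
  have hS : IsCompact (A ∪ B) := hA.union hB
  -- the estimate for every n
  have key : ∀ n : ℕ, (1 - η) * ‖l‖ ≤ (1 + η) *
      (al (Wm C δ (n + 1) 0) (cthickening (δ n) A) +
        al (Wm C δ (n + 1) 0) (cthickening (δ n) B)) := by
    intro n
    have hP := chain hT hV hω hδ h5 hr hA hB n n 0 (by omega)
    have hN : 1 < 1 / (1 - η) := by
      rw [lt_div_iff₀ (by linarith)]; linarith
    have h1 := one (M := 1) (N := 1 / (1 - η)) (t := t) hT hV hω (hδ 0) (Wm_GM hC1 hδ hδ' n 0)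
      hA.cthickening hB.cthickening hP hS subset_rfl hf zero_le_one hN hf1 hfo htpos htle (by
        have e1 : (1:ℝ) / (1 / (1 - η)) = 1 - η := by
          rw [one_div_one_div]
        rw [e1, div_div_eq_mul_div, div_one]
        have h0 : C₆ * ω (4 * δ 0) ≤ t * (1 - (1 - η) ^ 2) / 8 := hd0'
        have hw0 : 0 ≤ C₆ * ω (4 * δ 0) :=
          mul_nonneg (by linarith) (hω.pos _ (by have := hδ 0; linarith)).le
        nlinarith)
    set a1 := al (Ph C (δ 0) (Wm C δ n (0 + 1)))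
      (cthickening (δ n) A ∩ cthickening (5 * δ 0) (A ∪ B)) with ha1
    set b1 := al (Ph C (δ 0) (Wm C δ n (0 + 1)))
      (cthickening (δ n) B ∩ cthickening (5 * δ 0) (A ∪ B)) with hb1
    have m1 : a1 ≤ al (Wm C δ (n + 1) 0) (cthickening (δ n) A) :=
      al_mono hA.cthickening (fun s _ => le_rfl) Set.inter_subset_left
    have m2 : b1 ≤ al (Wm C δ (n + 1) 0) (cthickening (δ n) B) :=
      al_mono hB.cthickening (fun s _ => le_rfl) Set.inter_subset_left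
    have n1 : 0 ≤ a1 := al_nonneg _ _
    have n2 : 0 ≤ b1 := al_nonneg _ _
    have h1η : 0 < 1 - η := by linarith
    have h2 : (1 - η) * ‖l‖ ≤ (1 + C * t) * (a1 + b1) := by
      have h3 := mul_le_mul_of_nonneg_left h1 h1η.le
      have e2 : (1 - η) * (1 / (1 - η) * (1 + C * t) * (a1 + b1)) =
          (1 + C * t) * (a1 + b1) := by
        field_simp
      rw [e2] at h3
      exact h3
    refine h2.trans ?_
    refine mul_le_mul (by linarith) (add_le_add m1 m2) (add_nonneg n1 n2) (by linarith)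
  have hle : ∀ s, 0 < s → ∀ᶠ n in atTop, Wm C δ (n + 1) 0 s ≤ Θ s := by
    intro s hs
    exact (tendsto_add_atTop_nat 1).eventually (hΘW s hs)
  have hmono : ∀ n s s', 0 ≤ s → s ≤ s' → Wm C δ (n + 1) 0 s ≤ Wm C δ (n + 1) 0 s' :=
    fun n s s' hs hss => Wm_mono hC1 hδ (n + 1) 0 hs hss
  refine le_of_forall_pos_le_add fun ε hε => ?_
  have limA := al_limit hA (Ωn := fun n => Wm C δ (n + 1) 0) hmono hΘ0 hΘm hΘl hle hδ hδlim
    (η := ε / 4) (by positivity)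
  have limB := al_limit hB (Ωn := fun n => Wm C δ (n + 1) 0) hmono hΘ0 hΘm hΘl hle hδ hδlim
    (η := ε / 4) (by positivity)
  obtain ⟨n, hn1, hn2⟩ := (limA.and limB).exists
  have h1 := key n
  nlinarith

end Pool.Agent.H352R4.CA
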