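import Pool.Agent.H352R4.CA.Defs

set_option autoImplicit false

open MeasureTheory Complex Filter Topology Metric
open scoped ComplexConjugate

namespace Pool.Agent.H352R4.CA

namespace PackAux

open Finset in
theorem card_sep {ι : Type*} (s : Finset ι) (p : ι → ℂ) (z : ℂ) (X Y : ℝ) (hY : 0 < Y)
    (hX : 0 ≤ X) (hin : ∀ j ∈ s, ‖z - p j‖ ≤ X)
    (hsep : ∀ i ∈ s, ∀ j ∈ s, i ≠ j → Y ≤ ‖p i - p j‖) :
    (s.card : ℝ) ≤ (4 * X / Y + 2) ^ 2 := by
  classical
  set H := Y / 2 with hH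
  have hH0 : 0 < H := by positivity
  let f : ι → ℤ × ℤ := fun j => (⌊((p j).re - z.re) / H⌋, ⌊((p j).im - z.im) / H⌋)
  let a : ℤ := ⌊(-X) / H⌋
  let b : ℤ := ⌊X / H⌋
  have hmap : ∀ j ∈ s, f j ∈ Icc a b ×ˢ Icc a b := by
    intro j hj
    have h1 := hin j hj
    have h2 : |(p j).re - z.re| ≤ X := by
      have := Complex.abs_re_le_norm (z - p j)
      rw [Complex.sub_re, abs_sub_comm] at this
      linarith
    have h3 : |(p j).im - z.im| ≤ X := by
      have := Complex.abs_im_le_norm (z - p j)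
      rw [Complex.sub_im, abs_sub_comm] at this
      linarith
    rw [abs_le] at h2 h3
    rw [mem_product, mem_Icc, mem_Icc]
    refine ⟨⟨?_, ?_⟩, ?_, ?_⟩
    · exact Int.floor_le_floor (div_le_div_of_nonneg_right h2.1 hH0.le)
    · exact Int.floor_le_floor (div_le_div_of_nonneg_right h2.2 hH0.le)
    · exact Int.floor_le_floor (div_le_div_of_nonneg_right h3.1 hH0.le)
    · exact Int.floor_le_floor (div_le_div_of_nonneg_right h3.2 hH0.le)
  have hinj : Set.InjOn f (s : Set ι) := by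
    intro i hi j hj hij
    by_contra hne
    have h1 := hsep i hi j hj hne
    have e1 : ⌊((p i).re - z.re) / H⌋ = ⌊((p j).re - z.re) / H⌋ := congrArg Prod.fst hij
    have e2 : ⌊((p i).im - z.im) / H⌋ = ⌊((p j).im - z.im) / H⌋ := congrArg Prod.snd hij
    have g1 := Int.abs_sub_lt_one_of_floor_eq_floor e1
    have g2 := Int.abs_sub_lt_one_of_floor_eq_floor e2
    rw [← sub_div, abs_div, abs_of_pos hH0, div_lt_one hH0] at g1 g2
    have g3 : |(p i - p j).re| < H := by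
      have e : (p i).re - (p j).re = ((p i).re - z.re) - ((p j).re - z.re) := by ring
      rw [Complex.sub_re, e]; exact g1
    have g4 : |(p i - p j).im| < H := by
      have e : (p i).im - (p j).im = ((p i).im - z.im) - ((p j).im - z.im) := by ring
      rw [Complex.sub_im, e]; exact g2
    have g5 : ‖p i - p j‖ ^ 2 < Y ^ 2 := by
      rw [Complex.sq_norm, Complex.normSq_apply]
      have k1 : (p i - p j).re * (p i - p j).re < H * H := by
        rw [← abs_mul_abs_self]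
        exact mul_self_lt_mul_self (abs_nonneg _) g3
      have k2 : (p i - p j).im * (p i - p j).im < H * H := by
        rw [← abs_mul_abs_self (p i - p j).im]
        exact mul_self_lt_mul_self (abs_nonneg _) g4
      rw [hH] at k1 k2
      nlinarith
    have g6 : Y ^ 2 ≤ ‖p i - p j‖ ^ 2 := pow_le_pow_left₀ hY.le h1 2
    linarith
  have hc : s.card ≤ (Icc a b ×ˢ Icc a b).card := Finset.card_le_card_of_injOn f hmap hinj
  rw [card_product, Int.card_Icc] at hc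
  have hab : a ≤ b := Int.floor_le_floor (div_le_div_of_nonneg_right (by linarith) hH0.le)
  have h4 : (((b + 1 - a).toNat : ℕ) : ℝ) = (b : ℝ) + 1 - a := by
    have : (((b + 1 - a).toNat : ℤ)) = b + 1 - a := Int.toNat_of_nonneg (by omega)
    have h5 : (((b + 1 - a).toNat : ℤ) : ℝ) = ((b + 1 - a : ℤ) : ℝ) := by rw [this]
    rw [Int.cast_natCast] at h5
    rw [h5]; push_cast; ring
  have h6 : (b : ℝ) + 1 - a ≤ 4 * X / Y + 2 := by
    have i1 : (b : ℝ) ≤ X / H := Int.floor_le _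
    have i2 : (-X) / H < a + 1 := Int.lt_floor_add_one _
    have i3 : X / H + X / H = 4 * X / Y := by rw [hH]; field_simp; ring
    have i4 : (-X) / H = -(X / H) := by rw [neg_div]
    rw [i4] at i2
    linarith
  have h7 : (0:ℝ) ≤ (b : ℝ) + 1 - a := by
    have : (a : ℝ) ≤ b := by exact_mod_cast hab
    linarith
  calc (s.card : ℝ) ≤ (((b + 1 - a).toNat * (b + 1 - a).toNat : ℕ) : ℝ) := by exact_mod_cast hc
    _ = ((b : ℝ) + 1 - a) ^ 2 := by rw [Nat.cast_mul, h4]; ring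
    _ ≤ (4 * X / Y + 2) ^ 2 := pow_le_pow_left₀ h7 h6 2

/-- dyadic level of `x / δ` -/
noncomputable def lev (δ x : ℝ) : ℕ := Nat.log 2 ⌊x / δ⌋₊

theorem lev_lt {δ x : ℝ} (hδ : 0 < δ) (hx : 0 ≤ x) : x < 2 ^ (lev δ x + 1) * δ := by
  have h1 : ⌊x / δ⌋₊ < 2 ^ (lev δ x + 1) := Nat.lt_pow_succ_log_self (by norm_num) _
  have h2 : x / δ < (2:ℝ) ^ (lev δ x + 1) := by
    have h3 : x / δ < ⌊x / δ⌋₊ + 1 := Nat.lt_floor_add_one _
    have h4 : (⌊x / δ⌋₊ : ℝ) + 1 ≤ (2:ℝ) ^ (lev δ x + 1) := by exact_mod_cast h1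
    linarith
  rwa [div_lt_iff₀ hδ] at h2

theorem lev_le {δ x : ℝ} (hδ : 0 < δ) (hx : δ ≤ x) : 2 ^ (lev δ x) * δ ≤ x := by
  have h0 : 1 ≤ x / δ := by rwa [le_div_iff₀ hδ, one_mul]
  have h1 : 1 ≤ ⌊x / δ⌋₊ := by
    rw [Nat.one_le_floor_iff]; exact h0
  have h2 : 2 ^ (lev δ x) ≤ ⌊x / δ⌋₊ := Nat.pow_log_le_self 2 (by omega)
  have h3 : ((2 ^ (lev δ x) : ℕ) : ℝ) ≤ x / δ := by
    have h5 : (⌊x / δ⌋₊ : ℝ) ≤ x / δ := Nat.floor_le (by linarith)
    have h6 : ((2 ^ (lev δ x) : ℕ) : ℝ) ≤ (⌊x / δ⌋₊ : ℝ) := by exact_mod_cast h2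
    linarith
  rw [le_div_iff₀ hδ] at h3
  push_cast at h3
  exact h3

theorem lev_small {δ x : ℝ} (hδ : 0 < δ) (hx : x < δ) : lev δ x = 0 := by
  unfold lev
  have : ⌊x / δ⌋₊ = 0 := by
    rw [Nat.floor_eq_zero, div_lt_one hδ]; exact hx
  rw [this]; simp

theorem geom_le (N : ℕ) : ∑ k ∈ Finset.range N, (1 / 2 : ℝ) ^ k ≤ 2 := by
  have h := (summable_geometric_two).sum_le_tsum (Finset.range N) (fun k _ => by positivity)
  rwa [tsum_geometric_two] at h

end PackAux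

open PackAux in
theorem pack : ∃ C : ℝ, 1 ≤ C ∧ ∀ (m : ℕ) (p : Fin m → ℂ) (R : Fin m → ℝ) (δ : ℝ) (z : ℂ),
    0 < δ → (∀ i j, i ≠ j → δ ≤ ‖p i - p j‖) → (∀ j, δ ≤ R j) →
    (∀ i j, i < j → R j ≤ ‖p i - p j‖) →
    ∑ j, (if ‖z - p j‖ ≤ 2 * R j then δ / max δ ‖z - p j‖
      else δ ^ 2 * R j / ‖z - p j‖ ^ 3) ≤ C := by
  classical
  refine ⟨1448, by norm_num, ?_⟩
  intro m p R δ z hδ hsep hR hord
  rw [Finset.sum_ite]
  set F1 := Finset.univ.filter (fun j => ‖z - p j‖ ≤ 2 * R j) with hF1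
  set F2 := Finset.univ.filter (fun j => ¬ ‖z - p j‖ ≤ 2 * R j) with hF2
  let k : Fin m → ℕ := fun j => lev δ ‖z - p j‖
  let l : Fin m → ℕ := fun j => lev δ (R j)
  let N : ℕ := Finset.univ.sup k + 1
  let N' : ℕ := Finset.univ.sup l + 1
  have hkN : ∀ j, k j < N := fun j => Nat.lt_succ_of_le (Finset.le_sup (f := k) (Finset.mem_univ j))
  have hlN : ∀ j, l j < N' := fun j => Nat.lt_succ_of_le (Finset.le_sup (f := l) (Finset.mem_univ j))
  -- separation from a lower bound of R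
  have hsepR : ∀ i j, i ≠ j → ∀ Y, Y ≤ R i → Y ≤ R j → Y ≤ ‖p i - p j‖ := by
    intro i j hij Y h1 h2
    rcases lt_or_gt_of_ne hij with h | h
    · exact h2.trans (hord i j h)
    · rw [norm_sub_rev]; exact h1.trans (hord j i h)
  have hk_lt : ∀ j, ‖z - p j‖ < 2 ^ (k j + 1) * δ := fun j => lev_lt hδ (norm_nonneg _)
  have part1 : ∑ j ∈ F1, δ / max δ ‖z - p j‖ ≤ 648 := by
    have s1 : ∑ j ∈ F1, δ / max δ ‖z - p j‖ ≤ ∑ j ∈ F1, (1 / 2 : ℝ) ^ (k j) := by
      apply Finset.sum_le_sum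
      intro j _
      have h1 : 2 ^ (k j) * δ ≤ max δ ‖z - p j‖ := by
        rcases lt_or_ge ‖z - p j‖ δ with h | h
        · have : k j = 0 := lev_small hδ h
          rw [this, pow_zero, one_mul]; exact le_max_left _ _
        · exact (lev_le hδ h).trans (le_max_right _ _)
      have hmx : 0 < max δ ‖z - p j‖ := lt_of_lt_of_le hδ (le_max_left _ _)
      rw [div_le_iff₀ hmx, one_div, inv_pow]
      have h2 : (0:ℝ) < 2 ^ (k j) := by positivity
      calc δ = ((2:ℝ) ^ (k j))⁻¹ * (2 ^ (k j) * δ) := by field_simp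
        _ ≤ ((2:ℝ) ^ (k j))⁻¹ * max δ ‖z - p j‖ :=
            mul_le_mul_of_nonneg_left h1 (by positivity)
    have s2 : ∑ j ∈ F1, (1 / 2 : ℝ) ^ (k j)
        = ∑ n ∈ Finset.range N, ∑ j ∈ F1 with k j = n, (1 / 2 : ℝ) ^ (k j) :=
      (Finset.sum_fiberwise_of_maps_to (fun j _ => Finset.mem_range.mpr (hkN j)) _).symm
    have s3 : ∀ n ∈ Finset.range N, ∑ j ∈ F1 with k j = n, (1 / 2 : ℝ) ^ (k j)
        ≤ 324 * (1 / 2 : ℝ) ^ n := by
      intro n _
      have e1 : ∑ j ∈ F1 with k j = n, (1 / 2 : ℝ) ^ (k j)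
          = ((F1.filter (fun j => k j = n)).card : ℝ) * (1 / 2 : ℝ) ^ n := by
        rw [Finset.sum_congr rfl (g := fun _ => (1 / 2 : ℝ) ^ n)]
        · rw [Finset.sum_const, nsmul_eq_mul]
        · intro j hj
          rw [(Finset.mem_filter.mp hj).2]
      rw [e1]
      apply mul_le_mul_of_nonneg_right _ (by positivity)
      have hY : (0:ℝ) < 2 ^ n * δ / 2 := by positivity
      have hlow : ∀ j ∈ F1.filter (fun j => k j = n), 2 ^ n * δ / 2 ≤ R j := by
        intro j hj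
        rw [Finset.mem_filter, hF1, Finset.mem_filter] at hj
        obtain ⟨⟨_, h1⟩, h2⟩ := hj
        rcases lt_or_ge ‖z - p j‖ δ with h | h
        · have h3 : k j = 0 := lev_small hδ h
          rw [h3] at h2
          rw [← h2, pow_zero, one_mul]
          have := hR j
          linarith
        · have h3 : 2 ^ (k j) * δ ≤ ‖z - p j‖ := lev_le hδ h
          rw [h2] at h3
          linarith
      have hcard := card_sep (F1.filter (fun j => k j = n)) p z (2 ^ (n + 1) * δ)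
        (2 ^ n * δ / 2) hY (by positivity)
        (fun j hj => by
          have := hk_lt j
          rw [(Finset.mem_filter.mp hj).2] at this
          exact this.le)
        (fun i hi j hj hij => hsepR i j hij _ (hlow i hi) (hlow j hj))
      have e2 : 4 * (2 ^ (n + 1) * δ) / (2 ^ n * δ / 2) + 2 = (18 : ℝ) := by
        rw [pow_succ]; field_simp; norm_num
      rw [e2] at hcard
      exact hcard.trans (by norm_num)
    calc ∑ j ∈ F1, δ / max δ ‖z - p j‖ ≤ ∑ j ∈ F1, (1 / 2 : ℝ) ^ (k j) := s1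
      _ = ∑ n ∈ Finset.range N, ∑ j ∈ F1 with k j = n, (1 / 2 : ℝ) ^ (k j) := s2
      _ ≤ ∑ n ∈ Finset.range N, 324 * (1 / 2 : ℝ) ^ n := Finset.sum_le_sum s3
      _ = 324 * ∑ n ∈ Finset.range N, (1 / 2 : ℝ) ^ n := by rw [Finset.mul_sum]
      _ ≤ 324 * 2 := mul_le_mul_of_nonneg_left (geom_le N) (by norm_num)
      _ = 648 := by norm_num
  have part2 : ∑ j ∈ F2, δ ^ 2 * R j / ‖z - p j‖ ^ 3 ≤ 800 := by
    have hF2d : ∀ j ∈ F2, 2 * R j < ‖z - p j‖ := by
      intro j hj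
      rw [hF2, Finset.mem_filter] at hj
      exact not_le.mp hj.2
    have hF2δ : ∀ j ∈ F2, δ ≤ ‖z - p j‖ := by
      intro j hj
      have h1 := hF2d j hj
      have h2 := hR j
      linarith
    have hlR : ∀ j, 2 ^ (l j) * δ ≤ R j := fun j => lev_le hδ (hR j)
    have hRl : ∀ j, R j < 2 ^ (l j + 1) * δ := fun j => lev_lt hδ (hδ.le.trans (hR j))
    have s1 : ∀ j ∈ F2, δ ^ 2 * R j / ‖z - p j‖ ^ 3 ≤ 2 ^ (l j + 1) * (1 / 8 : ℝ) ^ (k j) := by
      intro j hj
      have h1 : 2 ^ (k j) * δ ≤ ‖z - p j‖ := lev_le hδ (hF2δ j hj)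
      have h2 : (0:ℝ) < 2 ^ (k j) * δ := by positivity
      have h3 : (2 ^ (k j) * δ) ^ 3 ≤ ‖z - p j‖ ^ 3 := pow_le_pow_left₀ h2.le h1 3
      calc δ ^ 2 * R j / ‖z - p j‖ ^ 3 ≤ δ ^ 2 * (2 ^ (l j + 1) * δ) / (2 ^ (k j) * δ) ^ 3 := by
            apply div_le_div₀ (by positivity) _ (by positivity) h3
            exact mul_le_mul_of_nonneg_left (hRl j).le (by positivity)
        _ = 2 ^ (l j + 1) * (1 / 8 : ℝ) ^ (k j) := by
            have e : ((2:ℝ) ^ (k j)) ^ 3 = 8 ^ (k j) := by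
              rw [← pow_mul, mul_comm, pow_mul]; norm_num
            rw [mul_pow, e, one_div, inv_pow]
            field_simp
    have s2 : ∑ j ∈ F2, 2 ^ (l j + 1) * (1 / 8 : ℝ) ^ (k j)
        = ∑ q ∈ Finset.range N' ×ˢ Finset.range N, ∑ j ∈ F2 with (l j, k j) = q,
          2 ^ (l j + 1) * (1 / 8 : ℝ) ^ (k j) :=
      (Finset.sum_fiberwise_of_maps_to (g := fun j => (l j, k j))
        (fun j _ => Finset.mem_product.mpr
          ⟨Finset.mem_range.mpr (hlN j), Finset.mem_range.mpr (hkN j)⟩) _).symm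
    have s3 : ∀ q ∈ Finset.range N' ×ˢ Finset.range N, ∑ j ∈ F2 with (l j, k j) = q,
          2 ^ (l j + 1) * (1 / 8 : ℝ) ^ (k j) ≤ 200 * ((1 / 2 : ℝ) ^ q.1 * (1 / 2 : ℝ) ^ q.2) := by
      intro q _
      have e1 : ∑ j ∈ F2 with (l j, k j) = q, 2 ^ (l j + 1) * (1 / 8 : ℝ) ^ (k j)
          = ((F2.filter (fun j => (l j, k j) = q)).card : ℝ)
            * (2 ^ (q.1 + 1) * (1 / 8 : ℝ) ^ q.2) := by
        rw [Finset.sum_congr rfl (g := fun _ => 2 ^ (q.1 + 1) * (1 / 8 : ℝ) ^ q.2)]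
        · rw [Finset.sum_const, nsmul_eq_mul]
        · intro j hj
          rw [← (Finset.mem_filter.mp hj).2]
      rw [e1]
      rcases (F2.filter (fun j => (l j, k j) = q)).eq_empty_or_nonempty with h0 | ⟨j0, hj0⟩
      · rw [h0]; simp
      have hlk : q.1 ≤ q.2 := by
        have hj := Finset.mem_filter.mp hj0
        have h1 := hF2d j0 hj.1
        have h2 := hlR j0
        have h3 := hk_lt j0
        have h4 : l j0 = q.1 := by rw [← hj.2]
        have h5 : k j0 = q.2 := by rw [← hj.2]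
        rw [h4] at h2
        rw [h5] at h3
        have h6 : (2:ℝ) ^ (q.1 + 1) * δ < 2 ^ (q.2 + 1) * δ := by
          calc (2:ℝ) ^ (q.1 + 1) * δ = 2 * (2 ^ q.1 * δ) := by rw [pow_succ]; ring
            _ ≤ 2 * R j0 := by linarith
            _ < 2 ^ (q.2 + 1) * δ := h1.trans h3
        have h7 : (2:ℝ) ^ (q.1 + 1) < 2 ^ (q.2 + 1) := lt_of_mul_lt_mul_right h6 hδ.le
        have h8 := (pow_lt_pow_iff_right₀ (by norm_num : (1:ℝ) < 2)).mp h7
        omega
      have hcard := card_sep (F2.filter (fun j => (l j, k j) = q)) p z (2 ^ (q.2 + 1) * δ)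
        (2 ^ q.1 * δ) (by positivity) (by positivity)
        (fun j hj => by
          have := hk_lt j
          rw [show k j = q.2 by rw [← (Finset.mem_filter.mp hj).2]] at this
          exact this.le)
        (fun i hi j hj hij => hsepR i j hij _
          (by
            have := hlR i
            rwa [show l i = q.1 by rw [← (Finset.mem_filter.mp hi).2]] at this)
          (by
            have := hlR j
            rwa [show l j = q.1 by rw [← (Finset.mem_filter.mp hj).2]] at this))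
      have h12 : (1:ℝ) ≤ 2 ^ q.2 / 2 ^ q.1 := by
        rw [le_div_iff₀ (by positivity), one_mul]
        exact pow_le_pow_right₀ (by norm_num) hlk
      have e2 : 4 * (2 ^ (q.2 + 1) * δ) / (2 ^ q.1 * δ) + 2 ≤ 10 * ((2:ℝ) ^ q.2 / 2 ^ q.1) := by
        have e3 : 4 * (2 ^ (q.2 + 1) * δ) / (2 ^ q.1 * δ) = 8 * ((2:ℝ) ^ q.2 / 2 ^ q.1) := by
          rw [pow_succ]; field_simp; norm_num
        rw [e3]; linarith
      have hcard2 : ((F2.filter (fun j => (l j, k j) = q)).card : ℝ)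
          ≤ (10 * ((2:ℝ) ^ q.2 / 2 ^ q.1)) ^ 2 :=
        hcard.trans (pow_le_pow_left₀ (by positivity) e2 2)
      calc ((F2.filter (fun j => (l j, k j) = q)).card : ℝ) * (2 ^ (q.1 + 1) * (1 / 8 : ℝ) ^ q.2)
          ≤ (10 * ((2:ℝ) ^ q.2 / 2 ^ q.1)) ^ 2 * (2 ^ (q.1 + 1) * (1 / 8 : ℝ) ^ q.2) :=
            mul_le_mul_of_nonneg_right hcard2 (by positivity)
        _ = 200 * ((1 / 2 : ℝ) ^ q.1 * (1 / 2 : ℝ) ^ q.2) := by
            have e : (8:ℝ) ^ q.2 = 2 ^ q.2 * 2 ^ q.2 * 2 ^ q.2 := by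
              rw [← mul_pow, ← mul_pow]; norm_num
            rw [one_div, one_div, inv_pow, inv_pow, inv_pow, e, pow_succ]
            field_simp
            ring
    calc ∑ j ∈ F2, δ ^ 2 * R j / ‖z - p j‖ ^ 3
        ≤ ∑ j ∈ F2, 2 ^ (l j + 1) * (1 / 8 : ℝ) ^ (k j) := Finset.sum_le_sum s1
      _ = _ := s2
      _ ≤ ∑ q ∈ Finset.range N' ×ˢ Finset.range N,
          200 * ((1 / 2 : ℝ) ^ q.1 * (1 / 2 : ℝ) ^ q.2) := Finset.sum_le_sum s3
      _ = 200 * ((∑ a ∈ Finset.range N', (1 / 2 : ℝ) ^ a) * ∑ b ∈ Finset.range N, (1 / 2 : ℝ) ^ b) := by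
          rw [← Finset.mul_sum, Finset.sum_product, Finset.sum_mul_sum]
      _ ≤ 200 * (2 * 2) := by
          apply mul_le_mul_of_nonneg_left _ (by norm_num)
          exact mul_le_mul (geom_le N') (geom_le N)
            (Finset.sum_nonneg fun _ _ => by positivity) (by norm_num)
      _ = 800 := by norm_num
  linarith

end Pool.Agent.H352R4.CA
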