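import Pool.Agent.H352R4.CA.Defs
import Pool.Agent.H352R3.SA.Pot
import Pool.Agent.H352R3.SA.Fub
import Pool.Agent.H352R3.SA.Opr
import Pool.Agent.H352R3.SA.Sub

/-!
# Similarity principle: `|K| < |L|`
-/

set_option autoImplicit false

open MeasureTheory Complex Filter Topology Metric
open scoped ComplexConjugate
open Pool.Agent.H352R3.SA

namespace Pool.Agent.H352R4.CA

namespace SimAux

theorem pot_add {φ ψ : ℂ → ℂ} (hφ : Continuous φ) (cφ : HasCompactSupport φ)
    (hψ : Continuous ψ) (cψ : HasCompactSupport ψ) (z : ℂ) :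
    pot (fun w => φ w + ψ w) z = pot φ z + pot ψ z := by
  unfold pot
  rw [← integral_add (pot_integrable hφ cφ z) (pot_integrable hψ cψ z)]
  apply integral_congr_ae
  filter_upwards with w
  ring

theorem pot_cmul (c : ℂ) (φ : ℂ → ℂ) (z : ℂ) : pot (fun w => c * φ w) z = c * pot φ z := by
  unfold pot
  rw [← integral_const_mul]
  apply integral_congr_ae
  filter_upwards with w
  ring

theorem supp_mul_left {φ : ℂ → ℂ} (cφ : HasCompactSupport φ) (f : ℂ → ℂ) :
    HasCompactSupport (fun w => φ w * f w) := cφ.mul_right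

theorem supp_mul_right {φ : ℂ → ℂ} (cφ : HasCompactSupport φ) (f : ℂ → ℂ) :
    HasCompactSupport (fun w => f w * φ w) := cφ.mul_left

end SimAux

open SimAux

theorem pot_mul {φ ψ : ℂ → ℂ} (hφ : Continuous φ) (cφ : HasCompactSupport φ)
    (hψ : Continuous ψ) (cψ : HasCompactSupport ψ) (z : ℂ) :
    pot φ z * pot ψ z = pot (fun w => φ w * pot ψ w + ψ w * pot φ w) z := by
  have hP := pot_continuous hφ cφ
  have hQ := pot_continuous hψ cψ
  have hsum : ∀ w, pot (fun w => φ w + ψ w) w = pot φ w + pot ψ w := pot_add hφ cφ hψ cψ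
  have e1 := pot_sq (κ := fun w => φ w + ψ w) (hφ.add hψ) (cφ.add cψ) z
  have e2 := pot_sq hφ cφ z
  have e3 := pot_sq hψ cψ z
  rw [hsum z] at e1
  have e4 : (fun w => (φ w + ψ w) * pot (fun w => φ w + ψ w) w)
      = fun w => (φ w * pot φ w + (φ w * pot ψ w + ψ w * pot φ w)) + ψ w * pot ψ w := by
    funext w; rw [hsum w]; ring
  have c1 : Continuous (fun w => φ w * pot φ w) := hφ.mul hP
  have c2 : Continuous (fun w => φ w * pot ψ w + ψ w * pot φ w) := (hφ.mul hQ).add (hψ.mul hP)
  have c3 : Continuous (fun w => ψ w * pot ψ w) := hψ.mul hQ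
  have s1 : HasCompactSupport (fun w => φ w * pot φ w) := supp_mul_left cφ _
  have s2 : HasCompactSupport (fun w => φ w * pot ψ w + ψ w * pot φ w) :=
    (supp_mul_left cφ _).add (supp_mul_left cψ _)
  have s3 : HasCompactSupport (fun w => ψ w * pot ψ w) := supp_mul_left cψ _
  have c12 : Continuous (fun w => φ w * pot φ w + (φ w * pot ψ w + ψ w * pot φ w)) := c1.add c2
  have s12 : HasCompactSupport
      (fun w => φ w * pot φ w + (φ w * pot ψ w + ψ w * pot φ w)) := s1.add s2
  rw [e4, pot_add c12 s12 c3 s3, pot_add c1 s1 c2 s2] at e1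
  linear_combination (1 / 2 : ℂ) * e1 - (1 / 2 : ℂ) * e2 - (1 / 2 : ℂ) * e3

namespace SimAux

/-- the terms of the exponential series of `- pot u` -/
noncomputable def T (u : ℂ → ℂ) (n : ℕ) (z : ℂ) : ℂ := (- pot u z) ^ n / (n.factorial : ℂ)

theorem T_cont {u : ℂ → ℂ} (hu : Continuous u) (cu : HasCompactSupport u) (n : ℕ) :
    Continuous (T u n) := by
  unfold T
  exact ((pot_continuous hu cu).neg.pow n).div_const _

theorem T_mul (u : ℂ → ℂ) (n : ℕ) (z : ℂ) :
    (- pot u z) * T u n z = (n + 1 : ℂ) * T u (n + 1) z := by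
  unfold T
  have h1 : ((n + 1).factorial : ℂ) = (n + 1 : ℂ) * (n.factorial : ℂ) := by
    rw [Nat.factorial_succ]; push_cast; ring
  have h2 : (n.factorial : ℂ) ≠ 0 := by exact_mod_cast n.factorial_ne_zero
  have h3 : (n + 1 : ℂ) ≠ 0 := by exact_mod_cast n.succ_ne_zero
  rw [h1, pow_succ]
  field_simp

theorem T_succ {u : ℂ → ℂ} (hu : Continuous u) (cu : HasCompactSupport u) (n : ℕ) :
    ∀ z, T u (n + 1) z = pot (fun w => - u w * T u n w) z := by
  induction n with
  | zero =>
    intro z
    have : (fun w => - u w * T u 0 w) = fun w => (-1 : ℂ) * u w := by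
      funext w; unfold T; simp
    rw [this, pot_cmul]
    unfold T; simp
  | succ n ih =>
    intro z
    have h3 : (n + 2 : ℂ) ≠ 0 := by exact_mod_cast (n + 1).succ_ne_zero
    have c1 : Continuous (fun w => - u w * T u n w) := hu.neg.mul (T_cont hu cu n)
    have s1 : HasCompactSupport (fun w => - u w * T u n w) := supp_mul_left cu.neg _
    have c0 : Continuous (fun w => (-1 : ℂ) * u w) := continuous_const.mul hu
    have s0 : HasCompactSupport (fun w => (-1 : ℂ) * u w) := supp_mul_right cu _
    have e1 := pot_mul c0 s0 c1 s1 z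
    rw [← ih z, pot_cmul] at e1
    have e2 : (fun w => -1 * u w * pot (fun w => - u w * T u n w) w
        + - u w * T u n w * pot (fun w => (-1 : ℂ) * u w) w)
        = fun w => (n + 2 : ℂ) * (- u w * T u (n + 1) w) := by
      funext w
      rw [← ih w, pot_cmul]
      have := T_mul u n w
      linear_combination (- u w) * this
    rw [e2, pot_cmul] at e1
    have e3 := T_mul u (n + 1) z
    have e4 : (n + 2 : ℂ) * T u (n + 1 + 1) z
        = (n + 2 : ℂ) * pot (fun w => - u w * T u (n + 1) w) z := by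
      rw [← e1]
      push_cast at e3
      linear_combination - e3
    exact mul_left_cancel₀ h3 e4

theorem term_id {φ u : ℂ → ℂ} (hφ : Continuous φ) (cφ : HasCompactSupport φ)
    (hu : Continuous u) (cu : HasCompactSupport u) (s : ℂ) (n : ℕ) (z : ℂ) :
    (s + pot φ z) * T u (n + 1) z =
      pot (fun w => φ w * T u (n + 1) w - (s + pot φ w) * u w * T u n w) z := by
  have c1 : Continuous (fun w => - u w * T u n w) := hu.neg.mul (T_cont hu cu n)
  have s1 : HasCompactSupport (fun w => - u w * T u n w) := supp_mul_left cu.neg _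
  have e1 := pot_mul hφ cφ c1 s1 z
  rw [← T_succ hu cu n z] at e1
  have e2 : s * T u (n + 1) z = pot (fun w => s * (- u w * T u n w)) z := by
    rw [pot_cmul, T_succ hu cu n z]
  have hT1 : Continuous (pot (fun w => - u w * T u n w)) := pot_continuous c1 s1
  have c2 : Continuous (fun w => φ w * pot (fun w => - u w * T u n w) w
      + - u w * T u n w * pot φ w) := (hφ.mul hT1).add (c1.mul (pot_continuous hφ cφ))
  have s2 : HasCompactSupport (fun w => φ w * pot (fun w => - u w * T u n w) w
      + - u w * T u n w * pot φ w) := (supp_mul_left cφ _).add (supp_mul_left s1 _)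
  have c3 : Continuous (fun w => s * (- u w * T u n w)) := continuous_const.mul c1
  have s3 : HasCompactSupport (fun w => s * (- u w * T u n w)) := supp_mul_right s1 _
  rw [add_mul, e1, e2, ← pot_add c3 s3 c2 s2]
  congr 1
  funext w
  rw [← T_succ hu cu n w]
  ring

/-- truncated exponential series -/
noncomputable def EN (u : ℂ → ℂ) (N : ℕ) (z : ℂ) : ℂ := ∑ n ∈ Finset.range N, T u n z

theorem EN_cont {u : ℂ → ℂ} (hu : Continuous u) (cu : HasCompactSupport u) (N : ℕ) :
    Continuous (EN u N) := by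
  unfold EN
  exact continuous_finset_sum _ (fun n _ => T_cont hu cu n)

theorem EN_succ (u : ℂ → ℂ) (N : ℕ) (z : ℂ) : EN u (N + 1) z = EN u N z + T u N z := by
  unfold EN; rw [Finset.sum_range_succ]

theorem EN_norm (u : ℂ → ℂ) (N : ℕ) (z : ℂ) : ‖EN u N z‖ ≤ Real.exp ‖pot u z‖ := by
  unfold EN T
  calc ‖∑ n ∈ Finset.range N, (- pot u z) ^ n / (n.factorial : ℂ)‖
      ≤ ∑ n ∈ Finset.range N, ‖(- pot u z) ^ n / (n.factorial : ℂ)‖ := norm_sum_le _ _
    _ = ∑ n ∈ Finset.range N, ‖pot u z‖ ^ n / (n.factorial : ℝ) := by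
        apply Finset.sum_congr rfl
        intro n _
        rw [norm_div, norm_pow, norm_neg, Complex.norm_natCast]
    _ ≤ Real.exp ‖pot u z‖ := Real.sum_le_exp_of_nonneg (norm_nonneg _) _

theorem EN_tendsto (u : ℂ → ℂ) (z : ℂ) :
    Tendsto (fun N => EN u N z) atTop (𝓝 (exp (- pot u z))) := by
  have h := (NormedSpace.expSeries_div_hasSum_exp (- pot u z)).tendsto_sum_nat
  rw [← Complex.exp_eq_exp_ℂ] at h
  exact h

theorem EN_id {φ u : ℂ → ℂ} (hφ : Continuous φ) (cφ : HasCompactSupport φ)
    (hu : Continuous u) (cu : HasCompactSupport u) (s : ℂ) (N : ℕ) (z : ℂ) :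
    (s + pot φ z) * EN u (N + 1) z =
      s + pot (fun w => φ w * EN u (N + 1) w - (s + pot φ w) * u w * EN u N w) z := by
  induction N with
  | zero =>
    have e0 : ∀ w, EN u 1 w = 1 := by intro w; simp [EN, T]
    have e1 : ∀ w, EN u 0 w = 0 := by intro w; simp [EN]
    simp only [zero_add, e0, e1, mul_one, mul_zero, sub_zero]
  | succ N ih =>
    have c0 : Continuous (fun w => (s + pot φ w) * u w) :=
      (continuous_const.add (pot_continuous hφ cφ)).mul hu
    have s0 : HasCompactSupport (fun w => (s + pot φ w) * u w) := supp_mul_right cu _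
    have c1 : Continuous (fun w => φ w * EN u (N + 1) w - (s + pot φ w) * u w * EN u N w) :=
      (hφ.mul (EN_cont hu cu _)).sub (c0.mul (EN_cont hu cu _))
    have s1 : HasCompactSupport
        (fun w => φ w * EN u (N + 1) w - (s + pot φ w) * u w * EN u N w) :=
      (supp_mul_left cφ _).sub (supp_mul_left s0 _)
    have c2 : Continuous (fun w => φ w * T u (N + 1) w - (s + pot φ w) * u w * T u N w) :=
      (hφ.mul (T_cont hu cu _)).sub (c0.mul (T_cont hu cu _))
    have s2 : HasCompactSupport
        (fun w => φ w * T u (N + 1) w - (s + pot φ w) * u w * T u N w) :=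
      (supp_mul_left cφ _).sub (supp_mul_left s0 _)
    rw [EN_succ u (N + 1) z, mul_add, ih, term_id hφ cφ hu cu s N z, add_assoc,
      ← pot_add c1 s1 c2 s2]
    congr 2
    funext w
    rw [EN_succ u (N + 1) w, EN_succ u N w]
    ring

end SimAux

theorem pot_exp {φ u : ℂ → ℂ} (hφ : Continuous φ) (cφ : HasCompactSupport φ)
    (hu : Continuous u) (cu : HasCompactSupport u) (s : ℂ) (z : ℂ) :
    (s + pot φ z) * exp (- pot u z) =
      s + pot (fun w => (φ w - (s + pot φ w) * u w) * exp (- pot u w)) z := by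
  have c0 : Continuous (fun w => (s + pot φ w) * u w) :=
    (continuous_const.add (pot_continuous hφ cφ)).mul hu
  have s0 : HasCompactSupport (fun w => (s + pot φ w) * u w) := supp_mul_right cu _
  have l1 : Tendsto (fun N => (s + pot φ z) * EN u (N + 1) z) atTop
      (𝓝 ((s + pot φ z) * exp (- pot u z))) :=
    ((EN_tendsto u z).comp (tendsto_add_atTop_nat 1)).const_mul _
  have l2 : Tendsto (fun N : ℕ =>
      pot (fun w => φ w * EN u (N + 1) w - (s + pot φ w) * u w * EN u N w) z) atTop
      (𝓝 (pot (fun w => (φ w - (s + pot φ w) * u w) * exp (- pot u w)) z)) := by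
    change Tendsto (fun N : ℕ =>
      ∫ w, (φ w * EN u (N + 1) w - (s + pot φ w) * u w * EN u N w) * (z - w)⁻¹) atTop
      (𝓝 (∫ w, ((φ w - (s + pot φ w) * u w) * exp (- pot u w)) * (z - w)⁻¹))
    set B : ℂ → ℂ := fun w =>
      (((‖φ w‖ + ‖(s + pot φ w) * u w‖) * Real.exp ‖pot u w‖ : ℝ) : ℂ) with hB
    have hBc : Continuous B := by
      apply Complex.continuous_ofReal.comp
      exact (hφ.norm.add c0.norm).mul (Real.continuous_exp.comp (pot_continuous hu cu).norm)
    have hBs : HasCompactSupport B := by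
      have h1 : HasCompactSupport (fun w => ‖φ w‖ + ‖(s + pot φ w) * u w‖) :=
        cφ.norm.add s0.norm
      have h2 : HasCompactSupport
          (fun w => (‖φ w‖ + ‖(s + pot φ w) * u w‖) * Real.exp ‖pot u w‖) := h1.mul_right
      exact h2.comp_left (g := fun x : ℝ => (x : ℂ)) Complex.ofReal_zero
    apply tendsto_integral_of_dominated_convergence (fun w => ‖B w * (z - w)⁻¹‖)
    · intro N
      have c1 : Continuous (fun w => φ w * EN u (N + 1) w - (s + pot φ w) * u w * EN u N w) :=
        (hφ.mul (EN_cont hu cu _)).sub (c0.mul (EN_cont hu cu _))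
      have s1 : HasCompactSupport
          (fun w => φ w * EN u (N + 1) w - (s + pot φ w) * u w * EN u N w) :=
        (supp_mul_left cφ _).sub (supp_mul_left s0 _)
      exact (pot_integrable c1 s1 z).aestronglyMeasurable
    · exact (pot_integrable hBc hBs z).norm
    · intro N
      filter_upwards with w
      rw [norm_mul, norm_mul]
      apply mul_le_mul_of_nonneg_right _ (norm_nonneg _)
      have hBn : ‖B w‖ = (‖φ w‖ + ‖(s + pot φ w) * u w‖) * Real.exp ‖pot u w‖ := by
        rw [hB]
        simp only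
        rw [Complex.norm_real, Real.norm_of_nonneg (by positivity)]
      rw [hBn]
      refine (norm_sub_le _ _).trans ?_
      rw [norm_mul (φ w), norm_mul ((s + pot φ w) * u w), add_mul ‖φ w‖]
      exact add_le_add (mul_le_mul_of_nonneg_left (EN_norm u _ w) (norm_nonneg _))
        (mul_le_mul_of_nonneg_left (EN_norm u _ w) (norm_nonneg _))
    · filter_upwards with w
      apply Tendsto.mul_const
      have h1 : Tendsto (fun N : ℕ => φ w * EN u (N + 1) w) atTop
          (𝓝 (φ w * exp (- pot u w))) :=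
        ((EN_tendsto u w).comp (tendsto_add_atTop_nat 1)).const_mul _
      have h2 : Tendsto (fun N : ℕ => (s + pot φ w) * u w * EN u N w) atTop
          (𝓝 ((s + pot φ w) * u w * exp (- pot u w))) := (EN_tendsto u w).const_mul _
      have h3 := h1.sub h2
      rw [← sub_mul] at h3
      exact h3
  have l3 : Tendsto (fun N => (s + pot φ z) * EN u (N + 1) z) atTop
      (𝓝 (s + pot (fun w => (φ w - (s + pot φ w) * u w) * exp (- pot u w)) z)) := by
    have h := l2.const_add s
    refine h.congr (fun N => ?_)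
    exact (EN_id hφ cφ hu cu s N z).symm
  exact tendsto_nhds_unique l1 l3

namespace SimAux

theorem eps_le {a ε : ℝ} (ha : 0 ≤ a) (hε : 0 < ε) : ε / (a + ε) ≤ 1 := by
  rw [div_le_one (by linarith)]; linarith

theorem norm_ne {g : ℂ → ℝ} (hg : Den g) {L K : ℂ → ℂ}
    (hS : Sol g (fun _ => 1) (fun _ => 0) L K) (z : ℂ) : ‖K z‖ ≠ ‖L z‖ := by
  intro heq
  -- choose the constant
  obtain ⟨c, hc1, hc0⟩ : ∃ c : ℂ, ‖c‖ = 1 ∧ L z + c * K z = 0 := by
    by_cases h0 : K z = 0
    · refine ⟨1, by simp, ?_⟩
      have : ‖L z‖ = 0 := by rw [← heq, h0, norm_zero]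
      rw [h0, norm_eq_zero.mp this]; simp
    · refine ⟨- (L z / K z), ?_, ?_⟩
      · rw [norm_neg, norm_div, ← heq, div_self (norm_ne_zero_iff.mpr h0)]
      · field_simp; ring
  have hcc : c * conj c = 1 := by
    rw [Complex.mul_conj, Complex.normSq_eq_norm_sq, hc1]; simp
  set Φ : ℂ → ℂ := fun w => L w + c * K w with hΦ
  have hΦc : Continuous Φ := hS.cL.add (continuous_const.mul hS.cK)
  set b : ℂ → ℂ := fun w => - ((g w : ℂ)) * c with hb
  have hbc : Continuous b := ((Complex.continuous_ofReal.comp hg.cont).neg).mul continuous_const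
  have hgs : HasCompactSupport (fun w => (g w : ℂ)) :=
    hg.supp.comp_left (g := fun x : ℝ => (x : ℂ)) Complex.ofReal_zero
  have hbs : HasCompactSupport b := (hgs.neg).mul_right
  -- equation for Φ
  have hφc : Continuous (fun w => b w * conj (Φ w)) := hbc.mul (Complex.continuous_conj.comp hΦc)
  have hφs : HasCompactSupport (fun w => b w * conj (Φ w)) := supp_mul_left hbs _
  have hΦeq : ∀ w, Φ w = 1 + pot (fun w => b w * conj (Φ w)) w := by
    intro w
    have e1 := hS.eL w
    have e2 := hS.eK w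
    have cK : Continuous (fun w => (g w : ℂ) * conj (K w)) :=
      (Complex.continuous_ofReal.comp hg.cont).mul (Complex.continuous_conj.comp hS.cK)
    have cL : Continuous (fun w => (g w : ℂ) * conj (L w)) :=
      (Complex.continuous_ofReal.comp hg.cont).mul (Complex.continuous_conj.comp hS.cL)
    have sK : HasCompactSupport (fun w => (g w : ℂ) * conj (K w)) := supp_mul_left hgs _
    have sL : HasCompactSupport (fun w => (g w : ℂ) * conj (L w)) := supp_mul_left hgs _
    have e3 : (fun w => b w * conj (Φ w))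
        = fun w => (-1 : ℂ) * ((g w : ℂ) * conj (K w)) + (-c) * ((g w : ℂ) * conj (L w)) := by
      funext w
      simp only [hb, hΦ, map_add, map_mul]
      linear_combination (-(g w : ℂ) * conj (K w)) * hcc
    have cK' : Continuous (fun w => (-1 : ℂ) * ((g w : ℂ) * conj (K w))) :=
      continuous_const.mul cK
    have sK' : HasCompactSupport (fun w => (-1 : ℂ) * ((g w : ℂ) * conj (K w))) :=
      supp_mul_right sK _
    have cL' : Continuous (fun w => (-c) * ((g w : ℂ) * conj (L w))) := continuous_const.mul cL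
    have sL' : HasCompactSupport (fun w => (-c) * ((g w : ℂ) * conj (L w))) :=
      supp_mul_right sL _
    rw [e3, pot_add cK' sK' cL' sL', pot_cmul, pot_cmul]
    simp only [hΦ]
    rw [e1, e2]
    unfold cop
    ring
  have hΦz : Φ z = 0 := hc0
  -- the functions u_n
  let ε : ℕ → ℝ := fun n => 1 / ((n : ℝ) + 1)
  have hε : ∀ n, 0 < ε n := fun n => by positivity
  let u : ℕ → ℂ → ℂ := fun n w => b w * (conj (Φ w) ^ 2 / ((‖Φ w‖ ^ 2 + ε n : ℝ) : ℂ))
  have hden : ∀ n w, ((‖Φ w‖ ^ 2 + ε n : ℝ) : ℂ) ≠ 0 := by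
    intro n w
    have h1 : 0 < ‖Φ w‖ ^ 2 + ε n := by have := hε n; positivity
    exact_mod_cast h1.ne'
  have huc : ∀ n, Continuous (u n) := by
    intro n
    apply hbc.mul
    apply Continuous.div _ _ (hden n)
    · exact (Complex.continuous_conj.comp hΦc).pow 2
    · exact Complex.continuous_ofReal.comp ((hΦc.norm.pow 2).add continuous_const)
  have hus : ∀ n, HasCompactSupport (u n) := fun n => supp_mul_left hbs _
  have hub : ∀ n w, ‖u n w‖ ≤ ‖b w‖ := by
    intro n w
    simp only [u]
    rw [norm_mul]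
    apply mul_le_of_le_one_right (norm_nonneg _)
    rw [norm_div, norm_pow, Complex.norm_conj, Complex.norm_real,
      Real.norm_of_nonneg (by have := hε n; positivity)]
    rw [div_le_one (by have := hε n; positivity)]
    have := hε n
    linarith
  have key : ∀ n w, b w * conj (Φ w) - Φ w * u n w
      = b w * conj (Φ w) * ((ε n / (‖Φ w‖ ^ 2 + ε n) : ℝ) : ℂ) := by
    intro n w
    simp only [u]
    have h1 := hden n w
    have h2 : Φ w * conj (Φ w) = ((‖Φ w‖ ^ 2 : ℝ) : ℂ) := by
      rw [Complex.mul_conj, Complex.normSq_eq_norm_sq]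
    rw [Complex.ofReal_div]
    have h3 : ((‖Φ w‖ ^ 2 + ε n : ℝ) : ℂ) = ((‖Φ w‖ ^ 2 : ℝ) : ℂ) + (ε n : ℂ) := by
      push_cast; ring
    rw [h3] at h1 ⊢
    field_simp
    linear_combination (- b w * conj (Φ w)) * h2
  -- uniform bound of the potentials of u_n
  obtain ⟨R, _, hR⟩ := OprAux.exists_radius hg.supp
  obtain ⟨C, hC0, hC⟩ := pot_bound R
  obtain ⟨G, hG⟩ := hbs.exists_bound_of_continuous hbc
  have hpu : ∀ n w, ‖pot (u n) w‖ ≤ C * G := by
    intro n w
    apply hC (u n) G (huc n)
    · intro w hw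
      simp only [u, hb]
      rw [hR w hw]; simp
    · intro w
      exact (hub n w).trans (hG w)
  -- the equation at z
  have heqn : ∀ n, pot (fun w => (b w * conj (Φ w) - Φ w * u n w) * exp (- pot (u n) w)) z = -1 := by
    intro n
    have h := pot_exp hφc hφs (huc n) (hus n) 1 z
    rw [← hΦeq z, hΦz, zero_mul] at h
    have e : (fun w => (b w * conj (Φ w) - (1 + pot (fun w => b w * conj (Φ w)) w) * u n w)
        * exp (- pot (u n) w))
        = fun w => (b w * conj (Φ w) - Φ w * u n w) * exp (- pot (u n) w) := by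
      funext w; rw [← hΦeq w]
    rw [e] at h
    linear_combination - h
  -- the limit
  have hlim : Tendsto (fun n => pot (fun w => (b w * conj (Φ w) - Φ w * u n w)
      * exp (- pot (u n) w)) z) atTop (𝓝 0) := by
    have h0 : (0 : ℂ) = ∫ _w : ℂ, (0 : ℂ) := by simp
    rw [h0]
    change Tendsto (fun n : ℕ => ∫ w, ((b w * conj (Φ w) - Φ w * u n w)
      * exp (- pot (u n) w)) * (z - w)⁻¹) atTop (𝓝 (∫ _w : ℂ, (0 : ℂ)))
    have cB : Continuous (fun w => ((Real.exp (C * G) : ℝ) : ℂ) * (b w * conj (Φ w))) :=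
      continuous_const.mul hφc
    have sB : HasCompactSupport (fun w => ((Real.exp (C * G) : ℝ) : ℂ) * (b w * conj (Φ w))) :=
      supp_mul_right hφs _
    apply tendsto_integral_of_dominated_convergence
      (fun w => ‖((Real.exp (C * G) : ℝ) : ℂ) * (b w * conj (Φ w)) * (z - w)⁻¹‖)
    · intro n
      have c1 : Continuous (fun w => (b w * conj (Φ w) - Φ w * u n w) * exp (- pot (u n) w)) :=
        (hφc.sub (hΦc.mul (huc n))).mul
          (Complex.continuous_exp.comp (pot_continuous (huc n) (hus n)).neg)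
      have s1 : HasCompactSupport
          (fun w => (b w * conj (Φ w) - Φ w * u n w) * exp (- pot (u n) w)) :=
        supp_mul_left (hφs.sub (supp_mul_right (hus n) _)) _
      exact (pot_integrable c1 s1 z).aestronglyMeasurable
    · exact (pot_integrable cB sB z).norm
    · intro n
      filter_upwards with w
      rw [norm_mul, norm_mul (((Real.exp (C * G) : ℝ) : ℂ) * (b w * conj (Φ w)))]
      apply mul_le_mul_of_nonneg_right _ (norm_nonneg _)
      rw [key n w, norm_mul, norm_mul, mul_comm, norm_mul ((Real.exp (C * G) : ℝ) : ℂ)]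
      apply mul_le_mul
      · calc ‖exp (- pot (u n) w)‖ ≤ Real.exp ‖- pot (u n) w‖ := Complex.norm_exp_le_exp_norm _
          _ ≤ Real.exp (C * G) := by
              rw [norm_neg]; exact Real.exp_le_exp.mpr (hpu n w)
          _ = ‖((Real.exp (C * G) : ℝ) : ℂ)‖ := by
              rw [Complex.norm_real, Real.norm_of_nonneg (Real.exp_pos _).le]
      · apply mul_le_of_le_one_right (norm_nonneg _)
        rw [Complex.norm_real, Real.norm_of_nonneg (by have := hε n; positivity)]
        exact eps_le (by positivity) (hε n)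
      · positivity
      · positivity
    · filter_upwards with w
      rw [← zero_mul ((z - w)⁻¹)]
      apply Tendsto.mul_const
      by_cases hw : Φ w = 0
      · have : ∀ n, (b w * conj (Φ w) - Φ w * u n w) * exp (- pot (u n) w) = 0 := by
          intro n; rw [hw]; simp
        simp only [this]
        exact tendsto_const_nhds
      · have hpos : 0 < ‖Φ w‖ ^ 2 := by
          have := norm_pos_iff.mpr hw; positivity
        have hbnd : ∀ n, ‖(b w * conj (Φ w) - Φ w * u n w) * exp (- pot (u n) w)‖
            ≤ (‖b w * conj (Φ w)‖ * Real.exp (C * G) / ‖Φ w‖ ^ 2) * ε n := by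
          intro n
          rw [key n w, norm_mul, norm_mul, Complex.norm_real,
            Real.norm_of_nonneg (by have := hε n; positivity)]
          have h1 : ε n / (‖Φ w‖ ^ 2 + ε n) ≤ ε n / ‖Φ w‖ ^ 2 := by
            apply div_le_div_of_nonneg_left (hε n).le hpos
            have := hε n; linarith
          have h2 : ‖exp (- pot (u n) w)‖ ≤ Real.exp (C * G) := by
            calc ‖exp (- pot (u n) w)‖ ≤ Real.exp ‖- pot (u n) w‖ :=
                  Complex.norm_exp_le_exp_norm _
              _ ≤ Real.exp (C * G) := by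
                  rw [norm_neg]; exact Real.exp_le_exp.mpr (hpu n w)
          calc ‖b w * conj (Φ w)‖ * (ε n / (‖Φ w‖ ^ 2 + ε n)) * ‖exp (- pot (u n) w)‖
              ≤ ‖b w * conj (Φ w)‖ * (ε n / ‖Φ w‖ ^ 2) * Real.exp (C * G) := by
                apply mul_le_mul _ h2 (norm_nonneg _) (by have := hε n; positivity)
                exact mul_le_mul_of_nonneg_left h1 (norm_nonneg _)
            _ = (‖b w * conj (Φ w)‖ * Real.exp (C * G) / ‖Φ w‖ ^ 2) * ε n := by ring
        apply squeeze_zero_norm hbnd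
        have h3 : Tendsto ε atTop (𝓝 0) := tendsto_one_div_add_atTop_nhds_zero_nat
        have h4 := h3.const_mul (‖b w * conj (Φ w)‖ * Real.exp (C * G) / ‖Φ w‖ ^ 2)
        rw [mul_zero] at h4
        exact h4
  have hconst : Tendsto (fun _ : ℕ => (-1 : ℂ)) atTop (𝓝 0) := by
    refine hlim.congr (fun n => heqn n)
  have := tendsto_nhds_unique hconst tendsto_const_nhds
  norm_num at this

end SimAux

theorem norm_K_lt {g : ℂ → ℝ} (hg : Den g) (z : ℂ) : ‖(LK g).2 z‖ < ‖(LK g).1 z‖ :=
  lt_of_le_of_ne (norm_K_le hg z) (norm_ne hg (LK_sol hg) z)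

end Pool.Agent.H352R4.CA
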