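import Pool.Agent.H352R4.CA.Defs

/-!
# Blueprint: all module statements (with `sorry`).  DO NOT import this file in final proofs.
Each module proves its statements under the same names in its own file
`Pool/Agent/H352R4/CA/<Module>.lean`, namespace `Pool.Agent.H352R4.CA`.
-/

set_option autoImplicit false

open MeasureTheory Complex Filter Topology Metric
open scoped ComplexConjugate
open Pool.Agent.H352R3.SA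
open Pool.Agent.H761R2.SV (dbar)

namespace Pool.Agent.H352R4.CA

/-! ## Module MAX (file Max.lean): maximum principles -/

theorem Ac.zero {S : Set ℂ} {h : ℂ → ℂ} {l : ℂ} (H : Ac S h l) :
    Tendsto h (cocompact ℂ) (𝓝 0) := sorry
/-- maximum principle -/
theorem Ac.norm_le {S : Set ℂ} {h : ℂ → ℂ} {l : ℂ} {M : ℝ} (hS : IsCompact S) (H : Ac S h l)
    (hM : 0 ≤ M) (hb : ∀ w ∈ S, ‖h w‖ ≤ M) (z : ℂ) : ‖h z‖ ≤ M := sorry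
/-- maximum principle for the modulus of continuity -/
theorem Ac.osc_le {S : Set ℂ} {h : ℂ → ℂ} {l : ℂ} {s c : ℝ} (hS : IsCompact S) (H : Ac S h l)
    (hc : 0 ≤ c) (hb : ∀ w ∈ S, ∀ u, ‖u‖ = s → ‖h (w + u) - h w‖ ≤ c) (z u : ℂ) (hu : ‖u‖ = s) :
    ‖h (z + u) - h z‖ ≤ c := sorry

/-! ## Module COE (file Coe.lean): coefficient at infinity -/

theorem Ac.of_tendsto {S : Set ℂ} {h : ℂ → ℂ} (hS : IsCompact S) (hc : Continuous h)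
    (hd : DifferentiableOn ℂ h Sᶜ) (h0 : Tendsto h (cocompact ℂ) (𝓝 0)) : ∃ l, Ac S h l := sorry
theorem Ac.coef_le {S : Set ℂ} {h : ℂ → ℂ} {l z₀ : ℂ} {r M : ℝ} (hr : 0 < r)
    (hS : S ⊆ closedBall z₀ r) (H : Ac S h l) (hM : ∀ z, ‖h z‖ ≤ M) : ‖l‖ ≤ r * M := sorry
theorem Ac.decay {S : Set ℂ} {h : ℂ → ℂ} {l z₀ : ℂ} {r M : ℝ} (hr : 0 < r)
    (hS : S ⊆ closedBall z₀ r) (H : Ac S h l) (hM : ∀ z, ‖h z‖ ≤ M) (z : ℂ) :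
    ‖z - z₀‖ * ‖h z‖ ≤ r * M := sorry

/-! ## Module ALB (file Alb.lean, imports Max, Coe): algebra, basic properties of the capacities -/

theorem Ac.mono {S S' : Set ℂ} {h : ℂ → ℂ} {l : ℂ} (hSS : S ⊆ S') (H : Ac S h l) :
    Ac S' h l := sorry
theorem Ac.sum {ι : Type*} {J : Finset ι} {S : ι → Set ℂ} {h : ι → ℂ → ℂ} {l κ : ι → ℂ}
    (H : ∀ j ∈ J, Ac (S j) (h j) (l j)) :
    Ac (⋃ j ∈ J, S j) (fun z => ∑ j ∈ J, κ j * h j z) (∑ j ∈ J, κ j * l j) := sorry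
theorem Ac.cmul {S : Set ℂ} {h : ℂ → ℂ} {l : ℂ} (c : ℂ) (H : Ac S h l) :
    Ac S (fun z => c * h z) (c * l) := sorry
theorem Kc.cmul {M : ℝ} {Ω : ℝ → ℝ} {S : Set ℂ} {h : ℂ → ℂ} {l : ℂ} (c : ℂ)
    (H : Kc M Ω S h l) : Kc (‖c‖ * M) Ω S (fun z => c * h z) (c * l) := sorry
theorem Kc.mono {M : ℝ} {Ω Ω' : ℝ → ℝ} {S S' : Set ℂ} {h : ℂ → ℂ} {l : ℂ} (hM : 0 ≤ M)
    (hΩ : ∀ s, 0 ≤ s → Ω s ≤ Ω' s) (hSS : S ⊆ S') (H : Kc M Ω S h l) : Kc M Ω' S' h l := sorry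
theorem al_bdd {Ω : ℝ → ℝ} {S : Set ℂ} (hS : IsCompact S) :
    BddAbove {c | ∃ h l, Kc 1 Ω S h l ∧ c = ‖l‖} := sorry
theorem al_nonneg (Ω : ℝ → ℝ) (S : Set ℂ) : 0 ≤ al Ω S := sorry
theorem Kc.le {M : ℝ} {Ω : ℝ → ℝ} {S : Set ℂ} {h : ℂ → ℂ} {l : ℂ} (hS : IsCompact S)
    (hM : 0 < M) (H : Kc M Ω S h l) : ‖l‖ ≤ M * al Ω S := sorry
theorem al_mono {Ω Ω' : ℝ → ℝ} {S S' : Set ℂ} (hS' : IsCompact S')
    (hΩ : ∀ s, 0 ≤ s → Ω s ≤ Ω' s) (hSS : S ⊆ S') : al Ω S ≤ al Ω' S' := sorry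
theorem al_le {Ω : ℝ → ℝ} {S : Set ℂ} {z₀ : ℂ} {r : ℝ} (hr : 0 < r) (hS : S ⊆ closedBall z₀ r) :
    al Ω S ≤ r := sorry
theorem alpha_bdd {S : Set ℂ} (hS : IsCompact S) :
    BddAbove {c | ∃ h l, Ac S h l ∧ (∀ z, ‖h z‖ ≤ 1) ∧ c = ‖l‖} := sorry
theorem alpha_nonneg (S : Set ℂ) : 0 ≤ alpha S := sorry
theorem le_alpha {S : Set ℂ} {h : ℂ → ℂ} {l : ℂ} (hS : IsCompact S) (H : Ac S h l)
    (hb : ∀ z, ‖h z‖ ≤ 1) : ‖l‖ ≤ alpha S := sorry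
theorem al_le_alpha {Ω : ℝ → ℝ} {S : Set ℂ} (hS : IsCompact S) : al Ω S ≤ alpha S := sorry
theorem alpha_mono {S S' : Set ℂ} (hS' : IsCompact S') (hSS : S ⊆ S') : alpha S ≤ alpha S' :=
  sorry

/-! ## Module FAR (file Far.lean, imports Max, Coe, Alb): decay away from `S` -/

theorem far {S : Set ℂ} {Ω : ℝ → ℝ} {ρ M d : ℝ} {h : ℂ → ℂ} {l z : ℂ} (hS : IsCompact S)
    (hρ : 0 < ρ) (hΩ : GM ρ Ω) (hM : 0 < M) (H : Kc M Ω S h l) (hd : ρ ≤ d)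
    (hz : ∀ w ∈ S, d ≤ ‖w - z‖) : ‖h z‖ ≤ 8 * M / d * al Ω S := sorry

/-! ## Module LOC (file Loc.lean, imports Max, Coe, Alb, Far): local data -/

theorem loc : ∃ C : ℝ, 1 ≤ C ∧ ∀ (δ : ℝ) (z₀ : ℂ) (S : Set ℂ) (Ω : ℝ → ℝ), 0 < δ →
    IsCompact S → S ⊆ closedBall z₀ (3 * δ) → GM (3 * δ) Ω → 0 < al Ω S →
    ∃ (e : ℂ → ℂ) (b : ℝ) (p : ℂ), Kc 1 Ω S e (b : ℂ) ∧ al Ω S ≤ 2 * b ∧
      ‖p - z₀‖ ≤ C * δ ∧ Loc C δ p b e := sorry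

/-! ## Module PIE (file Pie.lean): pieces of potentials -/

theorem pie (C₁ : ℝ) (h1 : 1 ≤ C₁) : ∃ C : ℝ, 1 ≤ C ∧ ∀ (δ t b : ℝ) (z₀ p : ℂ) (D : ℂ → ℂ),
    0 < δ → 0 ≤ t → 0 < b → b ≤ C₁ * δ → ‖p - z₀‖ ≤ C₁ * δ → Continuous D →
    (∀ z, ‖D z‖ ≤ t * b / δ ^ 2) → (∀ z, δ < ‖z - z₀‖ → D z = 0) →
    Pie C δ t p b (pot D) (∫ w, D w) (∫ w, (w - p) * D w) := sorry

/-! ## Module PACK (file Pack.lean): packing -/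

theorem pack : ∃ C : ℝ, 1 ≤ C ∧ ∀ (m : ℕ) (p : Fin m → ℂ) (R : Fin m → ℝ) (δ : ℝ) (z : ℂ),
    0 < δ → (∀ i j, i ≠ j → δ ≤ ‖p i - p j‖) → (∀ j, δ ≤ R j) →
    (∀ i j, i < j → R j ≤ ‖p i - p j‖) →
    ∑ j, (if ‖z - p j‖ ≤ 2 * R j then δ / max δ ‖z - p j‖
      else δ ^ 2 * R j / ‖z - p j‖ ^ 3) ≤ C := sorry

/-! ## Module CORE (file Core.lean, imports Pack): the dipole construction -/

theorem core (C : ℝ) (hC : 1 ≤ C) : ∃ C' : ℝ, 1 ≤ C' ∧ ∀ (δ t : ℝ) (m : ℕ) (p : Fin m → ℂ)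
    (b : Fin m → ℝ) (e P : Fin m → ℂ → ℂ) (lam mu : Fin m → ℂ), 0 < δ → 0 ≤ t →
    (∀ i j, i ≠ j → δ ≤ ‖p i - p j‖) → (∀ i, Loc C δ (p i) (b i) (e i)) →
    (∀ i, Pie C δ t (p i) (b i) (P i) (lam i) (mu i)) → (∀ i j, i ≤ j → b j ≤ b i) →
    ∃ κ : Fin m → ℂ, (∀ i, ‖κ i‖ ≤ C' * t) ∧
      (∀ z, ‖∑ i, κ i * e i z - ∑ i, P i z‖ ≤ C' * t) ∧
      ∑ i, κ i * (b i : ℂ) = ∑ i, lam i := sorry

/-! ## Module GLUE (file Glue.lean, imports Core): all lattice points -/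

theorem glue (C : ℝ) (hC : 1 ≤ C) : ∃ C' : ℝ, 1 ≤ C' ∧ ∀ (δ t : ℝ) (J : Finset (ℤ × ℤ))
    (p : ℤ × ℤ → ℂ) (b : ℤ × ℤ → ℝ) (e P : ℤ × ℤ → ℂ → ℂ) (lam mu : ℤ × ℤ → ℂ),
    0 < δ → 0 ≤ t → (∀ j ∈ J, ‖p j - gp δ j‖ ≤ C * δ) →
    (∀ j ∈ J, Loc C δ (p j) (b j) (e j)) →
    (∀ j ∈ J, Pie C δ t (p j) (b j) (P j) (lam j) (mu j)) →
    ∃ κ : ℤ × ℤ → ℂ, (∀ j ∈ J, ‖κ j‖ ≤ C' * t) ∧
      (∀ z, ‖∑ j ∈ J, κ j * e j z - ∑ j ∈ J, P j z‖ ≤ C' * t) ∧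
      ∑ j ∈ J, κ j * (b j : ℂ) = ∑ j ∈ J, lam j := sorry

/-! ## Module GLO (file Glo.lean): modulus of continuity of the glued function -/

theorem glue_osc (C : ℝ) (hC : 1 ≤ C) : ∃ C' : ℝ, 1 ≤ C' ∧ ∀ (δ t : ℝ) (Ω : ℝ → ℝ)
    (J : Finset (ℤ × ℤ)) (e : ℤ × ℤ → ℂ → ℂ) (l κ : ℤ × ℤ → ℂ) (S : ℤ × ℤ → Set ℂ), 0 < δ →
    0 ≤ t → t ≤ 1 → (∀ s, 0 ≤ s → 0 ≤ Ω s) →
    (∀ j ∈ J, Kc 1 Ω (S j) (e j) (l j)) → (∀ j ∈ J, S j ⊆ closedBall (gp δ j) (3 * δ)) →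
    (∀ j ∈ J, ‖κ j‖ ≤ C * t) → (∀ z, ‖∑ j ∈ J, κ j * e j z‖ ≤ 2) →
    ∀ z u : ℂ, ‖u‖ ≤ δ → ‖∑ j ∈ J, κ j * e j (z + u) - ∑ j ∈ J, κ j * e j z‖ ≤
      C' * t * Ω ‖u‖ + C' * ‖u‖ / δ := sorry

/-! ## Module DEC (file Dec.lean): decomposition of a density -/

theorem decomp {ι : Type*} (J : Finset ι) (G : ι → ℂ → ℝ) (hG : ∀ j ∈ J, Den (G j))
    {D : ℂ → ℂ} (hD : Continuous D) (hle : ∀ z, ‖D z‖ ≤ ∑ j ∈ J, G j z) :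
    ∃ D' : ι → ℂ → ℂ, (∀ j ∈ J, Continuous (D' j)) ∧ (∀ j ∈ J, ∀ z, ‖D' j z‖ ≤ G j z) ∧
      ∀ z, D z = ∑ j ∈ J, D' j z := sorry

/-! ## Module SIM (file Sim.lean, imports H352R3.SA.Pot, Fub, Opr, Sub): similarity principle -/

theorem pot_mul {φ ψ : ℂ → ℂ} (hφ : Continuous φ) (cφ : HasCompactSupport φ)
    (hψ : Continuous ψ) (cψ : HasCompactSupport ψ) (z : ℂ) :
    pot φ z * pot ψ z = pot (fun w => φ w * pot ψ w + ψ w * pot φ w) z := sorry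
theorem pot_exp {φ u : ℂ → ℂ} (hφ : Continuous φ) (cφ : HasCompactSupport φ)
    (hu : Continuous u) (cu : HasCompactSupport u) (s : ℂ) (z : ℂ) :
    (s + pot φ z) * exp (- pot u z) =
      s + pot (fun w => (φ w - (s + pot φ w) * u w) * exp (- pot u w)) z := sorry
theorem norm_K_lt {g : ℂ → ℝ} (hg : Den g) (z : ℂ) : ‖(LK g).2 z‖ < ‖(LK g).1 z‖ := sorry

/-! ## Module EXT (file Ext.lean, imports Sim): the extremal function -/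

theorem extremal {g : ℂ → ℝ} (hg : Den g) : ∃ D : ℂ → ℂ, Continuous D ∧ HasCompactSupport D ∧
    (∀ z, ‖D z‖ ≤ g z) ∧ (∀ z, ‖pot D z‖ ≤ 1) ∧ ∫ z, D z = (Gam g : ℂ) := sorry

/-! ## Module FON (file Fon.lean, imports H352R3.SA.App): sharp form of app_le -/

theorem int_le_Gam {g : ℂ → ℝ} (hg : Den g) {D : ℂ → ℂ} (hD : Continuous D)
    (cD : HasCompactSupport D) (h : ∀ z, ‖D z‖ ≤ g z * (1 - ‖pot D z‖ ^ 2)) :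
    ‖∫ z, D z‖ ≤ Gam g := sorry

/-! ## Module TRX (file Trx.lean, imports Ext, Loc, Pie, Glue, Glo, Dec, Alb) -/

theorem transplant : ∃ C t₀ : ℝ, TR C t₀ := sorry

/-! ## Module MOL (file Mol.lean, imports H352R3.SA.Pot, H761R2.SV.Pomp, Hol) -/

theorem den_continuous {h : ℂ → ℂ} {δ : ℝ} (hδ : 0 < δ) (hh : Continuous h) :
    Continuous (den δ h) := sorry
theorem den_zero {S : Set ℂ} {h : ℂ → ℂ} {l : ℂ} {δ : ℝ} (hδ : 0 < δ) (hS : IsCompact S)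
    (H : Ac S h l) {z : ℂ} (hz : Disjoint S (closedBall z δ)) : den δ h z = 0 := sorry
theorem den_supp {S : Set ℂ} {h : ℂ → ℂ} {l : ℂ} {δ : ℝ} (hδ : 0 < δ) (hS : IsCompact S)
    (H : Ac S h l) : HasCompactSupport (den δ h) := sorry
theorem den_pot {S : Set ℂ} {h : ℂ → ℂ} {l : ℂ} {δ : ℝ} (hδ : 0 < δ) (hS : IsCompact S)
    (H : Ac S h l) (z : ℂ) : pot (den δ h) z = mol δ h z := sorry
theorem den_int {S : Set ℂ} {h : ℂ → ℂ} {l : ℂ} {δ : ℝ} (hδ : 0 < δ) (hS : IsCompact S)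
    (H : Ac S h l) : ∫ z, den δ h z = l := sorry
theorem mol_le {h : ℂ → ℂ} {δ M : ℝ} (hδ : 0 < δ) (hh : Continuous h) (hM : ∀ z, ‖h z‖ ≤ M)
    (z : ℂ) : ‖mol δ h z‖ ≤ M := sorry

/-! ## Module VIT (file Vit.lean, imports H352R3.SA.Pot, H761R2.SV.Pomp): localisation -/

theorem vit_ac {S : Set ℂ} {h : ℂ → ℂ} {l : ℂ} {δ : ℝ} (hδ : 0 < δ) (hS : IsCompact S)
    (H : Ac S h l) (z : ℂ) :
    Ac (S ∩ closedBall z δ) (vit δ h z) ((δ : ℂ) ^ 2 * den δ h z) := sorry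

/-! ## Module VIO (file Vio.lean, imports H352R3.SA.Bnd, Pot, H761R2.SV.Pomp) -/

theorem vit_osc : ∃ C : ℝ, VO C := sorry

/-! ## Module GAL (file Gal.lean): analytic capacity and mollification -/

theorem gamma_le_al {S A' : Set ℂ} {ε : ℝ} (hS : IsCompact S) (hε : 0 < ε) (hA' : IsCompact A')
    (hsub : cthickening ε S ⊆ A') : gamma S ≤ al (fun _ => 3) A' := sorry

/-! ## Module BAS (file Bas.lean, imports H352R3.SA.Fin, Mon, Gal, Alb, Max, Coe) -/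

theorem bound_of_osc {ω : ℝ → ℝ} (hω : Mod ω) {S : Set ℂ} {h : ℂ → ℂ} {l z₀ : ℂ} {δ : ℝ}
    (hδ : 0 < δ) (hS : IsCompact S) (hSz : S ⊆ closedBall z₀ δ) (H : Ac S h l)
    (ho : ∀ z u, ‖h (z + u) - h z‖ ≤ ω ‖u‖) (z : ℂ) : ‖h z‖ ≤ 2 * ω (4 * δ) := sorry
theorem base {ω : ℝ → ℝ} (hω : Mod ω) {A B A' B' : Set ℂ} (hA : IsCompact A)
    (hB : IsCompact B) (hA' : IsCompact A') (hB' : IsCompact B') {ε δ : ℝ} (hε : 0 < ε)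
    (hεδ : ε ≤ δ) (hAA : cthickening ε A ⊆ A') (hBB : cthickening ε B ⊆ B') :
    Pst ω (fun _ => 3) A B A' B' δ := sorry

/-! ## Module ONE (file One.lean, imports Alb, Fon, Mol, Vit, H352R3.SA.Sub) -/

theorem one {C t₀ C₆ : ℝ} (hT : TR C t₀) (hV : VO C₆) {ω Ω : ℝ → ℝ} (hω : Mod ω)
    {A B A' B' : Set ℂ} {δ' : ℝ} (hδ' : 0 < δ') (hΩ : GM (3 * δ') Ω) (hA' : IsCompact A')
    (hB' : IsCompact B') (hP : Pst ω Ω A B A' B' δ') {S : Set ℂ} {h : ℂ → ℂ} {l : ℂ}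
    {M N t : ℝ} (hS : IsCompact S) (hSA : S ⊆ A ∪ B) (H : Ac S h l) (hM0 : 0 ≤ M)
    (hMN : M < N) (hM : ∀ z, ‖h z‖ ≤ M) (ho : ∀ z u, ‖h (z + u) - h z‖ ≤ ω ‖u‖) (ht : 0 < t)
    (ht0 : t ≤ t₀) (hc : 8 * C₆ * ω (4 * δ') / N ≤ t * (1 - (M / N) ^ 2)) :
    ‖l‖ ≤ N * (1 + C * t) * (al (Ph C δ' Ω) (A' ∩ cthickening (5 * δ') S) +
      al (Ph C δ' Ω) (B' ∩ cthickening (5 * δ') S)) := sorry

/-! ## Module STEP (file Step.lean, imports One, Bas, Alb) -/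

theorem step {C t₀ C₆ : ℝ} (hT : TR C t₀) (hV : VO C₆) {ω Ω : ℝ → ℝ} (hω : Mod ω)
    {A B A' B' : Set ℂ} {δ δ' : ℝ} (hδ' : 0 < δ') (hδδ : 5 * δ' ≤ δ) (hΩ : GM (3 * δ') Ω)
    (hA : IsCompact A) (hB : IsCompact B) (hA' : IsCompact A') (hB' : IsCompact B')
    (hr : 4 * C₆ * ω (4 * δ') ≤ t₀ * ω (4 * δ)) (hP : Pst ω Ω A B A' B' δ') :
    Pst ω (Ph C δ' Ω) A B A' B' δ := sorry

/-! ## Module WMO (file Wmo.lean): iterated moduli -/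

theorem Wm_nonneg {C : ℝ} (hC : 1 ≤ C) {δ : ℕ → ℝ} (hδ : ∀ k, 0 < δ k) (n k : ℕ) {s : ℝ}
    (hs : 0 ≤ s) : 0 ≤ Wm C δ n k s := sorry
theorem Wm_mono {C : ℝ} (hC : 1 ≤ C) {δ : ℕ → ℝ} (hδ : ∀ k, 0 < δ k) (n k : ℕ) {s s' : ℝ}
    (hs : 0 ≤ s) (hss : s ≤ s') : Wm C δ n k s ≤ Wm C δ n k s' := sorry
theorem Wm_GM {C : ℝ} (hC : 1 ≤ C) {δ : ℕ → ℝ} (hδ : ∀ k, 0 < δ k)
    (hδ' : ∀ k, δ (k + 1) ≤ δ k) (n k : ℕ) : GM (3 * δ k) (Wm C δ n (k + 1)) := sorry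
theorem Wm_lim {C : ℝ} (hC : 1 ≤ C) {δ : ℕ → ℝ} (hδ : ∀ k, 0 < δ k)
    (hδ' : ∀ k, δ (k + 1) ≤ δ k) : ∃ Θ : ℝ → ℝ, 0 ≤ Θ 0 ∧
      (∀ s s', 0 ≤ s → s ≤ s' → Θ s ≤ Θ s') ∧ Tendsto Θ (𝓝[>] 0) (𝓝 0) ∧
      ∀ s, 0 < s → ∀ᶠ n in atTop, Wm C δ n 0 s ≤ Θ s := sorry

/-! ## Module ALI (file Ali.lean, imports Alb, Coe): outer regularity -/

theorem al_limit {A : Set ℂ} (hA : IsCompact A) {Ωn : ℕ → ℝ → ℝ} {Θ : ℝ → ℝ}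
    (hm : ∀ n s s', 0 ≤ s → s ≤ s' → Ωn n s ≤ Ωn n s') (hΘ0 : 0 ≤ Θ 0)
    (hΘm : ∀ s s', 0 ≤ s → s ≤ s' → Θ s ≤ Θ s') (hΘ : Tendsto Θ (𝓝[>] 0) (𝓝 0))
    (hle : ∀ s, 0 < s → ∀ᶠ n in atTop, Ωn n s ≤ Θ s) {ε : ℕ → ℝ} (hε : ∀ n, 0 < ε n)
    (hε0 : Tendsto ε atTop (𝓝 0)) {η : ℝ} (hη : 0 < η) :
    ∀ᶠ n in atTop, al (Ωn n) (cthickening (ε n) A) ≤ al Θ A + η := sorry

/-! ## Module MMA (file Mma.lean): majorant modulus of a function -/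

theorem exists_mod {f : ℂ → ℂ} (hf : Continuous f) (h0 : Tendsto f (cocompact ℂ) (𝓝 0)) :
    ∃ ω : ℝ → ℝ, Mod ω ∧ ∀ z u, ‖f (z + u) - f z‖ ≤ ω ‖u‖ := sorry

/-! ## Module MAI (file Mai.lean, imports Trx, Vio, Bas, One, Step, Wmo, Ali, Alb) -/

theorem main {ω : ℝ → ℝ} (hω : Mod ω) {η : ℝ} (hη : 0 < η) (hη1 : η < 1) :
    ∃ Θ : ℝ → ℝ, 0 ≤ Θ 0 ∧ (∀ s s', 0 ≤ s → s ≤ s' → Θ s ≤ Θ s') ∧
      Tendsto Θ (𝓝[>] 0) (𝓝 0) ∧ ∀ (A B : Set ℂ), IsCompact A → IsCompact B →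
      ∀ (f : ℂ → ℂ) (l : ℂ), Ac (A ∪ B) f l → (∀ z, ‖f z‖ ≤ 1) →
      (∀ z u, ‖f (z + u) - f z‖ ≤ ω ‖u‖) →
      (1 - η) * ‖l‖ ≤ (1 + η) * (al Θ A + al Θ B) := sorry

/-! ## Module END (file End.lean, imports Mai, Mma, Ali, Alb) -/

/-- **Continuous analytic capacity is subadditive.** -/
theorem alpha_union_le {A B : Set ℂ} (hA : IsCompact A) (hB : IsCompact B) :
    alpha (A ∪ B) ≤ alpha A + alpha B := sorry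
/-- compact sets of continuous analytic capacity zero can be removed -/
theorem alpha_remove {E K : Set ℂ} (hE : IsCompact E) (hK : IsCompact K) (h0 : alpha K = 0) :
    sSup {c : ℝ | ∃ L : Set ℂ, IsCompact L ∧ L ⊆ E \ K ∧ c = alpha L} = alpha E := sorry

end Pool.Agent.H352R4.CA
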